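import Pool.Agent.Helper93.LP.Defs

/-!
# LP block Tw: twisted weights, scaled weights, linearity (short)

* `WC_twist`: product of smooth functions. `LT_twist`: `e^{-bα} e^{αz} = e^{α(z-b)}`.
* `WC_scale`: `g(x) = w(x/L) e^{-x s}` is a weight with support in `[aL,bL]`; `LT_scale`: substitution `x = Lα`
  (`Measure.integral_comp_mul_left`): `LT g z = L LT w (L(z-s))`.
* `LT_ofReal_add`: `LT (u + i v) = LT u + i LT v` (integrable since continuous with compact support).
-/

open Complex Set MeasureTheory Filter Topology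
open Pool.Agent.Helper57.LH Pool.Agent.Helper57.PC Pool.Agent.Helper57.Zeta
open Pool.Agent.Helper69.GGM

namespace Pool.Agent.Helper93.LP

/-- `χ(α) e^{-bα}` -/
noncomputable def twist (χ : ℝ → ℂ) (b : ℂ) : ℝ → ℂ := fun α => χ α * Complex.exp (-(b * (α : ℂ)))

private theorem tw_exp (c : ℂ) :
    ContDiff ℝ (⊤ : ℕ∞) (fun α : ℝ => Complex.exp (-(c * (α : ℂ)))) :=
  ((contDiff_const.mul Complex.ofRealCLM.contDiff).neg).cexp

theorem WC_twist {χ : ℝ → ℂ} {a b : ℝ} (h : WC χ a b) (c : ℂ) : WC (twist χ c) a b := by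
  refine ⟨h.1.mul (tw_exp c), h.2.1, h.2.2.1, fun x hx => h.2.2.2 x ?_⟩
  intro h0
  exact hx (by unfold twist; rw [h0, zero_mul])

theorem LT_twist (χ : ℝ → ℂ) (b z : ℂ) : LT (twist χ b) z = LT χ (z - b) := by
  unfold LT twist
  congr 1
  funext α
  rw [mul_assoc, ← Complex.exp_add]
  congr 2
  ring

theorem WC_scale {w : ℝ → ℂ} {a b : ℝ} (h : WC w a b) {L : ℝ} (hL : 0 < L) (s : ℂ) :
    WC (fun x => w (x / L) * Complex.exp (-(s * (x : ℂ)))) (a * L) (b * L) := by
  refine ⟨(h.1.comp (contDiff_id.div_const L)).mul (tw_exp s), mul_pos h.2.1 hL,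
    mul_le_mul_of_nonneg_right h.2.2.1 hL.le, fun x hx => ?_⟩
  have h1 : w (x / L) ≠ 0 := by
    intro h0
    exact hx (by dsimp only; rw [h0, zero_mul])
  have h2 := h.2.2.2 _ h1
  exact ⟨(le_div_iff₀ hL).1 h2.1, (div_le_iff₀ hL).1 h2.2⟩

theorem LT_scale (w : ℝ → ℂ) {L : ℝ} (hL : 0 < L) (s z : ℂ) :
    LT (fun x => w (x / L) * Complex.exp (-(s * (x : ℂ)))) z = (L : ℂ) * LT w ((L : ℂ) * (z - s)) := by
  unfold LT
  have h1 := MeasureTheory.Measure.integral_comp_div
    (fun α : ℝ => w α * Complex.exp ((α : ℂ) * ((L : ℂ) * (z - s)))) L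
  rw [abs_of_pos hL, Complex.real_smul] at h1
  rw [← h1]
  congr 1
  funext x
  rw [mul_assoc, ← Complex.exp_add]
  congr 2
  have : (L : ℂ) ≠ 0 := by exact_mod_cast hL.ne'
  push_cast
  field_simp
  ring

theorem WC_integrable {w : ℝ → ℂ} {a b : ℝ} (h : WC w a b) (z : ℂ) :
    Integrable (fun α : ℝ => w α * Complex.exp ((α : ℂ) * z)) := by
  refine Continuous.integrable_of_hasCompactSupport ?_ ?_
  · exact h.1.continuous.mul (by fun_prop)
  · refine HasCompactSupport.intro (isCompact_Icc (a := a) (b := b)) fun x hx => ?_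
    have : w x = 0 := by
      by_contra h0
      exact hx (h.2.2.2 x h0)
    rw [this, zero_mul]

theorem LT_add {u v : ℝ → ℂ} {a b a' b' : ℝ} (hu : WC u a b) (hv : WC v a' b') (c z : ℂ) :
    LT (fun x => u x + c * v x) z = LT u z + c * LT v z := by
  unfold LT
  rw [← integral_const_mul, ← integral_add (WC_integrable hu z)
    ((WC_integrable hv z).const_mul c)]
  congr 1
  funext x
  ring

/-- real and imaginary parts of a weight are real weights -/
theorem WC_re {w : ℝ → ℂ} {a b : ℝ} (h : WC w a b) : WR (fun x => (w x).re) a b := by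
  refine ⟨Complex.reCLM.contDiff.comp h.1, h.2.1, h.2.2.1, fun x hx => h.2.2.2 x ?_⟩
  intro h0
  exact hx (by dsimp only; rw [h0]; simp)

theorem WC_im {w : ℝ → ℂ} {a b : ℝ} (h : WC w a b) : WR (fun x => (w x).im) a b := by
  refine ⟨Complex.imCLM.contDiff.comp h.1, h.2.1, h.2.2.1, fun x hx => h.2.2.2 x ?_⟩
  intro h0
  exact hx (by dsimp only; rw [h0]; simp)

end Pool.Agent.Helper93.LP
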