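import Pool.Agent.Helper93.LP.EFx
import Pool.Agent.Helper93.LP.Tw

/-!
# LP block EFw: the scaled explicit formula: `PP = - GG + o(1)` on `[δT,(1-δ)T]`

Proof. `L = log T`, `s₀ = 1/2+it`. Apply `explicit_w` to `g(x) = w(x/L) e^{-s₀ x}` (`WC_scale`), `LT g z = L LT w (L(z-s₀))`
(`LT_scale`), `L(ρ-s₀) = zz T t ρ`, `Σ' Λ(n) g(log n) = L PP T w t` (`n^{-s₀} = e^{-s₀ log n}`). Dividing by `L`:
`PP T w t + Σ_{ρ ∈ ZS} mx LT w (zz T t ρ) = LT w (L(1-s₀)) - Σ_{n≥1} LT w (L(-2n-s₀))`. So `‖PP + GG‖` is at most the sum of: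
* `‖LT w (L/2 - iLt)‖ ≤ C e^{bL/2}/(1+Lt)^k ≤ C T^{b/2}/(δT)^k → 0` (`LT_bound`, `k > b/2`);
* `Σ_n C e^{-aL(2n+5/2)} ≤ C' e^{-aL} → 0` (`LT_neg`);
* zeros outside `[0,T]`: `|x_ρ| ≤ L/2`, and `1 + L|γ-t| ≥ δ(T+|γ|)/2` (for `γ > T`: `γ-t ≥ γ-(1-δ)T ≥ δγ`; for `γ < 0`: `t-γ ≥ δT+|γ|`),
  so `Σ mx ‖LT w‖ ≤ C T^{b/2} Σ mx (2/(δ(T+|γ|)))^k ≤ C_δ T^{b/2} T^{2-k} Σ mx/(1+|γ|)^2 → 0` for `k > b/2+2`
  (`hd2_summable`).
-/

open Complex Set MeasureTheory Filter Topology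
open Pool.Agent.Helper57.LH Pool.Agent.Helper57.PC Pool.Agent.Helper57.Zeta
open Pool.Agent.Helper69.GGM

namespace Pool.Agent.Helper93.LP

namespace EFwAux

/-- archimedean part -/
private lemma arch_bound {w : ℝ → ℂ} {a : ℝ} (ha : 0 < a) {C : ℝ} (hC : 0 < C)
    (hneg : ∀ z : ℂ, z.re ≤ 0 → ‖LT w z‖ ≤ C * Real.exp (a * z.re)) {L : ℝ} (hL : 1 ≤ L) (t : ℝ) :
    ‖∑' n : ℕ, LT w ((L : ℂ) * (-(2 * ((n : ℂ) + 1)) - ((1 / 2 : ℂ) + (t : ℂ) * I)))‖ ≤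
      C * Real.exp (-(a * L)) * ∑' n : ℕ, Real.exp (-a) ^ n := by
  have hq0 : 0 ≤ Real.exp (-a) := (Real.exp_pos _).le
  have hq1 : Real.exp (-a) < 1 := by rw [Real.exp_lt_one_iff]; linarith
  have hs : Summable (fun n : ℕ => Real.exp (-a) ^ n) := summable_geometric_of_lt_one hq0 hq1
  have hs2 : HasSum (fun n : ℕ => C * Real.exp (-(a * L)) * Real.exp (-a) ^ n)
      (C * Real.exp (-(a * L)) * ∑' n : ℕ, Real.exp (-a) ^ n) := hs.hasSum.mul_left _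
  apply tsum_of_norm_bounded hs2
  intro n
  have hre : ((L : ℂ) * (-(2 * ((n : ℂ) + 1)) - ((1 / 2 : ℂ) + (t : ℂ) * I))).re =
      L * (-(2 * ((n : ℝ) + 1)) - 1 / 2) := by
    simp
  have hn0 : (0:ℝ) ≤ (n : ℝ) := Nat.cast_nonneg n
  have hneg2 : ((L : ℂ) * (-(2 * ((n : ℂ) + 1)) - ((1 / 2 : ℂ) + (t : ℂ) * I))).re ≤ 0 := by
    rw [hre]
    nlinarith
  refine (hneg _ hneg2).trans ?_
  rw [hre, ← Real.exp_nat_mul, mul_assoc, ← Real.exp_add]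
  have : a * (L * (-(2 * ((n : ℝ) + 1)) - 1 / 2)) ≤ -(a * L) + (n : ℝ) * -a := by
    nlinarith [mul_nonneg ha.le hn0, mul_nonneg ha.le (mul_nonneg hn0 (by linarith : (0:ℝ) ≤ L - 1)), mul_pos ha (by linarith : 0 < L)]
  have := Real.exp_le_exp.mpr this
  nlinarith [this]

/-- distance of `t` to the ordinates outside `[0,T]` -/
private lemma dist_bound {δ T t g : ℝ} (hδ : 0 < δ) (hT : 0 < T) (h1 : δ * T ≤ t) (h2 : t ≤ (1 - δ) * T)
    (hg : ¬ (0 ≤ g ∧ g ≤ T)) : δ / 2 * (T + |g|) ≤ |g - t| := by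
  by_cases h : g < 0
  · rw [abs_of_neg h, abs_sub_comm, abs_of_pos (by nlinarith [mul_pos hδ hT] : 0 < t - g)]
    nlinarith [mul_pos hδ hT]
  · push Not at h
    have h3 : T < g := by
      by_contra h4
      exact hg ⟨h, by linarith⟩
    have h5 : t < g := by nlinarith [mul_pos hδ hT]
    rw [abs_of_nonneg h, abs_of_pos (by linarith : 0 < g - t)]
    nlinarith [mul_pos hδ hT, mul_pos hδ (by linarith : 0 < g - T)]

/-- the explicit formula for the scaled weight -/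
private lemma scaled {w : ℝ → ℂ} {a b : ℝ} (h : WC w a b) {T : ℝ} (hL : 0 < Real.log T) (t : ℝ) :
    HasSum (fun ρ : ZS => (mx (ρ : ℂ) : ℂ) * LT w (zz T t ρ))
      (LT w (((Real.log T : ℝ) : ℂ) * (1 - ((1 / 2 : ℂ) + (t : ℂ) * I))) -
        (∑' n : ℕ, LT w (((Real.log T : ℝ) : ℂ) * (-(2 * ((n : ℂ) + 1)) - ((1 / 2 : ℂ) + (t : ℂ) * I)))) -
        PP T w t) := by
  set L := Real.log T with hLdef
  set s₀ : ℂ := (1 / 2 : ℂ) + (t : ℂ) * I with hs₀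
  have hLC : (L : ℂ) ≠ 0 := by exact_mod_cast hL.ne'
  have hex := explicit_w (WC_scale h hL s₀)
  have hlt : ∀ z : ℂ, LT (fun x : ℝ => w (x / L) * Complex.exp (-(s₀ * (x : ℂ)))) z = (L : ℂ) * LT w ((L : ℂ) * (z - s₀)) :=
    fun z => LT_scale w hL s₀ z
  have hex2 := hex.mul_left ((L : ℂ)⁻¹)
  have hz : ∀ ρ : ℂ, (L : ℂ) * (ρ - s₀) = zz T t ρ := by
    intro ρ
    apply Complex.ext
    · simp [zz, hs₀, hLdef]
    · simp [zz, hs₀, hLdef]
  have hfun : (fun ρ : ZS => (L : ℂ)⁻¹ * ((mx (ρ : ℂ) : ℂ) *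
      LT (fun x : ℝ => w (x / L) * Complex.exp (-(s₀ * (x : ℂ)))) (ρ : ℂ))) =
      fun ρ : ZS => (mx (ρ : ℂ) : ℂ) * LT w (zz T t ρ) := by
    funext ρ
    rw [hlt, hz]
    field_simp
  rw [hfun, mul_sub, mul_sub, hlt 1] at hex2
  have e1 : (L : ℂ)⁻¹ * ((L : ℂ) * LT w ((L : ℂ) * (1 - s₀))) = LT w ((L : ℂ) * (1 - s₀)) := by
    field_simp
  have e2 : (L : ℂ)⁻¹ * (∑' n : ℕ, LT (fun x : ℝ => w (x / L) * Complex.exp (-(s₀ * (x : ℂ)))) (-(2 * ((n : ℂ) + 1)))) =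
      ∑' n : ℕ, LT w ((L : ℂ) * (-(2 * ((n : ℂ) + 1)) - s₀)) := by
    rw [← tsum_mul_left]
    congr 1
    funext n
    rw [hlt]
    field_simp
  have e3 : (L : ℂ)⁻¹ * (∑' n : ℕ, ((ArithmeticFunction.vonMangoldt n : ℝ) : ℂ) *
      (w (Real.log n / L) * Complex.exp (-(s₀ * ((Real.log n : ℝ) : ℂ))))) = PP T w t := by
    unfold PP
    congr 1
    congr 1
    funext n
    rcases Nat.eq_zero_or_pos n with hn | hn
    · subst hn
      simp
    · have hn' : (n : ℂ) ≠ 0 := by exact_mod_cast hn.ne'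
      rw [Complex.cpow_def_of_ne_zero hn', ← Complex.natCast_log, ← hs₀]
      have : ((Real.log (n:ℝ) : ℝ) : ℂ) * -s₀ = -(s₀ * ((Real.log n : ℝ) : ℂ)) := by ring
      rw [this]
      ring
  rw [e1, e2, e3] at hex2
  exact hex2

/-- the zeros outside `[0,T]` -/
private lemma outer_bound {w : ℝ → ℂ} {b : ℝ} {k m : ℕ} (hk : k = m + 3) (hm : b / 2 ≤ m) (hb : 0 < b)
    {C : ℝ} (hC : 0 < C)
    (hbd : ∀ z : ℂ, ‖LT w z‖ ≤ C * Real.exp (b * |z.re|) / (1 + |z.im|) ^ k)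
    {δ T t : ℝ} (hδ : 0 < δ) (hT : 1 ≤ T) (hL : 1 ≤ Real.log T)
    (h1 : δ * T ≤ t) (h2 : t ≤ (1 - δ) * T) (ρ : ZS) (hρ : ρ ∉ ZT T) :
    ‖(mx (ρ : ℂ) : ℂ) * LT w (zz T t ρ)‖ ≤ C * (2 / δ) ^ k / T * (mx ρ / (1 + |(ρ:ℂ).im|) ^ 2) := by
  have hT0 : 0 < T := by linarith
  set L := Real.log T with hLdef
  have hr := zs_re ρ
  have hm0 := mx_nonneg (ρ:ℂ)
  set g := (ρ:ℂ).im with hg
  have hgn : ¬ (0 ≤ g ∧ g ≤ T) := fun h => hρ (mem_ZT.mpr h)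
  have hd := dist_bound hδ hT0 h1 h2 hgn
  have hre : (zz T t ρ).re = L * ((ρ:ℂ).re - 1 / 2) := by simp [zz, hLdef]
  have him : (zz T t ρ).im = L * (g - t) := by simp [zz, hLdef, hg]
  have hb1 := hbd (zz T t ρ)
  rw [hre, him] at hb1
  have ha1 : |L * ((ρ:ℂ).re - 1 / 2)| ≤ L / 2 := by
    rw [abs_mul, abs_of_pos (by linarith : 0 < L)]
    have : |(ρ:ℂ).re - 1 / 2| ≤ 1 / 2 := by
      rw [abs_le]
      constructor <;> linarith only [hr.1, hr.2]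
    nlinarith
  have hexp : Real.exp (b * |L * ((ρ:ℂ).re - 1 / 2)|) ≤ T ^ m := by
    have e : T ^ m = Real.exp (m * L) := by
      rw [Real.exp_nat_mul, hLdef, Real.exp_log hT0]
    rw [e]
    apply Real.exp_le_exp.mpr
    calc b * |L * ((ρ:ℂ).re - 1 / 2)| ≤ b * (L / 2) := by gcongr
      _ = b / 2 * L := by ring
      _ ≤ m * L := by gcongr
  have hg0 : 0 ≤ |g| := abs_nonneg g
  have hy : δ / 2 * (T + |g|) ≤ 1 + |L * (g - t)| := by
    rw [abs_mul, abs_of_pos (by linarith : 0 < L)]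
    have : |g - t| ≤ L * |g - t| := by
      nlinarith [abs_nonneg (g - t)]
    linarith
  have hpos : 0 < δ / 2 * (T + |g|) := by positivity
  have hden : (δ / 2) ^ k * (T ^ (m + 1) * (1 + |g|) ^ 2) ≤ (1 + |L * (g - t)|) ^ k := by
    calc (δ / 2) ^ k * (T ^ (m + 1) * (1 + |g|) ^ 2) ≤ (δ / 2) ^ k * ((T + |g|) ^ (m + 1) * (T + |g|) ^ 2) := by
          gcongr
          linarith
      _ = (δ / 2 * (T + |g|)) ^ k := by
          rw [mul_pow, hk]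
          ring
      _ ≤ _ := by gcongr
  have hden0 : 0 < (δ / 2) ^ k * (T ^ (m + 1) * (1 + |g|) ^ 2) := by positivity
  have hfin : C * Real.exp (b * |L * ((ρ:ℂ).re - 1 / 2)|) / (1 + |L * (g - t)|) ^ k ≤
      C * T ^ m / ((δ / 2) ^ k * (T ^ (m + 1) * (1 + |g|) ^ 2)) := by
    gcongr
  have heq : C * T ^ m / ((δ / 2) ^ k * (T ^ (m + 1) * (1 + |g|) ^ 2)) =
      C * (2 / δ) ^ k / T * (1 / (1 + |g|) ^ 2) := by
    have h0 : (1 + |g|) ≠ 0 := by positivity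
    rw [div_pow, div_pow, pow_succ T m]
    field_simp
  rw [norm_mul, Complex.norm_real, Real.norm_of_nonneg hm0]
  calc mx (ρ:ℂ) * ‖LT w (zz T t ρ)‖ ≤ mx (ρ:ℂ) * (C * (2 / δ) ^ k / T * (1 / (1 + |g|) ^ 2)) := by
        apply mul_le_mul_of_nonneg_left _ hm0
        linarith
    _ = _ := by ring

end EFwAux

open EFwAux in
theorem ef_scaled {w : ℝ → ℂ} {a b : ℝ} (h : WC w a b) {δ : ℝ} (hδ : 0 < δ) (hδ2 : δ < 1 / 2)
    {ε : ℝ} (hε : 0 < ε) :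
    ∀ᶠ T : ℝ in atTop, ∀ t : ℝ, δ * T ≤ t → t ≤ (1 - δ) * T → ‖PP T w t + GG T w t‖ ≤ ε := by
  classical
  have ha : 0 < a := h.2.1
  have hb : 0 < b := ha.trans_le h.2.2.1
  set m : ℕ := ⌈b / 2⌉₊ with hmdef
  have hm : b / 2 ≤ m := Nat.le_ceil _
  set k : ℕ := m + 3 with hk
  obtain ⟨C, hC, hbd⟩ := LT_bound h k
  obtain ⟨C2, hC2, hneg⟩ := LT_neg h
  set K : ℝ := ∑' ρ : ZS, mx ρ / (1 + |(ρ:ℂ).im|) ^ 2 with hK
  set K2 : ℝ := ∑' n : ℕ, Real.exp (-a) ^ n with hK2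
  -- limits
  have hl1 : Tendsto (fun T : ℝ => C / δ ^ k * T⁻¹ + C2 * Real.exp (-(a * Real.log T)) * K2 +
      C * (2 / δ) ^ k / T * K) atTop (𝓝 0) := by
    have t1 : Tendsto (fun T : ℝ => C / δ ^ k * T⁻¹) atTop (𝓝 0) := by
      simpa using tendsto_inv_atTop_zero.const_mul (C / δ ^ k)
    have t2 : Tendsto (fun T : ℝ => C2 * Real.exp (-(a * Real.log T)) * K2) atTop (𝓝 0) := by
      have : Tendsto (fun T : ℝ => Real.exp (-(a * Real.log T))) atTop (𝓝 0) := by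
        apply Real.tendsto_exp_neg_atTop_nhds_zero.comp
        exact Real.tendsto_log_atTop.const_mul_atTop ha
      simpa using (this.const_mul C2).mul_const K2
    have t3 : Tendsto (fun T : ℝ => C * (2 / δ) ^ k / T * K) atTop (𝓝 0) := by
      have : Tendsto (fun T : ℝ => C * (2 / δ) ^ k / T) atTop (𝓝 0) :=
        tendsto_const_nhds.div_atTop tendsto_id
      simpa using this.mul_const K
    simpa using (t1.add t2).add t3
  filter_upwards [hl1.eventually (gt_mem_nhds hε), eventually_ge_atTop 1,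
    Real.tendsto_log_atTop.eventually_ge_atTop 1] with T hTε hT1 hL1 t ht1 ht2
  have hT0 : 0 < T := by linarith
  have hL0 : 0 < Real.log T := by linarith
  -- the identity
  have hs := scaled h hL0 t
  have hfin : HasSum (fun ρ : ZS => if ρ ∈ ZT T then (mx (ρ : ℂ) : ℂ) * LT w (zz T t ρ) else 0)
      (GG T w t) := by
    have e : GG T w t = ∑ ρ ∈ ZT T, (mx (ρ : ℂ) : ℂ) * LT w (zz T t ρ) := by
      unfold GG ZT
      symm
      refine Finset.sum_subtype_of_mem (fun ρ : ℂ => (mx (ρ : ℂ) : ℂ) * LT w (zz T t ρ)) ?_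
      intro ρ hρ
      rw [mem_Zf] at hρ
      exact isNontrivialZero_iff.mp hρ.1
    rw [e]
    have e2 : ∑ ρ ∈ ZT T, (mx (ρ : ℂ) : ℂ) * LT w (zz T t ρ) =
        ∑ ρ ∈ ZT T, (if ρ ∈ ZT T then (mx (ρ : ℂ) : ℂ) * LT w (zz T t ρ) else 0) := by
      apply Finset.sum_congr rfl
      intro ρ hρ
      simp [hρ]
    rw [e2]
    apply hasSum_sum_of_ne_finset_zero
    intro ρ hρ
    simp [hρ]
  have hdiff := hs.sub hfin
  have hbdsum : HasSum (fun ρ : ZS => C * (2 / δ) ^ k / T * (mx ρ / (1 + |(ρ:ℂ).im|) ^ 2))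
      (C * (2 / δ) ^ k / T * K) := hd2_summable.hasSum.mul_left _
  have hout := hdiff.norm_le_of_bounded hbdsum (by
    intro ρ
    by_cases hρ : ρ ∈ ZT T
    · simp only [hρ, if_true, sub_self, norm_zero]
      have := mx_nonneg (ρ:ℂ)
      positivity
    · simp only [hρ, if_false, sub_zero]
      exact outer_bound hk hm hb hC hbd hδ hT1 hL1 ht1 ht2 ρ hρ)
  have harch := arch_bound ha hC2 hneg hL1 t (w := w)
  -- the pole
  have hpole : ‖LT w (((Real.log T : ℝ) : ℂ) * (1 - ((1 / 2 : ℂ) + (t : ℂ) * I)))‖ ≤ C / δ ^ k * T⁻¹ := by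
    refine (hbd _).trans ?_
    have hre : (((Real.log T : ℝ) : ℂ) * (1 - ((1 / 2 : ℂ) + (t : ℂ) * I))).re = Real.log T / 2 := by
      simp
      ring
    have him : (((Real.log T : ℝ) : ℂ) * (1 - ((1 / 2 : ℂ) + (t : ℂ) * I))).im = -(Real.log T * t) := by
      simp
    rw [hre, him, abs_neg, abs_of_pos (by linarith : 0 < Real.log T / 2)]
    have ht0 : 0 < t := lt_of_lt_of_le (mul_pos hδ hT0) ht1
    rw [abs_of_pos (mul_pos hL0 ht0)]
    have hexp : Real.exp (b * (Real.log T / 2)) ≤ T ^ m := by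
      have e : T ^ m = Real.exp (m * Real.log T) := by
        rw [Real.exp_nat_mul, Real.exp_log hT0]
      rw [e]
      apply Real.exp_le_exp.mpr
      calc b * (Real.log T / 2) = b / 2 * Real.log T := by ring
        _ ≤ m * Real.log T := by gcongr
    have hden : (δ * T) ^ k ≤ (1 + Real.log T * t) ^ k := by
      have : δ * T ≤ 1 + Real.log T * t := by nlinarith
      gcongr
    have hden0 : 0 < (δ * T) ^ k := by positivity
    calc C * Real.exp (b * (Real.log T / 2)) / (1 + Real.log T * t) ^ k ≤ C * T ^ m / (δ * T) ^ k := by gcongr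
      _ = C / δ ^ k * (1 / T ^ 3) := by
          rw [hk, mul_pow, pow_add T m 3]
          field_simp
      _ ≤ C / δ ^ k * T⁻¹ := by
          have : 1 / T ^ 3 ≤ T⁻¹ := by
            rw [← one_div]
            apply one_div_le_one_div_of_le hT0
            nlinarith [mul_pos hT0 hT0, mul_nonneg (mul_pos hT0 hT0).le (by linarith : (0:ℝ) ≤ T - 1), mul_nonneg hT0.le (by linarith : (0:ℝ) ≤ T - 1)]
          have hc : 0 ≤ C / δ ^ k := by positivity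
          exact mul_le_mul_of_nonneg_left this hc
  -- conclusion
  set A1 := LT w (((Real.log T : ℝ) : ℂ) * (1 - ((1 / 2 : ℂ) + (t : ℂ) * I))) with hA1
  set A2 := ∑' n : ℕ, LT w (((Real.log T : ℝ) : ℂ) * (-(2 * ((n : ℂ) + 1)) - ((1 / 2 : ℂ) + (t : ℂ) * I))) with hA2
  have e : PP T w t + GG T w t = A1 - A2 - (A1 - A2 - PP T w t - GG T w t) := by ring
  rw [e]
  calc ‖A1 - A2 - (A1 - A2 - PP T w t - GG T w t)‖ ≤ ‖A1 - A2‖ + ‖A1 - A2 - PP T w t - GG T w t‖ := norm_sub_le _ _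
    _ ≤ ‖A1‖ + ‖A2‖ + ‖A1 - A2 - PP T w t - GG T w t‖ := by gcongr; exact norm_sub_le _ _
    _ ≤ C / δ ^ k * T⁻¹ + C2 * Real.exp (-(a * Real.log T)) * K2 + C * (2 / δ) ^ k / T * K := by
        gcongr
    _ ≤ ε := hTε.le

end Pool.Agent.Helper93.LP
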