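import Pool.Agent.Helper93.LP.InvA
import Pool.Agent.Helper69.GGM.HD1

/-!
# LP block EFd: the archimedean part of the explicit formula

Proof. For `s = 2+iu`, `hd1_logDeriv` (GGM/HD1.lean) gives
`logDeriv xi s - logDeriv ζ s = 1/s + 1/(s-1) - (log π)/2 + digamma (s/2)/2`, and `digamma_hasSum` (M/B.lean 192,
`Re (s/2) = 1 > 1/2`): `digamma (s/2) + γ = Σ_{n≥0} (1/(n+1) - 1/(n+s/2))`, whose `n = 0` term is `1 - 2/s`; the other terms are
`1/(n+1) - 2/(2n+s)`. So `logDeriv xi s - logDeriv ζ s = 1/(s-1) + const + (1/2) Σ_{n≥1} (1/(n+1) - 2/(2n+s))`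
(`1/s` cancels). Multiply by `LT g s` and integrate: constants give `const * 2π g(0) = 0` (`inv_point`, `y = 0`), `1/(s-1)`
gives `2π LT g 1`, `1/(s+2n)` gives `2π LT g (-2n)` (`inv_pole`). Interchange: `|1/(n+1) - 2/(2n+s)| ≤ 4 (1+|u|)/(n+1)^2`
(`hd1_summable`, `line_integrable`).
-/

open Complex Set MeasureTheory Filter Topology
open Pool.Agent.Helper57.LH Pool.Agent.Helper57.PC Pool.Agent.Helper57.Zeta
open Pool.Agent.Helper69.GGM

namespace Pool.Agent.Helper93.LP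

namespace EFd

/-- the constant -/
noncomputable def cc : ℂ := -(Real.log Real.pi : ℂ) / 2 - (Real.eulerMascheroniConstant : ℂ) / 2 + 1 / 2

/-- the terms -/
noncomputable def tm (u : ℝ) : ℕ → ℂ
  | 0 => 1 / ((2 : ℂ) + (u : ℂ) * I - 1) + cc
  | (n + 1) => (1 / 2) * (1 / ((n : ℂ) + 2)) - 1 / ((2 : ℂ) + (u : ℂ) * I - (-(2 * ((n : ℂ) + 1))))

lemma den_ne (u : ℝ) (n : ℕ) : (2 : ℂ) + (u : ℂ) * I - (-(2 * ((n : ℂ) + 1))) ≠ 0 := by
  intro h
  have := congrArg Complex.re h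
  simp at this
  have hn : (0:ℝ) ≤ n := Nat.cast_nonneg n
  linarith

lemma hasSum_tm (u : ℝ) : HasSum (tm u)
    (logDeriv xi ((2 : ℂ) + (u : ℂ) * I) - logDeriv riemannZeta ((2 : ℂ) + (u : ℂ) * I)) := by
  set s : ℂ := (2 : ℂ) + (u : ℂ) * I with hs
  have hre : s.re = 2 := by simp [hs]
  have hs0 : s ≠ 0 := by intro h; rw [h] at hre; norm_num at hre
  have hs1 : s ≠ 1 := by intro h; rw [h] at hre; norm_num at hre
  have hz : riemannZeta s ≠ 0 := riemannZeta_ne_zero_of_one_le_re (by rw [hre]; norm_num)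
  have h1 := hd1_logDeriv (s := s) (by rw [hre]; norm_num) hs1 hz
  have hre2 : (s / 2).re = 1 := by
    rw [show s / 2 = ((1/2 : ℝ) : ℂ) * s by push_cast; ring, Complex.re_ofReal_mul, hre]; norm_num
  have h2 := digamma_hasSum (s := s / 2) (by rw [hre2]; norm_num)
  have h3 := (hasSum_nat_add_iff' 1).2 h2
  simp only [Finset.range_one, Finset.sum_singleton, Nat.cast_zero, zero_add, Nat.cast_add, Nat.cast_one] at h3
  have h4 := h3.mul_left (1 / 2 : ℂ)
  refine (hasSum_nat_add_iff' 1).1 ?_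
  rw [Finset.sum_range_one, h1]
  have e : ∀ n : ℕ, tm u (n + 1) = 1 / 2 * (1 / ((n:ℂ) + 1 + 1) - 1 / ((n:ℂ) + 1 + s / 2)) := by
    intro n
    have hd := den_ne u n
    rw [← hs] at hd
    have hd2 : (n:ℂ) + 1 + s / 2 ≠ 0 := by
      intro h0
      apply hd
      linear_combination 2 * h0
    have hn2 : (n:ℂ) + 2 ≠ 0 := by exact_mod_cast (by positivity : (n + 2 : ℕ) ≠ 0)
    have e1 : 1 / ((n:ℂ) + 1 + s / 2) = 2 * (1 / (s - (-(2 * ((n : ℂ) + 1))))) := by
      field_simp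
      ring
    rw [e1]
    show (1 / 2) * (1 / ((n : ℂ) + 2)) - 1 / (s - (-(2 * ((n : ℂ) + 1)))) = _
    rw [show (n:ℂ) + 1 + 1 = n + 2 by ring]
    ring
  have e0 : tm u 0 = 1 / (s - 1) + cc := rfl
  rw [show (fun n : ℕ => tm u (n + 1)) = fun n : ℕ => 1 / 2 * (1 / ((n:ℂ) + 1 + 1) - 1 / ((n:ℂ) + 1 + s / 2)) from funext e, e0]
  have hval : 1 / s + (1 / (s - 1) + (-(Real.log Real.pi : ℂ) / 2 + (Complex.digamma (s / 2) / 2 + logDeriv riemannZeta s))) -
        logDeriv riemannZeta s - (1 / (s - 1) + cc) =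
      1 / 2 * ((s / 2).digamma + (Real.eulerMascheroniConstant : ℂ) - (1 / 1 - 1 / (s / 2))) := by
    simp only [cc]
    field_simp
    ring
  rw [hval]
  exact h4

lemma norm_tm (u : ℝ) (n : ℕ) : ‖tm u (n + 1)‖ ≤ (1 + |u|) * (1 / ((n:ℝ) + 1) ^ 2) := by
  have hd := den_ne u n
  have hn : (0:ℝ) ≤ n := Nat.cast_nonneg n
  have hn2 : (n:ℂ) + 2 ≠ 0 := by exact_mod_cast (by positivity : (n + 2 : ℕ) ≠ 0)
  have e : tm u (n + 1) = ((u : ℂ) * I) / (2 * ((n : ℂ) + 2) * ((2 : ℂ) + (u : ℂ) * I - (-(2 * ((n : ℂ) + 1))))) := by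
    show (1 / 2) * (1 / ((n : ℂ) + 2)) - 1 / ((2 : ℂ) + (u : ℂ) * I - (-(2 * ((n : ℂ) + 1)))) = _
    field_simp
    ring
  have h1 : (n:ℝ) + 1 ≤ ‖(2 : ℂ) + (u : ℂ) * I - (-(2 * ((n : ℂ) + 1)))‖ := by
    have h := Complex.re_le_norm ((2 : ℂ) + (u : ℂ) * I - (-(2 * ((n : ℂ) + 1))))
    have h' : ((2 : ℂ) + (u : ℂ) * I - (-(2 * ((n : ℂ) + 1)))).re = 2 + 2 * (n + 1) := by simp
    rw [h'] at h
    linarith
  have h2 : (n:ℝ) + 1 ≤ ‖2 * ((n : ℂ) + 2)‖ := by
    have h := Complex.re_le_norm (2 * ((n : ℂ) + 2))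
    have h' : (2 * ((n : ℂ) + 2)).re = 2 * (n + 2) := by simp
    rw [h'] at h
    linarith
  rw [e, norm_div, norm_mul ((u:ℂ)) I, Complex.norm_I, mul_one, Complex.norm_real, Real.norm_eq_abs, norm_mul,
    div_eq_mul_inv]
  apply mul_le_mul _ _ (by positivity) (by positivity)
  · linarith
  · rw [one_div]
    apply inv_anti₀ (by positivity)
    rw [_root_.sq]
    exact mul_le_mul h2 h1 (by positivity) (norm_nonneg _)

lemma norm_tm0 (u : ℝ) : ‖tm u 0‖ ≤ 1 + ‖cc‖ := by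
  show ‖1 / ((2 : ℂ) + (u : ℂ) * I - 1) + cc‖ ≤ _
  refine (norm_add_le _ _).trans (add_le_add ?_ le_rfl)
  rw [norm_div, norm_one]
  have h : (1:ℝ) ≤ ‖(2 : ℂ) + (u : ℂ) * I - 1‖ := by
    have h := Complex.re_le_norm ((2 : ℂ) + (u : ℂ) * I - 1)
    have h' : ((2 : ℂ) + (u : ℂ) * I - 1).re = 1 := by simp; norm_num
    rw [h'] at h
    exact h
  exact div_le_one_of_le₀ h (norm_nonneg _)

lemma cont_tm (n : ℕ) : Continuous (fun u : ℝ => tm u n) := by
  cases n with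
  | zero =>
    show Continuous fun u : ℝ => 1 / ((2 : ℂ) + (u : ℂ) * I - 1) + cc
    refine Continuous.add (Continuous.div continuous_const (by fun_prop) ?_) continuous_const
    intro u h
    have := congrArg Complex.re h
    simp at this
    norm_num at this
  | succ n =>
    show Continuous fun u : ℝ => (1 / 2) * (1 / ((n : ℂ) + 2)) - 1 / ((2 : ℂ) + (u : ℂ) * I - (-(2 * ((n : ℂ) + 1))))
    exact Continuous.sub continuous_const (Continuous.div continuous_const (by fun_prop) fun u => den_ne u n)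

end EFd

open EFd in
theorem ef_arch {g : ℝ → ℂ} {a b : ℝ} (h : WC g a b) :
    ∫ u : ℝ, LT g ((2 : ℂ) + (u : ℂ) * I) *
        (logDeriv xi ((2 : ℂ) + (u : ℂ) * I) - logDeriv riemannZeta ((2 : ℂ) + (u : ℂ) * I)) =
      2 * Real.pi * (LT g 1 - ∑' n : ℕ, LT g (-(2 * ((n : ℂ) + 1)))) := by
  have hAc : Continuous (fun u : ℝ => LT g ((2 : ℂ) + (u : ℂ) * I)) :=
    (LT_differentiable h).continuous.comp (by fun_prop)
  have hA1 := line_integrable h 1
  have hA0 : Integrable (fun u : ℝ => LT g ((2 : ℂ) + (u : ℂ) * I)) := by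
    have h0 := line_integrable h 0
    simp only [pow_zero, mul_one] at h0
    exact (integrable_norm_iff hAc.aestronglyMeasurable).1 h0
  have hg0 : g 0 = 0 := by
    by_contra h0
    have h1 := (h.2.2.2 0 h0).1
    linarith [h.2.1]
  have hint0 : ∫ u : ℝ, LT g ((2 : ℂ) + (u : ℂ) * I) = 0 := by
    have h1 := inv_point h 0
    simpa [hg0] using h1
  -- the summable bounds
  set bd : ℕ → ℝ → ℝ := fun n u => match n with
    | 0 => (1 + ‖cc‖) * ‖LT g ((2 : ℂ) + (u : ℂ) * I)‖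
    | (n + 1) => (‖LT g ((2 : ℂ) + (u : ℂ) * I)‖ * (1 + |u|)) * (1 / ((n:ℝ) + 1) ^ 2) with hbd
  have hbs : ∀ u, Summable (fun n => bd n u) := by
    intro u
    refine (summable_nat_add_iff 1).1 ?_
    exact hd1_summable.mul_left _
  have hbt : ∀ u, ∑' n, bd n u = (1 + ‖cc‖) * ‖LT g ((2 : ℂ) + (u : ℂ) * I)‖ +
      (‖LT g ((2 : ℂ) + (u : ℂ) * I)‖ * (1 + |u|)) * ∑' n : ℕ, (1 / ((n:ℝ) + 1) ^ 2) := by
    intro u
    rw [(hbs u).tsum_eq_zero_add, ← tsum_mul_left]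
  have hbi : Integrable (fun u => ∑' n, bd n u) := by
    simp_rw [hbt]
    refine (hA0.norm.const_mul _).add (Integrable.mul_const ?_ _)
    simpa using hA1
  have hS := hasSum_integral_of_dominated_convergence (μ := (volume : Measure ℝ))
    (F := fun n u => LT g ((2 : ℂ) + (u : ℂ) * I) * tm u n)
    (f := fun u => LT g ((2 : ℂ) + (u : ℂ) * I) *
        (logDeriv xi ((2 : ℂ) + (u : ℂ) * I) - logDeriv riemannZeta ((2 : ℂ) + (u : ℂ) * I)))
    bd (fun n => (hAc.mul (cont_tm n)).aestronglyMeasurable)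
    (fun n => Eventually.of_forall fun u => by
      cases n with
      | zero =>
        show ‖_‖ ≤ (1 + ‖cc‖) * ‖LT g ((2 : ℂ) + (u : ℂ) * I)‖
        rw [norm_mul, mul_comm]
        exact mul_le_mul_of_nonneg_right (norm_tm0 u) (norm_nonneg _)
      | succ n =>
        show ‖_‖ ≤ (‖LT g ((2 : ℂ) + (u : ℂ) * I)‖ * (1 + |u|)) * (1 / ((n:ℝ) + 1) ^ 2)
        rw [norm_mul, mul_assoc]
        exact mul_le_mul_of_nonneg_left (norm_tm u n) (norm_nonneg _))
    (Eventually.of_forall hbs) hbi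
    (Eventually.of_forall fun u => (hasSum_tm u).mul_left _)
  have hI0 : ∫ u : ℝ, LT g ((2 : ℂ) + (u : ℂ) * I) * tm u 0 = 2 * Real.pi * LT g 1 := by
    have h1 := inv_pole h (p := 1) (by simp)
    have e : ∀ u : ℝ, LT g ((2 : ℂ) + (u : ℂ) * I) * tm u 0 =
        LT g ((2 : ℂ) + (u : ℂ) * I) / ((2 : ℂ) + (u : ℂ) * I - 1) + LT g ((2 : ℂ) + (u : ℂ) * I) * cc := by
      intro u
      show LT g ((2 : ℂ) + (u : ℂ) * I) * (1 / ((2 : ℂ) + (u : ℂ) * I - 1) + cc) = _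
      ring
    simp_rw [e]
    rw [integral_add _ (hA0.mul_const _), integral_mul_const, hint0, h1]
    · ring
    · refine hA0.norm.mono' ?_ (Eventually.of_forall fun u => ?_)
      · refine (Continuous.div hAc (by fun_prop) ?_).aestronglyMeasurable
        intro u h
        have := congrArg Complex.re h
        simp at this
        norm_num at this
      · rw [norm_div]
        apply div_le_self (norm_nonneg _)
        have h := Complex.re_le_norm ((2 : ℂ) + (u : ℂ) * I - 1)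
        have h' : ((2 : ℂ) + (u : ℂ) * I - 1).re = 1 := by simp; norm_num
        rw [h'] at h
        exact h
  have hIn : ∀ n : ℕ, ∫ u : ℝ, LT g ((2 : ℂ) + (u : ℂ) * I) * tm u (n + 1) =
      -(2 * Real.pi * LT g (-(2 * ((n : ℂ) + 1)))) := by
    intro n
    have hre : (-(2 * ((n : ℂ) + 1))).re < 2 := by
      simp
      have hn : (0:ℝ) ≤ n := Nat.cast_nonneg n
      linarith
    have h1 := inv_pole h (p := -(2 * ((n : ℂ) + 1))) hre
    have e : ∀ u : ℝ, LT g ((2 : ℂ) + (u : ℂ) * I) * tm u (n + 1) =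
        LT g ((2 : ℂ) + (u : ℂ) * I) * ((1 / 2) * (1 / ((n : ℂ) + 2))) -
        LT g ((2 : ℂ) + (u : ℂ) * I) / ((2 : ℂ) + (u : ℂ) * I - (-(2 * ((n : ℂ) + 1)))) := by
      intro u
      show LT g ((2 : ℂ) + (u : ℂ) * I) * ((1 / 2) * (1 / ((n : ℂ) + 2)) - 1 / ((2 : ℂ) + (u : ℂ) * I - (-(2 * ((n : ℂ) + 1))))) = _
      ring
    simp_rw [e]
    rw [integral_sub (hA0.mul_const _) _, integral_mul_const, hint0, h1]
    · ring
    · refine hA0.norm.mono' ?_ (Eventually.of_forall fun u => ?_)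
      · exact (Continuous.div hAc (by fun_prop) fun u => den_ne u n).aestronglyMeasurable
      · rw [norm_div]
        apply div_le_self (norm_nonneg _)
        have h := Complex.re_le_norm ((2 : ℂ) + (u : ℂ) * I - (-(2 * ((n : ℂ) + 1))))
        have h' : ((2 : ℂ) + (u : ℂ) * I - (-(2 * ((n : ℂ) + 1)))).re = 2 + 2 * (n + 1) := by simp
        rw [h'] at h
        have hn : (0:ℝ) ≤ n := Nat.cast_nonneg n
        linarith
  rw [← hS.tsum_eq, hS.summable.tsum_eq_zero_add, hI0]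
  simp_rw [hIn]
  rw [tsum_neg, tsum_mul_left]
  ring

end Pool.Agent.Helper93.LP
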