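import Pool.Agent.Helper93.LP.InvA
import Pool.Agent.Helper69.GGM.HD2

/-!
# LP block EFz: the zero side of the explicit formula

Proof. Put `s = 2+iu`. By `pf_tendsto` (M/Z.lean 3379; `xi s ≠ 0` by `xi_ne_zero_of_one_le_re`) at `s` and at `2`,
`logDeriv xi s - logDeriv xi 2 = Σ_ρ mx ρ (1/(s-ρ) - 1/(2-ρ))` over `ZS`, absolutely convergent:
`|1/(s-ρ) - 1/(2-ρ)| = |u|/(|s-ρ||2-ρ|) ≤ 4 (1+|u|)^2/(1+|γ|)^2` (`|s-ρ| ≥ 1`, `1+|γ| ≤ (1+|u|)(1+|γ-u|)`,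
`|s-ρ| ≥ (1+|γ-u|)/2`, `|2-ρ| ≥ (1+|γ|)/2`), `hd2_summable` (GGM/HD2.lean). Interchange sum and integral
(`line_integrable` with `k = 2`); `∫ LT g (s) du = 2π g(0) = 0` (`inv_point`, `y = 0`; `g 0 = 0` since `0 < a`), so the
constants `1/(2-ρ)` and `logDeriv xi 2` drop out, and `∫ LT g (s)/(s-ρ) du = 2π LT g ρ` by `inv_pole` (`Re ρ < 1`, `zs_re`).
-/

open Complex Set MeasureTheory Filter Topology
open Pool.Agent.Helper57.LH Pool.Agent.Helper57.PC Pool.Agent.Helper57.Zeta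
open Pool.Agent.Helper69.GGM

namespace Pool.Agent.Helper93.LP

private lemma efz_term (u : ℝ) (ρ : ZS) :
    ‖1 / ((2 : ℂ) + (u : ℂ) * I - (ρ : ℂ)) - 1 / (2 - (ρ : ℂ))‖ ≤
      4 * (1 + |u|) ^ 2 * (1 / (1 + |(ρ:ℂ).im|) ^ 2) := by
  have hr := zs_re ρ
  set z : ℂ := (ρ : ℂ) with hz
  have h0 := abs_nonneg z.im
  have hu := abs_nonneg u
  have e1 : 1 ≤ ‖(2 : ℂ) + (u : ℂ) * I - z‖ := by
    have : ((2 : ℂ) + (u : ℂ) * I - z).re = 2 - z.re := by simp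
    have h1 := Complex.abs_re_le_norm ((2 : ℂ) + (u : ℂ) * I - z)
    rw [this, abs_of_pos (by linarith)] at h1
    linarith
  have e2 : |u - z.im| ≤ ‖(2 : ℂ) + (u : ℂ) * I - z‖ := by
    have : ((2 : ℂ) + (u : ℂ) * I - z).im = u - z.im := by simp
    have h1 := Complex.abs_im_le_norm ((2 : ℂ) + (u : ℂ) * I - z)
    rwa [this] at h1
  have e3 : 1 ≤ ‖(2 : ℂ) - z‖ := by
    have : ((2 : ℂ) - z).re = 2 - z.re := by simp
    have h1 := Complex.abs_re_le_norm ((2 : ℂ) - z)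
    rw [this, abs_of_pos (by linarith)] at h1
    linarith
  have e4 : |z.im| ≤ ‖(2 : ℂ) - z‖ := by
    have : ((2 : ℂ) - z).im = - z.im := by simp
    have h1 := Complex.abs_im_le_norm ((2 : ℂ) - z)
    rwa [this, abs_neg] at h1
  have n1 : (1 + |z.im|) / (2 * (1 + |u|)) ≤ ‖(2 : ℂ) + (u : ℂ) * I - z‖ := by
    rw [div_le_iff₀ (by positivity)]
    have h1 : |z.im| ≤ |u| + |u - z.im| := by
      have := abs_sub_abs_le_abs_sub z.im u
      rw [abs_sub_comm] at this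
      linarith
    nlinarith [mul_nonneg hu (sub_nonneg.2 e1), mul_nonneg hu (abs_nonneg (u - z.im))]
  have n2 : (1 + |z.im|) / 2 ≤ ‖(2 : ℂ) - z‖ := by linarith
  have z1 : (2 : ℂ) + (u : ℂ) * I - z ≠ 0 := by
    rw [← norm_pos_iff]
    linarith
  have z2 : (2 : ℂ) - z ≠ 0 := by
    rw [← norm_pos_iff]
    linarith
  have e5 : 1 / ((2 : ℂ) + (u : ℂ) * I - z) - 1 / (2 - z) =
      -((u : ℂ) * I) / (((2 : ℂ) + (u : ℂ) * I - z) * (2 - z)) := by
    field_simp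
    ring
  rw [e5, norm_div, norm_neg, norm_mul, norm_mul, Complex.norm_I, mul_one, Complex.norm_real,
    Real.norm_eq_abs]
  calc |u| / (‖(2 : ℂ) + (u : ℂ) * I - z‖ * ‖(2 : ℂ) - z‖)
      ≤ (1 + |u|) / ((1 + |z.im|) / (2 * (1 + |u|)) * ((1 + |z.im|) / 2)) := by
        apply div_le_div₀ (by positivity) (by linarith) (by positivity)
        exact mul_le_mul n1 n2 (by positivity) (by positivity)
    _ = _ := by
        field_simp
        ring

private lemma efz_norm (u : ℝ) (ρ : ZS) :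
    ‖(mx (ρ : ℂ) : ℂ) * (1 / ((2 : ℂ) + (u : ℂ) * I - (ρ : ℂ)) - 1 / (2 - (ρ : ℂ)))‖ ≤
      4 * (1 + |u|) ^ 2 * (mx (ρ : ℂ) / (1 + |(ρ:ℂ).im|) ^ 2) := by
  have hm := mx_nonneg (ρ : ℂ)
  rw [norm_mul, Complex.norm_real, Real.norm_of_nonneg hm]
  calc mx (ρ : ℂ) * ‖1 / ((2 : ℂ) + (u : ℂ) * I - (ρ : ℂ)) - 1 / (2 - (ρ : ℂ))‖
      ≤ mx (ρ : ℂ) * (4 * (1 + |u|) ^ 2 * (1 / (1 + |(ρ:ℂ).im|) ^ 2)) := by
        gcongr
        exact efz_term u ρ
    _ = _ := by ring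

private lemma efz_hasSum (u : ℝ) :
    HasSum (fun ρ : ZS => (mx (ρ : ℂ) : ℂ) * (1 / ((2 : ℂ) + (u : ℂ) * I - (ρ : ℂ)) - 1 / (2 - (ρ : ℂ))))
      (logDeriv xi ((2 : ℂ) + (u : ℂ) * I) - logDeriv xi 2) := by
  classical
  have hsum : Summable (fun ρ : ZS => (mx (ρ : ℂ) : ℂ) *
      (1 / ((2 : ℂ) + (u : ℂ) * I - (ρ : ℂ)) - 1 / (2 - (ρ : ℂ)))) :=
    Summable.of_norm_bounded (hd2_summable.mul_left (4 * (1 + |u|) ^ 2)) (efz_norm u)
  have h1 := hsum.hasSum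
  have hmono : Monotone (fun R : ℝ => (ZR R).subtype (fun ρ => xi ρ = 0)) := by
    intro R R' h ρ hρ
    rw [Finset.mem_subtype, mem_ZR] at hρ ⊢
    exact ⟨hρ.1, hρ.2.trans h⟩
  have htop : Tendsto (fun R : ℝ => (ZR R).subtype (fun ρ => xi ρ = 0)) atTop atTop := by
    refine tendsto_atTop_finset_of_monotone hmono fun ρ => ⟨‖(ρ : ℂ) - 1 / 2‖, ?_⟩
    rw [Finset.mem_subtype, mem_ZR]
    exact ⟨ρ.2, le_rfl⟩
  have h2 := h1.comp htop
  have hxs : xi ((2 : ℂ) + (u : ℂ) * I) ≠ 0 := xi_ne_zero_of_one_le_re (by simp)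
  have hx2 : xi 2 ≠ 0 := xi_ne_zero_of_one_le_re (by norm_num)
  have h3 := (pf_tendsto hxs).sub (pf_tendsto hx2)
  have h4 : Tendsto (fun R : ℝ => ∑ ρ ∈ (ZR R).subtype (fun ρ => xi ρ = 0), (mx (ρ : ℂ) : ℂ) *
      (1 / ((2 : ℂ) + (u : ℂ) * I - (ρ : ℂ)) - 1 / (2 - (ρ : ℂ)))) atTop
      (𝓝 (logDeriv xi ((2 : ℂ) + (u : ℂ) * I) - logDeriv xi 2)) := by
    refine h3.congr fun R => ?_
    rw [← Finset.sum_sub_distrib, Finset.sum_subtype_of_mem (p := fun ρ => xi ρ = 0)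
      (f := fun ρ : ℂ => (mx ρ : ℂ) * (1 / ((2 : ℂ) + (u : ℂ) * I - ρ) - 1 / (2 - ρ)))]
    · refine Finset.sum_congr rfl fun ρ _ => ?_
      ring
    · intro ρ hρ
      exact (mem_ZR.1 hρ).1
  have h5 := tendsto_nhds_unique h2 h4
  rw [h5] at h1
  exact h1

private lemma efz_cont : Continuous (fun u : ℝ => logDeriv xi ((2 : ℂ) + (u : ℂ) * I)) := by
  have hd : Continuous (deriv xi) := (differentiable_xi.contDiff (n := 2)).continuous_deriv (by norm_num)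
  have : (fun u : ℝ => logDeriv xi ((2 : ℂ) + (u : ℂ) * I)) =
      fun u : ℝ => deriv xi ((2 : ℂ) + (u : ℂ) * I) / xi ((2 : ℂ) + (u : ℂ) * I) := rfl
  rw [this]
  refine Continuous.div (hd.comp (by fun_prop)) (differentiable_xi.continuous.comp (by fun_prop))
    fun u => xi_ne_zero_of_one_le_re (by simp)

theorem ef_zeros {g : ℝ → ℂ} {a b : ℝ} (h : WC g a b) :
    Integrable (fun u : ℝ => LT g ((2 : ℂ) + (u : ℂ) * I) * logDeriv xi ((2 : ℂ) + (u : ℂ) * I)) ∧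
    HasSum (fun ρ : ZS => (mx (ρ : ℂ) : ℂ) * LT g (ρ : ℂ))
      ((2 * (Real.pi : ℂ))⁻¹ * ∫ u : ℝ, LT g ((2 : ℂ) + (u : ℂ) * I) * logDeriv xi ((2 : ℂ) + (u : ℂ) * I)) := by
  set w : ℝ → ℂ := fun u => LT g ((2 : ℂ) + (u : ℂ) * I) with hw
  have hwc : Continuous w := (LT_differentiable h).continuous.comp (by fun_prop)
  have hw2 : Integrable (fun u : ℝ => ‖w u‖ * (1 + |u|) ^ 2) := line_integrable h 2
  have hw0 : Integrable w := by
    refine hw2.mono' hwc.aestronglyMeasurable (Eventually.of_forall fun u => ?_)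
    have h1 : 1 ≤ (1 + |u|) ^ 2 := by
      have := abs_nonneg u
      nlinarith
    have := norm_nonneg (w u)
    nlinarith
  have hg0 : g 0 = 0 := by
    by_contra hne
    have h1 := (h.2.2.2 0 hne).1
    exact absurd h.2.1 (not_lt.2 h1)
  have hwint : ∫ u : ℝ, w u = 0 := by
    have h1 := inv_point h 0
    simp only [Complex.ofReal_zero, mul_zero, neg_zero, Complex.exp_zero, mul_one, hg0] at h1
    exact h1
  set F : ZS → ℝ → ℂ := fun ρ u => w u * ((mx (ρ : ℂ) : ℂ) *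
    (1 / ((2 : ℂ) + (u : ℂ) * I - (ρ : ℂ)) - 1 / (2 - (ρ : ℂ)))) with hF
  have hFb : ∀ ρ u, ‖F ρ u‖ ≤ 4 * (mx (ρ : ℂ) / (1 + |(ρ:ℂ).im|) ^ 2) * (‖w u‖ * (1 + |u|) ^ 2) := by
    intro ρ u
    rw [hF]
    simp only
    rw [norm_mul]
    have := mul_le_mul_of_nonneg_left (efz_norm u ρ) (norm_nonneg (w u))
    linarith
  have hden : ∀ (ρ : ZS) (u : ℝ), (2 : ℂ) + (u : ℂ) * I - (ρ : ℂ) ≠ 0 := by
    intro ρ u h0
    have hr := zs_re ρ
    have := congrArg Complex.re h0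
    simp at this
    linarith
  have hFc : ∀ ρ, Continuous (F ρ) := by
    intro ρ
    refine hwc.mul (continuous_const.mul (Continuous.sub ?_ continuous_const))
    exact continuous_const.div (by fun_prop) (hden ρ)
  have hFi : ∀ ρ, Integrable (F ρ) := fun ρ =>
    (hw2.const_mul (4 * (mx (ρ : ℂ) / (1 + |(ρ:ℂ).im|) ^ 2))).mono' (hFc ρ).aestronglyMeasurable
      (Eventually.of_forall (hFb ρ))
  have hFs : Summable (fun ρ => ∫ u, ‖F ρ u‖) := by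
    refine Summable.of_nonneg_of_le (fun ρ => integral_nonneg fun u => norm_nonneg _) (fun ρ => ?_)
      ((hd2_summable.mul_left 4).mul_right (∫ u, ‖w u‖ * (1 + |u|) ^ 2))
    rw [← integral_const_mul]
    exact integral_mono (hFi ρ).norm (hw2.const_mul _) (hFb ρ)
  have hmain := hasSum_integral_of_summable_integral_norm hFi hFs
  have htsum : ∀ u, ∑' ρ, F ρ u = w u * (logDeriv xi ((2 : ℂ) + (u : ℂ) * I) - logDeriv xi 2) := by
    intro u
    exact ((efz_hasSum u).mul_left (w u)).tsum_eq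
  simp_rw [htsum] at hmain
  -- integrability
  set S : ℝ := ∑' ρ : ZS, mx (ρ : ℂ) / (1 + |(ρ:ℂ).im|) ^ 2 with hS
  have hbd : ∀ u : ℝ, ‖logDeriv xi ((2 : ℂ) + (u : ℂ) * I) - logDeriv xi 2‖ ≤ 4 * (1 + |u|) ^ 2 * S := by
    intro u
    rw [← (efz_hasSum u).tsum_eq, hS, ← tsum_mul_left]
    exact tsum_of_norm_bounded (hd2_summable.mul_left (4 * (1 + |u|) ^ 2)).hasSum (efz_norm u)
  have hi1 : Integrable (fun u => w u * (logDeriv xi ((2 : ℂ) + (u : ℂ) * I) - logDeriv xi 2)) := by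
    refine (hw2.const_mul (4 * S)).mono' (hwc.mul (efz_cont.sub continuous_const)).aestronglyMeasurable
      (Eventually.of_forall fun u => ?_)
    rw [norm_mul]
    have := mul_le_mul_of_nonneg_left (hbd u) (norm_nonneg (w u))
    linarith
  have hi2 : Integrable (fun u => w u * logDeriv xi 2) := hw0.mul_const _
  have hi : Integrable (fun u => w u * logDeriv xi ((2 : ℂ) + (u : ℂ) * I)) := by
    refine (hi1.add hi2).congr (Eventually.of_forall fun u => ?_)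
    simp only [Pi.add_apply]
    ring
  refine ⟨hi, ?_⟩
  have hval : ∫ u, w u * (logDeriv xi ((2 : ℂ) + (u : ℂ) * I) - logDeriv xi 2) =
      ∫ u, w u * logDeriv xi ((2 : ℂ) + (u : ℂ) * I) := by
    have e1 : (fun u => w u * (logDeriv xi ((2 : ℂ) + (u : ℂ) * I) - logDeriv xi 2)) =
        fun u => w u * logDeriv xi ((2 : ℂ) + (u : ℂ) * I) - w u * logDeriv xi 2 := by
      funext u
      ring
    rw [e1, integral_sub hi hi2, integral_mul_const, hwint, zero_mul, sub_zero]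
  rw [hval] at hmain
  have hpi : (2 * (Real.pi : ℂ)) ≠ 0 := by
    simp [Real.pi_ne_zero]
  have hterm : ∀ ρ : ZS, ∫ u, F ρ u = (2 * (Real.pi : ℂ)) * ((mx (ρ : ℂ) : ℂ) * LT g (ρ : ℂ)) := by
    intro ρ
    have hr := zs_re ρ
    have e1 : F ρ = fun u => (mx (ρ : ℂ) : ℂ) * (w u / ((2 : ℂ) + (u : ℂ) * I - (ρ : ℂ))) -
        ((mx (ρ : ℂ) : ℂ) * (1 / (2 - (ρ : ℂ)))) * w u := by
      funext u
      rw [hF]
      simp only
      ring
    have i1 : Integrable (fun u => ((mx (ρ : ℂ) : ℂ) * (1 / (2 - (ρ : ℂ)))) * w u) := hw0.const_mul _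
    have i2 : Integrable (fun u => (mx (ρ : ℂ) : ℂ) * (w u / ((2 : ℂ) + (u : ℂ) * I - (ρ : ℂ)))) := by
      have := (hFi ρ).add i1
      refine this.congr (Eventually.of_forall fun u => ?_)
      simp only [Pi.add_apply]
      rw [e1]
      ring
    rw [e1, integral_sub i2 i1, integral_const_mul, integral_const_mul, hwint, mul_zero, sub_zero,
      inv_pole h (p := (ρ : ℂ)) (by linarith)]
    ring
  simp_rw [hterm] at hmain
  have hfin := hmain.mul_left (2 * (Real.pi : ℂ))⁻¹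
  have e : (fun ρ : ZS => (2 * (Real.pi : ℂ))⁻¹ * ((2 * (Real.pi : ℂ)) *
      ((mx (ρ : ℂ) : ℂ) * LT g (ρ : ℂ)))) = fun ρ : ZS => (mx (ρ : ℂ) : ℂ) * LT g (ρ : ℂ) :=
    funext fun ρ => inv_mul_cancel_left₀ hpi _
  rw [e] at hfin
  exact hfin

end Pool.Agent.Helper93.LP
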