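import Pool.Agent.Helper93.LP.EFp
import Pool.Agent.Helper93.LP.EFz
import Pool.Agent.Helper93.LP.EFd

/-!
# LP: the explicit formula (proved from EFp, EFz, EFd)
-/

open Complex Set MeasureTheory Filter Topology
open Pool.Agent.Helper57.LH Pool.Agent.Helper57.PC Pool.Agent.Helper57.Zeta
open Pool.Agent.Helper69.GGM

namespace Pool.Agent.Helper93.LP

theorem explicit_w {g : ℝ → ℂ} {a b : ℝ} (h : WC g a b) :
    HasSum (fun ρ : ZS => (mx (ρ : ℂ) : ℂ) * LT g (ρ : ℂ))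
      (LT g 1 - (∑' n : ℕ, LT g (-(2 * ((n : ℂ) + 1)))) -
        ∑' n : ℕ, ((ArithmeticFunction.vonMangoldt n : ℝ) : ℂ) * g (Real.log n)) := by
  obtain ⟨hz1, hz2⟩ := ef_zeros h
  obtain ⟨hp1, hp2⟩ := ef_primes h
  have ha := ef_arch h
  have hpi : (2 * (Real.pi : ℂ)) ≠ 0 := by
    have : (Real.pi : ℂ) ≠ 0 := by exact_mod_cast Real.pi_ne_zero
    simp [this]
  have e : (∫ u : ℝ, LT g ((2 : ℂ) + (u : ℂ) * I) *
        (logDeriv xi ((2 : ℂ) + (u : ℂ) * I) - logDeriv riemannZeta ((2 : ℂ) + (u : ℂ) * I))) =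
      (∫ u : ℝ, LT g ((2 : ℂ) + (u : ℂ) * I) * logDeriv xi ((2 : ℂ) + (u : ℂ) * I)) -
      ∫ u : ℝ, LT g ((2 : ℂ) + (u : ℂ) * I) * logDeriv riemannZeta ((2 : ℂ) + (u : ℂ) * I) := by
    rw [← integral_sub hz1 hp1]
    congr 1
    funext u
    ring
  rw [e, hp2] at ha
  convert hz2 using 1
  rw [eq_inv_mul_iff_mul_eq₀ hpi]
  linear_combination -ha

end Pool.Agent.Helper93.LP
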