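import Pool.Agent.Helper93.LP.Defs

/-!
# LP block LTb: bounds for the Laplace transform of a smooth compactly supported weight

Proof. `w` is `C^∞` with support in `[a,b]`, `0 < a`, so `LT w z = ∫_a^b w(α) e^{αz} dα`.
* `LT_differentiable`: `hasDerivAt_integral_of_dominated_loc_of_deriv_le` (or `VectorFourier`, or parametric
  integrals over `Icc a b`); derivative `LT (α ↦ α w α) z` (`LT_hasDerivAt`).
* `LT_deriv`: integration by parts, `LT (deriv w) z = - z * LT w z`
  (`integral_mul_deriv_eq_deriv_mul_of_integrable` / `intervalIntegral.integral_mul_deriv_eq_deriv_mul`;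
  no boundary terms). `deriv w` is again `WC`.
* `LT_bound`: induction: `‖z‖^k ‖LT w z‖ = ‖LT (iteratedDeriv k w) z‖ ≤ ∫ ‖w^(k)‖ e^{b |re z|}` and
  `(1+|y|)^k ≤ 2^k (1 + |y|^k) ≤ 2^k (1 + ‖z‖^k)`.
* `LT_neg`: for `re z ≤ 0` and `α ≥ a`: `e^{α re z} ≤ e^{a re z}`.
* `LT_diff`: mean value inequality on the horizontal segment from `iy` to `x+iy`, derivative bounded with
  `LT_bound` (`k = 2`) for the weight `α w α`.
-/

open Complex Set MeasureTheory Filter Topology
open Pool.Agent.Helper57.LH Pool.Agent.Helper57.PC Pool.Agent.Helper57.Zeta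
open Pool.Agent.Helper69.GGM

namespace Pool.Agent.Helper93.LP

theorem WC_mul_id {w : ℝ → ℂ} {a b : ℝ} (h : WC w a b) : WC (fun α => (α : ℂ) * w α) a b := by
  refine ⟨Complex.ofRealCLM.contDiff.mul h.1, h.2.1, h.2.2.1, fun x hx => h.2.2.2 x ?_⟩
  intro h0
  exact hx (by simp [h0])

namespace LTbAux

lemma cont {w : ℝ → ℂ} {a b : ℝ} (h : WC w a b) : Continuous w := h.1.continuous

lemma supp {w : ℝ → ℂ} {a b : ℝ} (h : WC w a b) : Function.support w ⊆ Icc a b :=
  fun x hx => h.2.2.2 x hx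

lemma compactSupp {w : ℝ → ℂ} {a b : ℝ} (h : WC w a b) : HasCompactSupport w :=
  HasCompactSupport.of_support_subset_isCompact isCompact_Icc (supp h)

lemma integ {w g : ℝ → ℂ} {a b : ℝ} (h : WC w a b) (hg : Continuous g) :
    Integrable (fun x => w x * g x) :=
  ((cont h).mul hg).integrable_of_hasCompactSupport ((compactSupp h).mul_right)

lemma integ_norm {w : ℝ → ℂ} {g : ℝ → ℝ} {a b : ℝ} (h : WC w a b) (hg : Continuous g) :
    Integrable (fun x => ‖w x‖ * g x) :=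
  ((cont h).norm.mul hg).integrable_of_hasCompactSupport ((compactSupp h).norm.mul_right)

lemma cont_exp (z : ℂ) : Continuous (fun x : ℝ => Complex.exp ((x : ℂ) * z)) := by
  fun_prop

lemma norm_exp' (x : ℝ) (z : ℂ) : ‖Complex.exp ((x : ℂ) * z)‖ = Real.exp (x * z.re) := by
  rw [Complex.norm_exp]
  congr 1
  simp

lemma wc_deriv {w : ℝ → ℂ} {a b : ℝ} (h : WC w a b) : WC (deriv w) a b := by
  refine ⟨(contDiff_infty_iff_deriv.mp h.1).2, h.2.1, h.2.2.1, fun x hx => ?_⟩
  have h1 : x ∈ tsupport w := support_deriv_subset hx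
  have h2 : tsupport w ⊆ Icc a b := closure_minimal (supp h) isClosed_Icc
  exact h2 h1

lemma lt_deriv {w : ℝ → ℂ} {a b : ℝ} (h : WC w a b) (z : ℂ) :
    LT (deriv w) z = - (z * LT w z) := by
  have hu : ∀ x, HasDerivAt w (deriv w x) x := fun x =>
    ((h.1.differentiable (by simp)) x).hasDerivAt
  have hv : ∀ x : ℝ, HasDerivAt (fun x : ℝ => Complex.exp ((x : ℂ) * z))
      (Complex.exp ((x : ℂ) * z) * z) x := by
    intro x
    have h1 : HasDerivAt (fun x : ℝ => (x : ℂ) * z) z x := by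
      simpa using (Complex.ofRealCLM.hasDerivAt (x := x)).mul_const z
    exact h1.cexp
  have key := integral_mul_deriv_eq_deriv_mul_of_integrable (u := w)
    (v := fun x : ℝ => Complex.exp ((x : ℂ) * z)) (fun x _ => hu x) (fun x _ => hv x)
    (integ h ((cont_exp z).mul continuous_const)) (integ (wc_deriv h) (cont_exp z))
    (integ h (cont_exp z))
  unfold LT
  have h2 : ∫ x : ℝ, w x * (Complex.exp ((x : ℂ) * z) * z)
      = z * ∫ x : ℝ, w x * Complex.exp ((x : ℂ) * z) := by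
    rw [← integral_const_mul]
    congr 1
    funext x
    ring
  rw [← h2, key, neg_neg]

lemma norm_lt_le {w : ℝ → ℂ} {a b : ℝ} (h : WC w a b) (z : ℂ) {E : ℝ}
    (hE : ∀ x ∈ Icc a b, x * z.re ≤ E) :
    ‖LT w z‖ ≤ (∫ x, ‖w x‖) * Real.exp E := by
  unfold LT
  have h0 : Integrable (fun x => ‖w x‖) := by
    simpa using integ_norm h (continuous_const (y := (1:ℝ)))
  calc ‖∫ x : ℝ, w x * Complex.exp ((x : ℂ) * z)‖
      ≤ ∫ x : ℝ, ‖w x * Complex.exp ((x : ℂ) * z)‖ := norm_integral_le_integral_norm _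
    _ ≤ ∫ x : ℝ, ‖w x‖ * Real.exp E := by
        refine integral_mono ((integ h (cont_exp z)).norm) (h0.mul_const _) ?_
        intro x
        simp only [norm_mul, norm_exp']
        by_cases hx : w x = 0
        · simp [hx]
        · refine mul_le_mul_of_nonneg_left ?_ (norm_nonneg _)
          exact Real.exp_le_exp.mpr (hE x (h.2.2.2 x hx))
    _ = (∫ x, ‖w x‖) * Real.exp E := integral_mul_const _ _

lemma pow_bound (k : ℕ) : ∀ {w : ℝ → ℂ} {a b : ℝ}, WC w a b → ∃ C : ℝ, 0 < C ∧ ∀ z : ℂ,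
    ‖z‖ ^ k * ‖LT w z‖ ≤ C * Real.exp (b * |z.re|) := by
  induction k with
  | zero =>
    intro w a b h
    refine ⟨(∫ x, ‖w x‖) + 1, by positivity, fun z => ?_⟩
    have h1 := norm_lt_le h z (E := b * |z.re|) (by
      intro x hx
      have hx0 : 0 < x := lt_of_lt_of_le h.2.1 hx.1
      calc x * z.re ≤ x * |z.re| := mul_le_mul_of_nonneg_left (le_abs_self _) hx0.le
        _ ≤ b * |z.re| := mul_le_mul_of_nonneg_right hx.2 (abs_nonneg _))
    simp only [pow_zero, one_mul]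
    refine h1.trans ?_
    refine mul_le_mul_of_nonneg_right ?_ (Real.exp_pos _).le
    linarith
  | succ k ih =>
    intro w a b h
    obtain ⟨C, hC, hb⟩ := ih (wc_deriv h)
    refine ⟨C, hC, fun z => ?_⟩
    have h1 := hb z
    rw [lt_deriv h z, norm_neg, norm_mul] at h1
    calc ‖z‖ ^ (k + 1) * ‖LT w z‖ = ‖z‖ ^ k * (‖z‖ * ‖LT w z‖) := by ring
      _ ≤ _ := h1

end LTbAux

open LTbAux

theorem LT_hasDerivAt {w : ℝ → ℂ} {a b : ℝ} (h : WC w a b) (z : ℂ) :
    HasDerivAt (LT w) (LT (fun α => (α : ℂ) * w α) z) z := by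
  have hw := WC_mul_id h
  have key := hasDerivAt_integral_of_dominated_loc_of_deriv_le (μ := (volume : Measure ℝ))
    (F := fun (z : ℂ) (x : ℝ) => w x * Complex.exp ((x : ℂ) * z))
    (F' := fun (z : ℂ) (x : ℝ) => ((x : ℂ) * w x) * Complex.exp ((x : ℂ) * z))
    (x₀ := z) (s := Metric.ball z 1)
    (bound := fun x => ‖(x : ℂ) * w x‖ * Real.exp (|x| * (‖z‖ + 1)))
    (Metric.ball_mem_nhds z one_pos)
    (Filter.Eventually.of_forall fun z' => (integ h (cont_exp z')).aestronglyMeasurable)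
    (integ h (cont_exp z))
    ((integ hw (cont_exp z)).aestronglyMeasurable)
    (Filter.Eventually.of_forall fun x z' hz' => by
      rw [norm_mul, norm_exp']
      refine mul_le_mul_of_nonneg_left ?_ (norm_nonneg _)
      refine Real.exp_le_exp.mpr ?_
      have h1 : ‖z'‖ ≤ ‖z‖ + 1 := by
        have h2 : ‖z' - z‖ < 1 := by simpa [dist_eq_norm] using hz'
        have h3 : ‖z'‖ ≤ ‖z' - z‖ + ‖z‖ := by
          simpa using norm_add_le (z' - z) z
        linarith
      calc x * z'.re ≤ |x * z'.re| := le_abs_self _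
        _ = |x| * |z'.re| := abs_mul _ _
        _ ≤ |x| * (‖z‖ + 1) :=
          mul_le_mul_of_nonneg_left ((Complex.abs_re_le_norm z').trans h1) (abs_nonneg _))
    (integ_norm hw (by fun_prop))
    (Filter.Eventually.of_forall fun x z' _ => by
      have h1 : HasDerivAt (fun z : ℂ => (x : ℂ) * z) (x : ℂ) z' := by
        simpa using (hasDerivAt_id z').const_mul (x : ℂ)
      have h2 := (h1.cexp).const_mul (w x)
      refine h2.congr_deriv ?_
      ring)
  exact key.2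

theorem LT_differentiable {w : ℝ → ℂ} {a b : ℝ} (h : WC w a b) : Differentiable ℂ (LT w) :=
  fun z => (LT_hasDerivAt h z).differentiableAt

theorem LT_bound {w : ℝ → ℂ} {a b : ℝ} (h : WC w a b) (k : ℕ) : ∃ C : ℝ, 0 < C ∧ ∀ z : ℂ,
    ‖LT w z‖ ≤ C * Real.exp (b * |z.re|) / (1 + |z.im|) ^ k := by
  obtain ⟨C0, hC0, hb0⟩ := pow_bound 0 h
  obtain ⟨C1, hC1, hb1⟩ := pow_bound k h
  refine ⟨2 ^ k * (C0 + C1), by positivity, fun z => ?_⟩
  have hy : 0 ≤ |z.im| := abs_nonneg _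
  rw [le_div_iff₀ (by positivity)]
  have h1 : (1 + |z.im|) ^ k ≤ 2 ^ k * (1 + ‖z‖ ^ k) := by
    have hz : |z.im| ≤ ‖z‖ := Complex.abs_im_le_norm z
    rcases le_total |z.im| 1 with h2 | h2
    · calc (1 + |z.im|) ^ k ≤ 2 ^ k := by
            refine pow_le_pow_left₀ (by positivity) (by linarith) k
        _ ≤ 2 ^ k * (1 + ‖z‖ ^ k) := by
            refine le_mul_of_one_le_right (by positivity) ?_
            have : 0 ≤ ‖z‖ ^ k := by positivity
            linarith
    · calc (1 + |z.im|) ^ k ≤ (2 * ‖z‖) ^ k := by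
            refine pow_le_pow_left₀ (by positivity) (by linarith) k
        _ = 2 ^ k * ‖z‖ ^ k := mul_pow _ _ _
        _ ≤ 2 ^ k * (1 + ‖z‖ ^ k) := by
            refine mul_le_mul_of_nonneg_left ?_ (by positivity)
            linarith
  have h2 := hb0 z
  have h3 := hb1 z
  rw [pow_zero, one_mul] at h2
  calc ‖LT w z‖ * (1 + |z.im|) ^ k ≤ ‖LT w z‖ * (2 ^ k * (1 + ‖z‖ ^ k)) :=
        mul_le_mul_of_nonneg_left h1 (norm_nonneg _)
    _ = 2 ^ k * (‖LT w z‖ + ‖z‖ ^ k * ‖LT w z‖) := by ring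
    _ ≤ 2 ^ k * (C0 * Real.exp (b * |z.re|) + C1 * Real.exp (b * |z.re|)) :=
        mul_le_mul_of_nonneg_left (add_le_add h2 h3) (by positivity)
    _ = 2 ^ k * (C0 + C1) * Real.exp (b * |z.re|) := by ring

theorem LT_neg {w : ℝ → ℂ} {a b : ℝ} (h : WC w a b) : ∃ C : ℝ, 0 < C ∧ ∀ z : ℂ, z.re ≤ 0 →
    ‖LT w z‖ ≤ C * Real.exp (a * z.re) := by
  refine ⟨(∫ x, ‖w x‖) + 1, by positivity, fun z hz => ?_⟩
  have h1 := norm_lt_le h z (E := a * z.re) (by
    intro x hx
    exact mul_le_mul_of_nonpos_right hx.1 hz)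
  refine h1.trans ?_
  refine mul_le_mul_of_nonneg_right ?_ (Real.exp_pos _).le
  linarith

theorem LT_diff {w : ℝ → ℂ} {a b : ℝ} (h : WC w a b) : ∃ C : ℝ, 0 < C ∧ ∀ x y : ℝ, |x| ≤ 1 →
    ‖LT w ((x : ℂ) + (y : ℂ) * I) - LT w ((y : ℂ) * I)‖ ≤ C * |x| / (1 + y ^ 2) := by
  obtain ⟨C, hC, hb⟩ := LT_bound (WC_mul_id h) 2
  refine ⟨C * Real.exp b, by positivity, fun x y hx => ?_⟩
  have hbpos : 0 < b := lt_of_lt_of_le h.2.1 h.2.2.1
  set s : Set ℂ := {z | |z.re| ≤ 1 ∧ z.im = y} with hs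
  have hconv : Convex ℝ s := by
    intro z hz z' hz' p q hp hq hpq
    refine ⟨?_, ?_⟩
    · have e : (p • z + q • z').re = p * z.re + q * z'.re := by simp
      rw [e]
      calc |p * z.re + q * z'.re| ≤ |p * z.re| + |q * z'.re| := abs_add_le _ _
        _ = p * |z.re| + q * |z'.re| := by
            rw [abs_mul, abs_mul, abs_of_nonneg hp, abs_of_nonneg hq]
        _ ≤ p * 1 + q * 1 := add_le_add (mul_le_mul_of_nonneg_left hz.1 hp)
            (mul_le_mul_of_nonneg_left hz'.1 hq)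
        _ = 1 := by linarith
    · have e : (p • z + q • z').im = p * z.im + q * z'.im := by simp
      rw [e, hz.2, hz'.2, ← add_mul, hpq, one_mul]
  have hbd : ∀ z ∈ s, ‖LT (fun α => (α : ℂ) * w α) z‖ ≤ C * Real.exp b / (1 + y ^ 2) := by
    intro z hz
    refine (hb z).trans ?_
    have h1 : Real.exp (b * |z.re|) ≤ Real.exp b := by
      refine Real.exp_le_exp.mpr ?_
      calc b * |z.re| ≤ b * 1 := mul_le_mul_of_nonneg_left hz.1 hbpos.le
        _ = b := mul_one b
    have h2 : 1 + y ^ 2 ≤ (1 + |z.im|) ^ 2 := by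
      rw [hz.2]
      nlinarith [abs_nonneg y, sq_abs y]
    exact div_le_div₀ (by positivity) (mul_le_mul_of_nonneg_left h1 hC.le) (by positivity) h2
  have hx1 : (x : ℂ) + (y : ℂ) * I ∈ s := by
    refine ⟨by simpa using hx, by simp⟩
  have hx0 : (y : ℂ) * I ∈ s := by
    refine ⟨by simp, by simp⟩
  have key := Convex.norm_image_sub_le_of_norm_hasDerivWithin_le (f := LT w)
    (f' := LT (fun α => (α : ℂ) * w α)) (s := s)
    (fun z _ => (LT_hasDerivAt h z).hasDerivWithinAt) hbd hconv hx0 hx1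
  refine key.trans (le_of_eq ?_)
  have h3 : ‖(x : ℂ) + (y : ℂ) * I - (y : ℂ) * I‖ = |x| := by
    rw [add_sub_cancel_right, Complex.norm_real, Real.norm_eq_abs]
  rw [h3]
  ring

end Pool.Agent.Helper93.LP
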