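import Pool.Agent.Helper93.LP.LTb
import Pool.Agent.Helper69.GGM.FF

/-!
# LP block G0w: bounds for `G0` by the majorant `Phi`

`G0_le_Phi`: `LT_bound` with `k = 2`, `(1+|v|)² ≥ 1+v²`. The rest is word for word GGM/FF.lean
(`S0_fourth`, `S0_edges`) with `S0 T a - S0 T A` replaced by `G0 T w`.
-/

open Complex Set MeasureTheory Filter Topology
open Pool.Agent.Helper57.LH Pool.Agent.Helper57.PC Pool.Agent.Helper57.Zeta
open Pool.Agent.Helper69.GGM

namespace Pool.Agent.Helper93.LP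

theorem G0_le_Phi {w : ℝ → ℂ} {a b : ℝ} (h : WC w a b) : ∃ C : ℝ, 0 < C ∧ ∀ T t : ℝ,
    ‖G0 T w t‖ ≤ C * Phi T t := by
  obtain ⟨C, hC, hb⟩ := LT_bound h 2
  refine ⟨C, hC, fun T t => ?_⟩
  unfold G0 Phi
  rw [Finset.mul_sum]
  refine (norm_sum_le _ _).trans (Finset.sum_le_sum fun ρ _ => ?_)
  rw [norm_mul, Complex.norm_real, Real.norm_eq_abs, abs_of_nonneg (mx_nonneg ρ)]
  have h1 := hb (z0 T t ρ)
  have hre : (z0 T t ρ).re = 0 := by simp [z0]
  have him : (z0 T t ρ).im = Real.log T * (ρ.im - t) := by simp [z0]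
  rw [hre, him, abs_zero, mul_zero, Real.exp_zero, mul_one] at h1
  set v := Real.log T * (ρ.im - t) with hv
  have h2 : 1 + v ^ 2 ≤ (1 + |v|) ^ 2 := by
    have := abs_nonneg v
    nlinarith [sq_abs v]
  have h3 : C / (1 + |v|) ^ 2 ≤ C * (1 + v ^ 2)⁻¹ := by
    rw [div_eq_mul_inv]
    exact mul_le_mul_of_nonneg_left (inv_anti₀ (by positivity) h2) hC.le
  calc mx ρ * ‖LT w (z0 T t ρ)‖ ≤ mx ρ * (C * (1 + v ^ 2)⁻¹) :=
        mul_le_mul_of_nonneg_left (h1.trans h3) (mx_nonneg ρ)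
    _ = C * (mx ρ * (1 + v ^ 2)⁻¹) := by ring

theorem G0_cont {w : ℝ → ℂ} {a b : ℝ} (h : WC w a b) (T : ℝ) : Continuous (G0 T w) := by
  have h1 : G0 T w = fun t => ∑ ρ ∈ Zf T, (mx ρ : ℂ) * LT w (z0 T t ρ) := rfl
  rw [h1]
  refine continuous_finsetSum _ fun ρ _ => continuous_const.mul ?_
  refine (LT_differentiable h).continuous.comp ?_
  unfold z0
  fun_prop

theorem G0_fourth {w : ℝ → ℂ} {a b : ℝ} (h : WC w a b) : ∃ C T₀ : ℝ, 0 < C ∧ ∀ T : ℝ, T₀ ≤ T →
    Integrable (fun t => ‖G0 T w t‖ ^ 4) ∧ ∫ t, ‖G0 T w t‖ ^ 4 ≤ C * T := by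
  obtain ⟨C, T₀, hC, hPhi⟩ := Phi_fourth
  obtain ⟨K, hKp, hKb⟩ := G0_le_Phi h
  have hK0 : 0 ≤ K := hKp.le
  refine ⟨K ^ 4 * C + 1, max T₀ 0, by positivity, fun T hT => ?_⟩
  obtain ⟨h1, h2⟩ := hPhi T ((le_max_left _ _).trans hT)
  have hT0 : 0 ≤ T := (le_max_right _ _).trans hT
  have hb : ∀ t, ‖G0 T w t‖ ^ 4 ≤ K ^ 4 * Phi T t ^ 4 := fun t => by
    rw [← mul_pow]
    exact pow_le_pow_left₀ (norm_nonneg _) (hKb T t) 4
  have hint : Integrable (fun t => ‖G0 T w t‖ ^ 4) := by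
    refine (h1.const_mul (K ^ 4)).mono' ?_ ?_
    · exact ((G0_cont h T).norm.pow 4).aestronglyMeasurable
    · refine Eventually.of_forall fun t => ?_
      rw [Real.norm_eq_abs, abs_of_nonneg (by positivity)]
      exact hb t
  refine ⟨hint, ?_⟩
  calc ∫ t, ‖G0 T w t‖ ^ 4 ≤ ∫ t, K ^ 4 * Phi T t ^ 4 :=
        integral_mono hint (h1.const_mul _) hb
    _ = K ^ 4 * ∫ t, Phi T t ^ 4 := integral_const_mul _ _
    _ ≤ K ^ 4 * (C * T) := mul_le_mul_of_nonneg_left h2 (by positivity)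
    _ ≤ (K ^ 4 * C + 1) * T := by nlinarith

theorem G0_edges {w : ℝ → ℂ} {a b : ℝ} (h : WC w a b) : ∃ C : ℝ, 0 < C ∧
    ∀ δ : ℝ, 0 < δ → δ < 1 / 2 → ∀ᶠ T : ℝ in atTop,
      ∫ t in (Icc (δ * T) ((1 - δ) * T))ᶜ, ‖G0 T w t‖ ^ 2 ≤ C * Real.sqrt δ * T := by
  obtain ⟨C, T₀, hC, hPhi⟩ := Phi_fourth
  obtain ⟨K, hKp, hKb⟩ := G0_le_Phi h
  have hK0 : 0 ≤ K := hKp.le
  refine ⟨K ^ 2 * (3 + C / 2) + 1, by positivity, fun δ hδ _ => ?_⟩
  have hsδ : 0 < Real.sqrt δ := Real.sqrt_pos.mpr hδ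
  have hlog : ∀ᶠ T : ℝ in atTop, 1 ≤ Real.log T := Real.tendsto_log_atTop.eventually_ge_atTop 1
  filter_upwards [eventually_ge_atTop T₀, eventually_ge_atTop (1:ℝ), hlog, NT_le_ev,
    eventually_ge_atTop (Real.pi / δ ^ 2 / Real.sqrt δ)] with T hT hT1 hL hNT hTbig
  obtain ⟨h4i, h4⟩ := hPhi T hT
  have hL0 : 0 < Real.log T := by linarith
  have hT0 : 0 < T := by linarith
  obtain ⟨h1i, h1⟩ := Phi_integral hL0
  have hd : 0 < δ * T := by positivity
  set S : Set ℝ := (Icc (δ * T) ((1 - δ) * T))ᶜ with hS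
  set I₁ : Set ℝ := Icc (-(δ * T)) (δ * T) with hI1
  set I₂ : Set ℝ := Icc ((1 - δ) * T) ((1 + δ) * T) with hI2
  set κ : ℝ := 1 / (Real.log T * δ ^ 2 * T) with hκ
  have hκ0 : 0 ≤ κ := by positivity
  let g : ℝ → ℝ := fun t => (I₁.indicator (fun _ => 1 / (2 * Real.sqrt δ)) t +
    I₂.indicator (fun _ => 1 / (2 * Real.sqrt δ)) t) + (Real.sqrt δ / 2 * Phi T t ^ 4 + κ * Phi T t)
  have hi1 : Integrable (I₁.indicator (fun _ : ℝ => 1 / (2 * Real.sqrt δ))) := by
    rw [integrable_indicator_iff measurableSet_Icc]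
    exact integrableOn_const (by simp) enorm_ne_top
  have hi2 : Integrable (I₂.indicator (fun _ : ℝ => 1 / (2 * Real.sqrt δ))) := by
    rw [integrable_indicator_iff measurableSet_Icc]
    exact integrableOn_const (by simp) enorm_ne_top
  have hgi : Integrable g := (hi1.add hi2).add ((h4i.const_mul _).add (h1i.const_mul _))
  have hg0 : ∀ t, 0 ≤ g t := fun t => by
    have e1 : 0 ≤ I₁.indicator (fun _ : ℝ => 1 / (2 * Real.sqrt δ)) t :=
      indicator_nonneg (fun _ _ => by positivity) t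
    have e2 : 0 ≤ I₂.indicator (fun _ : ℝ => 1 / (2 * Real.sqrt δ)) t :=
      indicator_nonneg (fun _ _ => by positivity) t
    have e3 := Phi_nonneg' T t
    show 0 ≤ (_ + _) + (_ + _)
    positivity
  have hptP : ∀ t ∈ S, Phi T t ^ 2 ≤ g t := by
    intro t ht
    have e1 : 0 ≤ I₁.indicator (fun _ : ℝ => 1 / (2 * Real.sqrt δ)) t :=
      indicator_nonneg (fun _ _ => by positivity) t
    have e2 : 0 ≤ I₂.indicator (fun _ : ℝ => 1 / (2 * Real.sqrt δ)) t :=
      indicator_nonneg (fun _ _ => by positivity) t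
    have e3 := Phi_nonneg' T t
    show _ ≤ (_ + _) + (_ + _)
    by_cases hin : t ∈ I₁ ∪ I₂
    · have e4 : 1 / (2 * Real.sqrt δ) ≤ I₁.indicator (fun _ : ℝ => 1 / (2 * Real.sqrt δ)) t +
          I₂.indicator (fun _ : ℝ => 1 / (2 * Real.sqrt δ)) t := by
        rcases hin with hh | hh
        · rw [indicator_of_mem hh]; linarith
        · rw [indicator_of_mem hh (f := fun _ : ℝ => 1 / (2 * Real.sqrt δ))]; linarith
      have e5 : Phi T t ^ 2 ≤ 1 / (2 * Real.sqrt δ) + Real.sqrt δ / 2 * Phi T t ^ 4 := by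
        have e6 : 0 ≤ (1 - Real.sqrt δ * Phi T t ^ 2) ^ 2 := sq_nonneg _
        have e7 : 1 / (2 * Real.sqrt δ) + Real.sqrt δ / 2 * Phi T t ^ 4 - Phi T t ^ 2 =
            (1 - Real.sqrt δ * Phi T t ^ 2) ^ 2 / (2 * Real.sqrt δ) := by
          field_simp
          ring
        have e8 : 0 ≤ (1 - Real.sqrt δ * Phi T t ^ 2) ^ 2 / (2 * Real.sqrt δ) := by positivity
        linarith
      have e9 : 0 ≤ κ * Phi T t := mul_nonneg hκ0 e3
      linarith
    · have hfar : t ≤ -(δ * T) ∨ T + δ * T ≤ t := by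
        simp only [hI1, hI2, mem_union, mem_Icc, not_or, not_and, not_le] at hin
        simp only [hS, mem_compl_iff, mem_Icc, not_and, not_le] at ht
        by_contra hcon
        push Not at hcon
        obtain ⟨hc1, hc2⟩ := hcon
        by_cases hc3 : t ≤ δ * T
        · have := hin.1 hc1.le
          linarith
        · push Not at hc3
          have h5 := ht hc3.le
          have h6 := hin.2 h5.le
          nlinarith
      have e4 := Phi_far hL0 hd hfar
      have e5 : NT T / (Real.log T ^ 2 * (δ * T) ^ 2) ≤ κ := by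
        rw [hκ, div_le_div_iff₀ (by positivity) (by positivity), one_mul]
        calc NT T * (Real.log T * δ ^ 2 * T) ≤ T * Real.log T * (Real.log T * δ ^ 2 * T) :=
              mul_le_mul_of_nonneg_right hNT (by positivity)
          _ = Real.log T ^ 2 * (δ * T) ^ 2 := by ring
      have e6 : Phi T t ^ 2 ≤ κ * Phi T t := by
        rw [pow_two]
        exact mul_le_mul_of_nonneg_right (e4.trans e5) e3
      have e7 : 0 ≤ Real.sqrt δ / 2 * Phi T t ^ 4 := by positivity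
      linarith
  have hpt : ∀ t ∈ S, ‖G0 T w t‖ ^ 2 ≤ K ^ 2 * g t := by
    intro t ht
    calc ‖G0 T w t‖ ^ 2 ≤ (K * Phi T t) ^ 2 :=
          pow_le_pow_left₀ (norm_nonneg _) (hKb T t) 2
      _ = K ^ 2 * Phi T t ^ 2 := by ring
      _ ≤ K ^ 2 * g t := mul_le_mul_of_nonneg_left (hptP t ht) (by positivity)
  have hSm : MeasurableSet S := measurableSet_Icc.compl
  have hstep : ∫ t in S, ‖G0 T w t‖ ^ 2 ≤ ∫ t, K ^ 2 * g t := by
    calc ∫ t in S, ‖G0 T w t‖ ^ 2 ≤ ∫ t in S, K ^ 2 * g t := by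
          refine integral_mono_of_nonneg (Eventually.of_forall fun t => by positivity)
            (hgi.const_mul _).integrableOn ?_
          exact (ae_restrict_iff' hSm).mpr (Eventually.of_forall hpt)
      _ ≤ ∫ t, K ^ 2 * g t := setIntegral_le_integral (hgi.const_mul _)
          (Eventually.of_forall fun t => mul_nonneg (by positivity) (hg0 t))
  have hgval : ∫ t, g t ≤ (3 + C / 2) * Real.sqrt δ * T := by
    have v1 : ∫ t, I₁.indicator (fun _ : ℝ => 1 / (2 * Real.sqrt δ)) t = Real.sqrt δ * T := by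
      rw [integral_indicator measurableSet_Icc, setIntegral_const, Real.volume_real_Icc,
        max_eq_left (by linarith), smul_eq_mul]
      have : Real.sqrt δ * Real.sqrt δ = δ := Real.mul_self_sqrt hδ.le
      field_simp
      nlinarith
    have v2 : ∫ t, I₂.indicator (fun _ : ℝ => 1 / (2 * Real.sqrt δ)) t = Real.sqrt δ * T := by
      rw [integral_indicator measurableSet_Icc, setIntegral_const, Real.volume_real_Icc,
        max_eq_left (by nlinarith), smul_eq_mul]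
      have : Real.sqrt δ * Real.sqrt δ = δ := Real.mul_self_sqrt hδ.le
      field_simp
      nlinarith
    have v3 : ∫ t, Real.sqrt δ / 2 * Phi T t ^ 4 ≤ Real.sqrt δ / 2 * (C * T) := by
      rw [integral_const_mul]
      exact mul_le_mul_of_nonneg_left h4 (by positivity)
    have v4 : ∫ t, κ * Phi T t ≤ Real.sqrt δ * T := by
      rw [integral_const_mul, h1]
      have w1 : κ * (Real.pi / Real.log T * NT T) ≤ κ * (Real.pi / Real.log T * (T * Real.log T)) := by
        gcongr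
      refine w1.trans ?_
      have w2 : κ * (Real.pi / Real.log T * (T * Real.log T)) = Real.pi / δ ^ 2 / Real.log T := by
        rw [hκ]; field_simp
      rw [w2]
      have w3 : Real.pi / δ ^ 2 / Real.log T ≤ Real.pi / δ ^ 2 := div_le_self (by positivity) hL
      refine w3.trans ?_
      rw [div_le_iff₀ hsδ] at hTbig
      linarith
    have hsum : ∫ t, g t = ((∫ t, I₁.indicator (fun _ : ℝ => 1 / (2 * Real.sqrt δ)) t) +
        ∫ t, I₂.indicator (fun _ : ℝ => 1 / (2 * Real.sqrt δ)) t) +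
        ((∫ t, Real.sqrt δ / 2 * Phi T t ^ 4) + ∫ t, κ * Phi T t) := by
      rw [← integral_add hi1 hi2, ← integral_add (h4i.const_mul _) (h1i.const_mul _)]
      exact integral_add (hi1.add hi2) ((h4i.const_mul _).add (h1i.const_mul _))
    rw [hsum, v1, v2]
    linarith
  calc ∫ t in S, ‖G0 T w t‖ ^ 2 ≤ ∫ t, K ^ 2 * g t := hstep
    _ = K ^ 2 * ∫ t, g t := integral_const_mul _ _
    _ ≤ K ^ 2 * ((3 + C / 2) * Real.sqrt δ * T) := mul_le_mul_of_nonneg_left hgval (by positivity)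
    _ ≤ (K ^ 2 * (3 + C / 2) + 1) * Real.sqrt δ * T := by
        have : 0 ≤ Real.sqrt δ * T := by positivity
        nlinarith

end Pool.Agent.Helper93.LP
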