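import Pool.Agent.Helper93.LP.LTb
import Pool.Agent.Helper93.LP.Tw

/-!
# LP block PPB: elementary facts on `PP` and `GG` (short)

`w (log n/log T) ≠ 0` only for `n ≤ T^b` (`T > 1`), so `PP` is a finite sum, continuous in `t`, additive in `w`.
`GG_cont`: `LT w` is entire, `zz T t ρ` is continuous in `t`.
-/

open Complex Set MeasureTheory Filter Topology
open Pool.Agent.Helper57.LH Pool.Agent.Helper57.PC Pool.Agent.Helper57.Zeta
open Pool.Agent.Helper69.GGM

namespace Pool.Agent.Helper93.LP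

namespace PPBAux

lemma pp_eq_sum {T : ℝ} (hT : 1 < T) {w : ℝ → ℂ} {a b : ℝ} (h : WC w a b) (t : ℝ) :
    PP T w t = ((Real.log T : ℝ) : ℂ)⁻¹ * ∑ n ∈ Finset.range (⌈T ^ b⌉₊ + 1),
      ((ArithmeticFunction.vonMangoldt n : ℝ) : ℂ) *
      (n : ℂ) ^ (-((1 / 2 : ℂ) + (t : ℂ) * I)) * w (Real.log n / Real.log T) := by
  unfold PP
  congr 1
  refine tsum_eq_sum fun n hn => ?_
  have hn1 : ⌈T ^ b⌉₊ + 1 ≤ n := by
    by_contra hc
    exact hn (Finset.mem_range.2 (not_le.1 hc))
  have hT0 : 0 < T := by linarith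
  have hL : 0 < Real.log T := Real.log_pos hT
  have h1 : T ^ b < (n : ℝ) := by
    refine lt_of_le_of_lt (Nat.le_ceil _) ?_
    exact_mod_cast hn1
  have h2 : b * Real.log T < Real.log n := by
    rw [← Real.log_rpow hT0]
    exact Real.log_lt_log (Real.rpow_pos_of_pos hT0 b) h1
  have h3 : b < Real.log n / Real.log T := by
    rw [lt_div_iff₀ hL]
    exact h2
  have h4 : w (Real.log n / Real.log T) = 0 := by
    by_contra hc
    exact absurd (h.2.2.2 _ hc).2 (not_le.2 h3)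
  rw [h4, mul_zero]

lemma exp_ne_zero (t : ℝ) : -((1 / 2 : ℂ) + (t : ℂ) * I) ≠ 0 := by
  intro h
  have h1 := congrArg Complex.re h
  simp at h1

lemma cpow_continuous (n : ℕ) : Continuous (fun t : ℝ => (n : ℂ) ^ (-((1 / 2 : ℂ) + (t : ℂ) * I))) := by
  refine Continuous.const_cpow ?_ (Or.inr exp_ne_zero)
  fun_prop

lemma zz_continuous (T : ℝ) (ρ : ℂ) : Continuous (fun t : ℝ => zz T t ρ) := by
  unfold zz
  fun_prop

end PPBAux

open PPBAux

theorem PP_cont {T : ℝ} (hT : 1 < T) {w : ℝ → ℂ} {a b : ℝ} (h : WC w a b) : Continuous (PP T w) := by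
  have h1 : PP T w = fun t : ℝ => ((Real.log T : ℝ) : ℂ)⁻¹ * ∑ n ∈ Finset.range (⌈T ^ b⌉₊ + 1),
      ((ArithmeticFunction.vonMangoldt n : ℝ) : ℂ) *
      (n : ℂ) ^ (-((1 / 2 : ℂ) + (t : ℂ) * I)) * w (Real.log n / Real.log T) :=
    funext fun t => pp_eq_sum hT h t
  rw [h1]
  refine continuous_const.mul (continuous_finsetSum _ fun n _ => ?_)
  exact (continuous_const.mul (cpow_continuous n)).mul continuous_const

theorem PP_re_im {T : ℝ} (hT : 1 < T) {w : ℝ → ℂ} {a b : ℝ} (h : WC w a b) (t : ℝ) :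
    PP T w t = PP T (fun x => ((w x).re : ℂ)) t + I * PP T (fun x => ((w x).im : ℂ)) t := by
  rw [pp_eq_sum hT h, pp_eq_sum hT (WC_re h).toWC, pp_eq_sum hT (WC_im h).toWC, mul_left_comm, ← mul_add]
  congr 1
  rw [Finset.mul_sum, ← Finset.sum_add_distrib]
  refine Finset.sum_congr rfl fun n _ => ?_
  conv_lhs => rw [← Complex.re_add_im (w (Real.log n / Real.log T))]
  ring

theorem GG_cont {w : ℝ → ℂ} {a b : ℝ} (h : WC w a b) (T : ℝ) : Continuous (GG T w) := by
  unfold GG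
  refine continuous_finsetSum _ fun ρ _ => continuous_const.mul ?_
  exact (LT_differentiable h).continuous.comp (zz_continuous T ρ)

theorem GG_cont2 {χ : ℝ → ℂ} {a b : ℝ} (h : WC χ a b) (T : ℝ) :
    Continuous (fun p : ℂ × ℝ => GG T (twist χ p.1) p.2) := by
  unfold GG
  refine continuous_finsetSum _ fun ρ _ => continuous_const.mul ?_
  simp only [LT_twist]
  exact (LT_differentiable h).continuous.comp
    (((zz_continuous T ρ).comp continuous_snd).sub continuous_fst)

end Pool.Agent.Helper93.LP
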