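import Pool.Agent.Helper93.LP.LTb

/-!
# LP block SMw: exact second moment of `G0` over the real line

(GGM/SM.lean is the model.) Proof. `L = log T > 0`, `z0 T t ρ = i L (γ-t)`. `k(v) = LT w (iv) = ∫ w(α) e^{iαv} dα` is continuous,
`O(1/(1+v²))` (`LT_bound`). Plancherel/Fubini + Fourier inversion: for real `y`,
`∫ k(v) conj k(v - y) dv = 2π ∫ ‖w(α)‖² e^{iαy} dα`. Hence
`∫ ‖G0 T w t‖² dt = Σ_{ρ,ρ'} mx mx' (1/L) ∫ k(v) conj k(v - L(γ-γ')) dv = (2π/L) Σ mx mx' ∫ ‖w‖² e^{iαL(γ-γ')} dα`,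
a real number, so `e^{..}` may be replaced by `cos(αL(γ-γ')) = cos(2π α nd T (ρ,ρ'))`; `mx = mult` on `Zf T` (`tl_mx` in GGM/TL,
`mult_eq`, `mem_Zf`); `T * FT T φ = T WP/SN = (2π/L) WP`. (`w = 0` outside `(0,∞)`.)
-/

open Complex Set MeasureTheory Filter Topology
open Pool.Agent.Helper57.LH Pool.Agent.Helper57.PC Pool.Agent.Helper57.Zeta
open Pool.Agent.Helper69.GGM

namespace Pool.Agent.Helper93.LP

namespace SMwAux

open scoped FourierTransform SchwartzMap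

lemma hcs {w : ℝ → ℂ} {a b : ℝ} (h : WC w a b) : HasCompactSupport w :=
  HasCompactSupport.intro (isCompact_Icc (a := a) (b := b)) fun x hx => by
    by_contra h0
    exact hx (h.2.2.2 x h0)

/-- the weight as a Schwartz function -/
noncomputable def SW (w : ℝ → ℂ) {a b : ℝ} (h : WC w a b) : 𝓢(ℝ, ℂ) :=
  (hcs h).toSchwartzMap h.1

lemma inner_int {f g : ℝ → ℂ} (hf : MemLp f 2 volume) (hg : MemLp g 2 volume) :
    Integrable (fun x => inner ℂ (f x) (g x)) := by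
  have h := hg.integrable_mul hf.star
  refine h.congr (Eventually.of_forall fun x => ?_)
  simp only [Pi.mul_apply, Pi.star_apply, RCLike.inner_apply]
  rfl

lemma SW_apply {w : ℝ → ℂ} {a b : ℝ} (h : WC w a b) (x : ℝ) : SW w h x = w x := rfl

lemma four_SW {w : ℝ → ℂ} {a b : ℝ} (h : WC w a b) (ξ : ℝ) :
    𝓕 (SW w h) ξ = LT w (((-(2 * Real.pi * ξ) : ℝ) : ℂ) * I) := by
  rw [SchwartzMap.fourier_coe, Real.fourier_real_eq_integral_exp_smul]
  unfold LT
  refine integral_congr_ae (Eventually.of_forall fun x => ?_)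
  simp only [SW_apply, smul_eq_mul]
  rw [mul_comm]
  congr 2
  push_cast
  ring

/-- the twisted weight -/
lemma WC_twist {w : ℝ → ℂ} {a b : ℝ} (h : WC w a b) (θ : ℝ) :
    WC (fun x => w x * Complex.exp ((x : ℂ) * ((θ : ℂ) * I))) a b := by
  refine ⟨h.1.mul ?_, h.2.1, h.2.2.1, fun x hx => h.2.2.2 x ?_⟩
  · exact ((Complex.ofRealCLM.contDiff).mul contDiff_const).cexp
  · intro h0
    exact hx (by simp [h0])

lemma LT_twist (w : ℝ → ℂ) (θ y : ℝ) :
    LT (fun x => w x * Complex.exp ((x : ℂ) * ((θ : ℂ) * I))) ((y : ℂ) * I) =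
      LT w (((y + θ : ℝ) : ℂ) * I) := by
  unfold LT
  refine integral_congr_ae (Eventually.of_forall fun x => ?_)
  simp only
  rw [mul_assoc, ← Complex.exp_add]
  congr 2
  push_cast
  ring

/-- the correlation integrand -/
noncomputable def hh (w : ℝ → ℂ) (θ y : ℝ) : ℂ :=
  LT w (((y + θ : ℝ) : ℂ) * I) * (starRingEnd ℂ) (LT w ((y : ℂ) * I))

lemma hh_eq {w : ℝ → ℂ} {a b : ℝ} (h : WC w a b) (θ ξ : ℝ) :
    hh w θ (-(2 * Real.pi) * ξ) =
      inner ℂ (𝓕 (SW w h) ξ) (𝓕 (SW _ (WC_twist h θ)) ξ) := by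
  rw [four_SW, four_SW, LT_twist]
  unfold hh
  rw [RCLike.inner_apply]
  congr 3
  · push_cast; ring_nf
  · push_cast; ring_nf

lemma qq_integrable {w : ℝ → ℂ} {a b : ℝ} (h : WC w a b) (θ : ℝ) :
    Integrable (fun ξ : ℝ => hh w θ (-(2 * Real.pi) * ξ)) := by
  simp only [hh_eq h θ]
  exact inner_int ((𝓕 (SW w h)).memLp 2 volume)
    ((𝓕 (SW _ (WC_twist h θ))).memLp 2 volume)

lemma hh_integrable {w : ℝ → ℂ} {a b : ℝ} (h : WC w a b) (θ : ℝ) : Integrable (hh w θ) := by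
  have hp : (-(2 * Real.pi))⁻¹ ≠ 0 := inv_ne_zero (by have := Real.pi_pos; linarith)
  have h1 := (qq_integrable h θ).comp_mul_left' hp
  refine h1.congr (Eventually.of_forall fun y => ?_)
  simp only
  congr 1
  have := Real.pi_pos.ne'
  field_simp

lemma hh_integral {w : ℝ → ℂ} {a b : ℝ} (h : WC w a b) (θ : ℝ) :
    (∫ y, hh w θ y).re = 2 * Real.pi * ∫ α, ‖w α‖ ^ 2 * Real.cos (θ * α) := by
  have h1 := MeasureTheory.Measure.integral_comp_mul_left (hh w θ) (-(2 * Real.pi))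
  have h2 : ∫ ξ : ℝ, hh w θ (-(2 * Real.pi) * ξ) =
      ∫ x : ℝ, inner ℂ (w x) (w x * Complex.exp ((x : ℂ) * ((θ : ℂ) * I))) := by
    simp only [hh_eq h θ]
    rw [SchwartzMap.integral_inner_fourier_fourier]
    rfl
  rw [h2] at h1
  have hpi : 0 < 2 * Real.pi := by positivity
  have h3 : ∫ y, hh w θ y = ((2 * Real.pi : ℝ) : ℂ) *
      ∫ x : ℝ, inner ℂ (w x) (w x * Complex.exp ((x : ℂ) * ((θ : ℂ) * I))) := by
    rw [h1, abs_inv, abs_neg, abs_of_pos hpi, Complex.real_smul]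
    push_cast
    have : (Real.pi : ℂ) ≠ 0 := by exact_mod_cast Real.pi_pos.ne'
    field_simp
  rw [h3, Complex.re_ofReal_mul]
  congr 1
  have hint : Integrable (fun x : ℝ => (inner ℂ (w x)
      (w x * Complex.exp ((x : ℂ) * ((θ : ℂ) * I))) : ℂ)) := by
    have := inner_int ((SW w h).memLp 2 volume)
      ((SW _ (WC_twist h θ)).memLp 2 volume)
    exact this
  have h4 := Complex.reCLM.integral_comp_comm hint
  simp only [Complex.reCLM_apply] at h4
  rw [← h4]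
  refine integral_congr_ae (Eventually.of_forall fun x => ?_)
  simp only [RCLike.inner_apply]
  have h5 : w x * Complex.exp ((x : ℂ) * ((θ : ℂ) * I)) * (starRingEnd ℂ) (w x) =
      ((‖w x‖ ^ 2 : ℝ) : ℂ) * Complex.exp (((θ * x : ℝ) : ℂ) * I) := by
    rw [mul_right_comm, Complex.mul_conj']
    push_cast
    congr 2
    ring
  rw [h5, Complex.re_ofReal_mul, Complex.exp_ofReal_mul_I_re]

/-- the term of a pair of zeros -/
noncomputable def smF (T : ℝ) (w : ℝ → ℂ) (p : ℂ × ℂ) (t : ℝ) : ℂ :=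
  LT w (z0 T t p.1) * (starRingEnd ℂ) (LT w (z0 T t p.2))

lemma smF_eq (T : ℝ) (w : ℝ → ℂ) (p : ℂ × ℂ) (t : ℝ) :
    smF T w p t = hh w (Real.log T * (p.1.im - p.2.im))
      (Real.log T * p.2.im - Real.log T * t) := by
  unfold smF hh z0
  congr 3
  · congr 2
    ring
  · congr 2
    ring

lemma smF_integrable {T : ℝ} (hT : 1 < T) {w : ℝ → ℂ} {a b : ℝ} (h : WC w a b) (p : ℂ × ℂ) :
    Integrable (smF T w p) := by
  have hL : Real.log T ≠ 0 := (Real.log_pos hT).ne'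
  have h1 := hh_integrable h (Real.log T * (p.1.im - p.2.im))
  have h2 := (h1.comp_sub_left (Real.log T * p.2.im)).comp_mul_left' hL
  refine h2.congr (Eventually.of_forall fun t => ?_)
  exact (smF_eq T w p t).symm

lemma smF_integral {T : ℝ} (hT : 1 < T) {w : ℝ → ℂ} {a b : ℝ} (h : WC w a b) (p : ℂ × ℂ) :
    (∫ t, smF T w p t).re = (2 * Real.pi / Real.log T) *
      ∫ α in Ioi (0:ℝ), ‖w α‖ ^ 2 * Real.cos (2 * Real.pi * nd T p * α) := by
  have hL : 0 < Real.log T := Real.log_pos hT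
  have h2 : ∫ t, smF T w p t =
      (Real.log T)⁻¹ • ∫ y, hh w (Real.log T * (p.1.im - p.2.im)) y := by
    simp only [smF_eq]
    have h3 := MeasureTheory.Measure.integral_comp_mul_left
      (fun x => hh w (Real.log T * (p.1.im - p.2.im)) (Real.log T * p.2.im - x)) (Real.log T)
    rw [h3, integral_sub_left_eq_self (hh w (Real.log T * (p.1.im - p.2.im))) volume,
      abs_of_pos (inv_pos.2 hL)]
  rw [h2, Complex.smul_re, hh_integral h]
  have hw : Real.log T * (p.1.im - p.2.im) = 2 * Real.pi * nd T p := by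
    unfold nd
    field_simp
  rw [hw]
  have h4 : ∫ α in Ioi (0:ℝ), ‖w α‖ ^ 2 * Real.cos (2 * Real.pi * nd T p * α) =
      ∫ α, ‖w α‖ ^ 2 * Real.cos (2 * Real.pi * nd T p * α) := by
    refine setIntegral_eq_integral_of_forall_compl_eq_zero fun x hx => ?_
    have : w x = 0 := by
      by_contra h0
      exact hx (lt_of_lt_of_le h.2.1 (h.2.2.2 x h0).1)
    simp [this]
  rw [h4, smul_eq_mul]
  ring

lemma smG_sq (T : ℝ) (w : ℝ → ℂ) (t : ℝ) : ‖G0 T w t‖ ^ 2 =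
    (∑ p ∈ Zf T ×ˢ Zf T, ((mx p.1 * mx p.2 : ℝ) : ℂ) * smF T w p t).re := by
  have h1 : ((‖G0 T w t‖ ^ 2 : ℝ) : ℂ) =
      ∑ p ∈ Zf T ×ˢ Zf T, ((mx p.1 * mx p.2 : ℝ) : ℂ) * smF T w p t := by
    have h2 := Complex.mul_conj' (G0 T w t)
    rw [Complex.ofReal_pow, ← h2]
    unfold G0
    rw [map_sum, Finset.sum_mul_sum, Finset.sum_product]
    refine Finset.sum_congr rfl fun ρ _ => Finset.sum_congr rfl fun ρ' _ => ?_
    unfold smF
    rw [map_mul, Complex.conj_ofReal]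
    push_cast
    ring
  rw [← h1, Complex.ofReal_re]

end SMwAux

open SMwAux in
theorem G0_second {T : ℝ} (hT : 1 < T) {w : ℝ → ℂ} {a b : ℝ} (h : WC w a b) :
    Integrable (fun t => ‖G0 T w t‖ ^ 2) ∧ ∫ t, ‖G0 T w t‖ ^ 2 = T * FT T (fun α => ‖w α‖ ^ 2) := by
  have h0 : Integrable (fun t => ∑ p ∈ Zf T ×ˢ Zf T, ((mx p.1 * mx p.2 : ℝ) : ℂ) * smF T w p t) :=
    integrable_finset_sum _ fun p _ => (smF_integrable hT h p).const_mul _
  simp only [smG_sq]
  refine ⟨Complex.reCLM.integrable_comp h0, ?_⟩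
  have h2 := Complex.reCLM.integral_comp_comm h0
  simp only [Complex.reCLM_apply] at h2
  rw [h2, integral_finset_sum _ fun p _ => (smF_integrable hT h p).const_mul _, Complex.re_sum]
  have h3 : ∀ p ∈ Zf T ×ˢ Zf T, (∫ t, ((mx p.1 * mx p.2 : ℝ) : ℂ) * smF T w p t).re =
      (2 * Real.pi / Real.log T) * ((mult p.1 : ℝ) * (mult p.2 : ℝ) *
        ∫ α in Ioi (0:ℝ), ‖w α‖ ^ 2 * Real.cos (2 * Real.pi * nd T p * α)) := by
    intro p hp
    rw [Finset.mem_product] at hp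
    have e1 : mx p.1 = (mult p.1 : ℝ) := by
      unfold mx
      rw [mult_eq (mem_Zf.1 hp.1).1]
    have e2 : mx p.2 = (mult p.2 : ℝ) := by
      unfold mx
      rw [mult_eq (mem_Zf.1 hp.2).1]
    rw [integral_const_mul, Complex.re_ofReal_mul, smF_integral hT h, e1, e2]
    ring
  rw [Finset.sum_congr rfl h3, ← Finset.mul_sum]
  unfold FT WP SN
  have hL : Real.log T ≠ 0 := (Real.log_pos hT).ne'
  have hT0 : T ≠ 0 := by linarith
  have hpi := Real.pi_pos.ne'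
  field_simp

end Pool.Agent.Helper93.LP
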