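import Pool.Agent.Helper93.LP.CVw
import Pool.Agent.Helper93.LP.EFw
import Pool.Agent.Helper93.LP.SMw
import Pool.Agent.Helper93.LP.G0w
import Pool.Agent.Helper93.LP.PPB

/-!
# LP block CMP: comparison of the truncated mean square with the pair sum, under `OffLine`

(GGM/MCU.lean, MCL.lean are the models.) Let `r = PP T w + G0 T w = (PP + GG) - (GG - G0)`. For `B > 0`, `δ`, `ε`:
eventually `∫_{δT}^{(1-δ)T} min (‖r‖²) B ≤ ε T` (`ef_scaled`, `conv_w`, `‖r‖² ≤ 2‖·‖² + 2‖·‖²`).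
Pointwise (`MCUaux.ptwise` in GGM/MCU.lean): `min (‖p‖²) B ≤ (1+θ)‖g‖² + (1+1/θ) min (‖r‖²) B` and
`min (‖g‖²) B ≤ (1+θ) min (‖p‖²) B + (1+1/θ) min (‖r‖²) B`, `p = PP`, `g = G0`.
* `cmp_up`: `[0,δT] ∪ [(1-δ)T,T]` contributes `≤ 2δB` to `MP`; choose `δ` with `2δB ≤ θ/2`; `∫_ℝ ‖G0‖² = T FT` (`G0_second`).
* `cmp_low`: `T FT = ∫_ℝ ‖G0‖² ≤ C sqrt δ T + ∫_{δT}^{(1-δ)T} ‖G0‖²` (`G0_edges`), `‖g‖² ≤ min (‖g‖²) B + ‖g‖⁴/B`
  (`G0_fourth`: `∫ ‖g‖⁴/B ≤ C T/B`), then the second pointwise inequality; `C sqrt δ ≤ θ/3`, `C/B₀ ≤ θ/3`.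
-/

open Complex Set MeasureTheory Filter Topology
open Pool.Agent.Helper57.LH Pool.Agent.Helper57.PC Pool.Agent.Helper57.Zeta
open Pool.Agent.Helper69.GGM

namespace Pool.Agent.Helper93.LP

namespace CMPaux

theorem two_terms {τ x y : ℝ} (hτ : 0 < τ) :
    (x + y) ^ 2 ≤ (1 + τ) * x ^ 2 + (1 + 1 / τ) * y ^ 2 := by
  have h1 : 0 ≤ (1 / τ) * (τ * x - y) ^ 2 := by positivity
  have h2 : τ * (1 / τ) = 1 := by field_simp
  have h3 : (1 / τ) * (τ * x - y) ^ 2 = τ * (τ * (1 / τ)) * x ^ 2 - 2 * (τ * (1 / τ)) * (x * y) +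
      (1 / τ) * y ^ 2 := by ring
  rw [h3, h2] at h1
  nlinarith

/-- first pointwise inequality, `p = PP`, `g = G0` -/
theorem pt1 {θ B : ℝ} (hθ : 0 < θ) (hB : 0 < B) (p g : ℂ) :
    min (‖p‖ ^ 2) B ≤ (1 + θ) * ‖g‖ ^ 2 + (1 + 1 / θ) * min (‖p + g‖ ^ 2) B := by
  have hθi : 0 < 1 / θ := by positivity
  rcases le_total (‖p + g‖ ^ 2) B with h | h
  · rw [min_eq_left h]
    refine (min_le_left _ _).trans ?_
    have h1 : ‖p‖ ≤ ‖g‖ + ‖p + g‖ := by
      have h2 := norm_sub_le (p + g) g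
      rw [add_sub_cancel_right] at h2
      linarith
    have h2 : ‖p‖ ^ 2 ≤ (‖g‖ + ‖p + g‖) ^ 2 := by gcongr
    exact h2.trans (two_terms hθ)
  · rw [min_eq_right h]
    refine (min_le_right _ _).trans ?_
    have h1 : 0 ≤ (1 + θ) * ‖g‖ ^ 2 := by positivity
    have h2 : 0 ≤ 1 / θ * B := by positivity
    nlinarith

/-- second pointwise inequality -/
theorem pt2 {θ B : ℝ} (hθ : 0 < θ) (hB : 0 < B) (p g : ℂ) :
    min (‖g‖ ^ 2) B ≤ (1 + θ) * min (‖p‖ ^ 2) B + (1 + 1 / θ) * min (‖p + g‖ ^ 2) B := by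
  have hθi : 0 < 1 / θ := by positivity
  rcases le_total (‖p‖ ^ 2) B with h | h
  · rcases le_total (‖p + g‖ ^ 2) B with h' | h'
    · rw [min_eq_left h, min_eq_left h']
      refine (min_le_left _ _).trans ?_
      have h1 : ‖g‖ ≤ ‖p‖ + ‖p + g‖ := by
        have h2 := norm_sub_le (p + g) p
        rw [add_sub_cancel_left] at h2
        linarith
      have h2 : ‖g‖ ^ 2 ≤ (‖p‖ + ‖p + g‖) ^ 2 := by gcongr
      exact h2.trans (two_terms hθ)
    · rw [min_eq_right h']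
      refine (min_le_right _ _).trans ?_
      have h1 : 0 ≤ (1 + θ) * min (‖p‖ ^ 2) B :=
        mul_nonneg (by positivity) (le_min (by positivity) hB.le)
      have h2 : 0 ≤ 1 / θ * B := by positivity
      nlinarith
  · rw [min_eq_right h]
    refine (min_le_right _ _).trans ?_
    have h1 : 0 ≤ (1 + 1 / θ) * min (‖p + g‖ ^ 2) B :=
      mul_nonneg (by positivity) (le_min (by positivity) hB.le)
    have h2 : 0 ≤ θ * B := by positivity
    nlinarith

theorem pt3 {B : ℝ} (hB : 0 < B) (p q : ℂ) :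
    min (‖p - q‖ ^ 2) B ≤ 2 * ‖p‖ ^ 2 + 2 * min (‖q‖ ^ 2) B := by
  rcases le_total (‖q‖ ^ 2) B with h | h
  · rw [min_eq_left h]
    refine (min_le_left _ _).trans ?_
    have h1 := norm_sub_le p q
    have h2 : ‖p - q‖ ^ 2 ≤ (‖p‖ + ‖q‖) ^ 2 := by gcongr
    nlinarith [sq_nonneg (‖p‖ - ‖q‖)]
  · rw [min_eq_right h]
    refine (min_le_right _ _).trans ?_
    have h1 : 0 ≤ ‖p‖ ^ 2 := by positivity
    linarith

theorem trunc {x B : ℝ} (hB : 0 < B) : x ^ 2 ≤ min (x ^ 2) B + (1 / B) * x ^ 4 := by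
  rcases le_total (x ^ 2) B with h | h
  · rw [min_eq_left h]
    have : 0 ≤ (1 / B) * x ^ 4 := by positivity
    linarith
  · rw [min_eq_right h]
    have h1 : x ^ 2 ≤ (1 / B) * x ^ 4 := by
      rw [one_div, ← div_eq_inv_mul, le_div_iff₀ hB]
      have h2 : x ^ 4 = x ^ 2 * x ^ 2 := by ring
      rw [h2]
      exact mul_le_mul_of_nonneg_left h (by positivity)
    linarith

/-- truncated squares of continuous functions are continuous -/
theorem cmin {g : ℝ → ℂ} (hg : Continuous g) (B : ℝ) :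
    Continuous (fun t => min (‖g t‖ ^ 2) B) := (hg.norm.pow 2).min continuous_const

/-- the error is small in measure -/
theorem r_small {l : Filter ℝ} (hl : l ≤ atTop) (hOff : OffLine l) {w : ℝ → ℂ} {a b : ℝ} (h : WC w a b)
    {δ : ℝ} (hδ : 0 < δ) (hδ2 : δ < 1 / 2) {B : ℝ} (hB : 0 < B) {ε : ℝ} (hε : 0 < ε) :
    ∀ᶠ T : ℝ in l, ∫ t in (δ * T)..((1 - δ) * T), min (‖PP T w t + G0 T w t‖ ^ 2) B ≤ ε * T := by
  have hε1 : 0 < Real.sqrt (ε / 4) := Real.sqrt_pos.mpr (by positivity)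
  have hε2 : 0 < ε / 4 := by positivity
  filter_upwards [hl (ef_scaled h hδ hδ2 hε1), conv_w hl hOff h hB hε2, hl (eventually_gt_atTop 1)]
    with T hE hC hT
  have hT0 : 0 < T := by linarith
  have hδT : 0 ≤ δ * T := by positivity
  have hδT' : δ * T ≤ (1 - δ) * T := by nlinarith
  have hδT'' : (1 - δ) * T ≤ T := by nlinarith
  have hPc := PP_cont hT h
  have hGc := GG_cont h T
  have h0c := G0_cont h T
  have c1 : Continuous (fun t => min (‖PP T w t + G0 T w t‖ ^ 2) B) := cmin (hPc.add h0c) B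
  have c2 : Continuous (fun t => min (‖GG T w t - G0 T w t‖ ^ 2) B) := cmin (hGc.sub h0c) B
  have s1 : ∫ t in (δ * T)..((1 - δ) * T), min (‖PP T w t + G0 T w t‖ ^ 2) B ≤
      ∫ t in (δ * T)..((1 - δ) * T), (2 * (ε / 4) + 2 * min (‖GG T w t - G0 T w t‖ ^ 2) B) := by
    refine intervalIntegral.integral_mono_on hδT' (c1.intervalIntegrable _ _)
      (intervalIntegrable_const.add ((c2.intervalIntegrable _ _).const_mul 2)) (fun t ht => ?_)
    have e1 : PP T w t + G0 T w t = (PP T w t + GG T w t) - (GG T w t - G0 T w t) := by ring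
    rw [e1]
    refine (pt3 hB _ _).trans ?_
    have h3 := hE t ht.1 ht.2
    have h4 : ‖PP T w t + GG T w t‖ ^ 2 ≤ ε / 4 := by
      calc ‖PP T w t + GG T w t‖ ^ 2 ≤ Real.sqrt (ε / 4) ^ 2 := by gcongr
        _ = ε / 4 := Real.sq_sqrt (by positivity)
    linarith
  rw [intervalIntegral.integral_add intervalIntegrable_const ((c2.intervalIntegrable _ _).const_mul 2),
    intervalIntegral.integral_const, intervalIntegral.integral_const_mul, smul_eq_mul] at s1
  have s2 : ∫ t in (δ * T)..((1 - δ) * T), min (‖GG T w t - G0 T w t‖ ^ 2) B ≤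
      ∫ t in (0:ℝ)..T, min (‖GG T w t - G0 T w t‖ ^ 2) B := by
    refine intervalIntegral.integral_mono_interval hδT hδT' hδT''
      (Filter.Eventually.of_forall (fun t => ?_)) (c2.intervalIntegrable _ _)
    exact le_min (by positivity) hB.le
  have s3 : ((1 - δ) * T - δ * T) * (2 * (ε / 4)) ≤ T * (2 * (ε / 4)) := by
    apply mul_le_mul_of_nonneg_right _ (by positivity)
    nlinarith
  linarith

end CMPaux

open CMPaux

theorem cmp_up {l : Filter ℝ} (hl : l ≤ atTop) (hOff : OffLine l) {w : ℝ → ℂ} {a b : ℝ} (h : WC w a b)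
    {θ : ℝ} (hθ : 0 < θ) {B : ℝ} (hB : 0 < B) :
    ∀ᶠ T : ℝ in l, MP T w B ≤ (1 + θ) * FT T (fun α => ‖w α‖ ^ 2) + θ := by
  obtain ⟨δ, hδ, hδ2, hδB⟩ : ∃ δ : ℝ, 0 < δ ∧ δ < 1 / 2 ∧ 2 * δ * B ≤ θ / 2 := by
    refine ⟨min (1 / 4) (θ / (4 * B)), by positivity, ?_, ?_⟩
    · exact (min_le_left _ _).trans_lt (by norm_num)
    · have : min (1 / 4) (θ / (4 * B)) ≤ θ / (4 * B) := min_le_right _ _
      have h2 : 2 * (θ / (4 * B)) * B = θ / 2 := by field_simp; ring
      nlinarith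
  have hθi : 0 < 1 + 1 / θ := by positivity
  set ε : ℝ := (θ / 2) / (1 + 1 / θ) with hεd
  have hε : 0 < ε := by positivity
  filter_upwards [r_small hl hOff h hδ hδ2 hB hε, hl (eventually_gt_atTop 1)] with T hT1 hT
  have hT0 : 0 < T := by linarith
  have hPc := PP_cont hT h
  have h0c := G0_cont h T
  obtain ⟨h2i, h2e⟩ := G0_second hT h
  have cI := cmin hPc B
  have cR : Continuous (fun t => min (‖PP T w t + G0 T w t‖ ^ 2) B) := cmin (hPc.add h0c) B
  have cu : Continuous (fun t => ‖G0 T w t‖ ^ 2) := h0c.norm.pow 2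
  have hI := fun x y : ℝ => cI.intervalIntegrable (μ := volume) x y
  have hR := fun x y : ℝ => cR.intervalIntegrable (μ := volume) x y
  have hδT : 0 ≤ δ * T := by positivity
  have hδT' : δ * T ≤ (1 - δ) * T := by nlinarith
  have hδT'' : (1 - δ) * T ≤ T := by nlinarith
  have hsplit : ∫ t in (0:ℝ)..T, min (‖PP T w t‖ ^ 2) B =
      (∫ t in (0:ℝ)..(δ * T), min (‖PP T w t‖ ^ 2) B) +
      (∫ t in (δ * T)..((1 - δ) * T), min (‖PP T w t‖ ^ 2) B) +
      ∫ t in ((1 - δ) * T)..T, min (‖PP T w t‖ ^ 2) B := by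
    rw [intervalIntegral.integral_add_adjacent_intervals (hI _ _) (hI _ _),
      intervalIntegral.integral_add_adjacent_intervals (hI _ _) (hI _ _)]
  have hA1 : ∫ t in (0:ℝ)..(δ * T), min (‖PP T w t‖ ^ 2) B ≤ δ * T * B := by
    have := intervalIntegral.integral_mono_on hδT (hI _ _) (intervalIntegrable_const (c := B))
      (fun t _ => min_le_right _ _)
    simpa using this
  have hA3 : ∫ t in ((1 - δ) * T)..T, min (‖PP T w t‖ ^ 2) B ≤ δ * T * B := by
    have := intervalIntegral.integral_mono_on hδT'' (hI _ _) (intervalIntegrable_const (c := B))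
      (fun t _ => min_le_right _ _)
    have h3 : ∫ _ in ((1 - δ) * T)..T, B = δ * T * B := by
      rw [intervalIntegral.integral_const, smul_eq_mul]; ring
    rw [h3] at this
    exact this
  have hA2 : ∫ t in (δ * T)..((1 - δ) * T), min (‖PP T w t‖ ^ 2) B ≤
      (1 + θ) * (∫ t in (δ * T)..((1 - δ) * T), ‖G0 T w t‖ ^ 2) +
      (1 + 1 / θ) * ∫ t in (δ * T)..((1 - δ) * T), min (‖PP T w t + G0 T w t‖ ^ 2) B := by
    rw [← intervalIntegral.integral_const_mul, ← intervalIntegral.integral_const_mul,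
      ← intervalIntegral.integral_add ((cu.intervalIntegrable _ _).const_mul _)
        ((hR _ _).const_mul _)]
    refine intervalIntegral.integral_mono_on hδT' (hI _ _)
      (((cu.intervalIntegrable _ _).const_mul _).add ((hR _ _).const_mul _)) (fun t _ => ?_)
    exact pt1 hθ hB (PP T w t) (G0 T w t)
  have hu3 : ∫ t in (δ * T)..((1 - δ) * T), ‖G0 T w t‖ ^ 2 ≤ T * FT T (fun α => ‖w α‖ ^ 2) := by
    rw [← h2e, intervalIntegral.integral_of_le hδT']
    exact setIntegral_le_integral h2i (Filter.Eventually.of_forall (fun t => by positivity))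
  have hfin : ∫ t in (0:ℝ)..T, min (‖PP T w t‖ ^ 2) B ≤
      T * ((1 + θ) * FT T (fun α => ‖w α‖ ^ 2) + θ) := by
    rw [hsplit]
    have h5 : (1 + 1 / θ) * (ε * T) = θ / 2 * T := by
      rw [hεd]; field_simp
    have h6 : (1 + 1 / θ) * (∫ t in (δ * T)..((1 - δ) * T), min (‖PP T w t + G0 T w t‖ ^ 2) B) ≤
        (1 + 1 / θ) * (ε * T) := mul_le_mul_of_nonneg_left hT1 hθi.le
    have h7 : (1 + θ) * (∫ t in (δ * T)..((1 - δ) * T), ‖G0 T w t‖ ^ 2) ≤
        (1 + θ) * (T * FT T (fun α => ‖w α‖ ^ 2)) :=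
      mul_le_mul_of_nonneg_left hu3 (by positivity)
    have h8 : 2 * (δ * T * B) ≤ θ / 2 * T := by nlinarith
    nlinarith
  unfold MP
  rw [div_mul_eq_mul_div, one_mul, div_le_iff₀ hT0]
  linarith

theorem cmp_low {l : Filter ℝ} (hl : l ≤ atTop) (hOff : OffLine l) {w : ℝ → ℂ} {a b : ℝ} (h : WC w a b)
    {θ : ℝ} (hθ : 0 < θ) :
    ∃ B₀ : ℝ, ∀ B : ℝ, B₀ ≤ B → ∀ᶠ T : ℝ in l,
      FT T (fun α => ‖w α‖ ^ 2) ≤ (1 + θ) * MP T w B + θ := by
  obtain ⟨C4, T4, hC4, h4⟩ := G0_fourth h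
  obtain ⟨Ce, hCe, he⟩ := G0_edges h
  obtain ⟨δ, hδ, hδ2, hδθ⟩ : ∃ δ : ℝ, 0 < δ ∧ δ < 1 / 2 ∧ Ce * Real.sqrt δ ≤ θ / 4 := by
    refine ⟨min (1 / 4) ((θ / (4 * Ce)) ^ 2), by positivity, ?_, ?_⟩
    · exact (min_le_left _ _).trans_lt (by norm_num)
    · have h1 : Real.sqrt (min (1 / 4) ((θ / (4 * Ce)) ^ 2)) ≤ θ / (4 * Ce) := by
        rw [← Real.sqrt_sq (show 0 ≤ θ / (4 * Ce) by positivity)]
        apply Real.sqrt_le_sqrt
        rw [Real.sqrt_sq (show 0 ≤ θ / (4 * Ce) by positivity)]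
        exact min_le_right _ _
      have h2 : Ce * (θ / (4 * Ce)) = θ / 4 := by field_simp
      have h3 := mul_le_mul_of_nonneg_left h1 hCe.le
      linarith
  have hκ0 : 0 < 1 + 1 / θ := by positivity
  set ε : ℝ := (θ / 4) / (1 + 1 / θ) with hε
  have hε0 : 0 < ε := by positivity
  have hεθ : (1 + 1 / θ) * ε = θ / 4 := by rw [hε]; field_simp
  refine ⟨4 * C4 / θ, fun B hB => ?_⟩
  have hB0 : 0 < B := lt_of_lt_of_le (by positivity) hB
  have hBθ : 1 / B * C4 ≤ θ / 4 := by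
    rw [div_le_iff₀ hθ] at hB
    rw [one_div, ← div_eq_inv_mul, div_le_div_iff₀ hB0 (by norm_num)]
    linarith
  filter_upwards [r_small hl hOff h hδ hδ2 hB0 hε0, hl (eventually_gt_atTop 1),
    hl (eventually_ge_atTop T4), hl (he δ hδ hδ2)] with T hcm hT hT4 hTe
  have hT0 : 0 < T := by linarith
  obtain ⟨hf4i, hf4⟩ := h4 T hT4
  obtain ⟨h2i, h2e⟩ := G0_second hT h
  have hPc := PP_cont hT h
  have h0c := G0_cont h T
  have hδT : 0 ≤ δ * T := by positivity
  have hδT' : δ * T ≤ (1 - δ) * T := by nlinarith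
  have hδT'' : (1 - δ) * T ≤ T := by nlinarith
  have c2 : Continuous (fun t => ‖G0 T w t‖ ^ 2) := h0c.norm.pow 2
  have c4 : Continuous (fun t => ‖G0 T w t‖ ^ 4) := h0c.norm.pow 4
  have cm := cmin h0c B
  have cP := cmin hPc B
  have cR : Continuous (fun t => min (‖PP T w t + G0 T w t‖ ^ 2) B) := cmin (hPc.add h0c) B
  -- edges
  have s2 : T * FT T (fun α => ‖w α‖ ^ 2) ≤
      (∫ t in (δ * T)..((1 - δ) * T), ‖G0 T w t‖ ^ 2) + Ce * Real.sqrt δ * T := by
    rw [← h2e, ← integral_add_compl (measurableSet_Icc (a := δ * T) (b := (1 - δ) * T)) h2i,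
      intervalIntegral.integral_of_le hδT', ← integral_Icc_eq_integral_Ioc]
    linarith
  -- truncation
  have s3 : ∫ t in (δ * T)..((1 - δ) * T), ‖G0 T w t‖ ^ 2 ≤
      (∫ t in (δ * T)..((1 - δ) * T), min (‖G0 T w t‖ ^ 2) B) + 1 / B * C4 * T := by
    have h1 : ∫ t in (δ * T)..((1 - δ) * T), ‖G0 T w t‖ ^ 2 ≤
        ∫ t in (δ * T)..((1 - δ) * T), (min (‖G0 T w t‖ ^ 2) B + 1 / B * ‖G0 T w t‖ ^ 4) := by
      refine intervalIntegral.integral_mono_on hδT' (c2.intervalIntegrable _ _)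
        ((cm.intervalIntegrable _ _).add ((c4.intervalIntegrable _ _).const_mul _)) (fun t _ => ?_)
      exact trunc hB0
    rw [intervalIntegral.integral_add (cm.intervalIntegrable _ _)
      ((c4.intervalIntegrable _ _).const_mul _), intervalIntegral.integral_const_mul] at h1
    have h2 : ∫ t in (δ * T)..((1 - δ) * T), ‖G0 T w t‖ ^ 4 ≤ C4 * T := by
      rw [intervalIntegral.integral_of_le hδT']
      exact (setIntegral_le_integral hf4i
        (Filter.Eventually.of_forall (fun t => by positivity))).trans hf4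
    have h3 : 1 / B * (∫ t in (δ * T)..((1 - δ) * T), ‖G0 T w t‖ ^ 4) ≤ 1 / B * (C4 * T) :=
      mul_le_mul_of_nonneg_left h2 (by positivity)
    linarith
  -- comparison
  have s4 : ∫ t in (δ * T)..((1 - δ) * T), min (‖G0 T w t‖ ^ 2) B ≤
      (1 + θ) * (∫ t in (δ * T)..((1 - δ) * T), min (‖PP T w t‖ ^ 2) B) +
      (1 + 1 / θ) * ∫ t in (δ * T)..((1 - δ) * T), min (‖PP T w t + G0 T w t‖ ^ 2) B := by
    rw [← intervalIntegral.integral_const_mul, ← intervalIntegral.integral_const_mul,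
      ← intervalIntegral.integral_add ((cP.intervalIntegrable _ _).const_mul _)
        ((cR.intervalIntegrable _ _).const_mul _)]
    refine intervalIntegral.integral_mono_on hδT' (cm.intervalIntegrable _ _)
      (((cP.intervalIntegrable _ _).const_mul _).add ((cR.intervalIntegrable _ _).const_mul _))
      (fun t _ => ?_)
    exact pt2 hθ hB0 (PP T w t) (G0 T w t)
  have p1 : ∫ t in (δ * T)..((1 - δ) * T), min (‖PP T w t‖ ^ 2) B ≤ T * MP T w B := by
    have e1 : T * MP T w B = ∫ t in (0:ℝ)..T, min (‖PP T w t‖ ^ 2) B := by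
      unfold MP
      rw [← mul_assoc, mul_one_div_cancel hT0.ne', one_mul]
    rw [e1]
    refine intervalIntegral.integral_mono_interval hδT hδT' hδT''
      (Filter.Eventually.of_forall (fun t => ?_)) (cP.intervalIntegrable _ _)
    exact le_min (by positivity) hB0.le
  have r1 := mul_le_mul_of_nonneg_left p1 (show 0 ≤ 1 + θ by positivity)
  have r2 := mul_le_mul_of_nonneg_left hcm hκ0.le
  have r3 : (1 + 1 / θ) * (ε * T) = θ / 4 * T := by rw [← mul_assoc, hεθ]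
  have r4 : Ce * Real.sqrt δ * T ≤ θ / 4 * T := mul_le_mul_of_nonneg_right hδθ hT0.le
  have r5 : 1 / B * C4 * T ≤ θ / 4 * T := mul_le_mul_of_nonneg_right hBθ hT0.le
  have q7 : T * FT T (fun α => ‖w α‖ ^ 2) ≤ T * ((1 + θ) * MP T w B + θ) := by
    have e2 : T * ((1 + θ) * MP T w B + θ) = (1 + θ) * (T * MP T w B) + θ * T := by ring
    have e3 : 0 ≤ θ * T := by positivity
    rw [e2]
    linarith
  exact le_of_mul_le_mul_left q7 hT0

end Pool.Agent.Helper93.LP
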