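import Pool.Agent.Helper93.LP.FTd
import Pool.Agent.Helper69.GGM.OD

/-!
# LP block FTl: the one-sided law on the Fourier side gives the two-sided law for the Poisson kernels

Proof. `V(c) = (1-e^{-c})/c²`; for `0 < c`: `1/c - 1/2 ≤ V(c)` and `V(c) ≤ 1/c - 1/2 + c/6` (Taylor).
Upper half: `upper_exp` with `c₀ = 2a` (`VV a = V(2a)`). Lower half: for `0 < c < c₀`
`WP(Pk c₀)/SN = WP(Pk c)/SN - (WP(Pk c) - WP(Pk c₀))/SN ≥ NT T/(c SN T) - (V(c) - V(c₀)) - ε`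
(diagonal: `WP T φ ≥ NT T * φ 0` for `φ ≥ 0`, i.e. pairs `(ρ,ρ)`, `mult ≥ 1`, `Pk c 0 = 1/c`; `NT T/SN T → 1`, see `NT_lower` as used in
GGM/OD.lean; `upper_diff`), which tends to `1/c - V(c) + V(c₀) - ε ≥ 1/2 - c/6 + V(c₀) - ε`. Choose `c` small.
-/

open Complex Set MeasureTheory Filter Topology
open Pool.Agent.Helper57.LH Pool.Agent.Helper57.PC Pool.Agent.Helper57.Zeta
open Pool.Agent.Helper69.GGM

namespace Pool.Agent.Helper93.LP

namespace FTl

lemma diag_le {T : ℝ} {φ : ℝ → ℝ} (hφ : ∀ u, 0 ≤ φ u) : NT T * φ 0 ≤ WP T φ := by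
  classical
  unfold WP
  rw [Finset.sum_product]
  unfold NT
  rw [Finset.sum_mul]
  refine Finset.sum_le_sum fun ρ hρ => ?_
  have hρ' := mem_Zf.mp hρ
  have hm := od_mult_one_le hρ'.1
  have hterm : ∀ ρ' : ℂ, (0 : ℝ) ≤ (mult ρ : ℝ) * (mult ρ' : ℝ) * φ (nd T (ρ, ρ')) := by
    intro ρ'
    exact mul_nonneg (by positivity) (hφ _)
  refine le_trans ?_ (Finset.single_le_sum (f := fun ρ' => (mult ρ : ℝ) * (mult ρ' : ℝ) * φ (nd T (ρ, ρ')))
    (fun ρ' _ => hterm ρ') hρ)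
  show (mult ρ : ℝ) * φ 0 ≤ (mult ρ : ℝ) * (mult ρ : ℝ) * φ (nd T (ρ, ρ))
  have hnd : nd T (ρ, ρ) = 0 := by
    unfold nd
    simp
  rw [hnd]
  apply mul_le_mul_of_nonneg_right _ (hφ 0)
  nlinarith

/-- Taylor bound -/
lemma taylor {c : ℝ} (hc : 0 < c) (hc1 : c ≤ 1) :
    (1 - Real.exp (-c)) / c ^ 2 ≤ 1 / c - 1 / 2 + c / 4 := by
  have h := Real.exp_bound (x := -c) (by rw [abs_neg, abs_of_pos hc]; exact hc1) (n := 3) (by norm_num)
  have h2 := (abs_le.mp h).1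
  simp [Finset.sum_range_succ, Nat.factorial] at h2
  rw [abs_of_pos hc] at h2
  have hc2 : 0 < c ^ 2 := by positivity
  have hc3 : 0 < c ^ 3 := by positivity
  rw [div_le_iff₀ hc2]
  have e : (1 / c - 1 / 2 + c / 4) * c ^ 2 = c - c ^ 2 / 2 + c ^ 3 / 4 := by
    field_simp
  rw [e]
  nlinarith

end FTl

theorem lawP_of_upF {l : Filter ℝ} (hl : l ≤ atTop) (h : UpF l) : LawP l := by
  intro a ha
  rw [Metric.tendsto_nhds]
  intro η hη
  have h2a : (0:ℝ) < 2 * a := by linarith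
  have hVV : VV a = (1 - Real.exp (-(2 * a))) / (2 * a) ^ 2 := by
    unfold VV
    congr 1
    · congr 2
      ring
    · ring
  have hε : 0 < η / 4 := by linarith
  obtain ⟨ε, hεdef⟩ : ∃ ε, ε = η / 4 := ⟨_, rfl⟩
  rw [← hεdef] at hε
  obtain ⟨c, hcdef⟩ : ∃ c, c = min 1 (min a ε) := ⟨_, rfl⟩
  have hc : 0 < c := by rw [hcdef]; exact lt_min one_pos (lt_min ha hε)
  have hc1 : c ≤ 1 := by rw [hcdef]; exact min_le_left _ _
  have hca : c ≤ a := by rw [hcdef]; exact (min_le_right _ _).trans (min_le_left _ _)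
  have hce : c ≤ ε := by rw [hcdef]; exact (min_le_right _ _).trans (min_le_right _ _)
  have hup := upper_exp hl h h2a hε
  have hdiff := upper_diff hl h hc (by linarith : c < 2 * a) hε
  obtain ⟨T₀, hT₀⟩ := NT_lower (ε * c) (by positivity)
  have h1 : ∀ᶠ T : ℝ in l, T₀ ≤ T := hl (eventually_ge_atTop T₀)
  have h2 : ∀ᶠ T : ℝ in l, 1 < T := hl (eventually_gt_atTop 1)
  filter_upwards [h1, h2, hup, hdiff] with T g1 g2 g3 g4
  have hSN : 0 < SN T := SN_pos g2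
  have hNT := hT₀ T g1
  have e : (1 - ε * c) * (T * Real.log T / (2 * Real.pi)) = (1 - ε * c) * SN T := rfl
  rw [e] at hNT
  have hd := FTl.diag_le (T := T) (φ := Pk c) (Pk_nonneg hc)
  have hPk0 : Pk c 0 = 1 / c := by
    unfold Pk
    rw [mul_zero]
    field_simp
    ring
  rw [hPk0] at hd
  have hlow : 1 / c - ε ≤ WP T (Pk c) / SN T := by
    rw [le_div_iff₀ hSN]
    refine le_trans ?_ hd
    have : (1 / c - ε) * SN T = (1 - ε * c) * SN T * (1 / c) := by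
      field_simp
    rw [this]
    exact mul_le_mul_of_nonneg_right hNT (by positivity)
  have ht := FTl.taylor hc hc1
  rw [sub_div] at g4
  rw [Real.dist_eq, hVV, abs_lt]
  constructor <;> nlinarith

end Pool.Agent.Helper93.LP
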