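import Pool.Agent.Helper93.LP.FTu

/-!
# LP block FTw: from the Poisson kernels to all smooth weights (Weierstrass)

Proof. Fix `w` (`WR w a b`). Put `q(y) = w(α)² e^{α}` for `y = e^{-α} ∈ (0,1)`, `q = 0` near `0` and `1`: a continuous
function on `[0,1]` (`q(y) = w(-log y)²/y`, support in `[e^{-b},e^{-a}]`). By the Weierstrass theorem
(`exists_polynomial_near_of_continuousOn`) there is a polynomial `p = Σ p_j y^j` with `|q - p| ≤ ε` on `[0,1]`. Then for `α > 0`
`|w(α)² - Σ_j p_j e^{-(j+1)α}| ≤ ε e^{-α}`, so by `FT_mono`, `FT_add`, `FT_smul`, `FT_exp`: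
`|FT T (w²) - Σ_j p_j WP(Pk (j+1))/SN| ≤ ε WP(Pk 1)/SN`. `LawP l` (with `2a = j+1`): `WP(Pk c)/SN → 1/2 + (1-e^{-c})/c²
= 1/2 + ∫ min α 1 e^{-cα}` (`min_exp_integral`). The limit of the main part is `Σ_j p_j/2 + ∫ min α 1 Σ p_j e^{-(j+1)α}`, where
`|Σ p_j| = |p(1) - q(1)| ≤ ε` and the integral is within `ε` of `VW w`. Let `ε → 0`.
-/

open Complex Set MeasureTheory Filter Topology
open Pool.Agent.Helper57.LH Pool.Agent.Helper57.PC Pool.Agent.Helper57.Zeta
open Pool.Agent.Helper69.GGM

namespace Pool.Agent.Helper93.LP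

namespace FTwaux

/-- the exponential sum of a polynomial -/
noncomputable def EE (p : Polynomial ℝ) (α : ℝ) : ℝ := Real.exp (-α) * p.eval (Real.exp (-α))

theorem EE_monomial (n : ℕ) (a α : ℝ) :
    EE (Polynomial.monomial n a) α = a * Real.exp (-((n : ℝ) + 1) * α) := by
  rw [EE, Polynomial.eval_monomial, ← Real.exp_nat_mul]
  have h1 : Real.exp (-((n : ℝ) + 1) * α) = Real.exp (-α) * Real.exp (n * -α) := by
    rw [← Real.exp_add]
    congr 1
    ring
  rw [h1]
  ring

theorem exp_int {c : ℝ} (hc : 0 < c) : IntegrableOn (fun α => Real.exp (-c * α)) (Ioi 0) :=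
  exp_neg_integrableOn_Ioi 0 hc

theorem law {l : Filter ℝ} (h : LawP l) {c : ℝ} (hc : 0 < c) :
    Tendsto (fun T : ℝ => WP T (Pk c) / SN T) l (𝓝 (1 / 2 + (1 - Real.exp (-c)) / c ^ 2)) := by
  have h1 := h (c / 2) (by positivity)
  have h2 : 2 * (c / 2) = c := by ring
  have h3 : VV (c / 2) = (1 - Real.exp (-c)) / c ^ 2 := by
    rw [VV]
    congr 1
    · congr 2
      ring
    · ring
  rw [h2, h3] at h1
  exact h1

theorem poly {l : Filter ℝ} (hl : l ≤ atTop) (h : LawP l) (p : Polynomial ℝ) :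
    IntegrableOn (EE p) (Ioi 0) ∧ IntegrableOn (fun α => min α 1 * EE p α) (Ioi 0) ∧
      Tendsto (fun T => FT T (EE p)) l
        (𝓝 (p.eval 1 / 2 + ∫ α in Ioi (0:ℝ), min α 1 * EE p α)) := by
  have hT : ∀ᶠ T : ℝ in l, 1 < T := hl (eventually_gt_atTop 1)
  induction p using Polynomial.induction_on' with
  | add p q hp hq =>
    have h1 : EE (p + q) = fun α => EE p α + EE q α := by
      funext α
      simp only [EE, Polynomial.eval_add]
      ring
    have h2 : (fun α => min α 1 * EE (p + q) α) =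
        fun α => min α 1 * EE p α + min α 1 * EE q α := by
      funext α
      rw [h1]
      ring
    refine ⟨?_, ?_, ?_⟩
    · rw [h1]
      exact hp.1.add hq.1
    · rw [h2]
      exact hp.2.1.add hq.2.1
    · rw [h2, integral_add hp.2.1 hq.2.1, Polynomial.eval_add]
      have h3 := hp.2.2.add hq.2.2
      have h4 : p.eval 1 / 2 + (∫ α in Ioi (0:ℝ), min α 1 * EE p α) +
          (q.eval 1 / 2 + ∫ α in Ioi (0:ℝ), min α 1 * EE q α) =
          (p.eval 1 + q.eval 1) / 2 + ((∫ α in Ioi (0:ℝ), min α 1 * EE p α) +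
            ∫ α in Ioi (0:ℝ), min α 1 * EE q α) := by ring
      rw [h4] at h3
      refine h3.congr' ?_
      filter_upwards [hT] with T hT1
      rw [h1, FT_add hT1 hp.1 hq.1]
  | monomial n a =>
    have hn : (0 : ℝ) < (n : ℝ) + 1 := by positivity
    have h1 : EE (Polynomial.monomial n a) = fun α => a * Real.exp (-((n : ℝ) + 1) * α) := by
      funext α
      exact EE_monomial n a α
    have h2 : (fun α => min α 1 * EE (Polynomial.monomial n a) α) =
        fun α => a * (min α 1 * Real.exp (-((n : ℝ) + 1) * α)) := by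
      funext α
      rw [h1]
      ring
    refine ⟨?_, ?_, ?_⟩
    · rw [h1]
      exact (exp_int hn).const_mul a
    · rw [h2]
      exact (min_exp_integral hn).1.const_mul a
    · rw [h2, integral_const_mul, (min_exp_integral hn).2, Polynomial.eval_monomial]
      have h3 := (law h hn).const_mul a
      have h4 : a * 1 ^ n / 2 + a * ((1 - Real.exp (-((n : ℝ) + 1))) / ((n : ℝ) + 1) ^ 2) =
          a * (1 / 2 + (1 - Real.exp (-((n : ℝ) + 1))) / ((n : ℝ) + 1) ^ 2) := by
        rw [one_pow]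
        ring
      rw [h4]
      refine h3.congr' ?_
      filter_upwards [hT] with T hT1
      rw [h1, FT_smul hT1 (exp_int hn), FT_exp hT1 hn]

/-- the function on `[0,1]` -/
noncomputable def qq (w : ℝ → ℝ) (y : ℝ) : ℝ := w (-Real.log y) ^ 2 / y

theorem w_zero {w : ℝ → ℝ} {a b : ℝ} (hw : WR w a b) : w 0 = 0 := by
  by_contra h0
  have h1 := (hw.2.2.2 0 h0).1
  linarith [hw.2.1]

theorem qq_cont {w : ℝ → ℝ} {a b : ℝ} (hw : WR w a b) : ContinuousOn (qq w) (Icc 0 1) := by
  intro y hy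
  by_cases hy0 : y = 0
  · subst hy0
    have h0 : qq w 0 = 0 := by
      rw [qq, div_zero]
    rw [ContinuousWithinAt, h0]
    refine tendsto_const_nhds.congr' ?_
    have h1 : ∀ᶠ z : ℝ in 𝓝[Icc 0 1] (0:ℝ), z < Real.exp (-b) :=
      nhdsWithin_le_nhds (Iio_mem_nhds (Real.exp_pos _))
    filter_upwards [h1, self_mem_nhdsWithin] with z hz hz1
    rw [qq]
    rcases hz1.1.eq_or_lt with h2 | h2
    · rw [← h2, div_zero]
    · have h3 : w (-Real.log z) = 0 := by
        by_contra h4
        have h5 := (hw.2.2.2 _ h4).2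
        have h6 : Real.log z < -b := (Real.log_lt_iff_lt_exp h2).2 hz
        linarith
      rw [h3]
      ring
  · refine ContinuousAt.continuousWithinAt ?_
    unfold qq
    refine ContinuousAt.div ?_ continuousAt_id hy0
    refine ContinuousAt.pow ?_ 2
    exact ContinuousAt.comp (g := w) hw.1.continuous.continuousAt (Real.continuousAt_log hy0).neg

end FTwaux

open FTwaux

theorem weier {l : Filter ℝ} (hl : l ≤ atTop) (h : LawP l) {w : ℝ → ℝ} {a b : ℝ} (hw : WR w a b) :
    Tendsto (fun T : ℝ => FT T (fun α => w α ^ 2)) l (𝓝 (VW w)) := by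
  rw [Metric.tendsto_nhds]
  intro δ hδ
  set ε : ℝ := δ / 10 with hεd
  have hε : 0 < ε := by positivity
  obtain ⟨p, hp⟩ := exists_polynomial_near_of_continuousOn 0 1 (qq w) (qq_cont hw) ε hε
  have key : ∀ α : ℝ, 0 < α → |EE p α - w α ^ 2| ≤ ε * Real.exp (-1 * α) := by
    intro α hα
    have h1 : Real.exp (-α) ∈ Icc (0:ℝ) 1 :=
      ⟨(Real.exp_pos _).le, Real.exp_le_one_iff.2 (by linarith)⟩
    have h2 := (hp _ h1).le
    rw [qq, Real.log_exp, neg_neg] at h2
    have h3 : EE p α - w α ^ 2 = Real.exp (-α) *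
        (p.eval (Real.exp (-α)) - w α ^ 2 / Real.exp (-α)) := by
      rw [EE]
      field_simp
    rw [h3, abs_mul, abs_of_pos (Real.exp_pos _), neg_one_mul, mul_comm]
    exact mul_le_mul_of_nonneg_right h2 (Real.exp_pos _).le
  obtain ⟨hP1, hP2, hP3⟩ := poly hl h p
  have hE := law h one_pos
  have hwI := WR_integrable hw
  have heI : IntegrableOn (fun α : ℝ => Real.exp (-1 * α)) (Ioi 0) := exp_int one_pos
  have hwM : IntegrableOn (fun α => min α 1 * w α ^ 2) (Ioi 0) := by
    refine Integrable.mono' hwI ?_ ?_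
    · refine Continuous.aestronglyMeasurable ?_
      exact (continuous_id.min continuous_const).mul (hw.1.continuous.pow 2)
    · refine (ae_restrict_iff' measurableSet_Ioi).2 (Eventually.of_forall fun α hα => ?_)
      have hα0 : (0:ℝ) < α := hα
      rw [Real.norm_eq_abs, abs_of_nonneg (by positivity)]
      exact mul_le_of_le_one_left (sq_nonneg _) (min_le_right _ _)
  have hΛ : |(p.eval 1 / 2 + ∫ α in Ioi (0:ℝ), min α 1 * EE p α) - VW w| ≤ 2 * ε := by
    have h1 : |p.eval 1| ≤ ε := by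
      have h2 := (hp 1 ⟨zero_le_one, le_refl 1⟩).le
      rw [qq, Real.log_one, neg_zero, w_zero hw] at h2
      simpa using h2
    have h3 : |(∫ α in Ioi (0:ℝ), min α 1 * EE p α) - VW w| ≤ ε := by
      rw [VW, ← integral_sub hP2 hwM]
      have h4 := norm_integral_le_of_norm_le (μ := volume.restrict (Ioi (0:ℝ)))
        (f := fun α => min α 1 * EE p α - min α 1 * w α ^ 2)
        ((min_exp_integral one_pos).1.const_mul ε)
        ((ae_restrict_iff' measurableSet_Ioi).2 (Eventually.of_forall fun α hα => by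
          have hα0 : (0:ℝ) < α := hα
          have hm : 0 ≤ min α 1 := by positivity
          rw [Real.norm_eq_abs, ← mul_sub, abs_mul, abs_of_nonneg hm]
          calc _ ≤ min α 1 * (ε * Real.exp (-1 * α)) := mul_le_mul_of_nonneg_left (key α hα0) hm
            _ = _ := by ring))
      rw [Real.norm_eq_abs, integral_const_mul, (min_exp_integral one_pos).2] at h4
      refine h4.trans ?_
      have h5 : (1 - Real.exp (-1)) / (1:ℝ) ^ 2 ≤ 1 := by
        have := Real.exp_pos (-1)
        rw [one_pow, div_one]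
        linarith
      calc _ ≤ ε * 1 := mul_le_mul_of_nonneg_left h5 hε.le
        _ = ε := mul_one ε
    rw [abs_le] at h1 h3 ⊢
    constructor
    · linarith [h1.1, h3.1]
    · linarith [h1.2, h3.2]
  have hE2 : ∀ᶠ T : ℝ in l, WP T (Pk 1) / SN T < 2 := by
    refine hE.eventually_lt_const ?_
    have := Real.exp_pos (-1)
    rw [one_pow, div_one]
    linarith
  have hT : ∀ᶠ T : ℝ in l, 1 < T := hl (eventually_gt_atTop 1)
  have hP4 := (Metric.tendsto_nhds.1 hP3) ε hε
  filter_upwards [hE2, hT, hP4] with T h1 h2 h3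
  have hb1 : FT T (fun α => w α ^ 2) ≤ FT T (EE p) + ε * (WP T (Pk 1) / SN T) := by
    rw [← FT_exp h2 one_pos, ← FT_smul h2 heI, ← FT_add h2 hP1 (heI.const_mul ε)]
    refine FT_mono h2 hwI (hP1.add (heI.const_mul ε)) fun α hα => ?_
    have := (abs_le.1 (key α hα)).1
    linarith
  have hb2 : FT T (EE p) ≤ FT T (fun α => w α ^ 2) + ε * (WP T (Pk 1) / SN T) := by
    rw [← FT_exp h2 one_pos, ← FT_smul h2 heI, ← FT_add h2 hwI (heI.const_mul ε)]
    refine FT_mono h2 hP1 (hwI.add (heI.const_mul ε)) fun α hα => ?_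
    have := (abs_le.1 (key α hα)).2
    linarith
  have hb3 : ε * (WP T (Pk 1) / SN T) ≤ ε * 2 := mul_le_mul_of_nonneg_left h1.le hε.le
  rw [Real.dist_eq] at h3 ⊢
  have h4 := abs_lt.1 h3
  have h5 := abs_le.1 hΛ
  rw [abs_lt]
  constructor
  · linarith [h4.1, h5.1]
  · linarith [h4.2, h5.2]

end Pool.Agent.Helper93.LP
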