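import Pool.Agent.Helper93.LP.PPB
import Pool.Agent.Helper78.SG.MV

/-!
# LP block MVs: prime sums shorter than `T` (unconditional upper bound)

Proof. `L = log T`, `N = ⌊T^b⌋`, `c_n = Λ(n) w(log n/L)/(L sqrt n)` for `n ≤ N` (0 otherwise), `c_0 = c_1 = 0`. Then
`‖PP T w t‖² = (Σ c_n cos(t log n))² + (Σ c_n sin(t log n))²` and `mv_cplx` (SG/MV.lean) gives
`∫_0^T ‖PP‖² ≤ (T + 20 N (1+log N)) Σ c_n²`, `N (1+log N) = o(T)` since `b < 1`. Finally
`Σ c_n² = L^{-2} Σ Λ(n)²/n w(log n/L)² → ∫ α w(α)² dα`: this is `diag_bound`/`diag_asym` of SG/Diag.lean (there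
`co f.h L n` with a weight `f.h` on `[0,1/2]`; ADAPT its proof: `Pool.Agent.Helper57.UB.psum_gen` with `X = b L`), and
`min α 1 = α` on the support. `min (‖PP‖²) B ≤ ‖PP‖²`.
-/

open Complex Set MeasureTheory Filter Topology
open Pool.Agent.Helper57.LH Pool.Agent.Helper57.PC Pool.Agent.Helper57.Zeta
open Pool.Agent.Helper69.GGM
open Pool.Agent.Helper78.SG (mv_cplx)

namespace Pool.Agent.Helper93.LP

namespace MVs

open Pool.Agent.Helper57.LS Pool.Agent.Helper57.UB in
open scoped ArithmeticFunction in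
theorem diag {w : ℝ → ℝ} (hw : ContDiff ℝ (⊤ : ℕ∞) w) {β : ℝ} (hβ : 0 < β) (hβ1 : β ≤ 1) (hend0 : w β = 0) :
    ∃ C : ℝ, ∀ L : ℝ, 1 ≤ L →
    |(1 / L ^ 2 * ∑ n ∈ Finset.range (NX (β * L) + 1), Λ n ^ 2 / n * w (Real.log n / L) ^ 2) -
      ∫ y in (0:ℝ)..β, y * w y ^ 2| ≤ C / L := by
  have hsm1 : Continuous (deriv w) := hw.continuous_deriv (by norm_cast)
  obtain ⟨M, hM⟩ := (isCompact_Icc (a := (0:ℝ)) (b := β)).exists_bound_of_continuousOn
    (hw.continuous.continuousOn)
  obtain ⟨M', hM'⟩ := (isCompact_Icc (a := (0:ℝ)) (b := β)).exists_bound_of_continuousOn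
    (hsm1.continuousOn)
  have hM0 : 0 ≤ M := (norm_nonneg _).trans (hM 0 ⟨le_rfl, hβ.le⟩)
  have hM0' : 0 ≤ M' := (norm_nonneg _).trans (hM' 0 ⟨le_rfl, hβ.le⟩)
  refine ⟨M ^ 2 * CNP + CMe * (M ^ 2 + 2 * (M * M')), fun L hL => ?_⟩
  have hL0 : 0 < L := by linarith
  have hX : 0 < β * L := by positivity
  have hXL : β * L ≤ L := by nlinarith
  have hCM := CMe_pos
  have hCN := CNP_nonneg
  set K : ℝ := M ^ 2 + 2 * (M * M') with hK
  have hK0 : 0 ≤ K := by positivity
  have hrange : ∀ y : ℝ, 0 ≤ y → y ≤ β * L → y / L ∈ Icc (0:ℝ) β := by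
    intro y h0 h1
    refine ⟨by positivity, ?_⟩
    rw [div_le_iff₀ hL0]; linarith
  have hder : ∀ y : ℝ, HasDerivAt (fun y => y * w (y / L) ^ 2)
      (w (y / L) ^ 2 + y * (2 * w (y / L) * (deriv w (y / L) / L))) y := by
    intro y
    have h1 : HasDerivAt (fun y : ℝ => y / L) (1 / L) y := (hasDerivAt_id y).div_const L
    have h2 : HasDerivAt w (deriv w (y / L)) (y / L) :=
      ((hw.differentiable (by simp)) _).hasDerivAt
    have h3 : HasDerivAt (fun y : ℝ => w (y / L)) (deriv w (y / L) * (1 / L)) y :=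
      HasDerivAt.comp y h2 h1
    have h4 := (hasDerivAt_id y).mul (h3.pow 2)
    refine (h4.congr_deriv ?_).congr_of_eventuallyEq (Eventually.of_forall fun x => ?_)
    · simp only [id, Pi.pow_apply]
      push_cast
      ring
    · simp
  have hcont : Continuous (fun y => w (y / L) ^ 2 +
      y * (2 * w (y / L) * (deriv w (y / L) / L))) := by
    have h1 := hw.continuous
    fun_prop
  have hKb : ∀ y, 0 ≤ y → y ≤ β * L →
      |w (y / L) ^ 2 + y * (2 * w (y / L) * (deriv w (y / L) / L))| ≤ K := by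
    intro y h0 h1
    have a1 : |w (y / L)| ≤ M := hM _ (hrange y h0 h1)
    have a2 : |deriv w (y / L)| ≤ M' := hM' _ (hrange y h0 h1)
    have a3 : 0 ≤ y / L := (hrange y h0 h1).1
    have a4 : y / L ≤ 1 := (hrange y h0 h1).2.trans hβ1
    have e1 : y * (2 * w (y / L) * (deriv w (y / L) / L)) =
        2 * (y / L) * (w (y / L) * deriv w (y / L)) := by
      field_simp
    rw [e1]
    refine (abs_add_le _ _).trans ?_
    have b1 : |w (y / L) ^ 2| ≤ M ^ 2 := by
      rw [abs_pow]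
      exact pow_le_pow_left₀ (abs_nonneg _) a1 2
    have b2 : |2 * (y / L) * (w (y / L) * deriv w (y / L))| ≤ 2 * (M * M') := by
      rw [abs_mul, abs_mul (w _)]
      refine mul_le_mul ?_ (mul_le_mul a1 a2 (abs_nonneg _) hM0) (by positivity) (by norm_num)
      rw [abs_of_nonneg (by positivity)]
      linarith
    rw [hK]; linarith
  have h1 := psum_gen hX hder hcont (by simp) hKb
  have hend : β * L * w (β * L / L) ^ 2 = 0 := by
    have : β * L / L = β := by field_simp
    rw [this, hend0]; simp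
  rw [hend, abs_zero, zero_add] at h1
  have hint : ∫ y in (0:ℝ)..(β * L), y * w (y / L) ^ 2 =
      L ^ 2 * ∫ y in (0:ℝ)..β, y * w y ^ 2 := by
    have h := intervalIntegral.integral_comp_mul_left (a := 0) (b := β)
      (fun y => y * w (y / L) ^ 2) hL0.ne'
    rw [mul_zero, smul_eq_mul, show L * β = β * L by ring] at h
    have h2 : ∫ y in (0:ℝ)..(β * L), y * w (y / L) ^ 2 =
        L * ∫ y in (0:ℝ)..β, (L * y) * w (L * y / L) ^ 2 := by
      rw [h, ← mul_assoc, mul_inv_cancel₀ hL0.ne', one_mul]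
    rw [h2, ← intervalIntegral.integral_const_mul, ← intervalIntegral.integral_const_mul]
    apply intervalIntegral.integral_congr
    intro t _
    simp only
    rw [show L * t / L = t by field_simp]
    ring
  rw [hint] at h1
  set A := ∑ n ∈ Finset.range (NX (β * L) + 1), Λ n ^ 2 / n * w (Real.log n / L) ^ 2 with hA
  set B := ∑ n ∈ Finset.range (NX (β * L) + 1),
    (Λ n / n) * (Real.log n * w (Real.log n / L) ^ 2) with hB
  set J := ∫ y in (0:ℝ)..β, y * w y ^ 2 with hJ
  have h2 : |A - B| ≤ L * M ^ 2 * CNP := by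
    rw [hA, hB, ← Finset.sum_sub_distrib]
    refine (Finset.abs_sum_le_sum_abs _ _).trans ?_
    have h3 : ∀ n ∈ Finset.range (NX (β * L) + 1),
        |Λ n ^ 2 / n * w (Real.log n / L) ^ 2 -
          (Λ n / n) * (Real.log n * w (Real.log n / L) ^ 2)| ≤ L * M ^ 2 * (aN n / n) := by
      intro n hn
      rw [Finset.mem_range] at hn
      rcases Nat.eq_zero_or_pos n with rfl | hn0
      · simp
      have hn0' : (0:ℝ) < n := by exact_mod_cast hn0
      have h4 : (n:ℝ) ≤ Real.exp (β * L) :=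
        (Nat.le_floor_iff (Real.exp_pos _).le).mp (by unfold NX at hn; omega)
      have h5 : Real.log n ≤ β * L := by rwa [Real.log_le_iff_le_exp hn0']
      have h50 : 0 ≤ Real.log n := Real.log_natCast_nonneg n
      have e2 : Λ n ^ 2 / n * w (Real.log n / L) ^ 2 -
          (Λ n / n) * (Real.log n * w (Real.log n / L) ^ 2) =
            (Λ n * (Λ n - Real.log n) / n) * w (Real.log n / L) ^ 2 := by ring
      rw [e2, abs_mul]
      have h6 : |Λ n * (Λ n - Real.log n) / n| ≤ L * (aN n / n) := by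
        unfold aN
        split_ifs with hp
        · rw [ArithmeticFunction.vonMangoldt_apply_prime hp, sub_self]; simp
        · have h9 := @ArithmeticFunction.vonMangoldt_nonneg n
          have h10 := @ArithmeticFunction.vonMangoldt_le_log n
          rw [abs_div, abs_mul, abs_of_nonneg h9, abs_of_nonpos (by linarith only [h10]),
            abs_of_pos hn0']
          calc Λ n * -(Λ n - Real.log n) / n ≤ Λ n * L / n := by
                gcongr
                linarith only [h5, h9, hXL]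
            _ = _ := by ring
      have h7 : |w (Real.log n / L) ^ 2| ≤ M ^ 2 := by
        rw [abs_pow]
        exact pow_le_pow_left₀ (abs_nonneg _) (hM _ (hrange _ h50 h5)) 2
      have h8 : 0 ≤ L * (aN n / n) := by
        have := aN_nonneg n
        positivity
      calc _ ≤ L * (aN n / n) * M ^ 2 :=
            mul_le_mul h6 h7 (abs_nonneg _) h8
        _ = _ := by ring
    refine (Finset.sum_le_sum h3).trans ?_
    rw [← Finset.mul_sum]
    exact mul_le_mul_of_nonneg_left (nonprime_sum (NX (β * L))) (by positivity)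
  have e : 1 / L ^ 2 * A - J = 1 / L ^ 2 * ((A - B) + (B - L ^ 2 * J)) := by
    field_simp
    ring
  rw [e, abs_mul, abs_of_pos (by positivity)]
  have h10 : |(A - B) + (B - L ^ 2 * J)| ≤ L * M ^ 2 * CNP + CMe * (K * (β * L)) :=
    (abs_add_le _ _).trans (add_le_add h2 h1)
  have h11 : CMe * (K * (β * L)) ≤ CMe * (K * L) := by gcongr
  calc 1 / L ^ 2 * |(A - B) + (B - L ^ 2 * J)|
      ≤ 1 / L ^ 2 * (L * M ^ 2 * CNP + CMe * (K * L)) :=
        mul_le_mul_of_nonneg_left (h10.trans (by linarith)) (by positivity)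
    _ = _ := by
        field_simp

open scoped ArithmeticFunction in
/-- the coefficients -/
noncomputable def cc (w : ℝ → ℝ) (L : ℝ) (n : ℕ) : ℝ := Λ n * w (Real.log n / L) / (L * Real.sqrt n)

lemma cc_zero (w : ℝ → ℝ) (L : ℝ) : cc w L 0 = 0 := by
  unfold cc
  simp

open scoped ArithmeticFunction in
lemma term_eq (w : ℝ → ℝ) {L : ℝ} (hL : 0 < L) (n : ℕ) (t : ℝ) :
    ((L : ℝ) : ℂ)⁻¹ * (((Λ n : ℝ) : ℂ) * (n : ℂ) ^ (-((1 / 2 : ℂ) + (t : ℂ) * I)) * ((w (Real.log n / L) : ℝ) : ℂ)) =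
      ((cc w L n * Real.cos (Real.log n * t) : ℝ) : ℂ) - ((cc w L n * Real.sin (Real.log n * t) : ℝ) : ℂ) * I := by
  rcases Nat.eq_zero_or_pos n with rfl | hn
  · simp [cc]
  have hn0 : (0:ℝ) < n := by exact_mod_cast hn
  have hnc : (n : ℂ) ≠ 0 := by exact_mod_cast hn.ne'
  have h1 : (n : ℂ) ^ (-((1 / 2 : ℂ) + (t : ℂ) * I)) =
      ((Real.sqrt n)⁻¹ : ℝ) * (((Real.cos (Real.log n * t) : ℝ) : ℂ) - ((Real.sin (Real.log n * t) : ℝ) : ℂ) * I) := by
    rw [neg_add, Complex.cpow_add _ _ hnc]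
    congr 1
    · have h2 : (n : ℂ) ^ (-(1 / 2 : ℂ)) = (((n : ℝ) ^ (-(1 / 2 : ℝ)) : ℝ) : ℂ) := by
        rw [Complex.ofReal_cpow hn0.le]
        push_cast
        ring_nf
      rw [h2, Real.rpow_neg hn0.le, ← Real.sqrt_eq_rpow]
    · rw [Complex.cpow_def_of_ne_zero hnc, ← Complex.natCast_log]
      have h3 : ((Real.log n : ℝ) : ℂ) * -((t : ℂ) * I) = ((-(Real.log n * t) : ℝ) : ℂ) * I := by
        push_cast
        ring
      rw [h3, Complex.exp_mul_I, ← Complex.ofReal_cos, ← Complex.ofReal_sin, Real.cos_neg, Real.sin_neg]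
      push_cast
      ring
  rw [h1]
  unfold cc
  have hs : Real.sqrt n ≠ 0 := (Real.sqrt_pos.mpr hn0).ne'
  push_cast
  have hL' : (L : ℂ) ≠ 0 := by exact_mod_cast hL.ne'
  have hs' : ((Real.sqrt n : ℝ) : ℂ) ≠ 0 := by exact_mod_cast hs
  field_simp

open scoped ArithmeticFunction in
lemma PP_eq {w : ℝ → ℝ} {a b : ℝ} (h : WR w a b) {β : ℝ} (hb : b < β) {T : ℝ} (hT : 1 < T) (t : ℝ) :
    PP T (fun x => (w x : ℂ)) t =
      ((∑ n ∈ Finset.range (NX (β * Real.log T) + 1), cc w (Real.log T) n * Real.cos (Real.log n * t) : ℝ) : ℂ) -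
      ((∑ n ∈ Finset.range (NX (β * Real.log T) + 1), cc w (Real.log T) n * Real.sin (Real.log n * t) : ℝ) : ℂ) * I := by
  have hL : 0 < Real.log T := Real.log_pos hT
  unfold PP
  rw [tsum_eq_sum (s := Finset.range (NX (β * Real.log T) + 1)), Finset.mul_sum]
  · push_cast
    rw [Finset.sum_mul, ← Finset.sum_sub_distrib]
    refine Finset.sum_congr rfl fun n _ => ?_
    have := term_eq w hL n t
    push_cast at this
    rw [this]
  · intro n hn
    have hw : w (Real.log n / Real.log T) = 0 := by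
      by_contra hne
      have h1 := (h.2.2.2 _ hne).2
      rw [div_le_iff₀ hL] at h1
      apply hn
      rw [Finset.mem_range]
      have hn0 : 0 < n := by
        rcases Nat.eq_zero_or_pos n with rfl | h2
        · exfalso
          exact hn (by simp)
        · exact h2
      have hn0' : (0:ℝ) < n := by exact_mod_cast hn0
      have h3 : (n:ℝ) ≤ Real.exp (β * Real.log T) := by
        rw [← Real.log_le_iff_le_exp hn0']
        nlinarith
      have h4 : n ≤ NX (β * Real.log T) := by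
        unfold NX
        exact Nat.le_floor h3
      omega
    simp [hw]

lemma norm_sq_eq (x y : ℝ) : ‖((x : ℝ) : ℂ) - ((y : ℝ) : ℂ) * I‖ ^ 2 = x ^ 2 + y ^ 2 := by
  rw [← Complex.normSq_eq_norm_sq, Complex.normSq_apply]
  simp
  ring

open scoped ArithmeticFunction in
lemma cc_sq (w : ℝ → ℝ) {L : ℝ} (hL : 0 < L) (n : ℕ) :
    cc w L n ^ 2 = 1 / L ^ 2 * (Λ n ^ 2 / n * w (Real.log n / L) ^ 2) := by
  unfold cc
  rw [div_pow, mul_pow, mul_pow, Real.sq_sqrt (Nat.cast_nonneg n)]
  rcases Nat.eq_zero_or_pos n with rfl | hn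
  · simp
  have hn0' : (0:ℝ) < n := by exact_mod_cast hn
  field_simp

lemma VW_eq {w : ℝ → ℝ} {a b : ℝ} (h : WR w a b) {β : ℝ} (hβ0 : 0 < β) (hβ : β ≤ 1) (hb : b < β) :
    VW w = ∫ y in (0:ℝ)..β, y * w y ^ 2 := by
  unfold VW
  rw [intervalIntegral.integral_of_le hβ0.le]
  have h1 : Ioi (0:ℝ) = Ioc 0 β ∪ Ioi β := (Ioc_union_Ioi_eq_Ioi hβ0.le).symm
  have hz : ∀ x ∈ Ioi β, min x 1 * w x ^ 2 = 0 := by
    intro x hx
    have h2 : w x = 0 := by
      by_contra hne
      have := (h.2.2.2 _ hne).2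
      have hx' : β < x := hx
      linarith
    rw [h2]
    simp
  rw [setIntegral_eq_of_subset_of_forall_sdiff_eq_zero measurableSet_Ioi (s := Ioc 0 β)
    (fun x hx => hx.1) (f := fun x => min x 1 * w x ^ 2)]
  · refine setIntegral_congr_fun measurableSet_Ioc fun x hx => ?_
    show min x 1 * w x ^ 2 = x * w x ^ 2
    rw [min_eq_left (hx.2.trans hβ)]
  · rintro x ⟨hx1, hx2⟩
    refine hz x ?_
    by_contra hcon
    exact hx2 ⟨hx1, not_lt.mp hcon⟩

end MVs

theorem short_law {w : ℝ → ℝ} {a b : ℝ} (h : WR w a b) (hb : b < 1) {ε : ℝ} (hε : 0 < ε) :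
    ∀ᶠ T : ℝ in atTop, ∀ B : ℝ, MP T (fun x => (w x : ℂ)) B ≤ VW w + ε := by
  have hb0 : 0 < b := h.2.1.trans_le h.2.2.1
  set β : ℝ := (1 + b) / 2 with hβ
  have hβ0 : 0 < β := by rw [hβ]; linarith
  have hβ1 : β < 1 := by rw [hβ]; linarith
  have hbβ : b < β := by rw [hβ]; linarith
  have hwβ : w β = 0 := by
    by_contra hne
    have := (h.2.2.2 _ hne).2
    linarith
  obtain ⟨C, hC⟩ := MVs.diag h.1 hβ0 hβ1.le hwβ
  have hV := MVs.VW_eq h hβ0 hβ1.le hbβ
  set V := VW w with hVdef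
  -- the limit of the upper bound
  have hlog : Tendsto Real.log atTop atTop := Real.tendsto_log_atTop
  have hlim1 : Tendsto (fun T : ℝ => C / Real.log T) atTop (𝓝 0) := tendsto_const_nhds.div_atTop hlog
  have hlim2 : Tendsto (fun T : ℝ => 20 * (T ^ (β - 1) * (1 + Real.log T))) atTop (𝓝 0) := by
    have h1 : Tendsto (fun T : ℝ => T ^ (-(1 - β))) atTop (𝓝 0) := tendsto_rpow_neg_atTop (by linarith)
    have h2 : Tendsto (fun T : ℝ => Real.log T * T ^ (-(1 - β))) atTop (𝓝 0) := by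
      have h3 := (isLittleO_log_rpow_atTop (show 0 < 1 - β by linarith)).tendsto_div_nhds_zero
      refine h3.congr' ?_
      filter_upwards [eventually_gt_atTop 0] with T hT
      rw [Real.rpow_neg hT.le, div_eq_mul_inv]
    have h4 := (h1.add h2).const_mul 20
    rw [add_zero, mul_zero] at h4
    refine h4.congr fun T => ?_
    rw [show -(1 - β) = β - 1 by ring]
    ring
  have hlim3 : Tendsto (fun T : ℝ => (1 + 20 * (T ^ (β - 1) * (1 + Real.log T))) * (V + C / Real.log T)) atTop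
      (𝓝 V) := by
    have h1 := (hlim2.const_add 1).mul (hlim1.const_add V)
    simpa using h1
  filter_upwards [hlim3.eventually_le_const (show V < V + ε by linarith), eventually_gt_atTop (Real.exp 1)]
    with T hTε hT B
  have hT1 : 1 < T := lt_trans (Real.one_lt_exp_iff.mpr one_pos) hT
  have hT0 : 0 < T := by linarith
  have hL1 : 1 ≤ Real.log T := by
    rw [Real.le_log_iff_exp_le hT0]
    exact hT.le
  have hL0 : 0 < Real.log T := by linarith
  set L := Real.log T with hL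
  set N := NX (β * L) with hN
  refine le_trans ?_ hTε
  set c := MVs.cc w L with hc
  have hN1 : 1 ≤ N := by
    rw [hN]
    unfold NX
    refine Nat.le_floor ?_
    rw [Nat.cast_one]
    exact Real.one_le_exp (by positivity)
  have hNle : (N : ℝ) ≤ T ^ β := by
    rw [hN]
    unfold NX
    refine (Nat.floor_le (Real.exp_pos _).le).trans (le_of_eq ?_)
    rw [Real.rpow_def_of_pos hT0, mul_comm]
  have hN0 : (0:ℝ) < N := by exact_mod_cast hN1
  have hlogN : Real.log N ≤ L := by
    have h1 := Real.log_le_log hN0 hNle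
    rw [Real.log_rpow hT0, ← hL] at h1
    nlinarith
  have hlogN0 : 0 ≤ Real.log N := Real.log_natCast_nonneg N
  have hmv := mv_cplx hN1 c (MVs.cc_zero w L) (a := 0) (b := T) hT0.le
  set S := ∑ n ∈ Finset.range (N + 1), c n ^ 2 with hS
  have hS0 : 0 ≤ S := Finset.sum_nonneg fun n _ => sq_nonneg _
  have hSle : S ≤ V + C / L := by
    have h1 := hC L hL1
    rw [← hV] at h1
    have h2 : S = 1 / L ^ 2 * ∑ n ∈ Finset.range (NX (β * L) + 1),
        ArithmeticFunction.vonMangoldt n ^ 2 / n * w (Real.log n / L) ^ 2 := by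
      rw [hS, Finset.mul_sum]
      exact Finset.sum_congr rfl fun n _ => MVs.cc_sq w hL0 n
    rw [← h2] at h1
    have h3 := (abs_le.mp h1).2
    linarith
  -- the square of the norm
  have hsq : ∀ t, ‖PP T (fun x => (w x : ℂ)) t‖ ^ 2 =
      (∑ n ∈ Finset.range (N + 1), c n * Real.cos (Real.log n * t)) ^ 2 +
        (∑ n ∈ Finset.range (N + 1), c n * Real.sin (Real.log n * t)) ^ 2 := by
    intro t
    rw [MVs.PP_eq h hbβ hT1 t, MVs.norm_sq_eq]
  have hcont : Continuous (fun t => (∑ n ∈ Finset.range (N + 1), c n * Real.cos (Real.log n * t)) ^ 2 +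
        (∑ n ∈ Finset.range (N + 1), c n * Real.sin (Real.log n * t)) ^ 2) := by
    fun_prop
  have hmin : ∫ t in (0:ℝ)..T, min (‖PP T (fun x => (w x : ℂ)) t‖ ^ 2) B ≤
      ∫ t in (0:ℝ)..T, ((∑ n ∈ Finset.range (N + 1), c n * Real.cos (Real.log n * t)) ^ 2 +
        (∑ n ∈ Finset.range (N + 1), c n * Real.sin (Real.log n * t)) ^ 2) := by
    simp_rw [hsq]
    refine intervalIntegral.integral_mono_on hT0.le ?_ ?_ fun t _ => min_le_left _ _
    · exact (hcont.min continuous_const).intervalIntegrable _ _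
    · exact hcont.intervalIntegrable _ _
  unfold MP
  have hfac : (T - 0 + 20 * N * (1 + Real.log N)) ≤ T * (1 + 20 * (T ^ (β - 1) * (1 + L))) := by
    have h1 : (N : ℝ) * (1 + Real.log N) ≤ T ^ β * (1 + L) :=
      mul_le_mul hNle (by linarith) (by linarith) (by positivity)
    have h2 : T * (T ^ (β - 1) * (1 + L)) = T ^ β * (1 + L) := by
      rw [← mul_assoc]
      congr 1
      rw [Real.rpow_sub hT0, Real.rpow_one]
      field_simp
    nlinarith
  calc 1 / T * ∫ t in (0:ℝ)..T, min (‖PP T (fun x => (w x : ℂ)) t‖ ^ 2) B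
      ≤ 1 / T * ((T - 0 + 20 * N * (1 + Real.log N)) * S) :=
        mul_le_mul_of_nonneg_left (hmin.trans hmv) (by positivity)
    _ ≤ 1 / T * ((T * (1 + 20 * (T ^ (β - 1) * (1 + L)))) * (V + C / L)) := by
        refine mul_le_mul_of_nonneg_left (mul_le_mul hfac hSle hS0 (by positivity)) (by positivity)
    _ = _ := by
        field_simp

end Pool.Agent.Helper93.LP
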