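import Pool.Agent.Helper93.LP.KerDef

/-!
# LP block Cont: an entire function is far from a sum with poles on some point of the circle (Mathlib only)

Proof. Suppose `‖G b - Σ ..‖ < 1` on the whole circle (compact, continuous there since `‖z j - z j₀‖ ≠ r`, so the maximum
is `< 1`). Then `|∮ (G - Σ)| < 2πr ≤ 2π`. But `∮ G = 0` (Cauchy), `∮ φ(b - z j)/(b - z j) db = 2πi φ(0) = 2πi` if
`‖z j - z j₀‖ < r` (Cauchy's integral formula) and `0` if `> r` (holomorphic in the closed disc), so the integral is `-2πi` times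
a sum of `m j ≥ 1` over a set containing `j₀`, of modulus `≥ 2π`. Contradiction.
-/

open Complex Set MeasureTheory Filter Topology
open Pool.Agent.Helper57.LH Pool.Agent.Helper57.PC Pool.Agent.Helper57.Zeta
open Pool.Agent.Helper69.GGM

namespace Pool.Agent.Helper93.LP

theorem contour_contra {ι : Type*} (J : Finset ι) (m : ι → ℝ) (z : ι → ℂ) {G φ : ℂ → ℂ}
    (hG : Differentiable ℂ G) (hφ : Differentiable ℂ φ) (h0 : φ 0 = 1) (hm : ∀ j ∈ J, 1 ≤ m j)
    {j₀ : ι} (hj : j₀ ∈ J) {r : ℝ} (hr : 0 < r) (hr1 : r ≤ 1) (hne : ∀ j ∈ J, ‖z j - z j₀‖ ≠ r) :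
    ∃ b : ℂ, ‖b - z j₀‖ = r ∧ 1 ≤ ‖G b - ∑ j ∈ J, (m j : ℂ) * (φ (b - z j) / (b - z j))‖ := by
  classical
  obtain ⟨c, hc⟩ : ∃ c : ℂ, c = z j₀ := ⟨_, rfl⟩
  rw [← hc] at hne ⊢
  have hne' : ∀ j ∈ J, ∀ b ∈ Metric.sphere c r, b - z j ≠ 0 := by
    intro j hjJ b hb h
    have hbz : b = z j := sub_eq_zero.mp h
    rw [hbz, mem_sphere_iff_norm] at hb
    exact hne j hjJ hb
  have hφj : ∀ j, Differentiable ℂ (fun b => φ (b - z j)) := fun j =>
    hφ.comp (differentiable_id.sub_const (z j))
  have hcj : ∀ j ∈ J, ContinuousOn (fun b => φ (b - z j) / (b - z j)) (Metric.sphere c r) := fun j hjJ =>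
    ContinuousOn.div (hφj j).continuous.continuousOn (continuous_id.sub continuous_const).continuousOn (hne' j hjJ)
  have hcm : ∀ j ∈ J, ContinuousOn (fun b => (m j : ℂ) * (φ (b - z j) / (b - z j))) (Metric.sphere c r) := fun j hjJ =>
    continuousOn_const.mul (hcj j hjJ)
  have hcs : ContinuousOn (fun b => ∑ j ∈ J, (m j : ℂ) * (φ (b - z j) / (b - z j))) (Metric.sphere c r) :=
    continuousOn_finset_sum _ hcm
  have hcf : ContinuousOn (fun b => G b - ∑ j ∈ J, (m j : ℂ) * (φ (b - z j) / (b - z j))) (Metric.sphere c r) :=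
    hG.continuous.continuousOn.sub hcs
  obtain ⟨b₀, hb₀, hmax⟩ := (isCompact_sphere c r).exists_isMaxOn (NormedSpace.sphere_nonempty.mpr hr.le) hcf.norm
  refine ⟨b₀, mem_sphere_iff_norm.mp hb₀, ?_⟩
  by_contra hlt
  push Not at hlt
  have hI : ∀ j ∈ J, (∮ b in C(c, r), φ (b - z j) / (b - z j)) = if ‖z j - c‖ < r then 2 * Real.pi * I else 0 := by
    intro j hjJ
    split_ifs with h
    · have h1 := ((hφj j).diffContOnCl (s := Metric.ball c r)).circleIntegral_sub_inv_smul (w := z j)
        (mem_ball_iff_norm.mpr h)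
      rw [sub_self, h0] at h1
      have h2 : (fun b => φ (b - z j) / (b - z j)) = fun b => (b - z j)⁻¹ • φ (b - z j) := by
        funext b
        rw [smul_eq_mul, div_eq_inv_mul]
      rw [h2, h1, smul_eq_mul, mul_one]
    · have h3 : ∀ b ∈ Metric.closedBall c r, b - z j ≠ 0 := by
        intro b hb hbz
        have hbz' : b = z j := sub_eq_zero.mp hbz
        rw [hbz', mem_closedBall_iff_norm] at hb
        exact hne j hjJ (le_antisymm hb (not_lt.mp h))
      refine Complex.circleIntegral_eq_zero_of_differentiable_on_off_countable hr.le (s := ∅) countable_empty ?_ ?_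
      · exact ContinuousOn.div (hφj j).continuous.continuousOn (continuous_id.sub continuous_const).continuousOn h3
      · intro b hb
        exact (hφj j b).div ((differentiable_id.sub_const (z j)) b) (h3 b (Metric.ball_subset_closedBall hb.1))
  have hIG : (∮ b in C(c, r), G b) = 0 :=
    Complex.circleIntegral_eq_zero_of_differentiable_on_off_countable hr.le (s := ∅) countable_empty
      hG.continuous.continuousOn (fun b _ => hG b)
  have hint : (∮ b in C(c, r), (G b - ∑ j ∈ J, (m j : ℂ) * (φ (b - z j) / (b - z j)))) =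
      -((∑ j ∈ J, if ‖z j - c‖ < r then m j else 0 : ℝ) : ℂ) * (2 * Real.pi * I) := by
    rw [circleIntegral.integral_sub (hG.continuous.continuousOn.circleIntegrable hr.le) (hcs.circleIntegrable hr.le), hIG,
      circleIntegral.integral_fun_sum (fun j hjJ => (hcm j hjJ).circleIntegrable hr.le), zero_sub, neg_mul, Complex.ofReal_sum, Finset.sum_mul]
    congr 1
    refine Finset.sum_congr rfl fun j hjJ => ?_
    rw [circleIntegral.integral_const_mul, hI j hjJ]
    split_ifs <;> simp
  have hsum : 1 ≤ ∑ j ∈ J, if ‖z j - c‖ < r then m j else 0 := by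
    calc (1 : ℝ) ≤ if ‖z j₀ - c‖ < r then m j₀ else 0 := by
          rw [hc, sub_self, norm_zero, if_pos hr]
          exact hm j₀ hj
      _ ≤ _ := by
          refine Finset.single_le_sum (f := fun j => if ‖z j - c‖ < r then m j else 0) (fun j hjJ => ?_) hj
          have := hm j hjJ
          split_ifs <;> linarith
  have hle : ‖∮ b in C(c, r), (G b - ∑ j ∈ J, (m j : ℂ) * (φ (b - z j) / (b - z j)))‖ ≤
      2 * Real.pi * r * ‖G b₀ - ∑ j ∈ J, (m j : ℂ) * (φ (b₀ - z j) / (b₀ - z j))‖ :=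
    circleIntegral.norm_integral_le_of_norm_le_const hr.le fun b hb => hmax hb
  rw [hint, norm_mul, norm_neg, Complex.norm_real, Real.norm_eq_abs, abs_of_nonneg (by linarith)] at hle
  have h2 : ‖(2 * Real.pi * I : ℂ)‖ = 2 * Real.pi := by
    rw [norm_mul, norm_mul, Complex.norm_I, mul_one, Complex.norm_real, Real.norm_eq_abs, abs_of_pos Real.pi_pos]
    simp
  rw [h2] at hle
  have hpi := Real.pi_pos
  have h3 : 2 * Real.pi * r * ‖G b₀ - ∑ j ∈ J, (m j : ℂ) * (φ (b₀ - z j) / (b₀ - z j))‖ < 2 * Real.pi * r * 1 :=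
    mul_lt_mul_of_pos_left hlt (by positivity)
  have h4 : 2 * Real.pi * r * 1 ≤ 2 * Real.pi := by nlinarith
  have h5 : 2 * Real.pi ≤ (∑ j ∈ J, if ‖z j - c‖ < r then m j else 0) * (2 * Real.pi) := by nlinarith
  linarith

end Pool.Agent.Helper93.LP
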