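import Pool.Agent.Helper93.LP.DPR

/-!
# LP block DPL: upper bounds for `Pol` and `PR` (s = 1)

* `Pol_le`, `PR_le`: `#J₁ ≤ (1+100Λ²) Λ² ` (`sum_le`, `m ≥ 1`); for `0 ≤ re b ≤ Λ+2`, `|im b| ≤ 5Λ`: `|b - z j| ≤ 20Λ` for `j ∈ J₁`
  (`|re z j| ≤ Λ` by `near`, `10Λ < exp(cΛ)`), so products of at most `#J₁` factors are `≤ (20Λ)^{#J₁}` (`20Λ ≥ 1`);
  `s = 1`: `‖tm E 1 y‖ ≤ e^{2|re y|} ≤ e^{4Λ+4}` for near points (`Ebd`), `‖y‖ ≥ 1` for `j ∉ J₁`, `Σ_near m ≤ (1+e^{2cΛ})Λ²`,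
  far points `far_small`. Everything is `≤ exp(C Λ^4 log Λ) ≤ exp(Λ^5)` for `Λ` large.
-/

open Complex Set MeasureTheory Filter Topology
open Pool.Agent.Helper57.LH Pool.Agent.Helper57.PC Pool.Agent.Helper57.Zeta
open Pool.Agent.Helper69.GGM

namespace Pool.Agent.Helper93.LP

private theorem dpl_tm_one_le {k : ℕ} {h A : ℝ} {χ : ℝ → ℝ} {E : ℂ → ℂ} (hK : IsKer k h A χ E) (y : ℂ) :
    ‖tm E 1 y‖ ≤ Real.exp (2 * |y.re|) := by
  unfold tm
  rw [norm_mul, Complex.norm_exp]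
  have h1 : (-(((1:ℝ) : ℂ) * y)).re = - y.re := by simp
  rw [h1]
  have h2 : Real.exp (-y.re) ≤ Real.exp |y.re| := Real.exp_le_exp.mpr (neg_le_abs _)
  calc Real.exp (-y.re) * ‖E y‖ ≤ Real.exp |y.re| * Real.exp |y.re| :=
        mul_le_mul h2 (hK.Ebd y) (norm_nonneg _) (Real.exp_pos _).le
    _ = Real.exp (2 * |y.re|) := by rw [← Real.exp_add]; ring_nf

private theorem dpl_prod_le {ι : Type} (s : Finset ι) (z : ι → ℂ) (b : ℂ) {B : ℝ} {n : ℕ} (hB : 1 ≤ B)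
    (hs : s.card ≤ n) (h : ∀ i ∈ s, ‖b - z i‖ ≤ B) : ‖∏ i ∈ s, (b - z i)‖ ≤ B ^ n := by
  rw [norm_prod]
  calc ∏ i ∈ s, ‖b - z i‖ ≤ ∏ _i ∈ s, B := Finset.prod_le_prod (fun i _ => norm_nonneg _) h
    _ = B ^ s.card := by rw [Finset.prod_const]
    _ ≤ B ^ n := pow_le_pow_right₀ hB hs

theorem Pol_PR_le {c : ℝ} (hc : 0 < c) (hc1 : c ≤ 1) : ∃ Λ₀ : ℝ, 1 ≤ Λ₀ ∧ ∀ Λ : ℝ, Λ₀ ≤ Λ →
    ∀ (χ : ℝ → ℝ) (E : ℂ → ℂ), KerP c Λ χ E → ∀ {ι : Type} (J : Finset ι) (m : ι → ℝ) (z : ι → ℂ),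
    Conf c Λ J m z → ∀ b : ℂ, 0 ≤ b.re → b.re ≤ Λ + 2 → |b.im| ≤ 5 * Λ →
      ‖Pol (J1 Λ J z) z b‖ ≤ Real.exp (Λ ^ 5) ∧ ‖PR J (J1 Λ J z) m z E 1 b‖ ≤ Real.exp (Λ ^ 5) := by
  obtain ⟨Λ₁, hΛ₁, hfar⟩ := far_small hc hc1
  have e1 : ∀ᶠ Λ : ℝ in atTop, Real.log (20 * Λ) ≤ Λ / 202 := by
    have := (Real.isLittleO_log_id_atTop.comp_tendsto
      (tendsto_id.const_mul_atTop (by norm_num : (0:ℝ) < 20))).def (by norm_num : (0:ℝ) < 1/4040)
    filter_upwards [this, eventually_ge_atTop 1] with Λ h h1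
    simp only [Function.comp, id, Real.norm_eq_abs] at h
    rw [abs_of_pos (by positivity : 0 < 20 * Λ)] at h
    have := le_abs_self (Real.log (20*Λ))
    linarith
  obtain ⟨Λ₂, hΛ₂⟩ := eventually_atTop.1 e1
  refine ⟨max (max Λ₁ Λ₂) (max 4 (20 / c ^ 2)), hΛ₁.trans (le_trans (le_max_left _ _) (le_max_left _ _)), ?_⟩
  intro Λ hΛ χ E hK ι J m z hconf b hb0 hb1 hb2
  classical
  have hL1 : Λ₁ ≤ Λ := (le_trans (le_max_left _ _) (le_max_left _ _)).trans hΛ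
  have hL2 : Λ₂ ≤ Λ := (le_trans (le_max_right _ _) (le_max_left _ _)).trans hΛ
  have hL4 : (4:ℝ) ≤ Λ := (le_trans (le_max_left _ _) (le_max_right _ _)).trans hΛ
  have hLc : 20 / c ^ 2 ≤ Λ := (le_trans (le_max_right _ _) (le_max_right _ _)).trans hΛ
  have hL0 : (0:ℝ) < Λ := by linarith
  have hL1' : (1:ℝ) ≤ Λ := by linarith
  have hlog := hΛ₂ Λ hL2
  have hexp : 10 * Λ < Real.exp (c * Λ) := by
    have h1 := Real.quadratic_le_exp_of_nonneg (by positivity : 0 ≤ c * Λ)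
    have h2 : 20 ≤ c ^ 2 * Λ := by
      rw [div_le_iff₀ (by positivity)] at hLc; linarith
    have h3 : 10 * Λ ≤ (c * Λ) ^ 2 / 2 := by nlinarith
    have : 0 < c * Λ := by positivity
    linarith
  -- points of J1
  have hre1 : ∀ i ∈ J1 Λ J z, ‖b - z i‖ ≤ 20 * Λ := by
    intro i hi
    have hi' : i ∈ J ∧ |(z i).im| ≤ 10 * Λ := by
      unfold J1 at hi
      exact Finset.mem_filter.1 hi
    have h1 := hconf.near i hi'.1 (lt_of_le_of_lt hi'.2 hexp)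
    have h2 : |(b - z i).re| ≤ (Λ + 2) + Λ := by
      rw [Complex.sub_re]
      calc |b.re - (z i).re| ≤ |b.re| + |(z i).re| := abs_sub _ _
        _ ≤ (Λ + 2) + Λ := add_le_add (by rw [abs_of_nonneg hb0]; exact hb1) h1
    have h3 : |(b - z i).im| ≤ 5 * Λ + 10 * Λ := by
      rw [Complex.sub_im]
      calc |b.im - (z i).im| ≤ |b.im| + |(z i).im| := abs_sub _ _
        _ ≤ 5 * Λ + 10 * Λ := add_le_add hb2 hi'.2
    have h4 := Complex.norm_le_abs_re_add_abs_im (b - z i)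
    linarith
  set n := (J1 Λ J z).card with hn
  have hcard : (n : ℝ) ≤ 101 * Λ ^ 4 := card_J1 hL1' hconf
  have hpow : (20 * Λ) ^ n ≤ Real.exp (Λ ^ 5 / 2) := by
    have h1 : (20 * Λ) ^ n = Real.exp (n * Real.log (20 * Λ)) := by
      rw [mul_comm (n:ℝ), ← Real.rpow_def_of_pos (by positivity), Real.rpow_natCast]
    rw [h1]
    apply Real.exp_le_exp.mpr
    have hlog0 : 0 ≤ Real.log (20 * Λ) := Real.log_nonneg (by linarith)
    calc (n:ℝ) * Real.log (20 * Λ) ≤ (101 * Λ ^ 4) * (Λ / 202) :=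
          mul_le_mul hcard hlog hlog0 (by positivity)
      _ = Λ ^ 5 / 2 := by ring
  have hB : (1:ℝ) ≤ 20 * Λ := by linarith
  have hPol : ‖Pol (J1 Λ J z) z b‖ ≤ Real.exp (Λ ^ 5 / 2) := by
    unfold Pol
    exact (dpl_prod_le _ z b hB le_rfl hre1).trans hpow
  have hL5 : 0 ≤ Λ ^ 5 := by positivity
  refine ⟨hPol.trans (Real.exp_le_exp.mpr (by linarith)), ?_⟩
  -- weights
  set K : ℝ := (1 + Real.exp (2 * c * Λ)) * Real.exp (4 * Λ + 4) with hKdef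
  have hK1 : 1 ≤ K := by
    have h1 : 1 ≤ Real.exp (4 * Λ + 4) := Real.one_le_exp (by positivity)
    have h2 : 0 < Real.exp (2 * c * Λ) := Real.exp_pos _
    nlinarith
  have hterm : ∀ j ∈ J, m j * ‖tm E 1 (b - z j)‖ ≤ K * (m j / (1 + (z j).im ^ 2)) := by
    intro j hj
    have hm1 := hconf.one_le j hj
    have hm0 : 0 ≤ m j := by linarith
    have hd : 0 < 1 + (z j).im ^ 2 := by positivity
    rcases lt_or_ge (|(z j).im|) (Real.exp (c * Λ)) with hn | hf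
    · have h1 := hconf.near j hj hn
      have h2 : ‖tm E 1 (b - z j)‖ ≤ Real.exp (4 * Λ + 4) := by
        refine (dpl_tm_one_le hK _).trans (Real.exp_le_exp.mpr ?_)
        have : |(b - z j).re| ≤ (Λ + 2) + Λ := by
          rw [Complex.sub_re]
          calc |b.re - (z j).re| ≤ |b.re| + |(z j).re| := abs_sub _ _
            _ ≤ (Λ + 2) + Λ := add_le_add (by rw [abs_of_nonneg hb0]; exact hb1) h1
        linarith
      have h3 : 1 + (z j).im ^ 2 ≤ 1 + Real.exp (2 * c * Λ) := by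
        have : (z j).im ^ 2 ≤ Real.exp (c * Λ) ^ 2 := by
          rw [← sq_abs]
          exact pow_le_pow_left₀ (abs_nonneg _) hn.le 2
        rw [← Real.exp_nat_mul] at this
        have e : ((2:ℕ):ℝ) * (c * Λ) = 2 * c * Λ := by push_cast; ring
        rw [e] at this
        linarith
      calc m j * ‖tm E 1 (b - z j)‖ ≤ m j * Real.exp (4 * Λ + 4) := mul_le_mul_of_nonneg_left h2 hm0
        _ = (1 + (z j).im ^ 2) * Real.exp (4 * Λ + 4) * (m j / (1 + (z j).im ^ 2)) := by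
            field_simp
        _ ≤ K * (m j / (1 + (z j).im ^ 2)) := by
            rw [hKdef]
            gcongr
    · have h1 := (hfar Λ hL1 χ E hK (z j) hf (hconf.far j hj hf) b
        (by rw [abs_of_nonneg hb0]; linarith) (by linarith) 1 zero_le_one (by
          exact one_le_pow₀ hL1')).2
      have h2 : Real.exp (-(4 * Λ ^ 8)) ≤ 1 := Real.exp_le_one_iff.mpr (by
        have : 0 ≤ Λ ^ 8 := by positivity
        linarith)
      calc m j * ‖tm E 1 (b - z j)‖ ≤ m j * (Real.exp (-(4 * Λ ^ 8)) / (1 + (z j).im ^ 2)) :=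
            mul_le_mul_of_nonneg_left h1 hm0
        _ ≤ m j * (1 / (1 + (z j).im ^ 2)) := by gcongr
        _ = 1 * (m j / (1 + (z j).im ^ 2)) := by ring
        _ ≤ K * (m j / (1 + (z j).im ^ 2)) := by
            apply mul_le_mul_of_nonneg_right hK1
            positivity
  have hsum : ∑ j ∈ J, m j * ‖tm E 1 (b - z j)‖ ≤ K * Λ ^ 2 := by
    calc ∑ j ∈ J, m j * ‖tm E 1 (b - z j)‖ ≤ ∑ j ∈ J, K * (m j / (1 + (z j).im ^ 2)) :=
          Finset.sum_le_sum hterm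
      _ = K * ∑ j ∈ J, (m j / (1 + (z j).im ^ 2)) := by rw [Finset.mul_sum]
      _ ≤ K * Λ ^ 2 := mul_le_mul_of_nonneg_left hconf.sum_le (by linarith)
  have hJ1sub : J1 Λ J z ⊆ J := by
    unfold J1; exact Finset.filter_subset _ _
  have hfirst : ‖∑ j ∈ J1 Λ J z, (m j : ℂ) * tm E 1 (b - z j) * ∏ i ∈ (J1 Λ J z).erase j, (b - z i)‖ ≤
      (∑ j ∈ J1 Λ J z, m j * ‖tm E 1 (b - z j)‖) * (20 * Λ) ^ n := by
    rw [Finset.sum_mul]
    refine (norm_sum_le _ _).trans (Finset.sum_le_sum ?_)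
    intro j hj
    have hm0 : 0 ≤ m j := by have := hconf.one_le j (hJ1sub hj); linarith
    rw [norm_mul, norm_mul, Complex.norm_real, Real.norm_of_nonneg hm0]
    apply mul_le_mul_of_nonneg_left _ (by positivity)
    exact dpl_prod_le _ z b hB (by rw [hn]; exact Finset.card_le_card (Finset.erase_subset _ _))
      (fun i hi => hre1 i (Finset.mem_of_mem_erase hi))
  have hsecond : ‖Pol (J1 Λ J z) z b * ∑ j ∈ J \ J1 Λ J z, (m j : ℂ) * (tm E 1 (b - z j) / (b - z j))‖ ≤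
      (∑ j ∈ J \ J1 Λ J z, m j * ‖tm E 1 (b - z j)‖) * (20 * Λ) ^ n := by
    rw [norm_mul, mul_comm]
    apply mul_le_mul _ (by unfold Pol; exact dpl_prod_le _ z b hB le_rfl hre1) (norm_nonneg _)
      (Finset.sum_nonneg (fun j hj => by
        have hm0 : 0 ≤ m j := by have := hconf.one_le j (Finset.sdiff_subset hj); linarith
        positivity))
    refine (norm_sum_le _ _).trans (Finset.sum_le_sum ?_)
    intro j hj
    have hj' := Finset.mem_sdiff.1 hj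
    have hm0 : 0 ≤ m j := by have := hconf.one_le j hj'.1; linarith
    rw [norm_mul, Complex.norm_real, Real.norm_of_nonneg hm0, norm_div]
    apply mul_le_mul_of_nonneg_left _ hm0
    have him : 10 * Λ < |(z j).im| := by
      by_contra hcon
      exact hj'.2 (by unfold J1; exact Finset.mem_filter.2 ⟨hj'.1, not_lt.1 hcon⟩)
    have h1 : 1 ≤ ‖b - z j‖ := by
      have h2 := Complex.abs_im_le_norm (b - z j)
      rw [Complex.sub_im] at h2
      have h3 : |(z j).im| - |b.im| ≤ |b.im - (z j).im| := by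
        rw [abs_sub_comm]; exact abs_sub_abs_le_abs_sub _ _
      linarith
    exact div_le_self (norm_nonneg _) h1
  have htot : ‖PR J (J1 Λ J z) m z E 1 b‖ ≤ K * Λ ^ 2 * (20 * Λ) ^ n := by
    unfold PR
    refine (norm_add_le _ _).trans ?_
    have hsplit : (∑ j ∈ J \ J1 Λ J z, m j * ‖tm E 1 (b - z j)‖) + (∑ j ∈ J1 Λ J z, m j * ‖tm E 1 (b - z j)‖)
        = ∑ j ∈ J, m j * ‖tm E 1 (b - z j)‖ := Finset.sum_sdiff hJ1sub
    calc _ ≤ (∑ j ∈ J1 Λ J z, m j * ‖tm E 1 (b - z j)‖) * (20 * Λ) ^ n +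
          (∑ j ∈ J \ J1 Λ J z, m j * ‖tm E 1 (b - z j)‖) * (20 * Λ) ^ n := by
            apply add_le_add
            · convert hfirst
            · convert hsecond
      _ = (∑ j ∈ J, m j * ‖tm E 1 (b - z j)‖) * (20 * Λ) ^ n := by rw [← hsplit]; ring
      _ ≤ K * Λ ^ 2 * (20 * Λ) ^ n := mul_le_mul_of_nonneg_right hsum (by positivity)
  have hKle : K * Λ ^ 2 ≤ Real.exp (Λ ^ 5 / 2) := by
    have h1 : 1 + Real.exp (2 * c * Λ) ≤ Real.exp (2 * Λ + 1) := by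
      have h2 : Real.exp (2 * c * Λ) ≤ Real.exp (2 * Λ) := Real.exp_le_exp.mpr (by nlinarith)
      have h3 : 1 ≤ Real.exp (2 * Λ) := Real.one_le_exp (by positivity)
      have h4 : (2:ℝ) ≤ Real.exp 1 := by have := Real.add_one_le_exp (1:ℝ); linarith
      rw [Real.exp_add]
      nlinarith
    have h5 : Λ ≤ Real.exp Λ := by have := Real.add_one_le_exp Λ; linarith
    have h6 : Λ ^ 2 ≤ Real.exp (2 * Λ) := by
      calc Λ ^ 2 ≤ Real.exp Λ ^ 2 := pow_le_pow_left₀ hL0.le h5 2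
        _ = Real.exp (2 * Λ) := by rw [← Real.exp_nat_mul]; norm_num
    have h7 : (64:ℝ) ≤ Λ ^ 3 := by
      have : (4:ℝ) ^ 3 ≤ Λ ^ 3 := pow_le_pow_left₀ (by norm_num) hL4 3
      norm_num at this; exact this
    calc K * Λ ^ 2 ≤ (Real.exp (2 * Λ + 1) * Real.exp (4 * Λ + 4)) * Real.exp (2 * Λ) := by
          rw [hKdef]; gcongr
      _ = Real.exp (8 * Λ + 5) := by rw [← Real.exp_add, ← Real.exp_add]; ring_nf
      _ ≤ Real.exp (Λ ^ 5 / 2) := by
          apply Real.exp_le_exp.mpr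
          have : Λ ^ 5 = Λ ^ 3 * Λ ^ 2 := by ring
          nlinarith [sq_nonneg (Λ - 4)]
  calc ‖PR J (J1 Λ J z) m z E 1 b‖ ≤ K * Λ ^ 2 * (20 * Λ) ^ n := htot
    _ ≤ Real.exp (Λ ^ 5 / 2) * Real.exp (Λ ^ 5 / 2) := by
        apply mul_le_mul hKle hpow (by positivity) (Real.exp_pos _).le
    _ = Real.exp (Λ ^ 5) := by rw [← Real.exp_add]; ring_nf

end Pool.Agent.Helper93.LP
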