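import Pool.Agent.Helper93.LP.KerDef

/-!
# LP block RAD: a radius away from finitely many numbers (Mathlib only, short; helper59)

Proof. The intervals `(d - η/(4(n+1)), d + η/(4(n+1)))`, `n = D.card`, have total length `≤ n η/(2(n+1)) < η/2`, so they do not
cover `[η/2, η]` (measure argument, or pigeonhole: among the `n+1` points... with a measure argument: `measure_biUnion_finset_le`).
-/

open Complex Set MeasureTheory Filter Topology
open Pool.Agent.Helper57.LH Pool.Agent.Helper57.PC Pool.Agent.Helper57.Zeta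
open Pool.Agent.Helper69.GGM

namespace Pool.Agent.Helper93.LP

theorem exists_radius {η : ℝ} (hη : 0 < η) (D : Finset ℝ) :
    ∃ r : ℝ, η / 2 ≤ r ∧ r ≤ η ∧ ∀ d ∈ D, η / (4 * ((D.card : ℝ) + 1)) ≤ |r - d| := by
  by_contra hcon
  push Not at hcon
  set w := η / (4 * ((D.card : ℝ) + 1)) with hw
  have hw0 : 0 < w := by positivity
  have hsub : Icc (η / 2) η ⊆ ⋃ d ∈ D, Ioo (d - w) (d + w) := by
    intro r hr
    obtain ⟨d, hd, hlt⟩ := hcon r hr.1 hr.2
    simp only [mem_iUnion]
    refine ⟨d, hd, ?_⟩
    rw [abs_lt] at hlt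
    constructor <;> linarith [hlt.1, hlt.2]
  have h1 := (measure_mono (μ := volume) hsub).trans (measure_biUnion_finset_le D _)
  rw [Real.volume_Icc] at h1
  have h2 : ∑ d ∈ D, volume (Ioo (d - w) (d + w)) = ENNReal.ofReal ((D.card : ℝ) * (2 * w)) := by
    have h3 : ∀ d ∈ D, volume (Ioo (d - w) (d + w)) = ENNReal.ofReal (2 * w) := by
      intro d _
      rw [Real.volume_Ioo]
      congr 1
      ring
    rw [Finset.sum_congr rfl h3, Finset.sum_const, nsmul_eq_mul,
      ENNReal.ofReal_mul (p := (D.card : ℝ)) (by positivity), ENNReal.ofReal_natCast]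
  rw [h2] at h1
  have h3 := (ENNReal.ofReal_le_ofReal_iff (by positivity)).mp h1
  have h4 : (D.card : ℝ) * (2 * w) < η / 2 := by
    have e : (D.card : ℝ) * (2 * w) = η / 2 * ((D.card : ℝ) / ((D.card : ℝ) + 1)) := by
      rw [hw]
      field_simp
      ring
    rw [e]
    have h5 : (D.card : ℝ) / ((D.card : ℝ) + 1) < 1 := by
      rw [div_lt_one (by positivity)]
      linarith
    have : 0 < η / 2 := by positivity
    nlinarith
  linarith

end Pool.Agent.Helper93.LP
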