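import Pool.Agent.Helper93.LP.KerDef

/-!
# LP block RB: two constants estimate on a rectangle (Mathlib only)

Proof. Fix `b` in the rectangle with `|im b| ≤ 2`, `y₀ = im b`. Put `μ = A/(4x₁²)`, `τ = 3A/(4x₁)` and
`Φ(ζ) = F(ζ) exp(τ ζ + μ (ζ - i y₀)²)` on the closed rectangle; `‖exp(..)‖ = exp(τ x + μ (x² - (y-y₀)²))`, `ζ = x+iy`.
On the boundary `‖Φ‖ ≤ M exp(τ x₀ + μ x₀²)`: right side `x = x₁`: `-A + τ x₁ + μ x₁² = -A + 3A/4 + A/4 = 0`; top and bottom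
`|y| = Y`: `|y - y₀| ≥ Y - 2 ≥ 2x₁`, so `τ x + μ(x² - 4x₁²) ≤ τ x₁ - 3 μ x₁² = 0`; left side: clear.
Maximum modulus (`Complex.norm_le_of_forall_mem_frontier_norm_le` on the bounded open rectangle) at `b`:
`‖F b‖ exp(τ re b + μ (re b)²) ≤ M exp(τ x₀ + μ x₀²)`, and `μ x₀² ≤ μ (re b)²`.
-/

open Complex Set MeasureTheory Filter Topology
open Pool.Agent.Helper57.LH Pool.Agent.Helper57.PC Pool.Agent.Helper57.Zeta
open Pool.Agent.Helper69.GGM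

namespace Pool.Agent.Helper93.LP

theorem rect_bound {F : ℂ → ℂ} {x₀ x₁ Y M A : ℝ} (h0 : 0 < x₀) (h01 : x₀ < x₁) (hY : 2 * x₁ + 2 ≤ Y)
    (hM : 0 < M) (hA : 0 ≤ A)
    (hF : ∀ b : ℂ, x₀ ≤ b.re → b.re ≤ x₁ → |b.im| ≤ Y → DifferentiableAt ℂ F b)
    (hb : ∀ b : ℂ, x₀ ≤ b.re → b.re ≤ x₁ → |b.im| ≤ Y → ‖F b‖ ≤ M)
    (hr : ∀ b : ℂ, b.re = x₁ → |b.im| ≤ Y → ‖F b‖ ≤ M * Real.exp (-A)) :
    ∀ b : ℂ, x₀ ≤ b.re → b.re ≤ x₁ → |b.im| ≤ 2 →
      ‖F b‖ ≤ M * Real.exp (-(3 * A / (4 * x₁) * (b.re - x₀))) := by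
  intro b hb0 hb1 hb2
  have hx1 : 0 < x₁ := h0.trans h01
  have hY0 : 0 < Y := by linarith
  obtain ⟨μ, hμ⟩ : ∃ μ : ℝ, μ = A / (4 * x₁ ^ 2) := ⟨_, rfl⟩
  obtain ⟨τ, hτ⟩ : ∃ τ : ℝ, τ = 3 * A / (4 * x₁) := ⟨_, rfl⟩
  rw [← hτ]
  have hμ0 : 0 ≤ μ := by rw [hμ]; positivity
  have hτ0 : 0 ≤ τ := by rw [hτ]; positivity
  have hμ1 : μ * x₁ ^ 2 = A / 4 := by rw [hμ]; field_simp
  have hτ1 : τ * x₁ = 3 * A / 4 := by rw [hτ]; field_simp
  obtain ⟨G, hG⟩ : ∃ G : ℂ → ℂ, G = fun ζ => (τ : ℂ) * ζ + (μ : ℂ) * (ζ - (b.im : ℂ) * I) ^ 2 := ⟨_, rfl⟩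
  have hGd : Differentiable ℂ G := by rw [hG]; fun_prop
  have hGre : ∀ ζ : ℂ, (G ζ).re = τ * ζ.re + μ * (ζ.re ^ 2 - (ζ.im - b.im) ^ 2) := by
    intro ζ
    simp only [hG, pow_two, Complex.add_re, Complex.mul_re, Complex.mul_im, Complex.sub_re, Complex.sub_im,
      Complex.ofReal_re, Complex.ofReal_im, Complex.I_re, Complex.I_im]
    ring
  have hcl : closure (Ioo x₀ x₁ ×ℂ Ioo (-Y) Y) = Icc x₀ x₁ ×ℂ Icc (-Y) Y := by
    rw [Complex.closure_reProdIm, closure_Ioo h01.ne, closure_Ioo (by linarith)]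
  have hn : ∀ ζ : ℂ, ‖F ζ * Complex.exp (G ζ)‖ = ‖F ζ‖ * Real.exp (τ * ζ.re + μ * (ζ.re ^ 2 - (ζ.im - b.im) ^ 2)) := by
    intro ζ
    rw [norm_mul, Complex.norm_exp, hGre]
  have key : ‖F b * Complex.exp (G b)‖ ≤ M * Real.exp (τ * x₀ + μ * x₀ ^ 2) := by
    refine Complex.norm_le_of_forall_mem_frontier_norm_le (U := Ioo x₀ x₁ ×ℂ Ioo (-Y) Y)
      (f := fun ζ => F ζ * Complex.exp (G ζ))
      ((Metric.isBounded_Ioo _ _).reProdIm (Metric.isBounded_Ioo _ _)) ?_ ?_ ?_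
    · refine DifferentiableOn.diffContOnCl fun ζ hζ => ?_
      rw [hcl, Complex.mem_reProdIm] at hζ
      refine DifferentiableAt.differentiableWithinAt ?_
      exact (hF ζ hζ.1.1 hζ.1.2 (abs_le.mpr hζ.2)).mul (hGd ζ).cexp
    · intro ζ hζ
      rw [hn]
      have h1 : (1 : ℝ) ≤ Real.exp (τ * x₀ + μ * x₀ ^ 2) := Real.one_le_exp (by positivity)
      rw [Complex.frontier_reProdIm, frontier_Ioo h01, frontier_Ioo (by linarith : -Y < Y), closure_Ioo h01.ne,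
        closure_Ioo (by linarith : -Y ≠ Y)] at hζ
      rcases hζ with hζ | hζ
      · rw [Complex.mem_reProdIm] at hζ
        obtain ⟨⟨h2, h3⟩, h4⟩ := hζ
        have h5 : |ζ.im| ≤ Y := by
          rcases h4 with h4 | h4
          · rw [h4, abs_neg, abs_of_pos hY0]
          · rw [mem_singleton_iff.mp h4, abs_of_pos hY0]
        have h6 : (2 * x₁) ^ 2 ≤ (ζ.im - b.im) ^ 2 := by
          rw [abs_le] at hb2
          rcases h4 with h4 | h4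
          · rw [h4]; nlinarith
          · rw [mem_singleton_iff.mp h4]; nlinarith
        have h7 : τ * ζ.re + μ * (ζ.re ^ 2 - (ζ.im - b.im) ^ 2) ≤ 0 := by
          have h8 : ζ.re ^ 2 ≤ x₁ ^ 2 := by
            have : 0 ≤ ζ.re := by linarith
            exact pow_le_pow_left₀ this h3 2
          have h9 : τ * ζ.re ≤ τ * x₁ := mul_le_mul_of_nonneg_left h3 hτ0
          have h10 : μ * (ζ.re ^ 2 - (ζ.im - b.im) ^ 2) ≤ μ * (x₁ ^ 2 - (2 * x₁) ^ 2) :=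
            mul_le_mul_of_nonneg_left (by linarith) hμ0
          nlinarith
        calc ‖F ζ‖ * Real.exp (τ * ζ.re + μ * (ζ.re ^ 2 - (ζ.im - b.im) ^ 2)) ≤ M * 1 :=
              mul_le_mul (hb ζ h2 h3 h5) (Real.exp_le_one_iff.mpr h7) (Real.exp_pos _).le hM.le
          _ ≤ _ := mul_le_mul_of_nonneg_left h1 hM.le
      · rw [Complex.mem_reProdIm] at hζ
        obtain ⟨h4, h2⟩ := hζ
        have h5 : |ζ.im| ≤ Y := abs_le.mpr h2
        rcases h4 with h4 | h4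
        · have h6 := hb ζ h4.ge (by rw [h4]; exact h01.le) h5
          rw [h4]
          refine mul_le_mul h6 (Real.exp_le_exp.mpr ?_) (Real.exp_pos _).le hM.le
          nlinarith [sq_nonneg (ζ.im - b.im)]
        · have h4' : ζ.re = x₁ := h4
          have h6 := hr ζ h4' h5
          rw [h4']
          calc ‖F ζ‖ * Real.exp (τ * x₁ + μ * (x₁ ^ 2 - (ζ.im - b.im) ^ 2)) ≤
                (M * Real.exp (-A)) * Real.exp A := by
                refine mul_le_mul h6 (Real.exp_le_exp.mpr ?_) (Real.exp_pos _).le (by positivity)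
                nlinarith [mul_nonneg hμ0 (sq_nonneg (ζ.im - b.im))]
            _ = M := by rw [mul_assoc, ← Real.exp_add, neg_add_cancel, Real.exp_zero, mul_one]
            _ = M * 1 := (mul_one M).symm
            _ ≤ _ := mul_le_mul_of_nonneg_left h1 hM.le
    · rw [hcl, Complex.mem_reProdIm]
      rw [abs_le] at hb2
      exact ⟨⟨hb0, hb1⟩, by linarith, by linarith⟩
  rw [hn, sub_self] at key
  have h2 : ‖F b‖ ≤ M * Real.exp (τ * x₀ + μ * x₀ ^ 2) / Real.exp (τ * b.re + μ * (b.re ^ 2 - 0 ^ 2)) := by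
    rw [le_div_iff₀ (Real.exp_pos _)]
    exact key
  refine h2.trans ?_
  rw [mul_div_assoc, ← Real.exp_sub]
  refine mul_le_mul_of_nonneg_left (Real.exp_le_exp.mpr ?_) hM.le
  have h3 : x₀ ^ 2 ≤ b.re ^ 2 := pow_le_pow_left₀ h0.le hb0 2
  nlinarith [mul_le_mul_of_nonneg_left h3 hμ0]

end Pool.Agent.Helper93.LP
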