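import Pool.Agent.Helper93.LP.DRS
import Pool.Agent.Helper93.LP.DPL
import Pool.Agent.Helper93.LP.RB
import Pool.Agent.Helper93.LP.RAD
import Pool.Agent.Helper93.LP.Cont
import Pool.Agent.Helper93.LP.LTb

/-!
# LP block DET: no point of an admissible configuration to the right of the line, if `GD` is not huge

Proof. Suppose `j₀ ∈ J`, `3η ≤ re z₀ ≤ Λ`, `|im z₀| ≤ 1`, `z₀ = z j₀`. `A = Λ^8`, `F = PR J (J1) m z E A`. On the rectangle
`η ≤ re b ≤ Λ+2`, `|im b| ≤ 5Λ`: `F` is differentiable (`PR_diff`), `‖F‖ ≤ ‖PR(1)‖ + ‖Pol‖‖GD‖ ≤ e^{Λ^5} + e^{2Λ^5} ≤ e^{3Λ^5}`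
(`PR_sub`, `Pol_PR_le`, hypothesis). On `re b = Λ+2`: `F = Pol * RR` (`PR_eq`: `b ≠ z j` because `re z j ≤ Λ` for near points and
`|im z j| > |im b|` for far points), so `‖F‖ ≤ e^{Λ^5} e^{-Λ^8} ≤ e^{3Λ^5} e^{-Λ^8}` (`right_small`). `rect_bound` with `x₀ = η`,
`x₁ = Λ+2`, `Y = 5Λ`, `M = e^{3Λ^5}`: for `re b ≥ 2η`, `|im b| ≤ 2`:
`‖F b‖ ≤ exp(3Λ^5 - 3Λ^8 η/(4(Λ+2))) ≤ exp(-Λ^6)` for `Λ ≥ Λ₀(η)`.
`exists_radius` with `D = {‖z j - z₀‖ : j ∈ J1}` (card `≤ 101Λ^4`): `r ∈ [η/2,η]`; on the circle `‖b - z₀‖ = r`: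
`‖b - z j‖ ≥ |r - ‖z j - z₀‖| ≥ η/(4(101Λ^4+1))` for `j ∈ J1` (points not in `J1` are not on the circle since `10Λ > 2`), so
`‖Pol b‖ ≥ (η/(4(101Λ^4+1)))^{101Λ^4} ≥ exp(-Λ^5)`, and `‖RR(A) b‖ = ‖F b‖/‖Pol b‖ ≤ exp(Λ^5-Λ^6) < 1` (`PR_eq`).
Off the points, `GD b - RR(1) b = -RR(A) b` (`trans`). `contour_contra` with `G = GD` (entire: `LT_differentiable`),
`φ = tm E 1` (`φ 0 = E 0 = 1`) gives `b` on the circle with `1 ≤ ‖GD b - RR(1) b‖`: contradiction.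
-/

open Complex Set MeasureTheory Filter Topology
open Pool.Agent.Helper57.LH Pool.Agent.Helper57.PC Pool.Agent.Helper57.Zeta
open Pool.Agent.Helper69.GGM

namespace Pool.Agent.Helper93.LP


namespace DETaux

lemma numeric {c η : ℝ} (hc : 0 < c) (hη : 0 < η) : ∃ L : ℝ, 2 ≤ L ∧ ∀ Λ : ℝ, L ≤ Λ →
    5 * Λ < Real.exp (c * Λ) ∧ 3 * Λ ^ 5 + Λ ^ 6 ≤ 3 * Λ ^ 8 / (4 * (Λ + 2)) * η ∧
    Real.exp (-(Λ / 101)) ≤ η / (4 * (101 * Λ ^ 4 + 1)) := by
  have e1 : ∀ᶠ Λ : ℝ in atTop, 5 * Λ < Real.exp (c * Λ) := by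
    have h := (isLittleO_pow_exp_pos_mul_atTop 1 hc).def (c := 1 / 10) (by norm_num)
    filter_upwards [h, eventually_gt_atTop (0 : ℝ)] with x hx hx0
    simp only [pow_one, Real.norm_eq_abs, abs_of_pos hx0, abs_of_pos (Real.exp_pos _)] at hx
    have := Real.exp_pos (c * x)
    linarith
  have e2 : ∀ᶠ Λ : ℝ in atTop, 3 * Λ ^ 5 + Λ ^ 6 ≤ 3 * Λ ^ 8 / (4 * (Λ + 2)) * η := by
    filter_upwards [eventually_ge_atTop (16 / η), eventually_ge_atTop (1 : ℝ)] with x hx hx1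
    have hx0 : 0 < x := by linarith
    have h1 : 16 ≤ x * η := by
      have := (div_le_iff₀ hη).1 hx
      linarith
    have h2 : x ^ 7 * η / 4 ≤ 3 * x ^ 8 / (4 * (x + 2)) * η := by
      rw [div_mul_eq_mul_div, div_le_div_iff₀ (by norm_num) (by positivity)]
      have : 0 ≤ x ^ 7 * η * (x - 1) := by
        have : 0 ≤ x - 1 := by linarith
        positivity
      nlinarith
    have h3 : 4 * x ^ 6 ≤ x ^ 7 * η / 4 := by
      have : x ^ 6 * 16 ≤ x ^ 6 * (x * η) := mul_le_mul_of_nonneg_left h1 (by positivity)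
      nlinarith
    have h4 : 3 * x ^ 5 ≤ 3 * x ^ 6 := by
      have : x ^ 5 * 1 ≤ x ^ 5 * x := mul_le_mul_of_nonneg_left hx1 (by positivity)
      nlinarith
    linarith
  have e3 : ∀ᶠ Λ : ℝ in atTop, Real.exp (-(Λ / 101)) ≤ η / (4 * (101 * Λ ^ 4 + 1)) := by
    have h := (isLittleO_pow_exp_pos_mul_atTop 4 (b := 1 / 101) (by norm_num)).def (c := η / 408)
      (by positivity)
    filter_upwards [h, eventually_ge_atTop (1 : ℝ)] with x hx hx1
    have hx0 : 0 < x := by linarith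
    rw [Real.norm_of_nonneg (by positivity), Real.norm_of_nonneg (Real.exp_pos _).le] at hx
    rw [le_div_iff₀ (by positivity)]
    have hone : 1 ≤ x ^ 4 := one_le_pow₀ hx1
    have h5 : 4 * (101 * x ^ 4 + 1) ≤ 408 * x ^ 4 := by linarith
    have h6 : Real.exp (-(x / 101)) * Real.exp (1 / 101 * x) = 1 := by
      rw [← Real.exp_add]
      have : -(x / 101) + 1 / 101 * x = 0 := by ring
      rw [this, Real.exp_zero]
    calc Real.exp (-(x / 101)) * (4 * (101 * x ^ 4 + 1))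
        ≤ Real.exp (-(x / 101)) * (408 * (η / 408 * Real.exp (1 / 101 * x))) := by
          apply mul_le_mul_of_nonneg_left _ (Real.exp_pos _).le
          linarith
      _ = (Real.exp (-(x / 101)) * Real.exp (1 / 101 * x)) * η := by ring
      _ = η := by rw [h6, one_mul]
  obtain ⟨L, hL⟩ := eventually_atTop.1 ((e1.and e2).and e3)
  refine ⟨max L 2, le_max_right _ _, fun Λ hΛ => ?_⟩
  obtain ⟨⟨h1, h2⟩, h3⟩ := hL Λ (le_trans (le_max_left _ _) hΛ)
  exact ⟨h1, h2, h3⟩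

end DETaux

theorem det {c : ℝ} (hc : 0 < c) (hc1 : c ≤ 1) {η : ℝ} (hη : 0 < η) (hη1 : η ≤ 1 / 4) :
    ∃ Λ₀ : ℝ, 1 ≤ Λ₀ ∧ ∀ Λ : ℝ, Λ₀ ≤ Λ → ∀ (χ : ℝ → ℝ) (E : ℂ → ℂ), KerP c Λ χ E →
    ∀ {ι : Type} (J : Finset ι) (m : ι → ℝ) (z : ι → ℂ), Conf c Λ J m z →
    (∀ b : ℂ, η ≤ b.re → b.re ≤ Λ + 2 → |b.im| ≤ 5 * Λ → ‖GD J m z χ b‖ ≤ Real.exp (Λ ^ 5)) →
    ∀ j ∈ J, |(z j).im| ≤ 1 → 3 * η ≤ (z j).re → False := by
  classical
  obtain ⟨L1, hL1, H1⟩ := right_small hc hc1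
  obtain ⟨L2, hL2, H2⟩ := Pol_PR_le hc hc1
  obtain ⟨L3, hL3, H3⟩ := DETaux.numeric hc hη
  refine ⟨max L1 (max L2 L3), le_trans hL1 (le_max_left _ _), ?_⟩
  intro Λ hΛ χ E hK ι J m z hC hGD j₀ hj₀ him hre
  have hΛ1 : L1 ≤ Λ := le_trans (le_max_left _ _) hΛ
  have hΛ2 : L2 ≤ Λ := le_trans (le_trans (le_max_left _ _) (le_max_right _ _)) hΛ
  have hΛ3 : L3 ≤ Λ := le_trans (le_trans (le_max_right _ _) (le_max_right _ _)) hΛ
  obtain ⟨N1, N2, N3⟩ := H3 Λ hΛ3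
  have hΛ4 : 2 ≤ Λ := le_trans hL3 hΛ3
  have hΛ5 : 1 ≤ Λ := by linarith
  have hΛ0 : 0 < Λ := by linarith
  have hK' : IsKer ⌈Λ ^ 9⌉₊ (Real.exp (-(c * Λ / 8))) (Λ ^ 8) χ E := hK
  set z0 : ℂ := z j₀ with hz0
  set F : ℂ → ℂ := PR J (J1 Λ J z) m z E (Λ ^ 8) with hF
  have hz0re : z0.re ≤ Λ := by
    have := hC.near j₀ hj₀ (by
      refine lt_of_le_of_lt him ?_
      exact Real.one_lt_exp_iff.2 (by positivity))
    exact le_trans (le_abs_self _) this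
  -- bound on the rectangle
  have hFd : ∀ b : ℂ, η ≤ b.re → b.re ≤ Λ + 2 → |b.im| ≤ 5 * Λ → DifferentiableAt ℂ F b := by
    intro b _ _ hb
    exact PR_diff hΛ5 J m z hK'.Ediff _ (by linarith)
  have hFb : ∀ b : ℂ, η ≤ b.re → b.re ≤ Λ + 2 → |b.im| ≤ 5 * Λ →
      ‖F b‖ ≤ Real.exp (3 * Λ ^ 5) := by
    intro b h1 h2 h3
    obtain ⟨p1, p2⟩ := H2 Λ hΛ2 χ E hK J m z hC b (by linarith) h2 h3
    have hs := PR_sub hΛ5 hK' J m z (b := b) (by linarith)
    have hFe : F b = PR J (J1 Λ J z) m z E 1 b - Pol (J1 Λ J z) z b * GD J m z χ b := by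
      rw [← hs, hF]; ring
    rw [hFe]
    have hg := hGD b h1 h2 h3
    have hexp : 1 ≤ Real.exp (Λ ^ 5) := Real.one_le_exp (by positivity)
    calc ‖PR J (J1 Λ J z) m z E 1 b - Pol (J1 Λ J z) z b * GD J m z χ b‖
        ≤ ‖PR J (J1 Λ J z) m z E 1 b‖ + ‖Pol (J1 Λ J z) z b * GD J m z χ b‖ := norm_sub_le _ _
      _ ≤ Real.exp (Λ ^ 5) + Real.exp (Λ ^ 5) * Real.exp (Λ ^ 5) := by
          rw [norm_mul]
          gcongr
      _ ≤ Real.exp (Λ ^ 5) * Real.exp (Λ ^ 5) * Real.exp (Λ ^ 5) := by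
          set X := Real.exp (Λ ^ 5)
          have hX2 : 2 ≤ X := by
            have : Λ ^ 5 + 1 ≤ X := Real.add_one_le_exp _
            have : 1 ≤ Λ ^ 5 := one_le_pow₀ hΛ5
            linarith
          nlinarith [mul_nonneg (show 0 ≤ X by positivity) (show 0 ≤ X by positivity)]
      _ = Real.exp (3 * Λ ^ 5) := by
          rw [← Real.exp_add, ← Real.exp_add]; congr 1; ring
  have hFr : ∀ b : ℂ, b.re = Λ + 2 → |b.im| ≤ 5 * Λ →
      ‖F b‖ ≤ Real.exp (3 * Λ ^ 5) * Real.exp (-(Λ ^ 8)) := by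
    intro b h1 h2
    have hne : ∀ j ∈ J, b ≠ z j := by
      intro j hj hbj
      have h3 := hC.near j hj (by rw [← hbj]; linarith)
      rw [← hbj, h1] at h3
      have := le_trans (le_abs_self _) h3
      linarith
    obtain ⟨p1, _⟩ := H2 Λ hΛ2 χ E hK J m z hC b (by rw [h1]; linarith) h1.le h2
    have hr := H1 Λ hΛ1 χ E hK J m z hC b h1 (by linarith)
    rw [hF, PR_eq J m z E _ hne, norm_mul]
    calc ‖Pol (J1 Λ J z) z b‖ * ‖RR J m z E (Λ ^ 8) b‖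
        ≤ Real.exp (Λ ^ 5) * Real.exp (-Λ ^ 8) := by gcongr
      _ ≤ Real.exp (3 * Λ ^ 5) * Real.exp (-(Λ ^ 8)) := by
          have : Λ ^ 5 ≤ 3 * Λ ^ 5 := by
            have : 0 ≤ Λ ^ 5 := by positivity
            linarith
          gcongr
  have hRB := rect_bound (F := F) (x₀ := η) (x₁ := Λ + 2) (Y := 5 * Λ) (M := Real.exp (3 * Λ ^ 5))
    (A := Λ ^ 8) hη (by linarith) (by linarith) (Real.exp_pos _) (by positivity) hFd hFb hFr
  -- the radius
  set D : Finset ℝ := (J1 Λ J z).image (fun j => ‖z j - z0‖) with hD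
  obtain ⟨r, hr1, hr2, hrD⟩ := exists_radius hη D
  have hcard : ((J1 Λ J z).card : ℝ) ≤ 101 * Λ ^ 4 := card_J1 hΛ5 hC
  have hDcard : (D.card : ℝ) ≤ 101 * Λ ^ 4 := by
    have : D.card ≤ (J1 Λ J z).card := Finset.card_image_le
    exact le_trans (by exact_mod_cast this) hcard
  set δ : ℝ := η / (4 * (101 * Λ ^ 4 + 1)) with hδ
  have hδ0 : 0 < δ := by positivity
  have hδD : δ ≤ η / (4 * ((D.card : ℝ) + 1)) := by
    rw [hδ]
    apply div_le_div_of_nonneg_left hη.le (by positivity)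
    linarith
  have hrJ : ∀ j ∈ J1 Λ J z, δ ≤ |r - ‖z j - z0‖| := by
    intro j hj
    exact le_trans hδD (hrD _ (Finset.mem_image_of_mem _ hj))
  have hr0 : 0 < r := by linarith
  have hne : ∀ j ∈ J, ‖z j - z0‖ ≠ r := by
    intro j hj h
    by_cases hj1 : j ∈ J1 Λ J z
    · have := hrJ j hj1
      rw [h, sub_self, abs_zero] at this
      linarith
    · have h2 : 10 * Λ < |(z j).im| := by
        by_contra h3
        exact hj1 (Finset.mem_filter.2 ⟨hj, not_lt.1 h3⟩)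
      have h3 : |(z j - z0).im| ≤ ‖z j - z0‖ := Complex.abs_im_le_norm _
      rw [Complex.sub_im] at h3
      have h4 : |(z j).im| - |z0.im| ≤ |(z j).im - z0.im| := abs_sub_abs_le_abs_sub _ _
      linarith
  -- the kernel
  have hWR : WR χ 1 (Λ ^ 8 + 1) :=
    ⟨hK'.smooth, one_pos, by
      have : 0 ≤ Λ ^ 8 := by positivity
      linarith, hK'.supp⟩
  have hLT : Differentiable ℂ (LT (fun α => (χ α : ℂ))) := LT_differentiable hWR.toWC
  have hGdiff : Differentiable ℂ (GD J m z χ) := by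
    intro b
    unfold GD
    apply DifferentiableAt.fun_sum
    intro j _
    apply DifferentiableAt.const_mul
    exact (hLT _).comp b ((differentiableAt_const _).sub differentiableAt_id)
  have htm : Differentiable ℂ (tm E 1) := by
    intro y
    unfold tm
    exact ((differentiableAt_id.const_mul _).neg.cexp).mul (hK'.Ediff y)
  have htm0 : tm E 1 0 = 1 := by
    simp [tm, hK'.E0]
  obtain ⟨b, hb1, hb2⟩ := contour_contra J m z hGdiff htm htm0 hC.one_le hj₀ hr0 (by linarith) hne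
  -- position of `b`
  have hbre : |b.re - z0.re| ≤ r := by
    rw [← hb1, ← Complex.sub_re]; exact Complex.abs_re_le_norm _
  have hbim : |b.im - z0.im| ≤ r := by
    rw [← hb1, ← Complex.sub_im]; exact Complex.abs_im_le_norm _
  have hb2η : 2 * η ≤ b.re := by
    have := (abs_le.1 hbre).1
    have h5 : 3 * η ≤ z0.re := hre
    linarith
  have hbreU : b.re ≤ Λ + 2 := by
    have := (abs_le.1 hbre).2
    linarith
  have hbimU : |b.im| ≤ 2 := by
    have h5 : |z0.im| ≤ 1 := him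
    have h6 : |b.im| ≤ |b.im - z0.im| + |z0.im| := by
      have := abs_add_le (b.im - z0.im) z0.im
      simpa using this
    linarith
  have hbne : ∀ j ∈ J, b ≠ z j := by
    intro j hj h
    apply hne j hj
    rw [← h]; exact hb1
  have hFsm := hRB b (by linarith) hbreU hbimU
  have hFsm2 : ‖F b‖ ≤ Real.exp (-(Λ ^ 6)) := by
    refine le_trans hFsm ?_
    rw [← Real.exp_add]
    apply Real.exp_le_exp.2
    have h7 : 3 * Λ ^ 8 / (4 * (Λ + 2)) * η ≤ 3 * Λ ^ 8 / (4 * (Λ + 2)) * (b.re - η) := by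
      apply mul_le_mul_of_nonneg_left (by linarith) (by positivity)
    linarith
  have hPol : Real.exp (-(Λ ^ 5)) ≤ ‖Pol (J1 Λ J z) z b‖ := by
    have h8 : δ ^ (J1 Λ J z).card ≤ ‖Pol (J1 Λ J z) z b‖ := by
      unfold Pol
      rw [norm_prod, ← Finset.prod_const]
      apply Finset.prod_le_prod (fun _ _ => hδ0.le)
      intro j hj
      have h9 := hrJ j hj
      have h10 : |r - ‖z j - z0‖| ≤ ‖b - z j‖ := by
        rw [← hb1]
        have h11 := abs_norm_sub_norm_le (b - z0) (z j - z0)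
        have h12 : b - z0 - (z j - z0) = b - z j := by ring
        rw [h12] at h11
        exact h11
      linarith
    refine le_trans ?_ h8
    have h13 : Real.exp (-(Λ / 101)) ^ (J1 Λ J z).card ≤ δ ^ (J1 Λ J z).card :=
      pow_le_pow_left₀ (Real.exp_pos _).le N3 _
    refine le_trans ?_ h13
    rw [← Real.exp_nat_mul]
    apply Real.exp_le_exp.2
    have h14 : ((J1 Λ J z).card : ℝ) * (Λ / 101) ≤ 101 * Λ ^ 4 * (Λ / 101) :=
      mul_le_mul_of_nonneg_right hcard (by positivity)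
    have h15 : 101 * Λ ^ 4 * (Λ / 101) = Λ ^ 5 := by ring
    linarith
  have hRR : F b = Pol (J1 Λ J z) z b * RR J m z E (Λ ^ 8) b := by
    rw [hF, PR_eq J m z E _ hbne]
  have hRRsm : ‖RR J m z E (Λ ^ 8) b‖ < 1 := by
    have h16 : ‖Pol (J1 Λ J z) z b‖ * ‖RR J m z E (Λ ^ 8) b‖ ≤ Real.exp (-(Λ ^ 6)) := by
      rw [← norm_mul, ← hRR]; exact hFsm2
    have h17 : Real.exp (-(Λ ^ 5)) * ‖RR J m z E (Λ ^ 8) b‖ ≤ Real.exp (-(Λ ^ 6)) :=
      le_trans (mul_le_mul_of_nonneg_right hPol (norm_nonneg _)) h16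
    have h18 : Real.exp (-(Λ ^ 6)) < Real.exp (-(Λ ^ 5)) := by
      apply Real.exp_lt_exp.2
      have h19 : Λ ^ 5 * 1 < Λ ^ 5 * Λ := mul_lt_mul_of_pos_left (by linarith) (by positivity)
      have h20 : Λ ^ 5 * Λ = Λ ^ 6 := by ring
      linarith
    by_contra h21
    rw [not_lt] at h21
    have h22 : Real.exp (-(Λ ^ 5)) * 1 ≤ Real.exp (-(Λ ^ 5)) * ‖RR J m z E (Λ ^ 8) b‖ :=
      mul_le_mul_of_nonneg_left h21 (Real.exp_pos _).le
    linarith
  have hGR : GD J m z χ b - ∑ j ∈ J, (m j : ℂ) * (tm E 1 (b - z j) / (b - z j))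
      = - RR J m z E (Λ ^ 8) b := by
    unfold GD RR
    rw [← Finset.sum_sub_distrib, ← Finset.sum_neg_distrib]
    apply Finset.sum_congr rfl
    intro j hj
    have hy : b - z j ≠ 0 := sub_ne_zero.2 (hbne j hj)
    have ht := hK'.trans (b - z j)
    have h23 : z j - b = -(b - z j) := by ring
    rw [h23]
    have h24 : LT (fun α => (χ α : ℂ)) (-(b - z j)) =
        (Complex.exp (-(b - z j)) - Complex.exp (-(((Λ ^ 8 : ℝ) : ℂ) * (b - z j)))) * E (b - z j) / (b - z j) := by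
      rw [← ht]; field_simp
    rw [h24]
    unfold tm
    have h25 : ((1 : ℝ) : ℂ) * (b - z j) = b - z j := by simp
    rw [h25]
    field_simp
    ring
  rw [hGR, norm_neg] at hb2
  linarith

end Pool.Agent.Helper93.LP
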