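import Pool.Agent.Helper93.LP.KerDef

/-!
# LP block KER: existence of the kernels

Proof. Let `ψ ≥ 0` be a smooth bump with support in `[0,1/2]` and `∫ ψ = 1` (`ContDiffBump`, normed). Put `κ_0 = ψ`,
`κ_{j+1}(x) = (1/h) ∫_0^h κ_j(x-s) ds`; each is smooth, `≥ 0`, `∫ = 1`, support in `[0, 1/2+jh]`, and its transform
`E_j(y) = ∫ κ_j(α) e^{-αy} dα` satisfies `E_{j+1}(y) = E_j(y) (1-e^{-hy})/(hy)` (Fubini). `κ = κ_k` has support in `[0,1]`
(`k h ≤ 1/2`), `E = E_k`. `Ebd`, `Epos`: `|E(y)| ≤ ∫ κ e^{-α re y}`, `0 ≤ α ≤ 1`. `Edec`: `|1-e^{-hy}| ≤ 2 e^{h|re y|}`, so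
`|E(y)| ≤ e^{|re y|/2} (2 e^{h |re y|}/(h|y|))^k ≤ e^{(1/2+kh)|re y|} (2/(h|y|))^k`.
`χ(x) = ∫_1^A κ(x-s) ds`: smooth, in `[0,1]`, support in `[1,A+1]`, `LT χ (-y) = ∫_1^A e^{-sy} ds * E(y)`, and
`y ∫_1^A e^{-sy} ds = e^{-y} - e^{-Ay}`. (It is convenient to prove by induction on `j` the existence of `(κ_j, E_j)` with all
the properties: smooth, nonneg, integral one, support, transform formula.)
-/

open Complex Set MeasureTheory Filter Topology
open Pool.Agent.Helper57.LH Pool.Agent.Helper57.PC Pool.Agent.Helper57.Zeta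
open Pool.Agent.Helper69.GGM

namespace Pool.Agent.Helper93.LP

namespace KerAux

/-- smooth nonnegative function supported in `[p,q]` -/
structure Sm (κ : ℝ → ℝ) (p q : ℝ) : Prop where
  smooth : ContDiff ℝ (⊤ : ℕ∞) κ
  nonneg : ∀ x, 0 ≤ κ x
  supp : ∀ x, κ x ≠ 0 → p ≤ x ∧ x ≤ q

lemma Sm.hcs {κ : ℝ → ℝ} {p q : ℝ} (h : Sm κ p q) : HasCompactSupport κ := by
  refine HasCompactSupport.of_support_subset_isCompact (isCompact_Icc (a := p) (b := q)) ?_
  intro x hx
  exact h.supp x hx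

lemma Sm.hcsC {κ : ℝ → ℝ} {p q : ℝ} (h : Sm κ p q) : HasCompactSupport (fun x => (κ x : ℂ)) := by
  have := h.hcs.comp_left (g := fun x : ℝ => (x : ℂ)) (by simp)
  exact this

lemma Sm.cont {κ : ℝ → ℝ} {p q : ℝ} (h : Sm κ p q) : Continuous κ := h.smooth.continuous

lemma Sm.integrable_mul {κ : ℝ → ℝ} {p q : ℝ} (h : Sm κ p q) {g : ℝ → ℂ} (hg : Continuous g) :
    Integrable (fun α : ℝ => (κ α : ℂ) * g α) := by
  refine Continuous.integrable_of_hasCompactSupport ?_ ?_
  · exact (Complex.continuous_ofReal.comp h.cont).mul hg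
  · exact h.hcsC.mul_right

lemma Sm.integrable {κ : ℝ → ℝ} {p q : ℝ} (h : Sm κ p q) : Integrable κ :=
  h.cont.integrable_of_hasCompactSupport h.hcs

lemma Sm.LT_diff {κ : ℝ → ℝ} {p q : ℝ} (h : Sm κ p q) :
    Differentiable ℂ (LT (fun α => (κ α : ℂ))) := by
  intro z
  have key := hasDerivAt_integral_of_dominated_loc_of_deriv_le (μ := (volume : Measure ℝ))
    (F := fun (z : ℂ) (α : ℝ) => (κ α : ℂ) * Complex.exp ((α : ℂ) * z))
    (F' := fun (z : ℂ) (α : ℝ) => (κ α : ℂ) * ((α : ℂ) * Complex.exp ((α : ℂ) * z)))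
    (x₀ := z) (s := Metric.ball z 1)
    (bound := fun α : ℝ => ‖(κ α : ℂ) * ((|α| * Real.exp (|α| * (‖z‖ + 1)) : ℝ) : ℂ)‖)
    (Metric.ball_mem_nhds z one_pos) ?_ ?_ ?_ ?_ ?_ ?_
  · exact key.2.differentiableAt
  · refine Filter.Eventually.of_forall fun w => ?_
    exact (h.integrable_mul (by fun_prop)).aestronglyMeasurable
  · exact h.integrable_mul (by fun_prop)
  · exact (h.integrable_mul (by fun_prop)).aestronglyMeasurable
  · refine Filter.Eventually.of_forall fun α w hw => ?_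
    rw [norm_mul, norm_mul, norm_mul]
    refine mul_le_mul_of_nonneg_left ?_ (norm_nonneg _)
    rw [Complex.norm_real, Complex.norm_real, Complex.norm_exp, Real.norm_eq_abs, Real.norm_eq_abs,
      abs_of_nonneg (by positivity : (0:ℝ) ≤ |α| * Real.exp (|α| * (‖z‖ + 1)))]
    refine mul_le_mul_of_nonneg_left ?_ (abs_nonneg _)
    refine Real.exp_le_exp.2 ?_
    have h1 : ((α : ℂ) * w).re ≤ ‖(α : ℂ) * w‖ := Complex.re_le_norm _
    rw [norm_mul, Complex.norm_real, Real.norm_eq_abs] at h1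
    refine h1.trans (mul_le_mul_of_nonneg_left ?_ (abs_nonneg _))
    have h2 : dist w z < 1 := hw
    rw [dist_eq_norm] at h2
    have h3 : ‖w‖ ≤ ‖z‖ + ‖w - z‖ := by
      have := norm_add_le z (w - z)
      simpa using this
    linarith
  · refine (h.integrable_mul ?_).norm
    fun_prop
  · refine Filter.Eventually.of_forall fun α w _ => ?_
    have h1 : HasDerivAt (fun x : ℂ => (α : ℂ) * x) (α : ℂ) w := by
      simpa using (hasDerivAt_id w).const_mul (α : ℂ)
    have h2 := (h1.cexp).const_mul (κ α : ℂ)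
    exact h2.congr_deriv (by ring)

lemma Sm.norm_LT {κ : ℝ → ℝ} {p q : ℝ} (h : Sm κ p q) (hi : ∫ x, κ x = 1) {y : ℂ} {M : ℝ}
    (hM : ∀ x, p ≤ x → x ≤ q → -(x * y.re) ≤ M) :
    ‖LT (fun α => (κ α : ℂ)) (-y)‖ ≤ Real.exp M := by
  unfold LT
  calc ‖∫ α : ℝ, (κ α : ℂ) * Complex.exp ((α : ℂ) * -y)‖
      ≤ ∫ α : ℝ, κ α * Real.exp M := by
        refine norm_integral_le_of_norm_le (h.integrable.mul_const _) ?_
        refine Filter.Eventually.of_forall fun α => ?_
        rw [norm_mul, Complex.norm_real, Real.norm_eq_abs, abs_of_nonneg (h.nonneg α),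
          Complex.norm_exp]
        by_cases h0 : κ α = 0
        · simp [h0]
        · obtain ⟨h1, h2⟩ := h.supp α h0
          refine mul_le_mul_of_nonneg_left (Real.exp_le_exp.2 ?_) (h.nonneg α)
          have := hM α h1 h2
          simpa using this
    _ = Real.exp M := by
        rw [integral_mul_const, hi, one_mul]

/-- sliding average -/
noncomputable def sl (κ : ℝ → ℝ) (c d : ℝ) (x : ℝ) : ℝ :=
  (∫ s in (0:ℝ)..(x - c), κ s) - ∫ s in (0:ℝ)..(x - d), κ s

lemma sl_eq {κ : ℝ → ℝ} (hκ : Continuous κ) (c d x : ℝ) :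
    sl κ c d x = ∫ s in (x - d)..(x - c), κ s := by
  unfold sl
  rw [intervalIntegral.integral_interval_sub_left (hκ.intervalIntegrable _ _)
    (hκ.intervalIntegrable _ _)]

lemma sl_hasDeriv {κ : ℝ → ℝ} (hκ : Continuous κ) (c d x : ℝ) :
    HasDerivAt (sl κ c d) (κ (x - c) - κ (x - d)) x := by
  have h1 : ∀ e : ℝ, HasDerivAt (fun x => ∫ s in (0:ℝ)..(x - e), κ s) (κ (x - e)) x := by
    intro e
    have h2 : HasDerivAt (fun u => ∫ s in (0:ℝ)..u, κ s) (κ (x - e)) (x - e) :=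
      intervalIntegral.integral_hasDerivAt_right (hκ.intervalIntegrable _ _)
        (hκ.stronglyMeasurableAtFilter _ _) hκ.continuousAt
    exact HasDerivAt.comp_sub_const x e h2
  exact (h1 c).sub (h1 d)

lemma sl_smooth {κ : ℝ → ℝ} (hκ : ContDiff ℝ (⊤ : ℕ∞) κ) (c d : ℝ) :
    ContDiff ℝ (⊤ : ℕ∞) (sl κ c d) := by
  rw [contDiff_infty_iff_deriv]
  refine ⟨fun x => (sl_hasDeriv hκ.continuous c d x).differentiableAt, ?_⟩
  have h1 : deriv (sl κ c d) = fun x => κ (x - c) - κ (x - d) := by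
    ext x
    exact (sl_hasDeriv hκ.continuous c d x).deriv
  rw [h1]
  exact (hκ.comp (contDiff_id.sub contDiff_const)).sub (hκ.comp (contDiff_id.sub contDiff_const))

lemma Sm.sl {κ : ℝ → ℝ} {p q : ℝ} (h : Sm κ p q) {c d : ℝ} (hcd : c ≤ d) :
    Sm (sl κ c d) (p + c) (q + d) := by
  refine ⟨sl_smooth h.smooth c d, fun x => ?_, fun x hx => ?_⟩
  · rw [sl_eq h.cont]
    exact intervalIntegral.integral_nonneg (by linarith) fun s _ => h.nonneg s
  · by_contra hcon
    apply hx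
    rw [sl_eq h.cont]
    rw [← intervalIntegral.integral_zero (a := x - d) (b := x - c)]
    refine intervalIntegral.integral_congr fun s hs => ?_
    rw [uIcc_of_le (by linarith)] at hs
    by_contra h0
    obtain ⟨h1, h2⟩ := h.supp s h0
    exact hcon ⟨by linarith [hs.2], by linarith [hs.1]⟩

lemma Sm.sl_le {κ : ℝ → ℝ} {p q : ℝ} (h : Sm κ p q) (hi : ∫ x, κ x = 1) {c d : ℝ} (hcd : c ≤ d)
    (x : ℝ) : KerAux.sl κ c d x ≤ 1 := by
  rw [sl_eq h.cont, intervalIntegral.integral_of_le (by linarith), ← hi]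
  exact setIntegral_le_integral h.integrable (Filter.Eventually.of_forall h.nonneg)

lemma Sm.trans {κ : ℝ → ℝ} {p q : ℝ} (h : Sm κ p q) {c d : ℝ} (hcd : c ≤ d) (y : ℂ) :
    y * LT (fun α => (KerAux.sl κ c d α : ℂ)) (-y) =
      (Complex.exp (-((c : ℂ) * y)) - Complex.exp (-((d : ℂ) * y))) * LT (fun α => (κ α : ℂ)) (-y) := by
  have hs := h.sl hcd
  have hexp : Continuous (fun α : ℝ => Complex.exp ((α : ℂ) * -y)) := by fun_prop
  have hv : ∀ x : ℝ, HasDerivAt (fun α : ℝ => Complex.exp ((α : ℂ) * -y))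
      (-y * Complex.exp ((x : ℂ) * -y)) x := by
    intro x
    have h1 : HasDerivAt (fun α : ℝ => (α : ℂ) * -y) (-y) x := by
      simpa using (Complex.ofRealCLM.hasDerivAt (x := x)).mul_const (-y)
    have h2 := h1.cexp
    exact h2.congr_deriv (by ring)
  have hu : ∀ x : ℝ, HasDerivAt (fun α : ℝ => (KerAux.sl κ c d α : ℂ))
      ((κ (x - c) : ℂ) - (κ (x - d) : ℂ)) x := by
    intro x
    have := (sl_hasDeriv h.cont c d x).ofReal_comp
    simpa using this
  have hshift : ∀ e : ℝ, Integrable (fun α : ℝ => (κ (α - e) : ℂ) * Complex.exp ((α : ℂ) * -y)) ∧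
      ∫ α : ℝ, (κ (α - e) : ℂ) * Complex.exp ((α : ℂ) * -y) =
        Complex.exp (-((e : ℂ) * y)) * LT (fun α => (κ α : ℂ)) (-y) := by
    intro e
    have hf : Integrable (fun α : ℝ => (κ α : ℂ) * Complex.exp (((α + e : ℝ) : ℂ) * -y)) :=
      h.integrable_mul (by fun_prop)
    have h1 := hf.comp_sub_right e
    have h2 := integral_sub_right_eq_self (μ := (volume : Measure ℝ))
      (fun α : ℝ => (κ α : ℂ) * Complex.exp (((α + e : ℝ) : ℂ) * -y)) e
    simp only [sub_add_cancel] at h1 h2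
    refine ⟨h1, ?_⟩
    rw [h2]
    unfold LT
    rw [← integral_const_mul]
    refine integral_congr_ae (Filter.Eventually.of_forall fun α => ?_)
    simp only
    have : Complex.exp (((α + e : ℝ) : ℂ) * -y) =
        Complex.exp (-((e : ℂ) * y)) * Complex.exp ((α : ℂ) * -y) := by
      rw [← Complex.exp_add]
      congr 1
      push_cast
      ring
    rw [this]
    ring
  have hparts := integral_mul_deriv_eq_deriv_mul_of_integrable (fun x _ => hu x) (fun x _ => hv x)
    ?_ ?_ ?_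
  · unfold LT
    have e1 : ∫ x : ℝ, (KerAux.sl κ c d x : ℂ) * (-y * Complex.exp ((x : ℂ) * -y)) =
        -(y * ∫ x : ℝ, (KerAux.sl κ c d x : ℂ) * Complex.exp ((x : ℂ) * -y)) := by
      rw [← integral_const_mul, ← integral_neg]
      refine integral_congr_ae (Filter.Eventually.of_forall fun α => ?_)
      simp only
      ring
    have e2 : ∫ x : ℝ, ((κ (x - c) : ℂ) - (κ (x - d) : ℂ)) * Complex.exp ((x : ℂ) * -y) =
        (Complex.exp (-((c : ℂ) * y)) - Complex.exp (-((d : ℂ) * y))) *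
          LT (fun α => (κ α : ℂ)) (-y) := by
      rw [sub_mul, ← (hshift c).2, ← (hshift d).2, ← integral_sub (hshift c).1 (hshift d).1]
      refine integral_congr_ae (Filter.Eventually.of_forall fun α => ?_)
      simp only
      ring
    rw [e1, e2] at hparts
    exact neg_injective hparts
  · have := hs.integrable_mul (g := fun x : ℝ => -y * Complex.exp ((x : ℂ) * -y)) (by fun_prop)
    exact this
  · have := (hshift c).1.sub (hshift d).1
    refine this.congr (Filter.Eventually.of_forall fun α => ?_)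
    simp only [Pi.sub_apply, Pi.mul_apply]
    ring
  · exact hs.integrable_mul hexp

lemma LT_zero (κ : ℝ → ℝ) : LT (fun α => (κ α : ℂ)) 0 = ((∫ x, κ x : ℝ) : ℂ) := by
  unfold LT
  rw [← integral_complex_ofReal]
  simp

lemma Sm.int_sl {κ : ℝ → ℝ} {p q : ℝ} (h : Sm κ p q) (hi : ∫ x, κ x = 1) {c d : ℝ} (hcd : c ≤ d) :
    ∫ x, KerAux.sl κ c d x = d - c := by
  have hs := h.sl hcd
  set F : ℂ → ℂ := fun y => LT (fun α => (KerAux.sl κ c d α : ℂ)) (-y) with hF
  set G : ℂ → ℂ := fun y => LT (fun α => (κ α : ℂ)) (-y) with hG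
  have hFd : Differentiable ℂ F := hs.LT_diff.comp differentiable_neg
  have hGd : Differentiable ℂ G := h.LT_diff.comp differentiable_neg
  have h1 : HasDerivAt (fun y : ℂ => y * F y) (1 * F 0 + 0 * deriv F 0) 0 :=
    (hasDerivAt_id (0:ℂ)).mul (hFd 0).hasDerivAt
  have h2 : HasDerivAt (fun y : ℂ => Complex.exp (-((c : ℂ) * y)) - Complex.exp (-((d : ℂ) * y)))
      (((d : ℂ) - c)) 0 := by
    have h3 : ∀ e : ℂ, HasDerivAt (fun y : ℂ => Complex.exp (-(e * y))) (-e) 0 := by
      intro e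
      have h4 : HasDerivAt (fun y : ℂ => -(e * y)) (-(e * 1)) 0 :=
        ((hasDerivAt_id (0:ℂ)).const_mul e).neg
      exact h4.cexp.congr_deriv (by simp)
    have h5 := (h3 c).sub (h3 d)
    exact h5.congr_deriv (by ring)
  have h6 := h2.mul (hGd 0).hasDerivAt
  have h7 : (fun y : ℂ => y * F y) =
      (fun y : ℂ => Complex.exp (-((c : ℂ) * y)) - Complex.exp (-((d : ℂ) * y))) * G := by
    ext y
    exact h.trans hcd y
  rw [h7] at h1
  have h8 := h1.unique h6
  have hF0 : F 0 = ((∫ x, KerAux.sl κ c d x : ℝ) : ℂ) := by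
    simp only [hF, neg_zero]
    exact LT_zero _
  have hG0 : G 0 = 1 := by
    simp only [hG, neg_zero]
    rw [LT_zero, hi]
    simp
  rw [hF0, hG0] at h8
  simp only [mul_zero, neg_zero, sub_self, zero_mul, mul_one, one_mul, add_zero] at h8
  exact_mod_cast h8

lemma exists_spline {h : ℝ} (hh : 0 < h) (k : ℕ) :
    ∃ κ : ℝ → ℝ, Sm κ 0 (1 / 2 + k * h) ∧ ∫ x, κ x = 1 ∧
      ∀ y : ℂ, y ≠ 0 → ‖LT (fun α => (κ α : ℂ)) (-y)‖ ≤
        Real.exp ((1 / 2) * |y.re|) * (Real.exp (h * |y.re|) * (2 / (h * ‖y‖))) ^ k := by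
  induction k with
  | zero =>
    let f : ContDiffBump (1 / 4 : ℝ) := ⟨1 / 8, 1 / 4, by norm_num, by norm_num⟩
    have hSm : Sm (f.normed volume) 0 (1 / 2 + ((0 : ℕ) : ℝ) * h) := by
      refine ⟨f.contDiff_normed, fun x => f.nonneg_normed x, fun x hx => ?_⟩
      have hx' : x ∈ Function.support (f.normed volume) := hx
      rw [f.support_normed_eq] at hx'
      have h1 : dist x (1 / 4) < 1 / 4 := hx'
      rw [Real.dist_eq, abs_lt] at h1
      constructor
      · linarith [h1.1]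
      · simp only [Nat.cast_zero, zero_mul, add_zero]
        linarith [h1.2]
    refine ⟨f.normed volume, hSm, f.integral_normed, fun y _ => ?_⟩
    rw [pow_zero, mul_one]
    refine hSm.norm_LT f.integral_normed fun x hx0 hx1 => ?_
    simp only [Nat.cast_zero, zero_mul, add_zero] at hx1
    have h1 : -(x * y.re) ≤ |x * y.re| := neg_le_abs _
    rw [abs_mul, abs_of_nonneg hx0] at h1
    exact h1.trans (mul_le_mul_of_nonneg_right hx1 (abs_nonneg _))
  | succ k ih =>
    obtain ⟨κ, hκ, hi, hb⟩ := ih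
    have hs := hκ.sl hh.le
    have hint := hκ.int_sl hi hh.le
    have hLT : ∀ y : ℂ, LT (fun α => ((h⁻¹ * KerAux.sl κ 0 h α : ℝ) : ℂ)) (-y) =
        (h : ℂ)⁻¹ * LT (fun α => (KerAux.sl κ 0 h α : ℂ)) (-y) := by
      intro y
      unfold LT
      rw [← integral_const_mul]
      refine integral_congr_ae (Filter.Eventually.of_forall fun α => ?_)
      simp only
      push_cast
      ring
    refine ⟨fun x => h⁻¹ * KerAux.sl κ 0 h x, ⟨contDiff_const.mul hs.smooth, fun x => ?_, fun x hx => ?_⟩,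
      ?_, ?_⟩
    · exact mul_nonneg (inv_nonneg.2 hh.le) (hs.nonneg x)
    · have h1 := hs.supp x (right_ne_zero_of_mul hx)
      refine ⟨by linarith [h1.1], ?_⟩
      push_cast
      linarith [h1.2]
    · rw [integral_const_mul, hint]
      field_simp
      ring
    · intro y hy
      have h1 := hκ.trans hh.le y
      have hy' : 0 < ‖y‖ := norm_pos_iff.2 hy
      have h2 : ‖y‖ * ‖LT (fun α => (KerAux.sl κ 0 h α : ℂ)) (-y)‖ ≤
          (2 * Real.exp (h * |y.re|)) * ‖LT (fun α => (κ α : ℂ)) (-y)‖ := by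
        rw [← norm_mul, h1, norm_mul]
        refine mul_le_mul_of_nonneg_right ?_ (norm_nonneg _)
        refine (norm_sub_le _ _).trans ?_
        rw [Complex.norm_exp, Complex.norm_exp]
        have h3 : Real.exp (-((0 : ℝ) * y : ℂ)).re ≤ Real.exp (h * |y.re|) := by
          refine Real.exp_le_exp.2 ?_
          simp only [Complex.ofReal_zero, zero_mul, neg_zero, Complex.zero_re]
          positivity
        have h4 : Real.exp (-((h : ℂ) * y)).re ≤ Real.exp (h * |y.re|) := by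
          refine Real.exp_le_exp.2 ?_
          simp only [Complex.neg_re, Complex.mul_re, Complex.ofReal_re, Complex.ofReal_im, zero_mul,
            sub_zero]
          have := neg_le_abs (y.re)
          nlinarith
        linarith
      rw [hLT y, norm_mul, norm_inv, Complex.norm_real, Real.norm_eq_abs, abs_of_pos hh]
      have h5 := hb y hy
      have h6 : h⁻¹ * ‖LT (fun α => (KerAux.sl κ 0 h α : ℂ)) (-y)‖ ≤
          (Real.exp (h * |y.re|) * (2 / (h * ‖y‖))) * ‖LT (fun α => (κ α : ℂ)) (-y)‖ := by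
        have h7 : h⁻¹ * ‖LT (fun α => (KerAux.sl κ 0 h α : ℂ)) (-y)‖ =
            (‖y‖ * ‖LT (fun α => (KerAux.sl κ 0 h α : ℂ)) (-y)‖) / (h * ‖y‖) := by
          field_simp
        rw [h7]
        calc (‖y‖ * ‖LT (fun α => (KerAux.sl κ 0 h α : ℂ)) (-y)‖) / (h * ‖y‖)
            ≤ ((2 * Real.exp (h * |y.re|)) * ‖LT (fun α => (κ α : ℂ)) (-y)‖) / (h * ‖y‖) := by
              gcongr
          _ = _ := by
              field_simp
      refine h6.trans ?_
      calc (Real.exp (h * |y.re|) * (2 / (h * ‖y‖))) * ‖LT (fun α => (κ α : ℂ)) (-y)‖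
          ≤ (Real.exp (h * |y.re|) * (2 / (h * ‖y‖))) * (Real.exp ((1 / 2) * |y.re|) *
              (Real.exp (h * |y.re|) * (2 / (h * ‖y‖))) ^ k) := by
            gcongr
        _ = _ := by
            rw [pow_succ]
            ring

end KerAux

theorem exists_kernel {k : ℕ} {h A : ℝ} (hh : 0 < h) (hkh : k * h ≤ 1 / 2) (hA : 1 ≤ A) :
    ∃ (χ : ℝ → ℝ) (E : ℂ → ℂ), IsKer k h A χ E := by
  obtain ⟨κ, hκ, hi, hb⟩ := KerAux.exists_spline hh k
  have hs := hκ.sl hA
  refine ⟨KerAux.sl κ 1 A, fun y => LT (fun α => (κ α : ℂ)) (-y), ?_⟩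
  refine ⟨hs.smooth, hs.nonneg, hκ.sl_le hi hA, fun x hx => ?_, ?_, ?_, fun y => ?_, fun y hy => ?_,
    fun y hy => ?_, fun y => ?_⟩
  · have h1 := hs.supp x hx
    exact ⟨by linarith [h1.1], by linarith [h1.2]⟩
  · exact hκ.LT_diff.comp differentiable_neg
  · simp only [neg_zero]
    rw [KerAux.LT_zero, hi]
    simp
  · refine hκ.norm_LT hi fun x hx0 hx1 => ?_
    have h1 : -(x * y.re) ≤ |x * y.re| := neg_le_abs _
    rw [abs_mul, abs_of_nonneg hx0] at h1
    refine h1.trans ?_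
    have h2 : x ≤ 1 := by linarith
    calc x * |y.re| ≤ 1 * |y.re| := mul_le_mul_of_nonneg_right h2 (abs_nonneg _)
      _ = |y.re| := one_mul _
  · have := hκ.norm_LT hi (y := y) (M := 0) fun x hx0 hx1 => ?_
    · simpa using this
    · have := mul_nonneg hx0 hy
      linarith
  · refine (hb y hy).trans ?_
    rw [mul_pow, ← Real.exp_nat_mul, ← mul_assoc, ← Real.exp_add]
    refine mul_le_mul_of_nonneg_right (Real.exp_le_exp.2 ?_) (by positivity)
    have h1 := abs_nonneg y.re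
    nlinarith
  · have := hκ.trans hA y
    simpa using this

end Pool.Agent.Helper93.LP
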