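import Pool.Agent.Helper93.LP.SUP
import Pool.Agent.Helper93.LP.DET
import Pool.Agent.Helper93.LP.KER

/-!
# LP block OFF: the one-sided law forces the zeros onto the line

Proof. Let `ε, τ > 0`; show `offCount T ε ≤ τ SN T` eventually along `l`. Put `η = min (ε/3) (1/4)`, `c = kap/2`, `δ ∈ (0,1/2)` small, `Λ` large
(`det`, `sup_meas`; `exists_kernel` with `k = ⌈Λ^9⌉₊`, `h = exp(-cΛ/8)`, `k h ≤ 1/2`, `A = Λ^8 ≥ 1`). Let `X ⊆ ℝ` be the set of `t`
for which there is `ρ ∈ Zf T` with `3η ≤ x_ρ`, `L|γ-t| ≤ 1` and `x_ρ ≤ Λ`; it is a finite union of closed intervals. If `t ∈ X ∩ [δT,(1-δ)T]` then, by `det`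
(applied to `Conf` from `conf_of_good`), `t` is in the union of `{Phi > Λ²}`, the set of `far_measure`, and the set of `sup_meas`; and
`X ⊆ [-1,T+1]`. So `vol X ≤ (C/Λ² + C e^{-cΛ} + e^{-Λ} + 2δ) T + 2 =: ≤ κ T`, `κ` as small as we like. Then
`(2/L) Σ_{3η ≤ x_ρ ≤ Λ} mx = ∫_X Σ_{ρ: L|γ-t| ≤ 1, 3η ≤ x_ρ ≤ Λ} mx dt ≤ ∫_X 2 Phi ≤ C sqrt κ T` (`phi_set`; `1/(1+v²) ≥ 1/2`), and
`Σ_{x_ρ > Λ} mx ≤ e^{-kap Λ} C T L` (`exp_mom'`). So `Σ_{x_ρ ≥ ε} mx ≤ (C sqrt κ + C e^{-kap Λ}) T L`. Reflection `ρ ↦ 1 - conj ρ` (see the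
lemmas `sum_left_le` in GGM/M2.lean and the symmetric step in GGM/E3c.lean) gives the same for `x_ρ ≤ -ε`. `SN T = TL/2π`.
-/

open Complex Set MeasureTheory Filter Topology
open Pool.Agent.Helper57.LH Pool.Agent.Helper57.PC Pool.Agent.Helper57.Zeta
open Pool.Agent.Helper69.GGM

namespace Pool.Agent.Helper93.LP

namespace OFFaux

lemma mem_Zf' {T : ℝ} {ρ : ℂ} : ρ ∈ Zf T ↔ xi ρ = 0 ∧ 0 ≤ ρ.im ∧ ρ.im ≤ T := by
  rw [mem_Zf, isNontrivialZero_iff]

/-- reflection -/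
lemma reflect (T : ℝ) {ε : ℝ} (_hε : 0 < ε) :
    offCount T ε ≤ 2 * ∑ ρ ∈ (Zf T).filter (fun ρ => ε ≤ Real.log T * (ρ.re - 1 / 2)), mx ρ := by
  classical
  set L := Real.log T with hL
  set A := (Zf T).filter (fun ρ => ε ≤ L * (ρ.re - 1 / 2)) with hA
  set B := (Zf T).filter (fun ρ => ε ≤ -(L * (ρ.re - 1 / 2))) with hB
  have h0 : ∑ ρ ∈ B, mx ρ ≤ ∑ ρ ∈ A, mx ρ := by
    have h1 : ∑ ρ ∈ B, mx ρ = ∑ ρ ∈ B.image (fun ρ => 1 - starRingEnd ℂ ρ), mx ρ := by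
      rw [Finset.sum_image]
      · refine Finset.sum_congr rfl fun ρ _ => ?_
        unfold mx
        rw [order_one_sub, order_conj]
      · intro x _ y _ hxy
        have : starRingEnd ℂ x = starRingEnd ℂ y := by
          simpa using hxy
        exact (starRingEnd ℂ).injective this
    rw [h1]
    refine Finset.sum_le_sum_of_subset_of_nonneg ?_ fun ρ _ _ => mx_nonneg _
    intro ρ hρ
    obtain ⟨ρ', hρ', rfl⟩ := Finset.mem_image.1 hρ
    obtain ⟨hz, hre⟩ := Finset.mem_filter.1 hρ'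
    obtain ⟨hz1, hz2, hz3⟩ := mem_Zf'.1 hz
    rw [hA, Finset.mem_filter, mem_Zf']
    have e2 : (1 - starRingEnd ℂ ρ').re = 1 - ρ'.re := by simp
    have e3 : (1 - starRingEnd ℂ ρ').im = ρ'.im := by simp
    rw [e2, e3]
    refine ⟨⟨by rw [xi_one_sub, xi_conj, hz1, map_zero], hz2, hz3⟩, ?_⟩
    have : L * (1 - ρ'.re - 1 / 2) = -(L * (ρ'.re - 1 / 2)) := by ring
    rw [this]; exact hre
  have h2 : offCount T ε ≤ ∑ ρ ∈ A ∪ B, mx ρ := by
    unfold offCount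
    refine Finset.sum_le_sum_of_subset_of_nonneg ?_ fun ρ _ _ => mx_nonneg _
    intro ρ hρ
    obtain ⟨hz, hre⟩ := Finset.mem_filter.1 hρ
    rw [Finset.mem_union, hA, hB, Finset.mem_filter, Finset.mem_filter]
    rcases le_abs.1 hre with h | h
    · exact Or.inl ⟨hz, h⟩
    · exact Or.inr ⟨hz, h⟩
  have h3 : ∑ ρ ∈ A ∪ B, mx ρ ≤ ∑ ρ ∈ A, mx ρ + ∑ ρ ∈ B, mx ρ := by
    rw [← Finset.sum_union_inter]
    have : 0 ≤ ∑ ρ ∈ A ∩ B, mx ρ := Finset.sum_nonneg fun ρ _ => mx_nonneg _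
    linarith
  linarith

/-- zeros far from the line -/
lemma tail (T Λ : ℝ) : ∑ ρ ∈ (Zf T).filter (fun ρ => Λ < Real.log T * (ρ.re - 1 / 2)), mx ρ ≤
    Real.exp (-(kap * Λ)) * ∑ ρ ∈ Zf T, mx ρ * Real.exp (kap * |Real.log T * (ρ.re - 1 / 2)|) := by
  rw [Finset.mul_sum]
  refine (Finset.sum_le_sum fun ρ hρ => ?_).trans
    (Finset.sum_le_sum_of_subset_of_nonneg (Finset.filter_subset _ _) fun ρ _ _ => ?_)
  · have h := (Finset.mem_filter.1 hρ).2
    have h1 : 1 ≤ Real.exp (-(kap * Λ)) * Real.exp (kap * |Real.log T * (ρ.re - 1 / 2)|) := by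
      rw [← Real.exp_add]
      refine Real.one_le_exp ?_
      have h2 : Λ ≤ |Real.log T * (ρ.re - 1 / 2)| := h.le.trans (le_abs_self _)
      nlinarith [kap_pos]
    calc mx ρ = mx ρ * 1 := (mul_one _).symm
      _ ≤ mx ρ * (Real.exp (-(kap * Λ)) * Real.exp (kap * |Real.log T * (ρ.re - 1 / 2)|)) :=
          mul_le_mul_of_nonneg_left h1 (mx_nonneg _)
      _ = _ := by ring
  · have := mx_nonneg ρ
    positivity

lemma near {T : ℝ} (hL : 1 ≤ Real.log T) (F : Finset ℂ) (hF : F ⊆ Zf T) :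
    (2 / Real.log T) * ∑ ρ ∈ F, mx ρ ≤
      2 * ∫ t in ⋃ ρ ∈ F, Icc (ρ.im - 1 / Real.log T) (ρ.im + 1 / Real.log T), Phi T t := by
  classical
  set L := Real.log T with hLd
  have hL0 : 0 < L := by linarith
  set J : ℂ → Set ℝ := fun ρ => Icc (ρ.im - 1 / L) (ρ.im + 1 / L) with hJ
  set X : Set ℝ := ⋃ ρ ∈ F, J ρ with hX
  have hXc : IsCompact X := F.isCompact_biUnion (fun ρ _ => isCompact_Icc)
  have hXm : MeasurableSet X := hXc.measurableSet
  have hPc : Continuous (fun t => Phi T t) := by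
    unfold Phi
    refine continuous_finsetSum _ fun ρ _ => continuous_const.mul ?_
    refine Continuous.inv₀ (by fun_prop) fun t => ?_
    have : 0 ≤ (Real.log T * (ρ.im - t)) ^ 2 := sq_nonneg _
    linarith
  have hint : IntegrableOn (fun t => Phi T t) X := hPc.continuousOn.integrableOn_compact hXc
  have hindi : ∀ ρ : ℂ, IntegrableOn (fun t => mx ρ * (J ρ).indicator (fun _ => (1 : ℝ)) t) X := by
    intro ρ
    refine Integrable.const_mul ?_ _
    refine Integrable.mono_measure ?_ Measure.restrict_le_self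
    exact (integrable_indicator_iff measurableSet_Icc).2 (integrableOn_const (by simp) (by simp))
  have h1 : (2 / L) * ∑ ρ ∈ F, mx ρ =
      ∫ t in X, ∑ ρ ∈ F, mx ρ * (J ρ).indicator (fun _ => (1 : ℝ)) t := by
    rw [integral_finsetSum _ (fun ρ _ => hindi ρ), Finset.mul_sum]
    refine Finset.sum_congr rfl fun ρ hρ => ?_
    rw [integral_const_mul, setIntegral_indicator measurableSet_Icc]
    have h2 : X ∩ J ρ = J ρ := by
      refine inter_eq_self_of_subset_right ?_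
      intro t ht
      exact mem_biUnion hρ ht
    have h3 : 0 < 1 / L := by positivity
    rw [h2, setIntegral_const, smul_eq_mul, mul_one, Real.volume_real_Icc_of_le (by linarith)]
    ring
  rw [h1, ← integral_const_mul]
  refine setIntegral_mono_on (integrable_finsetSum _ fun ρ _ => hindi ρ) (hint.const_mul 2) hXm ?_
  intro t _
  have h4 : 2 * Phi T t = ∑ ρ ∈ Zf T, 2 * (mx ρ * (1 + (L * (ρ.im - t)) ^ 2)⁻¹) := by
    unfold Phi
    rw [Finset.mul_sum]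
  rw [h4]
  refine (Finset.sum_le_sum fun ρ hρ => ?_).trans
    (Finset.sum_le_sum_of_subset_of_nonneg hF fun ρ _ _ => ?_)
  · by_cases h : t ∈ J ρ
    · rw [indicator_of_mem h, mul_one]
      have h5 : |L * (ρ.im - t)| ≤ 1 := by
        rw [abs_mul, abs_of_pos hL0, ← le_div_iff₀' hL0, abs_le]
        simp only [hJ, mem_Icc] at h
        constructor <;> linarith [h.1, h.2]
      have h6 : (L * (ρ.im - t)) ^ 2 ≤ 1 := by
        rw [← sq_abs]; nlinarith [abs_nonneg (L * (ρ.im - t))]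
      have h7 : (1 / 2 : ℝ) ≤ (1 + (L * (ρ.im - t)) ^ 2)⁻¹ := by
        rw [one_div]
        refine inv_anti₀ ?_ (by linarith)
        have : 0 ≤ (L * (ρ.im - t)) ^ 2 := sq_nonneg _
        linarith
      nlinarith [mx_nonneg ρ]
    · rw [indicator_of_notMem h, mul_zero]
      have := mx_nonneg ρ
      positivity
  · have := mx_nonneg ρ
    positivity

lemma zz_re (T t : ℝ) (ρ : ℂ) : (zz T t ρ).re = Real.log T * (ρ.re - 1 / 2) := by
  unfold zz; simp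

lemma zz_im (T t : ℝ) (ρ : ℂ) : (zz T t ρ).im = Real.log T * (ρ.im - t) := by
  unfold zz; simp

lemma small_exp {a : ℝ} (ha : 0 < a) : Tendsto (fun x : ℝ => Real.exp (-(a * x))) atTop (𝓝 0) := by
  refine Real.tendsto_exp_atBot.comp ?_
  exact tendsto_neg_atTop_atBot.comp (tendsto_id.const_mul_atTop ha)

lemma small_pow_exp {a : ℝ} (ha : 0 < a) :
    Tendsto (fun x : ℝ => (x ^ 9 + 1) * Real.exp (-(a * x))) atTop (𝓝 0) := by
  have h1 : Tendsto (fun x : ℝ => x ^ 9 * Real.exp (-(a * x))) atTop (𝓝 0) := by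
    have h := (Real.tendsto_pow_mul_exp_neg_atTop_nhds_zero 9).comp (tendsto_id.const_mul_atTop ha)
    have h' := h.const_mul ((a ^ 9)⁻¹)
    rw [mul_zero] at h'
    refine h'.congr fun x => ?_
    simp only [Function.comp, id]
    rw [mul_pow]
    field_simp
  have h2 := h1.add (small_exp ha)
  rw [add_zero] at h2
  refine h2.congr fun x => ?_
  ring

lemma add5 {a b c d e : ℝ} (ha : 0 ≤ a) (hb : 0 ≤ b) (hc : 0 ≤ c) (hd : 0 ≤ d) (he : 0 ≤ e) :
    ENNReal.ofReal a + (ENNReal.ofReal b + (ENNReal.ofReal c + (ENNReal.ofReal d + ENNReal.ofReal e))) =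
      ENNReal.ofReal (a + (b + (c + (d + e)))) := by
  rw [ENNReal.ofReal_add ha (by positivity), ENNReal.ofReal_add hb (by positivity),
    ENNReal.ofReal_add hc (by positivity), ENNReal.ofReal_add hd he]

end OFFaux

theorem offLine_of_upLaw {l : Filter ℝ} [l.IsCountablyGenerated] (hl : l ≤ atTop) {θ : ℝ} (hθ : θ < 1)
    (h : UpLaw l θ) : OffLine l := by
  intro ε hε
  have hπ := Real.pi_pos
  set η : ℝ := min (ε / 3) (1 / 4) with hηd
  have hη : 0 < η := by rw [hηd]; positivity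
  have hη1 : η ≤ 1 / 4 := min_le_right _ _
  have hη3 : 3 * η ≤ ε := by
    have : η ≤ ε / 3 := min_le_left _ _
    linarith
  have hc : 0 < kap / 2 := by have := kap_pos; positivity
  have hc1 : kap / 2 ≤ 1 := by have := kap_le; have := kap_pos; linarith
  obtain ⟨ΛA, hΛA, hdet⟩ := det hc hc1 hη hη1
  obtain ⟨ΛB, hΛB, hsup⟩ := sup_meas hl hθ h hη hη1
  obtain ⟨C1, T1, hC1, hexp⟩ := exp_mom'
  obtain ⟨C2, T2, hC2, hset⟩ := phi_set
  obtain ⟨C3, T3, hC3, hphi⟩ := phi_measure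
  obtain ⟨C4, T4, hC4, hfar⟩ := far_measure
  have hoff0 : ∀ T : ℝ, 0 ≤ offCount T ε := fun T => Finset.sum_nonneg fun ρ _ => mx_nonneg _
  rw [Metric.tendsto_nhds]
  intro τ hτ
  -- the constants
  set v0 : ℝ := (τ / (16 * Real.pi * C2)) ^ 2 with hv0
  have hv0p : 0 < v0 := by positivity
  set δ : ℝ := min (v0 / 12) (1 / 4) with hδd
  have hδ : 0 < δ := by rw [hδd]; positivity
  have hδ1 : δ < 1 / 2 := by
    have : δ ≤ 1 / 4 := min_le_right _ _
    linarith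
  have hδ2 : 3 * δ ≤ v0 / 4 := by
    have : δ ≤ v0 / 12 := min_le_left _ _
    linarith
  have hkap := kap_pos
  obtain ⟨Λ, hΛ1, hΛ2, hΛ3, hΛ4, hΛ5, hΛ6, hΛ7, hΛ8⟩ : ∃ Λ : ℝ, 1 ≤ Λ ∧ ΛA ≤ Λ ∧ ΛB ≤ Λ ∧
      C3 / Λ ^ 2 ≤ v0 / 4 ∧ C4 * Real.exp (-(kap / 2 * Λ)) ≤ v0 / 4 ∧ Real.exp (-Λ) ≤ v0 / 4 ∧
      Real.exp (-(kap * Λ)) * C1 ≤ τ / (16 * Real.pi) ∧
      (Λ ^ 9 + 1) * Real.exp (-(kap / 2 * Λ / 8)) ≤ 1 / 2 := by
    have e1 : ∀ᶠ x : ℝ in atTop, C3 / x ^ 2 ≤ v0 / 4 := by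
      have : Tendsto (fun x : ℝ => C3 / x ^ 2) atTop (𝓝 0) :=
        tendsto_const_nhds.div_atTop (tendsto_pow_atTop (by norm_num))
      exact (this.eventually_lt_const (by positivity : (0:ℝ) < v0 / 4)).mono fun x hx => hx.le
    have e2 : ∀ᶠ x : ℝ in atTop, C4 * Real.exp (-(kap / 2 * x)) ≤ v0 / 4 := by
      have := (OFFaux.small_exp hc).const_mul C4
      rw [mul_zero] at this
      exact (this.eventually_lt_const (by positivity : (0:ℝ) < v0 / 4)).mono fun x hx => hx.le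
    have e3 : ∀ᶠ x : ℝ in atTop, Real.exp (-x) ≤ v0 / 4 := by
      have := OFFaux.small_exp (a := 1) one_pos
      refine (this.eventually_lt_const (by positivity : (0:ℝ) < v0 / 4)).mono fun x hx => ?_
      rw [one_mul] at hx
      exact hx.le
    have e4 : ∀ᶠ x : ℝ in atTop, Real.exp (-(kap * x)) * C1 ≤ τ / (16 * Real.pi) := by
      have := (OFFaux.small_exp hkap).mul_const C1
      rw [zero_mul] at this
      exact (this.eventually_lt_const (by positivity : (0:ℝ) < τ / (16 * Real.pi))).mono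
        fun x hx => hx.le
    have e5 : ∀ᶠ x : ℝ in atTop, (x ^ 9 + 1) * Real.exp (-(kap / 2 * x / 8)) ≤ 1 / 2 := by
      have := OFFaux.small_pow_exp (a := kap / 16) (by positivity)
      refine (this.eventually_lt_const (by norm_num : (0:ℝ) < 1 / 2)).mono fun x hx => ?_
      have e : kap / 2 * x / 8 = kap / 16 * x := by ring
      rw [e]
      exact hx.le
    obtain ⟨Λ, h⟩ := (((((((eventually_ge_atTop (1:ℝ)).and (eventually_ge_atTop ΛA)).and
      (eventually_ge_atTop ΛB)).and e1).and e2).and e3).and (e4.and e5)).exists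
    exact ⟨Λ, h.1.1.1.1.1.1, h.1.1.1.1.1.2, h.1.1.1.1.2, h.1.1.1.2, h.1.1.2, h.1.2, h.2.1, h.2.2⟩
  have hΛ0 : 0 < Λ := by linarith
  -- the kernel
  obtain ⟨χ, E, hker⟩ := exists_kernel (k := ⌈Λ ^ 9⌉₊) (h := Real.exp (-(kap / 2 * Λ / 8))) (A := Λ ^ 8)
    (Real.exp_pos _) (by
      have h1 : (⌈Λ ^ 9⌉₊ : ℝ) ≤ Λ ^ 9 + 1 := (Nat.ceil_lt_add_one (by positivity)).le
      exact (mul_le_mul_of_nonneg_right h1 (Real.exp_pos _).le).trans hΛ8)
    (one_le_pow₀ hΛ1)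
  have hKP : KerP (kap / 2) Λ χ E := hker
  have hlogT : Tendsto Real.log atTop atTop := Real.tendsto_log_atTop
  filter_upwards [hsup Λ hΛ3 χ E hKP δ hδ hδ1, hl (eventually_ge_atTop T1), hl (eventually_ge_atTop T2),
    hl (eventually_ge_atTop T3), hl (eventually_ge_atTop T4), hl (eventually_ge_atTop (2 / δ)),
    hl (hlogT.eventually_ge_atTop 1), hl (eventually_gt_atTop 0)] with T hS hT1 hT2 hT3 hT4 hTδ hL hT0
  set L := Real.log T with hLd
  have hL0 : 0 < L := by linarith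
  have h1L : 1 / L ≤ 1 := by rw [div_le_one hL0]; exact hL
  have h1L0 : 0 < 1 / L := by positivity
  have hTδ' : 2 ≤ δ * T := by rwa [div_le_iff₀' hδ] at hTδ
  classical
  set F := (Zf T).filter (fun ρ => 3 * η ≤ L * (ρ.re - 1 / 2) ∧ L * (ρ.re - 1 / 2) ≤ Λ) with hF
  have hFZ : F ⊆ Zf T := Finset.filter_subset _ _
  set X : Set ℝ := ⋃ ρ ∈ F, Icc (ρ.im - 1 / L) (ρ.im + 1 / L) with hX
  have hXm : MeasurableSet X := (F.isCompact_biUnion (fun ρ _ => isCompact_Icc)).measurableSet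
  set S1 : Set ℝ := {t : ℝ | Λ ^ 2 < Phi T t} with hS1
  set S2 : Set ℝ := {t : ℝ | ∃ ρ ∈ Zf T, Λ ≤ |Real.log T * (ρ.re - 1 / 2)| ∧
      |Real.log T * (ρ.im - t)| < Real.exp (kap / 2 * |Real.log T * (ρ.re - 1 / 2)|)} with hS2
  set S3 : Set ℝ := {t : ℝ | δ * T ≤ t ∧ t ≤ (1 - δ) * T ∧ Phi T t ≤ Λ ^ 2 ∧
      (∀ ρ ∈ Zf T, Λ ≤ |Real.log T * (ρ.re - 1 / 2)| →
        Real.exp (kap / 2 * |Real.log T * (ρ.re - 1 / 2)|) ≤ |Real.log T * (ρ.im - t)|) ∧
      ∃ b : ℂ, η ≤ b.re ∧ b.re ≤ Λ + 2 ∧ |b.im| ≤ 5 * Λ ∧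
        Real.exp (Λ ^ 5) < ‖GD (Zf T) mx (fun ρ => zz T t ρ) χ b‖} with hS3
  have hXsub : X ⊆ Icc (-1) (δ * T) ∪ (Icc ((1 - δ) * T) (T + 1) ∪ (S1 ∪ (S2 ∪ S3))) := by
    intro t ht
    rw [hX] at ht
    simp only [mem_iUnion, exists_prop] at ht
    obtain ⟨ρ, hρ, ht1, ht2⟩ := ht
    obtain ⟨hρZ, hρ1, hρ2⟩ := Finset.mem_filter.1 hρ
    obtain ⟨-, hi0, hi1⟩ := mem_Zf.1 hρZ
    by_contra hcon
    simp only [mem_union, not_or] at hcon
    obtain ⟨n1, n2, n3, n4, n5⟩ := hcon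
    have m1 : δ * T < t := by
      by_contra hh
      exact n1 ⟨by linarith, not_lt.1 hh⟩
    have m2 : t < (1 - δ) * T := by
      by_contra hh
      exact n2 ⟨not_lt.1 hh, by linarith⟩
    have m3 : Phi T t ≤ Λ ^ 2 := not_lt.1 n3
    have m4 : ∀ ρ ∈ Zf T, Λ ≤ |Real.log T * (ρ.re - 1 / 2)| →
        Real.exp (kap / 2 * |Real.log T * (ρ.re - 1 / 2)|) ≤ |Real.log T * (ρ.im - t)| := by
      intro ρ' hρ' hh
      by_contra hcc
      exact n4 ⟨ρ', hρ', hh, not_le.1 hcc⟩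
    have m5 : ∀ b : ℂ, η ≤ b.re → b.re ≤ Λ + 2 → |b.im| ≤ 5 * Λ →
        ‖GD (Zf T) mx (fun ρ => zz T t ρ) χ b‖ ≤ Real.exp (Λ ^ 5) := by
      intro b hb1 hb2 hb3
      by_contra hcc
      exact n5 ⟨m1.le, m2.le, m3, m4, b, hb1, hb2, hb3, not_le.1 hcc⟩
    refine hdet Λ hΛ2 χ E hKP (Zf T) mx (fun ρ => zz T t ρ) (conf_of_good m3 m4) m5 ρ hρZ ?_ ?_
    · rw [OFFaux.zz_im, abs_mul, abs_of_pos hL0, ← le_div_iff₀' hL0, abs_le]
      constructor <;> linarith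
    · rw [OFFaux.zz_re]; exact hρ1
  have hV : volume X ≤ ENNReal.ofReal (v0 * T) := by
    have a1 : volume (Icc (-1) (δ * T)) ≤ ENNReal.ofReal (δ * T + 1) := by
      rw [Real.volume_Icc]
      exact ENNReal.ofReal_le_ofReal (by linarith)
    have a2 : volume (Icc ((1 - δ) * T) (T + 1)) ≤ ENNReal.ofReal (δ * T + 1) := by
      rw [Real.volume_Icc]
      exact ENNReal.ofReal_le_ofReal (by linarith)
    have a3 : volume S1 ≤ ENNReal.ofReal (C3 / Λ ^ 2 * T) := hphi T hT3 (Λ ^ 2) (by positivity)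
    have a4 : volume S2 ≤ ENNReal.ofReal (C4 * Real.exp (-(kap / 2 * Λ)) * T) := hfar T hT4 Λ hΛ0.le
    have a5 : volume S3 ≤ ENNReal.ofReal (Real.exp (-Λ) * T) := hS
    calc volume X ≤ volume (Icc (-1) (δ * T) ∪ (Icc ((1 - δ) * T) (T + 1) ∪ (S1 ∪ (S2 ∪ S3)))) :=
          measure_mono hXsub
      _ ≤ volume (Icc (-1) (δ * T)) + (volume (Icc ((1 - δ) * T) (T + 1)) +
          (volume S1 + (volume S2 + volume S3))) := by
          refine (measure_union_le _ _).trans (add_le_add le_rfl ?_)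
          refine (measure_union_le _ _).trans (add_le_add le_rfl ?_)
          refine (measure_union_le _ _).trans (add_le_add le_rfl ?_)
          exact measure_union_le _ _
      _ ≤ ENNReal.ofReal (δ * T + 1) + (ENNReal.ofReal (δ * T + 1) + (ENNReal.ofReal (C3 / Λ ^ 2 * T) +
          (ENNReal.ofReal (C4 * Real.exp (-(kap / 2 * Λ)) * T) + ENNReal.ofReal (Real.exp (-Λ) * T)))) := by
          gcongr
      _ = ENNReal.ofReal ((δ * T + 1) + ((δ * T + 1) + (C3 / Λ ^ 2 * T +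
          (C4 * Real.exp (-(kap / 2 * Λ)) * T + Real.exp (-Λ) * T)))) := by
          exact OFFaux.add5 (by positivity) (by positivity) (by positivity) (by positivity) (by positivity)
      _ ≤ ENNReal.ofReal (v0 * T) := by
          refine ENNReal.ofReal_le_ofReal ?_
          have b1 : C3 / Λ ^ 2 * T ≤ v0 / 4 * T := mul_le_mul_of_nonneg_right hΛ4 hT0.le
          have b2 : C4 * Real.exp (-(kap / 2 * Λ)) * T ≤ v0 / 4 * T :=
            mul_le_mul_of_nonneg_right hΛ5 hT0.le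
          have b3 : Real.exp (-Λ) * T ≤ v0 / 4 * T := mul_le_mul_of_nonneg_right hΛ6 hT0.le
          have b4 : 3 * δ * T ≤ v0 / 4 * T := mul_le_mul_of_nonneg_right hδ2 hT0.le
          linarith
  have hsq : Real.sqrt v0 = τ / (16 * Real.pi * C2) := by
    rw [hv0]; exact Real.sqrt_sq (by positivity)
  have hI := hset T hT2 X hXm v0 hv0p.le hV
  have hN := OFFaux.near hL F hFZ
  have hI2 : ∑ ρ ∈ F, mx ρ ≤ τ / (16 * Real.pi) * (T * L) := by
    have h1 : (2 / L) * ∑ ρ ∈ F, mx ρ ≤ 2 * (C2 * Real.sqrt v0 * T) :=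
      hN.trans (mul_le_mul_of_nonneg_left hI (by norm_num))
    have h2 : C2 * Real.sqrt v0 * T = τ / (16 * Real.pi) * T := by
      rw [hsq]; field_simp
    rw [h2] at h1
    have h3 : ∑ ρ ∈ F, mx ρ = L / 2 * ((2 / L) * ∑ ρ ∈ F, mx ρ) := by field_simp
    rw [h3]
    calc L / 2 * ((2 / L) * ∑ ρ ∈ F, mx ρ) ≤ L / 2 * (2 * (τ / (16 * Real.pi) * T)) :=
          mul_le_mul_of_nonneg_left h1 (by positivity)
      _ = _ := by ring
  have hI3 : ∑ ρ ∈ (Zf T).filter (fun ρ => Λ < Real.log T * (ρ.re - 1 / 2)), mx ρ ≤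
      τ / (16 * Real.pi) * (T * L) := by
    refine (OFFaux.tail T Λ).trans ?_
    calc Real.exp (-(kap * Λ)) * ∑ ρ ∈ Zf T, mx ρ * Real.exp (kap * |Real.log T * (ρ.re - 1 / 2)|) ≤
          Real.exp (-(kap * Λ)) * (C1 * (T * L)) :=
          mul_le_mul_of_nonneg_left (hexp T hT1) (Real.exp_pos _).le
      _ = Real.exp (-(kap * Λ)) * C1 * (T * L) := by ring
      _ ≤ τ / (16 * Real.pi) * (T * L) := mul_le_mul_of_nonneg_right hΛ7 (by positivity)
  have hI4 : ∑ ρ ∈ (Zf T).filter (fun ρ => ε ≤ Real.log T * (ρ.re - 1 / 2)), mx ρ ≤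
      ∑ ρ ∈ F, mx ρ + ∑ ρ ∈ (Zf T).filter (fun ρ => Λ < Real.log T * (ρ.re - 1 / 2)), mx ρ := by
    have h1 : (Zf T).filter (fun ρ => ε ≤ Real.log T * (ρ.re - 1 / 2)) ⊆
        F ∪ (Zf T).filter (fun ρ => Λ < Real.log T * (ρ.re - 1 / 2)) := by
      intro ρ hρ
      obtain ⟨hz, hre⟩ := Finset.mem_filter.1 hρ
      rw [Finset.mem_union, hF, Finset.mem_filter, Finset.mem_filter]
      rcases le_or_gt (L * (ρ.re - 1 / 2)) Λ with h | h
      · exact Or.inl ⟨hz, by linarith, h⟩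
      · exact Or.inr ⟨hz, h⟩
    refine (Finset.sum_le_sum_of_subset_of_nonneg h1 fun ρ _ _ => mx_nonneg _).trans ?_
    rw [← Finset.sum_union_inter]
    have : 0 ≤ ∑ ρ ∈ F ∩ (Zf T).filter (fun ρ => Λ < Real.log T * (ρ.re - 1 / 2)), mx ρ :=
      Finset.sum_nonneg fun ρ _ => mx_nonneg _
    linarith
  have hI5 := OFFaux.reflect T hε
  have hI6 : offCount T ε ≤ τ / (4 * Real.pi) * (T * L) := by
    have e : τ / (4 * Real.pi) * (T * L) = 4 * (τ / (16 * Real.pi) * (T * L)) := by ring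
    rw [e]
    linarith
  have hSN : SN T = T * L / (2 * Real.pi) := rfl
  have hSN0 : 0 < SN T := by rw [hSN]; positivity
  rw [Real.dist_eq, sub_zero, abs_of_nonneg (div_nonneg (hoff0 T) hSN0.le), div_lt_iff₀ hSN0]
  have hfin : τ / (4 * Real.pi) * (T * L) = τ / 2 * SN T := by
    rw [hSN]; field_simp; ring
  rw [hfin] at hI6
  have : 0 < τ * SN T := by positivity
  linarith

end Pool.Agent.Helper93.LP
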