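import Pool.Agent.Helper93.LP.FTb

/-!
# LP block Part: partition of a weight

Proof. Let `θ < 1`; choose `max θ 0 < p < q < 1` and a smooth `τ : ℝ → [0, π/2]` with `τ = 0` for `α ≤ p` and `τ = π/2` for `α ≥ q`
(`(π/2) Real.smoothTransition ((α-p)/(q-p))`). For `WR w a b`: `w₁ = w cos τ` is a weight with support in `[a, q]`
(if `a ≤ q`; otherwise `w₁ = 0`) and `w₂ = w sin τ` has support in `[max a p, b]` (if `b ≥ p`, otherwise `w₂ = 0`), and `w² = w₁² + w₂²`,
`VW w = VW w₁ + VW w₂`, `FT_add` (`T > 1`). Use the hypotheses with `ε/2`. The zero function is `WR 0 a' b'` for every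
`0 < a' ≤ b'`.
-/

open Complex Set MeasureTheory Filter Topology
open Pool.Agent.Helper57.LH Pool.Agent.Helper57.PC Pool.Agent.Helper57.Zeta
open Pool.Agent.Helper69.GGM

namespace Pool.Agent.Helper93.LP

private theorem WR_VW_int {w : ℝ → ℝ} {a b : ℝ} (h : WR w a b) :
    IntegrableOn (fun α => min α 1 * w α ^ 2) (Ioi 0) := by
  have hc : Continuous w := h.1.continuous
  have hcs : HasCompactSupport (fun α : ℝ => min α 1 * w α ^ 2) := by
    refine HasCompactSupport.of_support_subset_isCompact (isCompact_Icc (a := a) (b := b)) ?_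
    intro x hx
    refine h.2.2.2 x fun h0 => hx ?_
    simp [h0]
  have hcont : Continuous (fun α : ℝ => min α 1 * w α ^ 2) := by fun_prop
  exact (hcont.integrable_of_hasCompactSupport hcs).integrableOn

theorem upF_of_parts {l : Filter ℝ} (hl : l ≤ atTop) {θ : ℝ} (hθ : θ < 1)
    (h1 : ∀ (w : ℝ → ℝ) (a b : ℝ), WR w a b → b < 1 → ∀ ε : ℝ, 0 < ε →
      ∀ᶠ T : ℝ in l, FT T (fun α => w α ^ 2) ≤ VW w + ε)
    (h2 : ∀ (w : ℝ → ℝ) (a b : ℝ), WR w a b → θ < a → ∀ ε : ℝ, 0 < ε →
      ∀ᶠ T : ℝ in l, FT T (fun α => w α ^ 2) ≤ VW w + ε) : UpF l := by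
  intro w a b hw ε hε
  set m : ℝ := max θ 0 with hm
  have hm1 : m < 1 := max_lt hθ one_pos
  have hm0 : 0 ≤ m := le_max_right _ _
  have hmθ : θ ≤ m := le_max_left _ _
  set p : ℝ := (2 * m + 1) / 3 with hp
  set q : ℝ := (m + 2) / 3 with hq
  have hmp : m < p := by rw [hp]; linarith
  have hpq : p < q := by rw [hp, hq]; linarith
  have hq1 : q < 1 := by rw [hq]; linarith
  have hp0 : 0 < p := by linarith
  have hpq0 : 0 < q - p := by linarith
  set τ : ℝ → ℝ := fun x => Real.pi / 2 * Real.smoothTransition ((x - p) / (q - p)) with hτ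
  have hτs : ContDiff ℝ (⊤ : ℕ∞) τ := by
    rw [hτ]
    refine contDiff_const.mul ?_
    exact Real.smoothTransition.contDiff.comp ((contDiff_id.sub contDiff_const).div_const _)
  have hw1 : WR (fun x => w x * Real.cos (τ x)) (min a q) q := by
    refine ⟨hw.1.mul (Real.contDiff_cos.comp hτs), lt_min hw.2.1 (by linarith), min_le_right _ _, ?_⟩
    intro x hx
    have hwx : w x ≠ 0 := fun h0 => hx (by simp [h0])
    have hcx : Real.cos (τ x) ≠ 0 := fun h0 => hx (by simp [h0])
    refine ⟨(min_le_left _ _).trans (hw.2.2.2 x hwx).1, ?_⟩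
    by_contra hcon
    rw [not_le] at hcon
    apply hcx
    have h3 : 1 ≤ (x - p) / (q - p) := by
      rw [le_div_iff₀ hpq0]
      linarith
    simp only [hτ]
    rw [Real.smoothTransition.one_of_one_le h3, mul_one, Real.cos_pi_div_two]
  have hw2 : WR (fun x => w x * Real.sin (τ x)) p (max b p) := by
    refine ⟨hw.1.mul (Real.contDiff_sin.comp hτs), hp0, le_max_right _ _, ?_⟩
    intro x hx
    have hwx : w x ≠ 0 := fun h0 => hx (by simp [h0])
    have hsx : Real.sin (τ x) ≠ 0 := fun h0 => hx (by simp [h0])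
    refine ⟨?_, (hw.2.2.2 x hwx).2.trans (le_max_left _ _)⟩
    by_contra hcon
    rw [not_le] at hcon
    apply hsx
    have h3 : (x - p) / (q - p) ≤ 0 := div_nonpos_of_nonpos_of_nonneg (by linarith) hpq0.le
    simp only [hτ]
    rw [Real.smoothTransition.zero_of_nonpos h3, mul_zero, Real.sin_zero]
  have hsq : ∀ x, w x ^ 2 = (w x * Real.cos (τ x)) ^ 2 + (w x * Real.sin (τ x)) ^ 2 := by
    intro x
    have h4 := Real.sin_sq_add_cos_sq (τ x)
    calc w x ^ 2 = w x ^ 2 * (Real.sin (τ x) ^ 2 + Real.cos (τ x) ^ 2) := by rw [h4, mul_one]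
      _ = _ := by ring
  have hVW : VW w = VW (fun x => w x * Real.cos (τ x)) + VW (fun x => w x * Real.sin (τ x)) := by
    unfold VW
    rw [← integral_add (WR_VW_int hw1) (WR_VW_int hw2)]
    congr 1
    funext x
    rw [hsq x]
    ring
  have hT : ∀ᶠ T : ℝ in l, 1 < T := hl (eventually_gt_atTop 1)
  filter_upwards [h1 _ _ _ hw1 hq1 (ε / 2) (by linarith),
    h2 _ _ _ hw2 (by linarith) (ε / 2) (by linarith), hT] with T e1 e2 e3
  have e4 : FT T (fun α => w α ^ 2) =
      FT T (fun α => (w α * Real.cos (τ α)) ^ 2) + FT T (fun α => (w α * Real.sin (τ α)) ^ 2) := by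
    rw [← FT_add e3 (WR_integrable hw1) (WR_integrable hw2)]
    congr 1
    funext x
    exact hsq x
  rw [e4, hVW]
  linarith

end Pool.Agent.Helper93.LP
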