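import Pool.Agent.Helper69.GGM.Main
import Pool.Agent.Helper93.LP.CMP
import Pool.Agent.Helper93.LP.MVs
import Pool.Agent.Helper93.LP.FTl
import Pool.Agent.Helper93.LP.FTw
import Pool.Agent.Helper93.LP.Part
import Pool.Agent.Helper93.LP.OFF

/-!
# LP project: assembly
-/

open Complex Set MeasureTheory Filter Topology
open Pool.Agent.Helper57.LH Pool.Agent.Helper57.PC Pool.Agent.Helper57.Zeta
open Pool.Agent.Helper69.GGM

namespace Pool.Agent.Helper93.LP

/-- Q1 along `l` -/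
def Q1 (l : Filter ℝ) : Prop := ∀ α β : ℝ, 0 < α → α < β →
  Tendsto (fun T : ℝ => pairCount T α β / SN T) l (𝓝 (∫ u in α..β, pcDensity u))

lemma VW_nonneg (w : ℝ → ℝ) : 0 ≤ VW w := by
  unfold VW
  refine setIntegral_nonneg measurableSet_Ioi fun α hα => ?_
  have : (0:ℝ) < α := hα
  positivity

lemma norm_sq_ofReal (w : ℝ → ℝ) : (fun α => ‖((w α : ℝ) : ℂ)‖ ^ 2) = fun α => w α ^ 2 := by
  funext α
  rw [Complex.norm_real, Real.norm_eq_abs, sq_abs]

lemma off_and_lawP {l : Filter ℝ} [l.IsCountablyGenerated] (hl : l ≤ atTop) (h : Q1 l) :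
    OffLine l ∧ LawP l := by
  have hM := (main_iff hl).mp h
  have hOff : OffLine l := offLine_of_meanSq hl hM
  exact ⟨hOff, fun a ha => (meanSq_iff hl hOff ha).mp (hM a ha)⟩

lemma q1_of_lawP {l : Filter ℝ} (hl : l ≤ atTop) (h : LawP l) : Q1 l := by
  apply law_of_poisson hl
  intro c hc
  have ha : 0 < c / 2 := by positivity
  have h1 := h (c / 2) ha
  rw [← value_eq ha, show 2 * (c / 2) = c by ring] at h1
  exact h1

/-- from the bound for `MP` to the bound for `FT`, under `OffLine` -/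
lemma ft_of_mp {l : Filter ℝ} (hl : l ≤ atTop) (hOff : OffLine l) {w : ℝ → ℝ} {a b : ℝ} (hw : WR w a b)
    (h : ∀ B : ℝ, 0 < B → ∀ ε : ℝ, 0 < ε → ∀ᶠ T : ℝ in l, MP T (fun x => (w x : ℂ)) B ≤ VW w + ε)
    {ε : ℝ} (hε : 0 < ε) : ∀ᶠ T : ℝ in l, FT T (fun α => w α ^ 2) ≤ VW w + ε := by
  have hV := VW_nonneg w
  set θ : ℝ := min 1 (ε / (VW w + 4)) with hθ
  have hθ0 : 0 < θ := lt_min one_pos (by positivity)
  have hθ1 : θ ≤ 1 := min_le_left _ _
  have hθ2 : θ * (VW w + 4) ≤ ε := by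
    have := min_le_right 1 (ε / (VW w + 4))
    rwa [← hθ, le_div_iff₀ (by positivity)] at this
  obtain ⟨B₀, hB₀⟩ := cmp_low hl hOff hw.toWC hθ0
  filter_upwards [hB₀ (max B₀ 1) (le_max_left _ _), h (max B₀ 1) (by positivity) θ hθ0] with T h1 h2
  rw [norm_sq_ofReal] at h1
  nlinarith

theorem main_up {l : Filter ℝ} [l.IsCountablyGenerated] (hl : l ≤ atTop) {θ : ℝ} (hθ : θ < 1) :
    Q1 l ↔ UpLaw l θ := by
  constructor
  · intro h
    obtain ⟨hOff, hP⟩ := off_and_lawP hl h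
    intro w a b hw _ B hB ε hε
    have hV := VW_nonneg w
    have h1 := weier hl hP hw
    set θ' : ℝ := min 1 (ε / (VW w + 4)) with hθ'
    have hθ0 : 0 < θ' := lt_min one_pos (by positivity)
    have hθ1 : θ' ≤ 1 := min_le_left _ _
    have hθ2 : θ' * (VW w + 4) ≤ ε := by
      have := min_le_right 1 (ε / (VW w + 4))
      rwa [← hθ', le_div_iff₀ (by positivity)] at this
    filter_upwards [cmp_up hl hOff hw.toWC hθ0 hB, h1.eventually (gt_mem_nhds (show VW w < VW w + θ' by linarith))]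
      with T h2 h3
    rw [norm_sq_ofReal] at h2
    nlinarith
  · intro h
    have hOff : OffLine l := offLine_of_upLaw hl hθ h
    have hF : UpF l := by
      apply upF_of_parts hl hθ
      · intro w a b hw hb ε hε
        exact ft_of_mp hl hOff hw (fun B _ ε' hε' => by
          filter_upwards [hl (short_law hw hb hε')] with T hT
          exact hT B) hε
      · intro w a b hw ha ε hε
        exact ft_of_mp hl hOff hw (fun B hB ε' hε' => h w a b hw ha B hB ε' hε') hε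
    exact q1_of_lawP hl (lawP_of_upF hl hF)

theorem main_two {l : Filter ℝ} [l.IsCountablyGenerated] (hl : l ≤ atTop) (h : Q1 l) {w : ℝ → ℝ} {a b : ℝ}
    (hw : WR w a b) {ε : ℝ} (hε : 0 < ε) : ∃ B₀ : ℝ, ∀ B : ℝ, B₀ ≤ B →
    ∀ᶠ T : ℝ in l, |MP T (fun x => (w x : ℂ)) B - VW w| ≤ ε := by
  obtain ⟨hOff, hP⟩ := off_and_lawP hl h
  have hV := VW_nonneg w
  have h1 := weier hl hP hw
  set θ' : ℝ := min 1 (ε / (2 * (VW w + 4))) with hθ'
  have hθ0 : 0 < θ' := lt_min one_pos (by positivity)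
  have hθ1 : θ' ≤ 1 := min_le_left _ _
  have hθ2 : θ' * (2 * (VW w + 4)) ≤ ε := by
    have := min_le_right 1 (ε / (2 * (VW w + 4)))
    rwa [← hθ', le_div_iff₀ (by positivity)] at this
  obtain ⟨B₀, hB₀⟩ := cmp_low hl hOff hw.toWC hθ0
  refine ⟨max B₀ 1, fun B hB => ?_⟩
  have hB1 : 0 < B := lt_of_lt_of_le one_pos ((le_max_right _ _).trans hB)
  filter_upwards [cmp_up hl hOff hw.toWC hθ0 hB1, hB₀ B ((le_max_left _ _).trans hB),
    h1.eventually (gt_mem_nhds (show VW w < VW w + θ' by linarith)),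
    h1.eventually (lt_mem_nhds (show VW w - θ' < VW w by linarith))] with T h2 h3 h4 h5
  rw [norm_sq_ofReal] at h2 h3
  have h6 : MP T (fun x => (w x : ℂ)) B ≤ VW w + ε := by nlinarith
  rw [abs_le]
  constructor
  · -- FT ≤ (1+θ) MP + θ
    have h7 : VW w - θ' < (1 + θ') * MP T (fun x => (w x : ℂ)) B + θ' := lt_of_lt_of_le h5 h3
    by_cases h8 : MP T (fun x => (w x : ℂ)) B ≤ VW w
    · nlinarith
    · push Not at h8
      linarith
  · linarith

end Pool.Agent.Helper93.LP
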