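import Pool.Agent.Helper93.LP.FAR

/-!
# LP block APR: a priori bound for `GD`

* `apriori`: `‖GD b‖ ≤ K(Λ)`: near points: `|LT χ (z-b)| ≤ ∫ χ e^{α(re z - re b)} ≤ (A+1) e^{(A+1)Λ}` (`re b ≥ 0`); far points:
  `trans`: `LT χ (-y) = (tm E 1 y - tm E A y)/y`, `far_small` with `s = 1, A`: `≤ 2/(1+v²)`. So
  `K = (A+1) e^{(A+1)Λ} (1+e^{2cΛ}) Λ² + 2Λ²` works.
-/

open Complex Set MeasureTheory Filter Topology
open Pool.Agent.Helper57.LH Pool.Agent.Helper57.PC Pool.Agent.Helper57.Zeta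
open Pool.Agent.Helper69.GGM

namespace Pool.Agent.Helper93.LP

private theorem apr_near {c Λ : ℝ} (hΛ : 0 ≤ Λ) {χ : ℝ → ℝ} {E : ℂ → ℂ} (hK : KerP c Λ χ E)
    {y : ℂ} (hy : y.re ≤ Λ) :
    ‖LT (fun α => (χ α : ℂ)) y‖ ≤ (Λ ^ 8 + 1) * Real.exp ((Λ ^ 8 + 1) * Λ) := by
  have hA : 0 ≤ Λ ^ 8 := by positivity
  unfold LT
  have h1 : ∫ α : ℝ, (χ α : ℂ) * Complex.exp ((α : ℂ) * y) =
      ∫ α in Icc (1 : ℝ) (Λ ^ 8 + 1), (χ α : ℂ) * Complex.exp ((α : ℂ) * y) := by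
    symm
    refine setIntegral_eq_integral_of_forall_compl_eq_zero fun α hα => ?_
    have h2 : χ α = 0 := by
      by_contra h3
      exact hα (hK.supp α h3)
    rw [h2]; simp
  rw [h1]
  have h4 : ∀ α ∈ Icc (1 : ℝ) (Λ ^ 8 + 1), ‖(χ α : ℂ) * Complex.exp ((α : ℂ) * y)‖ ≤
      Real.exp ((Λ ^ 8 + 1) * Λ) := by
    intro α hα
    have hα0 : 0 ≤ α := zero_le_one.trans hα.1
    rw [norm_mul, Complex.norm_real, Real.norm_eq_abs, abs_of_nonneg (hK.nonneg α),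
      Complex.norm_exp]
    have h5 : ((α : ℂ) * y).re = α * y.re := by simp
    rw [h5]
    have h6 : α * y.re ≤ (Λ ^ 8 + 1) * Λ :=
      (mul_le_mul_of_nonneg_left hy hα0).trans (mul_le_mul_of_nonneg_right hα.2 hΛ)
    calc χ α * Real.exp (α * y.re) ≤ 1 * Real.exp ((Λ ^ 8 + 1) * Λ) :=
          mul_le_mul (hK.le_one α) (Real.exp_le_exp.2 h6) (Real.exp_pos _).le zero_le_one
      _ = _ := one_mul _
  have h7 := norm_setIntegral_le_of_norm_le_const (μ := (volume : Measure ℝ))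
    (s := Icc (1 : ℝ) (Λ ^ 8 + 1)) (by rw [Real.volume_Icc]; exact ENNReal.ofReal_lt_top) h4
  refine h7.trans ?_
  have h8 : (volume : Measure ℝ).real (Icc (1 : ℝ) (Λ ^ 8 + 1)) = Λ ^ 8 := by
    rw [Real.volume_real_Icc_of_le (by linarith)]
    ring
  rw [h8, mul_comm]
  exact mul_le_mul_of_nonneg_right (by linarith) (Real.exp_pos _).le

theorem apriori {c : ℝ} (hc : 0 < c) (hc1 : c ≤ 1) : ∃ Λ₀ : ℝ, 1 ≤ Λ₀ ∧ ∀ Λ : ℝ, Λ₀ ≤ Λ →
    ∃ K : ℝ, 0 < K ∧ ∀ (χ : ℝ → ℝ) (E : ℂ → ℂ), KerP c Λ χ E →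
    ∀ {ι : Type} (J : Finset ι) (m : ι → ℝ) (z : ι → ℂ), Conf c Λ J m z →
    ∀ b : ℂ, 0 ≤ b.re → b.re ≤ Λ + 3 → |b.im| ≤ 6 * Λ → ‖GD J m z χ b‖ ≤ K := by
  obtain ⟨Λ₀, hΛ₀, hfar⟩ := far_small hc hc1
  refine ⟨Λ₀, hΛ₀, fun Λ hΛ => ?_⟩
  have hΛ1 : 1 ≤ Λ := hΛ₀.trans hΛ
  have hΛ0 : 0 < Λ := by linarith
  obtain ⟨B, hB⟩ : ∃ B, B = (Λ ^ 8 + 1) * Real.exp ((Λ ^ 8 + 1) * Λ) := ⟨_, rfl⟩
  have hB0 : 0 < B := by rw [hB]; positivity
  refine ⟨(B * (1 + Real.exp (c * Λ) ^ 2) + 2) * Λ ^ 2, by positivity, ?_⟩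
  intro χ E hK ι J m z hconf b hb0 hb1 hbi
  have hterm : ∀ j ∈ J, ‖(m j : ℂ) * LT (fun α => (χ α : ℂ)) (z j - b)‖ ≤
      (B * (1 + Real.exp (c * Λ) ^ 2) + 2) * (m j / (1 + (z j).im ^ 2)) := by
    intro j hj
    have hm : 0 < m j := zero_lt_one.trans_le (hconf.one_le j hj)
    have hv : 0 < 1 + (z j).im ^ 2 := by positivity
    have hq : 0 ≤ m j / (1 + (z j).im ^ 2) := by positivity
    rw [norm_mul, Complex.norm_real, Real.norm_eq_abs, abs_of_pos hm]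
    rcases lt_or_ge |(z j).im| (Real.exp (c * Λ)) with hn | hf
    · have h1 : (z j - b).re ≤ Λ := by
        have h2 := (abs_le.1 (hconf.near j hj hn)).2
        rw [Complex.sub_re]
        linarith
      have h3 := apr_near hΛ0.le hK h1
      rw [← hB] at h3
      have h4 : (z j).im ^ 2 ≤ Real.exp (c * Λ) ^ 2 := by
        rw [← sq_abs]
        exact pow_le_pow_left₀ (abs_nonneg _) hn.le 2
      calc m j * ‖LT (fun α => (χ α : ℂ)) (z j - b)‖ ≤ m j * B :=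
            mul_le_mul_of_nonneg_left h3 hm.le
        _ = B * (1 + (z j).im ^ 2) * (m j / (1 + (z j).im ^ 2)) := by
            field_simp
        _ ≤ (B * (1 + Real.exp (c * Λ) ^ 2) + 2) * (m j / (1 + (z j).im ^ 2)) := by
            refine mul_le_mul_of_nonneg_right ?_ hq
            have h5 : B * (1 + (z j).im ^ 2) ≤ B * (1 + Real.exp (c * Λ) ^ 2) :=
              mul_le_mul_of_nonneg_left (by linarith) hB0.le
            linarith
    · have hbre : |b.re| ≤ Λ + 3 := by rw [abs_of_nonneg hb0]; exact hb1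
      have hA1 : (1 : ℝ) ≤ Λ ^ 8 := one_le_pow₀ hΛ1
      obtain ⟨h1, h2⟩ := hfar Λ hΛ χ E hK (z j) hf (hconf.far j hj hf) b hbre hbi 1 zero_le_one hA1
      obtain ⟨-, h3⟩ := hfar Λ hΛ χ E hK (z j) hf (hconf.far j hj hf) b hbre hbi (Λ ^ 8)
        (by positivity) le_rfl
      have h4 := hK.trans (b - z j)
      have h5 : (Complex.exp (-(b - z j)) - Complex.exp (-(((Λ ^ 8 : ℝ) : ℂ) * (b - z j)))) *
          E (b - z j) = tm E 1 (b - z j) - tm E (Λ ^ 8) (b - z j) := by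
        unfold tm
        rw [Complex.ofReal_one, one_mul]
        ring
      rw [h5, neg_sub] at h4
      have h6 : ‖b - z j‖ * ‖LT (fun α => (χ α : ℂ)) (z j - b)‖ ≤ 2 / (1 + (z j).im ^ 2) := by
        rw [← norm_mul, h4]
        refine (norm_sub_le _ _).trans ?_
        have h7 : Real.exp (-(4 * Λ ^ 8)) ≤ 1 := by
          rw [Real.exp_le_one_iff]
          have : 0 ≤ Λ ^ 8 := by positivity
          linarith
        have h8 : Real.exp (-(4 * Λ ^ 8)) / (1 + (z j).im ^ 2) ≤ 1 / (1 + (z j).im ^ 2) :=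
          div_le_div_of_nonneg_right h7 hv.le
        have h9 : 2 / (1 + (z j).im ^ 2) = 1 / (1 + (z j).im ^ 2) + 1 / (1 + (z j).im ^ 2) := by
          ring
        rw [h9]
        exact add_le_add (h2.trans h8) (h3.trans h8)
      have h10 : ‖LT (fun α => (χ α : ℂ)) (z j - b)‖ ≤ 2 / (1 + (z j).im ^ 2) := by
        refine le_trans ?_ h6
        exact le_mul_of_one_le_left (norm_nonneg _) h1
      calc m j * ‖LT (fun α => (χ α : ℂ)) (z j - b)‖ ≤ m j * (2 / (1 + (z j).im ^ 2)) :=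
            mul_le_mul_of_nonneg_left h10 hm.le
        _ = 2 * (m j / (1 + (z j).im ^ 2)) := by ring
        _ ≤ (B * (1 + Real.exp (c * Λ) ^ 2) + 2) * (m j / (1 + (z j).im ^ 2)) := by
            refine mul_le_mul_of_nonneg_right ?_ hq
            have : 0 ≤ B * (1 + Real.exp (c * Λ) ^ 2) := by positivity
            linarith
  unfold GD
  calc ‖∑ j ∈ J, (m j : ℂ) * LT (fun α => (χ α : ℂ)) (z j - b)‖
      ≤ ∑ j ∈ J, ‖(m j : ℂ) * LT (fun α => (χ α : ℂ)) (z j - b)‖ := norm_sum_le _ _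
    _ ≤ ∑ j ∈ J, (B * (1 + Real.exp (c * Λ) ^ 2) + 2) * (m j / (1 + (z j).im ^ 2)) :=
        Finset.sum_le_sum hterm
    _ = (B * (1 + Real.exp (c * Λ) ^ 2) + 2) * ∑ j ∈ J, m j / (1 + (z j).im ^ 2) := by
        rw [← Finset.mul_sum]
    _ ≤ (B * (1 + Real.exp (c * Λ) ^ 2) + 2) * Λ ^ 2 :=
        mul_le_mul_of_nonneg_left hconf.sum_le (by positivity)

end Pool.Agent.Helper93.LP
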