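import Pool.Agent.Helper93.LP.Tw

/-!
# LP project: the kernels used to detect zeros off the line
-/

open Complex Set MeasureTheory Filter Topology
open Pool.Agent.Helper57.LH Pool.Agent.Helper57.PC Pool.Agent.Helper57.Zeta
open Pool.Agent.Helper69.GGM

namespace Pool.Agent.Helper93.LP

/-- `χ = 1_{[1,A]} * κ`, `κ ≥ 0` a smooth probability density on `[0,1]` with transform `E(y) = ∫ κ(α) e^{-αy} dα` which decays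
like `(2/(h|y|))^k`. -/
structure IsKer (k : ℕ) (h A : ℝ) (χ : ℝ → ℝ) (E : ℂ → ℂ) : Prop where
  smooth : ContDiff ℝ (⊤ : ℕ∞) χ
  nonneg : ∀ x, 0 ≤ χ x
  le_one : ∀ x, χ x ≤ 1
  supp : ∀ x, χ x ≠ 0 → 1 ≤ x ∧ x ≤ A + 1
  Ediff : Differentiable ℂ E
  E0 : E 0 = 1
  Ebd : ∀ y : ℂ, ‖E y‖ ≤ Real.exp |y.re|
  Epos : ∀ y : ℂ, 0 ≤ y.re → ‖E y‖ ≤ 1
  Edec : ∀ y : ℂ, y ≠ 0 → ‖E y‖ ≤ Real.exp |y.re| * (2 / (h * ‖y‖)) ^ k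
  trans : ∀ y : ℂ, y * LT (fun α => (χ α : ℂ)) (-y) =
    (Complex.exp (-y) - Complex.exp (-((A : ℂ) * y))) * E y

/-- parameters: `A = Λ^8`, `k = ⌈Λ^9⌉`, `h = exp (-cΛ/8)` -/
def KerP (c Λ : ℝ) (χ : ℝ → ℝ) (E : ℂ → ℂ) : Prop :=
  IsKer ⌈Λ ^ 9⌉₊ (Real.exp (-(c * Λ / 8))) (Λ ^ 8) χ E

/-- admissible finite configurations of points `z j` with weights `m j` -/
structure Conf {ι : Type*} (c Λ : ℝ) (J : Finset ι) (m : ι → ℝ) (z : ι → ℂ) : Prop where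
  one_le : ∀ j ∈ J, 1 ≤ m j
  sum_le : ∑ j ∈ J, m j / (1 + (z j).im ^ 2) ≤ Λ ^ 2
  near : ∀ j ∈ J, |(z j).im| < Real.exp (c * Λ) → |(z j).re| ≤ Λ
  far : ∀ j ∈ J, Real.exp (c * Λ) ≤ |(z j).im| → |(z j).re| ≤ Real.log |(z j).im| / c

/-- `s = 1` or `s = A`: `e^{-sy} E(y)` -/
noncomputable def tm (E : ℂ → ℂ) (s : ℝ) (y : ℂ) : ℂ := Complex.exp (-((s : ℂ) * y)) * E y

/-- the meromorphic sum -/
noncomputable def RR {ι : Type*} (J : Finset ι) (m : ι → ℝ) (z : ι → ℂ) (E : ℂ → ℂ) (s : ℝ) (b : ℂ) : ℂ :=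
  ∑ j ∈ J, (m j : ℂ) * (tm E s (b - z j) / (b - z j))

/-- the polynomial with zeros `z j`, `j ∈ J₁` -/
noncomputable def Pol {ι : Type*} (J₁ : Finset ι) (z : ι → ℂ) (b : ℂ) : ℂ := ∏ i ∈ J₁, (b - z i)

/-- the entire sum `Σ m_j LT χ (z_j - b)` -/
noncomputable def GD {ι : Type*} (J : Finset ι) (m : ι → ℝ) (z : ι → ℂ) (χ : ℝ → ℝ) (b : ℂ) : ℂ :=
  ∑ j ∈ J, (m j : ℂ) * LT (fun α => (χ α : ℂ)) (z j - b)

open Classical in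
/-- `Pol * RR` with the poles in `J₁` removed -/
noncomputable def PR {ι : Type*} (J J₁ : Finset ι) (m : ι → ℝ) (z : ι → ℂ) (E : ℂ → ℂ) (s : ℝ) (b : ℂ) : ℂ :=
  (∑ j ∈ J₁, (m j : ℂ) * tm E s (b - z j) * ∏ i ∈ J₁.erase j, (b - z i)) +
    Pol J₁ z b * ∑ j ∈ J \ J₁, (m j : ℂ) * (tm E s (b - z j) / (b - z j))

end Pool.Agent.Helper93.LP
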