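import Pool.Agent.Helper93.LP.UPC
import Pool.Agent.Helper93.LP.KerDef

/-!
# LP block CIR: circle means

* `disc_sup`: Cauchy's formula on the circle of radius `R` about `b₀`, for `|b-b₀| ≤ R/2`:
  `‖G b‖ ≤ (1/2π) ∫ ‖G(b₀+Re^{iφ})‖ R/(R/2) dφ`, then Cauchy-Schwarz.
* `circle_mean`: for `b = circleMap b₀ (η/2) φ`, `re b ≥ η/2`, the weight `w_b = twist χ b` is `WC w_b 1 (A+1)` (`IsKer`, `WC_twist`) and
  `∫ ‖w_b‖² = ∫ χ² e^{-2 re b α} ≤ ∫_1^∞ e^{-ηα} dα ≤ 1/η`. By `upc` (support starts at `1 > θ`), for each `φ`: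
  `f_T(φ) = (1/T) ∫_{δT}^{(1-δ)T} min (‖GG T w_b t‖²) B dt` satisfies `f_T(φ) ≤ 8/η + ε` eventually, and `0 ≤ f_T ≤ B`. As in GGM/E3a.lean
  (`average_bound`, dominated convergence for `max (f_T - 8/η) 0`, `l` countably generated; measurability from `GG_cont2`) the
  integral over `φ ∈ [0,2π]` is eventually `≤ 2π 8/η + 1`. Finally exchange the two integrals (`intervalIntegral_integral_interval_swap`
  or Fubini for continuous functions on a rectangle).
-/

open Complex Set MeasureTheory Filter Topology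
open Pool.Agent.Helper57.LH Pool.Agent.Helper57.PC Pool.Agent.Helper57.Zeta
open Pool.Agent.Helper69.GGM

namespace Pool.Agent.Helper93.LP

theorem disc_sup {G : ℂ → ℂ} (hG : Differentiable ℂ G) {R : ℝ} (hR : 0 < R) {b₀ b : ℂ} (hb : ‖b - b₀‖ ≤ R / 2) :
    ‖G b‖ ^ 2 ≤ (2 / Real.pi) * ∫ φ in (0:ℝ)..(2 * Real.pi), ‖G (circleMap b₀ R φ)‖ ^ 2 := by
  have hpi := Real.pi_pos
  have hw : b ∈ Metric.ball b₀ R := by
    rw [mem_ball_iff_norm]; linarith
  have hc := (hG.differentiableOn (s := Metric.closedBall b₀ R)).circleIntegral_sub_inv_smul hw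
  have hcont : Continuous (fun φ : ℝ => G (circleMap b₀ R φ)) :=
    hG.continuous.comp (continuous_circleMap b₀ R)
  have hn : ‖(2 * (Real.pi : ℂ) * I) • G b‖ = 2 * Real.pi * ‖G b‖ := by
    rw [norm_smul]
    congr 1
    simp [abs_of_pos hpi]
  have h1 : 2 * Real.pi * ‖G b‖ ≤ ∫ φ in (0:ℝ)..(2 * Real.pi), 2 * ‖G (circleMap b₀ R φ)‖ := by
    rw [← hn, ← hc, circleIntegral]
    refine intervalIntegral.norm_integral_le_of_norm_le (by positivity) ?_
      (by exact ((continuous_const.mul hcont.norm).intervalIntegrable _ _))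
    refine Eventually.of_forall fun φ _ => ?_
    have hd : R / 2 ≤ ‖circleMap b₀ R φ - b‖ := by
      have e1 : ‖circleMap b₀ R φ - b₀‖ = R := by
        have := circleMap_mem_sphere b₀ hR.le φ
        rwa [mem_sphere_iff_norm] at this
      have e2 : circleMap b₀ R φ - b₀ = (circleMap b₀ R φ - b) + (b - b₀) := by ring
      have e3 := norm_add_le (circleMap b₀ R φ - b) (b - b₀)
      rw [← e2, e1] at e3
      linarith
    have hpos : 0 < ‖circleMap b₀ R φ - b‖ := by linarith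
    rw [norm_smul, norm_smul, norm_inv, deriv_circleMap, norm_mul, norm_I, mul_one]
    have e4 : ‖circleMap 0 R φ‖ = R := by
      rw [norm_circleMap_zero, abs_of_pos hR]
    rw [e4, ← mul_assoc]
    refine mul_le_mul_of_nonneg_right ?_ (norm_nonneg _)
    rw [← div_eq_mul_inv, div_le_iff₀ hpos]
    linarith
  rw [intervalIntegral.integral_const_mul] at h1
  have hc2 : Continuous (fun φ : ℝ => ‖G (circleMap b₀ R φ)‖ ^ 2) := hcont.norm.pow 2
  set M := ‖G b‖ with hM
  have hM0 : 0 ≤ M := norm_nonneg _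
  have h2 : ∫ φ in (0:ℝ)..(2 * Real.pi), M * ‖G (circleMap b₀ R φ)‖ ≤
      ∫ φ in (0:ℝ)..(2 * Real.pi), (M ^ 2 / 4 + ‖G (circleMap b₀ R φ)‖ ^ 2) := by
    refine intervalIntegral.integral_mono_on (by positivity)
      ((continuous_const.mul hcont.norm).intervalIntegrable _ _)
      ((continuous_const.add hc2).intervalIntegrable _ _) fun φ _ => ?_
    nlinarith [sq_nonneg (M / 2 - ‖G (circleMap b₀ R φ)‖)]
  rw [intervalIntegral.integral_const_mul, intervalIntegral.integral_add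
    (by simp) (hc2.intervalIntegrable _ _), intervalIntegral.integral_const,
    smul_eq_mul, sub_zero] at h2
  have h3 := mul_le_mul_of_nonneg_left h1 hM0
  rw [div_mul_eq_mul_div, le_div_iff₀ hpi]
  nlinarith [h2, h3]

namespace CIR

lemma norm_twist_sq {k : ℕ} {h' A : ℝ} {χ : ℝ → ℝ} {E : ℂ → ℂ} (hK : IsKer k h' A χ E)
    {η : ℝ} {b : ℂ} (hb : η / 2 ≤ b.re) (α : ℝ) :
    ‖twist (fun α => (χ α : ℂ)) b α‖ ^ 2 ≤ (Ioi (0:ℝ)).indicator (fun α => Real.exp (-η * α)) α := by
  by_cases hα : χ α = 0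
  · have : twist (fun α => (χ α : ℂ)) b α = 0 := by simp [twist, hα]
    rw [this, norm_zero]
    have : (0:ℝ) ^ 2 = 0 := by norm_num
    rw [this]
    exact indicator_nonneg (fun x _ => (Real.exp_pos _).le) _
  · have hs := hK.supp α hα
    have h1 : α ∈ Ioi (0:ℝ) := by
      rw [mem_Ioi]; linarith [hs.1]
    rw [indicator_of_mem h1, twist, norm_mul, Complex.norm_exp, Complex.norm_real,
      Real.norm_eq_abs, abs_of_nonneg (hK.nonneg α), mul_pow, ← Real.exp_nat_mul]
    have h2 : (χ α) ^ 2 ≤ 1 := pow_le_one₀ (hK.nonneg α) (hK.le_one α)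
    have h3 : Real.exp ((2:ℕ) * (-(b * (α : ℂ))).re) ≤ Real.exp (-η * α) := by
      refine Real.exp_le_exp.mpr ?_
      have : (-(b * (α : ℂ))).re = -(b.re * α) := by simp
      rw [this]
      have h4 : 0 < α := h1
      push_cast
      nlinarith
    calc (χ α) ^ 2 * Real.exp ((2:ℕ) * (-(b * (α : ℂ))).re)
        ≤ 1 * Real.exp (-η * α) := by
          refine mul_le_mul h2 h3 (Real.exp_pos _).le zero_le_one
      _ = _ := one_mul _

lemma integral_twist_sq {k : ℕ} {h' A : ℝ} {χ : ℝ → ℝ} {E : ℂ → ℂ} (hK : IsKer k h' A χ E)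
    {η : ℝ} (hη : 0 < η) {b : ℂ} (hb : η / 2 ≤ b.re) :
    ∫ α, ‖twist (fun α => (χ α : ℂ)) b α‖ ^ 2 ≤ 1 / η := by
  have h1 : ∫ α, ‖twist (fun α => (χ α : ℂ)) b α‖ ^ 2 ≤
      ∫ α, (Ioi (0:ℝ)).indicator (fun α => Real.exp (-η * α)) α := by
    refine integral_mono_of_nonneg (Eventually.of_forall fun α => by positivity) ?_
      (Eventually.of_forall fun α => norm_twist_sq hK hb α)
    rw [integrable_indicator_iff measurableSet_Ioi]
    exact integrableOn_exp_mul_Ioi (by linarith) 0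
  refine h1.trans (le_of_eq ?_)
  rw [integral_indicator measurableSet_Ioi, integral_exp_mul_Ioi (by linarith) 0]
  simp

lemma avg_lemma {l : Filter ℝ} [l.IsCountablyGenerated] (hl : l ≤ atTop) {F : ℝ → ℝ → ℝ → ℝ} {B c δ : ℝ}
    (hB : 0 < B) (hc0 : 0 ≤ c) (hδ : 0 < δ) (hδ2 : δ < 1 / 2)
    (hFc : ∀ T, Continuous (fun p : ℝ × ℝ => F T p.1 p.2))
    (hFB : ∀ T φ t, F T φ t ≤ B)
    (hup : ∀ φ : ℝ, ∀ ε : ℝ, 0 < ε → ∀ᶠ T : ℝ in l,
      ∫ t in (δ * T)..((1 - δ) * T), F T φ t ≤ (c + ε) * T) :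
    ∀ᶠ T : ℝ in l, ∫ t in (δ * T)..((1 - δ) * T), ∫ φ in (0:ℝ)..(2 * Real.pi), F T φ t ≤
      (2 * Real.pi * c + 1) * T := by
  have hpi := Real.pi_pos
  obtain ⟨f, hf⟩ : ∃ f : ℝ → ℝ → ℝ, ∀ T φ, f T φ = ∫ t in (δ * T)..((1 - δ) * T), F T φ t :=
    ⟨_, fun _ _ => rfl⟩
  have hfc : ∀ T, Continuous (f T) := by
    intro T
    have h1 := intervalIntegral.continuous_parametric_intervalIntegral_of_continuous'
      (μ := volume) (f := F T) (hFc T) (δ * T) ((1 - δ) * T)
    have h2 : f T = fun φ => ∫ t in (δ * T)..((1 - δ) * T), F T φ t := funext (hf T)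
    rw [h2]; exact h1
  have hpos : ∀ᶠ T : ℝ in l, 0 < T := hl (eventually_gt_atTop 0)
  have hord : ∀ T : ℝ, 0 < T → δ * T ≤ (1 - δ) * T := by
    intro T hT
    exact mul_le_mul_of_nonneg_right (by linarith) hT.le
  have hfB : ∀ T φ, 0 < T → f T φ ≤ B * T := by
    intro T φ hT
    have hc : Continuous (fun t => F T φ t) :=
      (hFc T).comp ((continuous_const : Continuous fun _ : ℝ => φ).prodMk continuous_id)
    have h1 : ∫ t in (δ * T)..((1 - δ) * T), F T φ t ≤ ∫ _t in (δ * T)..((1 - δ) * T), B :=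
      intervalIntegral.integral_mono_on (hord T hT) (hc.intervalIntegrable _ _) (by simp)
        fun t _ => hFB T φ t
    rw [intervalIntegral.integral_const, smul_eq_mul] at h1
    rw [hf]
    refine h1.trans ?_
    have h2 : (1 - δ) * T - δ * T ≤ T := by nlinarith
    nlinarith
  have hmc : ∀ T, Continuous (fun φ => max (f T φ / T - c) 0) := fun T =>
    (((hfc T).div_const T).sub continuous_const).max continuous_const
  have hlim : Tendsto (fun T : ℝ => ∫ φ in (0:ℝ)..(2 * Real.pi), max (f T φ / T - c) 0) l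
      (𝓝 (∫ _φ in (0:ℝ)..(2 * Real.pi), (0:ℝ))) := by
    refine intervalIntegral.tendsto_integral_filter_of_dominated_convergence (fun _ => B) ?_ ?_
      (by simp) ?_
    · exact Eventually.of_forall fun T => (hmc T).aestronglyMeasurable
    · filter_upwards [hpos] with T hT
      refine Eventually.of_forall fun φ _ => ?_
      rw [Real.norm_eq_abs, abs_of_nonneg (le_max_right _ _)]
      refine max_le ?_ hB.le
      have h1 : f T φ / T ≤ B := by
        rw [div_le_iff₀ hT]; exact hfB T φ hT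
      linarith
    · refine Eventually.of_forall fun φ _ => ?_
      rw [Metric.tendsto_nhds]
      intro ε hε
      filter_upwards [hup φ (ε / 2) (half_pos hε), hpos] with T hT hT0
      rw [dist_zero_right, Real.norm_eq_abs, abs_of_nonneg (le_max_right _ _)]
      refine max_lt ?_ hε
      have h1 : f T φ / T ≤ c + ε / 2 := by
        rw [div_le_iff₀ hT0, hf]; exact hT
      linarith
  rw [intervalIntegral.integral_const, smul_zero] at hlim
  have h1 : ∀ᶠ T : ℝ in l, ∫ φ in (0:ℝ)..(2 * Real.pi), max (f T φ / T - c) 0 < 1 :=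
    hlim.eventually (gt_mem_nhds one_pos)
  filter_upwards [h1, hpos] with T hT hT0
  have hswap : ∫ t in (δ * T)..((1 - δ) * T), ∫ φ in (0:ℝ)..(2 * Real.pi), F T φ t =
      ∫ φ in (0:ℝ)..(2 * Real.pi), f T φ := by
    have h2 : ∫ t in (δ * T)..((1 - δ) * T), ∫ φ in (0:ℝ)..(2 * Real.pi), F T φ t =
        ∫ φ in (0:ℝ)..(2 * Real.pi), ∫ t in (δ * T)..((1 - δ) * T), F T φ t := by
      refine intervalIntegral_intervalIntegral_swap (F := fun t φ => F T φ t) ?_
      have hc : Continuous (Function.uncurry (fun t φ => F T φ t)) :=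
        (hFc T).comp (continuous_snd.prodMk continuous_fst)
      have h3 : IntegrableOn (Function.uncurry (fun t φ => F T φ t))
          (uIcc (δ * T) ((1 - δ) * T) ×ˢ uIcc (0:ℝ) (2 * Real.pi)) :=
        hc.continuousOn.integrableOn_compact (isCompact_uIcc.prod isCompact_uIcc)
      exact h3.mono_set (prod_mono uIoc_subset_uIcc uIoc_subset_uIcc)
    rw [h2]
    refine intervalIntegral.integral_congr fun φ _ => ?_
    exact (hf T φ).symm
  rw [hswap]
  calc ∫ φ in (0:ℝ)..(2 * Real.pi), f T φ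
      ≤ ∫ φ in (0:ℝ)..(2 * Real.pi), T * (max (f T φ / T - c) 0 + c) := by
        refine intervalIntegral.integral_mono_on (by positivity)
          ((hfc T).intervalIntegrable _ _)
          ((continuous_const.mul ((hmc T).add continuous_const)).intervalIntegrable _ _)
          fun φ _ => ?_
        have h2 := le_max_left (f T φ / T - c) 0
        have h3 : f T φ = T * (f T φ / T) := by field_simp
        have h4 : T * (f T φ / T) ≤ T * (max (f T φ / T - c) 0 + c) :=
          mul_le_mul_of_nonneg_left (by linarith) hT0.le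
        linarith
    _ = T * ((∫ φ in (0:ℝ)..(2 * Real.pi), max (f T φ / T - c) 0) + 2 * Real.pi * c) := by
        rw [intervalIntegral.integral_const_mul, intervalIntegral.integral_add
          ((hmc T).intervalIntegrable _ _) (by simp), intervalIntegral.integral_const, smul_eq_mul,
          sub_zero]
    _ ≤ (2 * Real.pi * c + 1) * T := by nlinarith

end CIR

open CIR in
theorem circle_mean {l : Filter ℝ} [l.IsCountablyGenerated] (hl : l ≤ atTop) {θ : ℝ} (hθ : θ < 1)
    (h : UpLaw l θ) {k : ℕ} {h' A : ℝ} {χ : ℝ → ℝ} {E : ℂ → ℂ} (hA : 1 ≤ A) (hK : IsKer k h' A χ E)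
    {η : ℝ} (hη : 0 < η) {b₀ : ℂ} (hb : η ≤ b₀.re) {δ : ℝ} (hδ : 0 < δ) (hδ2 : δ < 1 / 2)
    {B : ℝ} (hB : 0 < B) :
    ∀ᶠ T : ℝ in l, ∫ t in (δ * T)..((1 - δ) * T), ∫ φ in (0:ℝ)..(2 * Real.pi),
        min (‖GG T (twist (fun α => (χ α : ℂ)) (circleMap b₀ (η / 2) φ)) t‖ ^ 2) B ≤
      (2 * Real.pi * (8 / η) + 1) * T := by
  have hpi := Real.pi_pos
  have hWC : WC (fun α => (χ α : ℂ)) 1 (A + 1) := by
    refine ⟨Complex.ofRealCLM.contDiff.comp hK.smooth, one_pos, by linarith, fun x hx => hK.supp x ?_⟩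
    intro h0
    exact hx (by simp [h0])
  have hre : ∀ φ : ℝ, η / 2 ≤ (circleMap b₀ (η / 2) φ).re := by
    intro φ
    have e1 : ‖circleMap b₀ (η / 2) φ - b₀‖ = η / 2 := by
      have := circleMap_mem_sphere b₀ (by positivity : (0:ℝ) ≤ η / 2) φ
      rwa [mem_sphere_iff_norm] at this
    have e2 := Complex.abs_re_le_norm (circleMap b₀ (η / 2) φ - b₀)
    rw [e1, Complex.sub_re] at e2
    have e3 := (abs_le.mp e2).1
    linarith
  have hFc : ∀ T, Continuous (fun p : ℝ × ℝ =>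
      min (‖GG T (twist (fun α => (χ α : ℂ)) (circleMap b₀ (η / 2) p.1)) p.2‖ ^ 2) B) := by
    intro T
    have h1 : Continuous (fun p : ℝ × ℝ => ((circleMap b₀ (η / 2) p.1, p.2) : ℂ × ℝ)) :=
      ((continuous_circleMap b₀ (η / 2)).comp continuous_fst).prodMk continuous_snd
    have h2 := (GG_cont2 hWC T).comp h1
    simp only [Function.comp_def] at h2
    have h3 := (h2.norm.pow 2).min (continuous_const (y := B))
    simpa only [Pi.pow_apply] using h3
  refine avg_lemma (F := fun T φ t =>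
    min (‖GG T (twist (fun α => (χ α : ℂ)) (circleMap b₀ (η / 2) φ)) t‖ ^ 2) B)
    hl hB (by positivity) hδ hδ2 hFc (fun T φ t => min_le_right _ _) fun φ ε hε => ?_
  have hup := upc hl h (WC_twist hWC (circleMap b₀ (η / 2) φ)) hθ hδ hδ2 hB hε
  have hpos : ∀ᶠ T : ℝ in l, 0 < T := hl (eventually_gt_atTop 0)
  filter_upwards [hup, hpos] with T hT hT0
  refine hT.trans (mul_le_mul_of_nonneg_right ?_ hT0.le)
  have h2 := integral_twist_sq hK hη (hre φ)
  have h3 : 8 * (1 / η) = 8 / η := by ring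
  linarith

end Pool.Agent.Helper93.LP
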