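import Pool.Agent.Helper93.LP.Defs
import Pool.Agent.Helper78.SG.ExpMoment

/-!
# LP block EMo: exponential moment of the depth of the zeros, in the notation of this project

`Pool.Agent.Helper78.SG.exp_moment` is the statement for the finset `ZT T` of the subtype `ZS`; transfer it to
`Zf T` (same zeros: `mem_Zf`, `isNontrivialZero_iff`, see how `ZT` is defined in `Helper78/SG/Defs.lean` and
`sum_ZT_mx`). `κ` may be decreased to `min κ 1`. If the import is heavy, adapt the proof instead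
(it uses `Qbound` of M/D.lean and the pattern of GGM block M2). `kap` is the resulting constant.
-/

open Complex Set MeasureTheory Filter Topology
open Pool.Agent.Helper57.LH Pool.Agent.Helper57.PC Pool.Agent.Helper57.Zeta
open Pool.Agent.Helper69.GGM

namespace Pool.Agent.Helper93.LP

theorem exp_mom : ∃ κ C T₀ : ℝ, 0 < κ ∧ κ ≤ 1 ∧ 0 < C ∧ ∀ T : ℝ, T₀ ≤ T →
    ∑ ρ ∈ Zf T, mx ρ * Real.exp (κ * |Real.log T * (ρ.re - 1 / 2)|) ≤ C * (T * Real.log T) := by
  obtain ⟨κ, C, hκ, hC, h⟩ := Pool.Agent.Helper78.SG.exp_moment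
  obtain ⟨T₀, hT₀⟩ := Filter.eventually_atTop.mp h
  refine ⟨min κ 1, C, T₀, lt_min hκ one_pos, min_le_right _ _, hC, fun T hT => ?_⟩
  have h1 := hT₀ T hT
  rw [sum_ZT T (fun ρ => mx ρ * Real.exp (κ * |Real.log T * (ρ.re - 1 / 2)|))] at h1
  refine le_trans (Finset.sum_le_sum fun ρ _ => ?_) h1
  refine mul_le_mul_of_nonneg_left (Real.exp_le_exp.mpr ?_) (mx_nonneg ρ)
  exact mul_le_mul_of_nonneg_right (min_le_left _ _) (abs_nonneg _)

/-- the exponent -/
noncomputable def kap : ℝ := exp_mom.choose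

lemma kap_pos : 0 < kap := by
  obtain ⟨C, T₀, h⟩ := exp_mom.choose_spec
  exact h.1

lemma kap_le : kap ≤ 1 := by
  obtain ⟨C, T₀, h⟩ := exp_mom.choose_spec
  exact h.2.1

theorem exp_mom' : ∃ C T₀ : ℝ, 0 < C ∧ ∀ T : ℝ, T₀ ≤ T →
    ∑ ρ ∈ Zf T, mx ρ * Real.exp (kap * |Real.log T * (ρ.re - 1 / 2)|) ≤ C * (T * Real.log T) := by
  obtain ⟨C, T₀, h⟩ := exp_mom.choose_spec
  exact ⟨C, T₀, h.2.2.1, h.2.2.2⟩

end Pool.Agent.Helper93.LP
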