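import Pool.Agent.Helper93.LP.Defs

/-!
# LP block KInt: integral of a truncated power kernel (Mathlib only)

Proof. `R = M^(1/k) ≥ 1`. Pointwise `min (M/(1+|v|)^k) 1 ≤ 2/(1+(v/R)^2)`: if `1+|v| ≤ R` then `(v/R)² ≤ 1`;
otherwise `M/(1+|v|)^k = (R/(1+|v|))^k ≤ (R/(1+|v|))²` and `R² + v² ≤ 2(1+|v|)²`. The integral of the
right side with `v = L(γ-t)` is `2πR/L ≤ 8R/L`.
-/

open Complex Set MeasureTheory Filter Topology
open Pool.Agent.Helper57.LH Pool.Agent.Helper57.PC Pool.Agent.Helper57.Zeta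
open Pool.Agent.Helper69.GGM

namespace Pool.Agent.Helper93.LP

namespace KIntAux

lemma pointwise {R v : ℝ} {k : ℕ} (hR : 1 ≤ R) (hk : 2 ≤ k) :
    min (R ^ k / (1 + |v|) ^ k) 1 ≤ 2 * (1 + (v / R) ^ 2)⁻¹ := by
  have hR0 : 0 < R := by linarith
  have hv : 0 ≤ |v| := abs_nonneg v
  have h1v : 0 < 1 + |v| := by linarith
  have hden : 0 < 1 + (v / R) ^ 2 := by positivity
  by_cases h : 1 + |v| ≤ R
  · refine le_trans (min_le_right _ _) ?_
    have hsq : (v / R) ^ 2 ≤ 1 := by
      rw [div_pow, div_le_one (by positivity)]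
      have : v ^ 2 = |v| ^ 2 := (sq_abs v).symm
      rw [this]
      exact pow_le_pow_left₀ hv (by linarith) 2
    rw [← div_eq_mul_inv, le_div_iff₀ hden]
    linarith
  · push Not at h
    refine le_trans (min_le_left _ _) ?_
    have hq : R ^ k / (1 + |v|) ^ k = (R / (1 + |v|)) ^ k := (div_pow _ _ _).symm
    rw [hq]
    have hle1 : R / (1 + |v|) ≤ 1 := by
      rw [div_le_one h1v]
      exact h.le
    have h0 : 0 ≤ R / (1 + |v|) := by positivity
    refine le_trans (pow_le_pow_of_le_one h0 hle1 hk) ?_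
    rw [← div_eq_mul_inv, le_div_iff₀ hden, div_pow, div_pow, div_mul_eq_mul_div,
      div_le_iff₀ (by positivity)]
    have hmul : R ^ 2 * (1 + v ^ 2 / R ^ 2) = R ^ 2 + v ^ 2 := by
      field_simp
    rw [hmul]
    have hv2 : v ^ 2 = |v| ^ 2 := (sq_abs v).symm
    rw [hv2]
    nlinarith

end KIntAux

theorem min_kernel {L γ M : ℝ} {k : ℕ} (hL : 0 < L) (hM : 1 ≤ M) (hk : 2 ≤ k) :
    Integrable (fun t : ℝ => min (M / (1 + |L * (γ - t)|) ^ k) 1) ∧
    ∫ t : ℝ, min (M / (1 + |L * (γ - t)|) ^ k) 1 ≤ 8 * M ^ (1 / (k : ℝ)) / L := by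
  set R : ℝ := M ^ (1 / (k : ℝ)) with hRdef
  have hM0 : 0 ≤ M := by linarith
  have hk0 : (k : ℝ) ≠ 0 := by
    have : (0 : ℝ) < k := by exact_mod_cast (by omega : 0 < k)
    exact this.ne'
  have hR : 1 ≤ R := by
    rw [hRdef]
    exact Real.one_le_rpow hM (by positivity)
  have hR0 : 0 < R := by linarith
  have hRk : R ^ k = M := by
    rw [hRdef, ← Real.rpow_natCast, ← Real.rpow_mul hM0, one_div_mul_cancel hk0, Real.rpow_one]
  have hLR : L / R ≠ 0 := by positivity
  -- the majorant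
  have hbase : Integrable (fun s : ℝ => 2 * (1 + (L / R * s) ^ 2)⁻¹) := by
    refine Integrable.const_mul ?_ 2
    exact (integrable_inv_one_add_sq).comp_mul_left' hLR
  have hmaj : Integrable (fun t : ℝ => 2 * (1 + (L * (γ - t) / R) ^ 2)⁻¹) := by
    have h := hbase.comp_sub_left γ
    refine h.congr (Filter.Eventually.of_forall fun t => ?_)
    simp only
    congr 3
    ring
  have hmajI : ∫ t : ℝ, 2 * (1 + (L * (γ - t) / R) ^ 2)⁻¹ = 2 * (R / L * Real.pi) := by
    have h1 : ∫ t : ℝ, 2 * (1 + (L * (γ - t) / R) ^ 2)⁻¹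
        = ∫ t : ℝ, (fun s : ℝ => 2 * (1 + (L / R * s) ^ 2)⁻¹) (γ - t) := by
      refine integral_congr_ae (Filter.Eventually.of_forall fun t => ?_)
      simp only
      congr 3
      ring
    rw [h1, integral_sub_left_eq_self (fun s : ℝ => 2 * (1 + (L / R * s) ^ 2)⁻¹) volume γ]
    rw [integral_const_mul]
    have h2 := Measure.integral_comp_mul_left (fun s : ℝ => (1 + s ^ 2)⁻¹) (L / R)
    rw [h2, integral_univ_inv_one_add_sq, smul_eq_mul, abs_of_pos (by positivity), inv_div]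
  have hpt : ∀ t : ℝ, min (M / (1 + |L * (γ - t)|) ^ k) 1 ≤ 2 * (1 + (L * (γ - t) / R) ^ 2)⁻¹ := by
    intro t
    have := KIntAux.pointwise (R := R) (v := L * (γ - t)) hR hk
    rwa [hRk] at this
  have hnn : ∀ t : ℝ, 0 ≤ min (M / (1 + |L * (γ - t)|) ^ k) 1 := by
    intro t
    have h1v : 0 < 1 + |L * (γ - t)| := by
      have := abs_nonneg (L * (γ - t))
      linarith
    exact le_min (by positivity) zero_le_one
  have hcont : Continuous (fun t : ℝ => min (M / (1 + |L * (γ - t)|) ^ k) 1) := by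
    refine Continuous.min ?_ continuous_const
    refine Continuous.div continuous_const ?_ ?_
    · fun_prop
    · intro t
      have h1v : 0 < 1 + |L * (γ - t)| := by
        have := abs_nonneg (L * (γ - t))
        linarith
      positivity
  have hint : Integrable (fun t : ℝ => min (M / (1 + |L * (γ - t)|) ^ k) 1) := by
    refine hmaj.mono' hcont.aestronglyMeasurable (Filter.Eventually.of_forall fun t => ?_)
    rw [Real.norm_eq_abs, abs_of_nonneg (hnn t)]
    exact hpt t
  refine ⟨hint, ?_⟩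
  refine le_trans (integral_mono hint hmaj hpt) ?_
  rw [hmajI]
  have hpi : Real.pi ≤ 4 := Real.pi_le_four
  have : 2 * (R / L * Real.pi) = (2 * Real.pi) * R / L := by ring
  rw [this]
  have : 2 * Real.pi * R ≤ 8 * R := by nlinarith
  gcongr

end Pool.Agent.Helper93.LP
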