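import Pool.Agent.Helper93.LP.LTb
import Pool.Agent.Helper93.LP.Tw
import Pool.Agent.Helper93.LP.EMo
import Pool.Agent.Helper93.LP.KInt

/-!
# LP block CVw: moving the zeros to the critical line changes little, in measure

(GGM block CV is the model.) Let `L = log T`, `x_ρ = L(β-1/2)`, `v_ρ = L(γ-t)`,
`d_ρ(t) = ‖LT w (zz T t ρ) - LT w (z0 T t ρ)‖`, so `‖GG T w t - G0 T w t‖ ≤ Σ mx d_ρ`.
Let `k ≥ 2` be an integer with `2 b/k ≤ kap` (`WC w a b`), `0 < ε' ≤ 1`.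
* good zeros `|x_ρ| < ε'`: `d_ρ ≤ C₁ ε'/(1+v²)` (`LT_diff`), so `∫ Σ_good mx d_ρ ≤ C₁ ε' π NT T/L ≤ C ε' T`
  (`tl_integral` of GGM/TL.lean or `integral_univ_inv_one_add_sq`; `tl_NT`, `NT_le_ev`).
* bad zeros `|x_ρ| ≥ ε'`: `d_ρ ≤ M_ρ/(1+|v|)^k` with `M_ρ = C₂ e^{b|x_ρ|}`, `C₂ ≥ 1` (`LT_bound` twice). With
  `s = max (sqrt B) 1`: `∫ min (d_ρ) s ≤ s ∫ min (M_ρ/(1+|v|)^k) 1 ≤ 8 s M_ρ^(1/k)/L ≤ C s e^{(kap/2)|x_ρ|}/L`
  (`min_kernel`), and by Cauchy-Schwarz `Σ_bad mx e^{(kap/2)|x|} ≤ (offCount T ε')^(1/2) (Σ mx e^{kap|x|})^(1/2)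
  = o(SN T)` along `l` by `OffLine` and `exp_mom'` (`SN T = TL/2π`).
* `min (y²) B ≤ s * min y s` for `y ≥ 0` and `min (Σ_good + Σ_bad mx d) s ≤ Σ_good + Σ_bad mx min d s` (`mx ≥ 1`).
So the integral is `≤ s (C ε' + o(1)) T`; first choose `ε'`, then `T`.
-/

open Complex Set MeasureTheory Filter Topology
open Pool.Agent.Helper57.LH Pool.Agent.Helper57.PC Pool.Agent.Helper57.Zeta
open Pool.Agent.Helper69.GGM

namespace Pool.Agent.Helper93.LP

namespace CVw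

theorem tl_integrable {L : ℝ} (hL : 0 < L) (c : ℝ) :
    Integrable (fun t : ℝ => (1 + (L * (c - t)) ^ 2)⁻¹) := by
  have h1 : Integrable fun x : ℝ => (1 + x ^ 2)⁻¹ := integrable_inv_one_add_sq
  have h2 : Integrable fun x : ℝ => (1 + (L * x) ^ 2)⁻¹ := h1.comp_mul_left' hL.ne'
  exact h2.comp_sub_left c

theorem tl_integral {L : ℝ} (hL : 0 < L) (c : ℝ) :
    ∫ t : ℝ, (1 + (L * (c - t)) ^ 2)⁻¹ = Real.pi / L := by
  rw [integral_sub_left_eq_self (fun x : ℝ => (1 + (L * x) ^ 2)⁻¹) volume c,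
    Measure.integral_comp_mul_left (fun x : ℝ => (1 + x ^ 2)⁻¹) L, integral_univ_inv_one_add_sq,
    abs_of_pos (inv_pos.mpr hL), smul_eq_mul, inv_mul_eq_div]

theorem tl_NT (T : ℝ) : ∑ ρ ∈ Zf T, mx ρ = NT T := by
  unfold NT
  refine Finset.sum_congr rfl fun ρ h => ?_
  rw [mem_Zf] at h
  unfold mx
  rw [mult_eq h.1]

lemma mx_one_le {T : ℝ} {ρ : ℂ} (h : ρ ∈ Zf T) : 1 ≤ mx ρ := by
  rw [mem_Zf] at h
  have h1 := isNontrivialZero_iff.mp h.1
  have h2 := (order_pos_iff differentiable_xi xi_two_ne ρ).mpr h1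
  unfold mx
  have : 1 ≤ analyticOrderNatAt xi ρ := Nat.one_le_iff_ne_zero.mpr h2
  exact_mod_cast this

/-- the pointwise inequality for the truncated square -/
lemma min_sq_le_max {y B : ℝ} (hy : 0 ≤ y) (hB : 0 ≤ B) :
    min (y ^ 2) B ≤ max (Real.sqrt B) 1 * min y (max (Real.sqrt B) 1) := by
  have hs0 := Real.sqrt_nonneg B
  have hss := Real.mul_self_sqrt hB
  set s := max (Real.sqrt B) 1 with hs
  have h1 : Real.sqrt B ≤ s := le_max_left _ _
  have h2 : 0 ≤ s := hs0.trans h1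
  rcases le_total y s with h | h
  · rw [min_eq_left h]
    refine (min_le_left _ _).trans ?_
    nlinarith
  · rw [min_eq_right h]
    refine (min_le_right _ _).trans ?_
    nlinarith

/-- truncation of a sum with coefficients at least one -/
lemma min_sum_le {ι : Type*} {A : Finset ι} {m d : ι → ℝ} {G s : ℝ} (hG : 0 ≤ G) (hs : 0 ≤ s)
    (hm : ∀ i ∈ A, 1 ≤ m i) (hd : ∀ i ∈ A, 0 ≤ d i) :
    min (G + ∑ i ∈ A, m i * d i) s ≤ G + ∑ i ∈ A, m i * min (d i) s := by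
  have hnn : ∀ i ∈ A, 0 ≤ m i * min (d i) s := fun i hi =>
    mul_nonneg (by linarith [hm i hi]) (le_min (hd i hi) hs)
  by_cases h : ∃ i ∈ A, s ≤ d i
  · obtain ⟨i, hi, hsi⟩ := h
    refine (min_le_right _ _).trans ?_
    have h1 : m i * min (d i) s ≤ ∑ i ∈ A, m i * min (d i) s := Finset.single_le_sum hnn hi
    rw [min_eq_right hsi] at h1
    have h2 : s ≤ m i * s := le_mul_of_one_le_left hs (hm i hi)
    linarith
  · push Not at h
    refine (min_le_left _ _).trans (le_of_eq ?_)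
    congr 1
    refine Finset.sum_congr rfl fun i hi => ?_
    rw [min_eq_left (h i hi).le]

open Classical in
/-- the pointwise majorant -/
noncomputable def maj (T C e s K b : ℝ) (k : ℕ) (t : ℝ) : ℝ :=
  ∑ ρ ∈ Zf T, mx ρ * (C * e) * (1 + (Real.log T * (ρ.im - t)) ^ 2)⁻¹
  + ∑ ρ ∈ (Zf T).filter (fun ρ => e ≤ |Real.log T * (ρ.re - 1 / 2)|),
      mx ρ * s * min (K * Real.exp (b * |Real.log T * (ρ.re - 1 / 2)|) /
        (1 + |Real.log T * (ρ.im - t)|) ^ k) 1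

lemma maj_nonneg {T C e s K b : ℝ} {k : ℕ} (hC : 0 ≤ C) (he : 0 ≤ e) (hs : 0 ≤ s) (hK : 0 ≤ K)
    (t : ℝ) : 0 ≤ maj T C e s K b k t := by
  unfold maj
  refine add_nonneg ?_ ?_
  · exact Finset.sum_nonneg fun ρ _ => mul_nonneg (mul_nonneg (mx_nonneg ρ) (by positivity))
      (by positivity)
  · exact Finset.sum_nonneg fun ρ _ => mul_nonneg (mul_nonneg (mx_nonneg ρ) hs)
      (le_min (by positivity) zero_le_one)

lemma K_one_le {K b x : ℝ} (hK : 1 ≤ K) (hb : 0 ≤ b) : 1 ≤ K * Real.exp (b * |x|) := by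
  have h1 : 1 ≤ Real.exp (b * |x|) := Real.one_le_exp (mul_nonneg hb (abs_nonneg x))
  nlinarith

lemma maj_integrable {T C e s K b : ℝ} {k : ℕ} (hL : 0 < Real.log T) (hK : 1 ≤ K) (hb : 0 ≤ b)
    (hk : 2 ≤ k) : Integrable (maj T C e s K b k) := by
  unfold maj
  refine Integrable.add ?_ ?_
  · exact integrable_finsetSum _ fun ρ _ => (tl_integrable hL ρ.im).const_mul _
  · exact integrable_finsetSum _ fun ρ _ =>
      (min_kernel (γ := ρ.im) hL (K_one_le hK hb) hk).1.const_mul _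

open Classical in
lemma maj_integral {T C e s K b : ℝ} {k : ℕ} (hL : 0 < Real.log T) (hK : 1 ≤ K) (hb : 0 ≤ b)
    (hs : 0 ≤ s) (hk : 2 ≤ k) (hbk : b / k ≤ kap / 2) :
    ∫ t, maj T C e s K b k t ≤ C * e * (Real.pi / Real.log T) * NT T +
      8 * s * K / Real.log T *
        ∑ ρ ∈ (Zf T).filter (fun ρ => e ≤ |Real.log T * (ρ.re - 1 / 2)|),
          mx ρ * Real.exp (kap / 2 * |Real.log T * (ρ.re - 1 / 2)|) := by
  unfold maj
  rw [integral_add, integral_finsetSum, integral_finsetSum]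
  · refine add_le_add (le_of_eq ?_) ?_
    · rw [← tl_NT, Finset.mul_sum]
      refine Finset.sum_congr rfl fun ρ _ => ?_
      rw [integral_const_mul, tl_integral hL]
      ring
    · rw [Finset.mul_sum]
      refine Finset.sum_le_sum fun ρ _ => ?_
      rw [integral_const_mul]
      have h1 := (min_kernel (γ := ρ.im) hL (K_one_le (x := Real.log T * (ρ.re - 1 / 2)) hK hb)
        hk).2
      have hk0 : (0 : ℝ) < k := by exact_mod_cast (by omega : 0 < k)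
      have h2 : (K * Real.exp (b * |Real.log T * (ρ.re - 1 / 2)|)) ^ (1 / (k : ℝ)) ≤
          K * Real.exp (kap / 2 * |Real.log T * (ρ.re - 1 / 2)|) := by
        rw [Real.mul_rpow (by positivity) (Real.exp_pos _).le, ← Real.exp_mul]
        refine mul_le_mul ?_ ?_ (Real.exp_pos _).le (by positivity)
        · have h3 : K ^ (1 / (k : ℝ)) ≤ K ^ (1 : ℝ) := by
            refine Real.rpow_le_rpow_of_exponent_le hK ?_
            rw [div_le_one hk0]
            exact_mod_cast (by omega : 1 ≤ k)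
          rwa [Real.rpow_one] at h3
        · refine Real.exp_le_exp.2 ?_
          have h4 : b * |Real.log T * (ρ.re - 1 / 2)| * (1 / (k : ℝ)) =
              b / k * |Real.log T * (ρ.re - 1 / 2)| := by ring
          rw [h4]
          exact mul_le_mul_of_nonneg_right hbk (abs_nonneg _)
      have h3 : 0 ≤ mx ρ * s := mul_nonneg (mx_nonneg ρ) hs
      refine (mul_le_mul_of_nonneg_left h1 h3).trans ?_
      have h4 : 8 * (K * Real.exp (b * |Real.log T * (ρ.re - 1 / 2)|)) ^ (1 / (k : ℝ)) /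
          Real.log T ≤
          8 * (K * Real.exp (kap / 2 * |Real.log T * (ρ.re - 1 / 2)|)) / Real.log T :=
        div_le_div_of_nonneg_right (by linarith) hL.le
      refine (mul_le_mul_of_nonneg_left h4 h3).trans (le_of_eq ?_)
      ring
  · exact fun ρ _ => (min_kernel (γ := ρ.im) hL (K_one_le hK hb) hk).1.const_mul _
  · exact fun ρ _ => (tl_integrable hL ρ.im).const_mul _
  · exact integrable_finsetSum _ fun ρ _ => (tl_integrable hL ρ.im).const_mul _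
  · exact integrable_finsetSum _ fun ρ _ =>
      (min_kernel (γ := ρ.im) hL (K_one_le hK hb) hk).1.const_mul _

lemma zz_eq (T t : ℝ) (ρ : ℂ) : zz T t ρ =
    ((Real.log T * (ρ.re - 1 / 2) : ℝ) : ℂ) + ((Real.log T * (ρ.im - t) : ℝ) : ℂ) * I := rfl

/-- the pointwise bound -/
lemma pointwise {w : ℝ → ℂ} {C₁ C₂ b e s T t : ℝ} {k : ℕ} (hC₁ : 0 < C₁) (hC₂ : 0 < C₂)
    (hb : 0 ≤ b) (he : 0 < e) (he1 : e ≤ 1) (hs : 1 ≤ s)
    (h₁ : ∀ z : ℂ, ‖LT w z‖ ≤ C₁ * Real.exp (b * |z.re|) / (1 + |z.im|) ^ k)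
    (h₂ : ∀ x y : ℝ, |x| ≤ 1 →
      ‖LT w ((x : ℂ) + (y : ℂ) * I) - LT w ((y : ℂ) * I)‖ ≤ C₂ * |x| / (1 + y ^ 2)) :
    min ‖GG T w t - G0 T w t‖ s ≤ maj T C₂ e s (2 * C₁ + 1) b k t := by
  classical
  have hs0 : 0 ≤ s := by linarith
  have hdiff : GG T w t - G0 T w t = ∑ ρ ∈ Zf T, (mx ρ : ℂ) * (LT w (zz T t ρ) - LT w (z0 T t ρ)) := by
    unfold GG G0
    rw [← Finset.sum_sub_distrib]
    exact Finset.sum_congr rfl fun ρ _ => by ring
  have hnorm : ‖GG T w t - G0 T w t‖ ≤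
      ∑ ρ ∈ Zf T, mx ρ * ‖LT w (zz T t ρ) - LT w (z0 T t ρ)‖ := by
    rw [hdiff]
    refine (norm_sum_le _ _).trans (Finset.sum_le_sum fun ρ _ => ?_)
    rw [norm_mul, Complex.norm_real, Real.norm_of_nonneg (mx_nonneg ρ)]
  rw [← Finset.sum_filter_add_sum_filter_not (Zf T)
    (fun ρ => e ≤ |Real.log T * (ρ.re - 1 / 2)|), add_comm] at hnorm
  have hgood : ∑ ρ ∈ (Zf T).filter (fun ρ => ¬ e ≤ |Real.log T * (ρ.re - 1 / 2)|),
      mx ρ * ‖LT w (zz T t ρ) - LT w (z0 T t ρ)‖ ≤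
      ∑ ρ ∈ Zf T, mx ρ * (C₂ * e) * (1 + (Real.log T * (ρ.im - t)) ^ 2)⁻¹ := by
    have hsub : ∑ ρ ∈ (Zf T).filter (fun ρ => ¬ e ≤ |Real.log T * (ρ.re - 1 / 2)|),
        mx ρ * (C₂ * e) * (1 + (Real.log T * (ρ.im - t)) ^ 2)⁻¹ ≤
        ∑ ρ ∈ Zf T, mx ρ * (C₂ * e) * (1 + (Real.log T * (ρ.im - t)) ^ 2)⁻¹ :=
      Finset.sum_le_sum_of_subset_of_nonneg (Finset.filter_subset _ _)
        fun ρ _ _ => mul_nonneg (mul_nonneg (mx_nonneg ρ) (by positivity)) (by positivity)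
    refine le_trans (Finset.sum_le_sum fun ρ hρ => ?_) hsub
    obtain ⟨_, hne⟩ := Finset.mem_filter.1 hρ
    push Not at hne
    rw [mul_assoc (mx ρ)]
    refine mul_le_mul_of_nonneg_left ?_ (mx_nonneg ρ)
    refine (h₂ (Real.log T * (ρ.re - 1 / 2)) (Real.log T * (ρ.im - t)) (hne.le.trans he1)).trans ?_
    rw [div_eq_mul_inv]
    refine mul_le_mul_of_nonneg_right ?_ (by positivity)
    exact mul_le_mul_of_nonneg_left hne.le hC₂.le
  have hG0 : 0 ≤ ∑ ρ ∈ Zf T, mx ρ * (C₂ * e) * (1 + (Real.log T * (ρ.im - t)) ^ 2)⁻¹ :=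
    Finset.sum_nonneg fun ρ _ => mul_nonneg (mul_nonneg (mx_nonneg ρ) (by positivity))
      (by positivity)
  have hmin := min_sum_le (A := (Zf T).filter (fun ρ => e ≤ |Real.log T * (ρ.re - 1 / 2)|))
    (m := mx) (d := fun ρ => ‖LT w (zz T t ρ) - LT w (z0 T t ρ)‖) hG0 hs0
    (fun ρ hρ => mx_one_le (Finset.mem_filter.1 hρ).1) (fun ρ _ => norm_nonneg _)
  refine (min_le_min_right s (hnorm.trans (add_le_add hgood le_rfl))).trans (hmin.trans ?_)
  unfold maj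
  refine add_le_add le_rfl (Finset.sum_le_sum fun ρ _ => ?_)
  rw [mul_assoc (mx ρ)]
  refine mul_le_mul_of_nonneg_left ?_ (mx_nonneg ρ)
  obtain ⟨x, hx⟩ : ∃ x, x = Real.log T * (ρ.re - 1 / 2) := ⟨_, rfl⟩
  obtain ⟨v, hv⟩ : ∃ v, v = Real.log T * (ρ.im - t) := ⟨_, rfl⟩
  rw [← hx, ← hv]
  have e1 := h₁ (zz T t ρ)
  have e2 := h₁ (z0 T t ρ)
  have r1 : (zz T t ρ).re = x := by simp [zz, hx]
  have r2 : (zz T t ρ).im = v := by simp [zz, hv]
  have r3 : (z0 T t ρ).re = 0 := by simp [z0]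
  have r4 : (z0 T t ρ).im = v := by simp [z0, hv]
  rw [r1, r2] at e1
  rw [r3, r4, abs_zero, mul_zero, Real.exp_zero, mul_one] at e2
  have hp : 0 < (1 + |v|) ^ k := by positivity
  have hE : 1 ≤ Real.exp (b * |x|) := Real.one_le_exp (mul_nonneg hb (abs_nonneg x))
  have hd : ‖LT w (zz T t ρ) - LT w (z0 T t ρ)‖ ≤
      (2 * C₁ + 1) * Real.exp (b * |x|) / (1 + |v|) ^ k := by
    refine (norm_sub_le _ _).trans ((add_le_add e1 e2).trans ?_)
    rw [← add_div]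
    refine div_le_div_of_nonneg_right ?_ hp.le
    nlinarith
  set q := (2 * C₁ + 1) * Real.exp (b * |x|) / (1 + |v|) ^ k with hq
  have hq0 : 0 ≤ q := by rw [hq]; positivity
  refine (min_le_min_right s hd).trans ?_
  rcases le_total q 1 with h | h
  · rw [min_eq_left h]
    exact (min_le_left _ _).trans (le_mul_of_one_le_left hq0 hs)
  · rw [min_eq_right h, mul_one]
    exact min_le_right _ _

end CVw

open CVw in
theorem conv_w {l : Filter ℝ} (hl : l ≤ atTop) (hOff : OffLine l) {w : ℝ → ℂ} {a b : ℝ} (h : WC w a b)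
    {B : ℝ} (hB : 0 < B) {ε : ℝ} (hε : 0 < ε) :
    ∀ᶠ T : ℝ in l, ∫ t in (0:ℝ)..T, min (‖GG T w t - G0 T w t‖ ^ 2) B ≤ ε * T := by
  classical
  have hb0 : 0 ≤ b := h.2.1.le.trans h.2.2.1
  have hkap := kap_pos
  -- the exponent `k`
  obtain ⟨k, hk2, hbk⟩ : ∃ k : ℕ, 2 ≤ k ∧ b / k ≤ kap / 2 := by
    obtain ⟨m, hm⟩ := exists_nat_ge (2 * b / kap)
    refine ⟨m + 2, by omega, ?_⟩
    have h1 : (0 : ℝ) < ((m + 2 : ℕ) : ℝ) := by positivity
    rw [div_le_iff₀ h1]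
    rw [div_le_iff₀ hkap] at hm
    push_cast
    nlinarith
  obtain ⟨C₁, hC₁, h₁⟩ := LT_bound h k
  obtain ⟨C₂, hC₂, h₂⟩ := LT_diff h
  obtain ⟨C₃, T₃, hC₃, h₃⟩ := exp_mom'
  obtain ⟨s, hs⟩ : ∃ s, s = max (Real.sqrt B) 1 := ⟨_, rfl⟩
  have hs1 : 1 ≤ s := hs ▸ le_max_right _ _
  have hs0 : 0 < s := by linarith
  obtain ⟨K, hK⟩ : ∃ K, K = 2 * C₁ + 1 := ⟨_, rfl⟩
  have hK1 : 1 ≤ K := by linarith
  have hK0 : 0 < K := by linarith
  have hpi := Real.pi_pos
  obtain ⟨e, he0, he1, he2⟩ : ∃ e : ℝ, 0 < e ∧ e ≤ 1 ∧ s * (C₂ * e * Real.pi) ≤ ε / 3 := by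
    refine ⟨min 1 (ε / 3 / (s * C₂ * Real.pi)), by positivity, min_le_left _ _, ?_⟩
    have h4 : min 1 (ε / 3 / (s * C₂ * Real.pi)) ≤ ε / 3 / (s * C₂ * Real.pi) := min_le_right _ _
    rw [le_div_iff₀ (by positivity)] at h4
    linarith
  obtain ⟨η, hη0, hη1⟩ : ∃ η : ℝ, 0 < η ∧ s * (8 * s * K * (η * C₃)) ≤ ε / 3 := by
    refine ⟨ε / 3 / (s * (8 * s * K * C₃)), by positivity, le_of_eq ?_⟩
    field_simp
  obtain ⟨κ, hκ0, hκ1⟩ : ∃ κ : ℝ, 0 < κ ∧
      s * (8 * s * K * (1 / (4 * η) * (κ / (2 * Real.pi)))) ≤ ε / 3 := by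
    refine ⟨ε / 3 / (s * (8 * s * K * (1 / (4 * η) * (1 / (2 * Real.pi))))), by positivity,
      le_of_eq ?_⟩
    field_simp
  have hoff : ∀ᶠ T : ℝ in l, offCount T e / SN T < κ :=
    (hOff e he0).eventually (gt_mem_nhds hκ0)
  have hlog : Tendsto (fun T : ℝ => Real.log T) l atTop := Real.tendsto_log_atTop.mono_left hl
  filter_upwards [hoff, hlog.eventually_ge_atTop 1, hl (eventually_ge_atTop T₃),
    hl (eventually_ge_atTop (1 : ℝ)), hl NT_le_ev] with T g1 g2 g3 g4 g5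
  have hT0 : 0 < T := by linarith
  have hL0 : 0 < Real.log T := by linarith
  have hint := maj_integrable (T := T) (C := C₂) (e := e) (s := s) (K := K) (b := b) (k := k)
    hL0 hK1 hb0 hk2
  have hnn := maj_nonneg (T := T) (b := b) (k := k) hC₂.le he0.le hs0.le hK0.le
  rw [intervalIntegral.integral_of_le hT0.le]
  have hpt : ∀ t : ℝ, min (‖GG T w t - G0 T w t‖ ^ 2) B ≤ s * maj T C₂ e s K b k t := by
    intro t
    have h4 := min_sq_le_max (norm_nonneg (GG T w t - G0 T w t)) hB.le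
    rw [← hs] at h4
    refine h4.trans (mul_le_mul_of_nonneg_left ?_ hs0.le)
    rw [hK]
    exact pointwise hC₁ hC₂ hb0 he0 he1 hs1 h₁ h₂
  have hmono : ∫ t in Ioc 0 T, min (‖GG T w t - G0 T w t‖ ^ 2) B ≤
      ∫ t in Ioc 0 T, s * maj T C₂ e s K b k t := by
    apply integral_mono_of_nonneg _ (hint.const_mul s).integrableOn (Eventually.of_forall hpt)
    exact Eventually.of_forall fun t => le_min (by positivity) hB.le
  refine hmono.trans ?_
  rw [integral_const_mul]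
  have hI2 : ∫ t in Ioc 0 T, maj T C₂ e s K b k t ≤ ∫ t, maj T C₂ e s K b k t :=
    setIntegral_le_integral hint (Eventually.of_forall hnn)
  have hI3 := hI2.trans (maj_integral hL0 hK1 hb0 hs0.le hk2 hbk)
  have hsn : SN T = T * Real.log T / (2 * Real.pi) := rfl
  have hoffc : offCount T e ≤ κ * (T * Real.log T / (2 * Real.pi)) := by
    rw [div_lt_iff₀ (by rw [hsn]; positivity), hsn] at g1
    exact g1.le
  have hexp := h₃ T g3
  have hbad : ∑ ρ ∈ (Zf T).filter (fun ρ => e ≤ |Real.log T * (ρ.re - 1 / 2)|),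
      mx ρ * Real.exp (kap / 2 * |Real.log T * (ρ.re - 1 / 2)|) ≤
      η * (C₃ * (T * Real.log T)) + 1 / (4 * η) * (κ * (T * Real.log T / (2 * Real.pi))) := by
    have h4 : ∀ ρ ∈ (Zf T).filter (fun ρ => e ≤ |Real.log T * (ρ.re - 1 / 2)|),
        mx ρ * Real.exp (kap / 2 * |Real.log T * (ρ.re - 1 / 2)|) ≤
        η * (mx ρ * Real.exp (kap * |Real.log T * (ρ.re - 1 / 2)|)) + 1 / (4 * η) * mx ρ := by
      intro ρ _
      set y := Real.exp (kap / 2 * |Real.log T * (ρ.re - 1 / 2)|) with hy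
      have h5 : Real.exp (kap * |Real.log T * (ρ.re - 1 / 2)|) = y ^ 2 := by
        rw [hy, ← Real.exp_nat_mul]
        congr 1
        push_cast
        ring
      rw [h5]
      have h6 : y ≤ η * y ^ 2 + 1 / (4 * η) := by
        have h7 : 0 ≤ (2 * η * y - 1) ^ 2 / (4 * η) := by positivity
        have h8 : (2 * η * y - 1) ^ 2 / (4 * η) = η * y ^ 2 - y + 1 / (4 * η) := by
          field_simp; ring
        linarith
      have := mul_le_mul_of_nonneg_left h6 (mx_nonneg ρ)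
      nlinarith
    refine (Finset.sum_le_sum h4).trans ?_
    rw [Finset.sum_add_distrib, ← Finset.mul_sum, ← Finset.mul_sum]
    refine add_le_add ?_ ?_
    · refine mul_le_mul_of_nonneg_left (le_trans ?_ hexp) hη0.le
      exact Finset.sum_le_sum_of_subset_of_nonneg (Finset.filter_subset _ _)
        fun ρ _ _ => mul_nonneg (mx_nonneg ρ) (Real.exp_pos _).le
    · refine mul_le_mul_of_nonneg_left (le_trans (le_of_eq ?_) hoffc) (by positivity)
      unfold offCount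
      congr!
  have hfin := mul_le_mul_of_nonneg_left hI3 hs0.le
  refine hfin.trans ?_
  rw [mul_add]
  have b1 : s * (C₂ * e * (Real.pi / Real.log T) * NT T) ≤ ε / 3 * T := by
    have h4 : s * (C₂ * e * (Real.pi / Real.log T) * NT T) ≤
        s * (C₂ * e * (Real.pi / Real.log T) * (T * Real.log T)) :=
      mul_le_mul_of_nonneg_left (mul_le_mul_of_nonneg_left g5 (by positivity)) hs0.le
    refine h4.trans ?_
    have h5 : s * (C₂ * e * (Real.pi / Real.log T) * (T * Real.log T)) =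
        s * (C₂ * e * Real.pi) * T := by
      field_simp
    rw [h5]
    exact mul_le_mul_of_nonneg_right he2 hT0.le
  have b2 : s * (8 * s * K / Real.log T *
      ∑ ρ ∈ (Zf T).filter (fun ρ => e ≤ |Real.log T * (ρ.re - 1 / 2)|),
        mx ρ * Real.exp (kap / 2 * |Real.log T * (ρ.re - 1 / 2)|)) ≤ ε / 3 * T + ε / 3 * T := by
    have h4 := mul_le_mul_of_nonneg_left (mul_le_mul_of_nonneg_left hbad
      (by positivity : 0 ≤ 8 * s * K / Real.log T)) hs0.le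
    refine h4.trans ?_
    have h5 : s * (8 * s * K / Real.log T * (η * (C₃ * (T * Real.log T)) +
        1 / (4 * η) * (κ * (T * Real.log T / (2 * Real.pi))))) =
        s * (8 * s * K * (η * C₃)) * T +
        s * (8 * s * K * (1 / (4 * η) * (κ / (2 * Real.pi)))) * T := by
      field_simp
    rw [h5]
    exact add_le_add (mul_le_mul_of_nonneg_right hη1 hT0.le)
      (mul_le_mul_of_nonneg_right hκ1 hT0.le)
  linarith

end Pool.Agent.Helper93.LP
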