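import Pool.Agent.Helper93.LP.FAR

/-!
# LP block DPR: the function `PR` (poles removed)

`J₁` = the points of `J` with `|im z| ≤ 10Λ`; all in the region `|b.im| ≤ 6Λ`, so `b - z j ≠ 0` for `j ∈ J \ J₁`.
* `PR_diff`: finite sums and products of differentiable functions.
* `PR_eq`: if `b ≠ z j` for all `j ∈ J₁` then `PR = Pol * RR` (`Finset.mul_prod_erase`).
* `PR_sub`: `PR (s=1) - PR (s=A) = Pol * GD` for all `b` with `|b.im| ≤ 6Λ`: `trans` with `y = b - z j`: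
  `tm E 1 y - tm E A y = y LT χ (-y)`.
* `card_J1`: `#J₁ ≤ (1+100Λ²) Σ m/(1+v²) ≤ (1+100Λ²) Λ²` (`sum_le`, `m ≥ 1`).
-/

open Complex Set MeasureTheory Filter Topology
open Pool.Agent.Helper57.LH Pool.Agent.Helper57.PC Pool.Agent.Helper57.Zeta
open Pool.Agent.Helper69.GGM

namespace Pool.Agent.Helper93.LP

open Classical in
/-- the local points -/
noncomputable def J1 {ι : Type} (Λ : ℝ) (J : Finset ι) (z : ι → ℂ) : Finset ι :=
  J.filter (fun j => |(z j).im| ≤ 10 * Λ)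

namespace DPRp

lemma sub_ne {ι : Type} {Λ : ℝ} (hΛ : 1 ≤ Λ) {J : Finset ι} {z : ι → ℂ} {b : ℂ} (hb : |b.im| ≤ 6 * Λ)
    {j : ι} (hj : j ∈ J) (hj2 : j ∉ J1 Λ J z) : b - z j ≠ 0 := by
  classical
  have h1 : ¬ |(z j).im| ≤ 10 * Λ := fun h => hj2 (Finset.mem_filter.2 ⟨hj, h⟩)
  intro h0
  have h2 : b = z j := sub_eq_zero.1 h0
  rw [h2] at hb
  exact h1 (by linarith)

lemma pol_erase {ι : Type} [DecidableEq ι] (J₁ : Finset ι) (z : ι → ℂ) (b : ℂ) {j : ι} (hj : j ∈ J₁) :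
    Pol J₁ z b = (b - z j) * ∏ i ∈ J₁.erase j, (b - z i) := by
  unfold Pol
  exact (Finset.mul_prod_erase J₁ (fun i => b - z i) hj).symm

lemma J1_sub {ι : Type} (Λ : ℝ) (J : Finset ι) (z : ι → ℂ) : J1 Λ J z ⊆ J := by
  classical
  exact Finset.filter_subset _ _

lemma key {k : ℕ} {h A : ℝ} {χ : ℝ → ℝ} {E : ℂ → ℂ} (hK : IsKer k h A χ E) (b w : ℂ) :
    tm E 1 (b - w) - tm E A (b - w) = (b - w) * LT (fun α => (χ α : ℂ)) (w - b) := by
  have h1 := hK.trans (b - w)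
  rw [neg_sub] at h1
  rw [h1]
  unfold tm
  push_cast
  rw [one_mul, neg_sub]
  ring

end DPRp

theorem PR_diff {ι : Type} {Λ : ℝ} (hΛ : 1 ≤ Λ) (J : Finset ι) (m : ι → ℝ) (z : ι → ℂ) {E : ℂ → ℂ}
    (hE : Differentiable ℂ E) (s : ℝ) {b : ℂ} (hb : |b.im| ≤ 6 * Λ) :
    DifferentiableAt ℂ (PR J (J1 Λ J z) m z E s) b := by
  classical
  have htm : ∀ w : ℂ, Differentiable ℂ (fun b : ℂ => tm E s (b - w)) := by
    intro w
    unfold tm
    have h1 : Differentiable ℂ (fun b : ℂ => b - w) := differentiable_id.sub_const w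
    exact ((h1.const_mul (s : ℂ)).neg.cexp).mul (hE.comp h1)
  have hprod : ∀ S : Finset ι, Differentiable ℂ (fun b : ℂ => ∏ i ∈ S, (b - z i)) := by
    intro S
    exact Differentiable.fun_finsetProd fun i _ => differentiable_id.sub_const (z i)
  unfold PR
  refine DifferentiableAt.add ?_ (DifferentiableAt.mul ?_ ?_)
  · refine DifferentiableAt.fun_sum fun j _ => ?_
    exact (((htm (z j)).const_mul (m j : ℂ)).mul (hprod _)) b
  · exact (hprod _) b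
  · refine DifferentiableAt.fun_sum fun j hj => ?_
    refine DifferentiableAt.const_mul ?_ _
    refine DifferentiableAt.div ((htm (z j)) b) ((differentiable_id.sub_const (z j)).differentiableAt) ?_
    exact DPRp.sub_ne hΛ hb (Finset.mem_sdiff.1 hj).1 (Finset.mem_sdiff.1 hj).2

theorem PR_eq {ι : Type} {Λ : ℝ} (J : Finset ι) (m : ι → ℝ) (z : ι → ℂ) (E : ℂ → ℂ) (s : ℝ) {b : ℂ}
    (hb : ∀ j ∈ J, b ≠ z j) :
    PR J (J1 Λ J z) m z E s b = Pol (J1 Λ J z) z b * RR J m z E s b := by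
  classical
  unfold PR RR
  rw [← Finset.sum_sdiff (DPRp.J1_sub Λ J z), mul_add, add_comm]
  congr 1
  rw [Finset.mul_sum]
  refine Finset.sum_congr rfl fun j hj => ?_
  have hne : b - z j ≠ 0 := sub_ne_zero.2 (hb j (DPRp.J1_sub Λ J z hj))
  rw [DPRp.pol_erase _ z b hj]
  field_simp
  try congr!

theorem PR_sub {ι : Type} {Λ A h : ℝ} {k : ℕ} (hΛ : 1 ≤ Λ) {χ : ℝ → ℝ} {E : ℂ → ℂ} (hK : IsKer k h A χ E)
    (J : Finset ι) (m : ι → ℝ) (z : ι → ℂ) {b : ℂ} (hb : |b.im| ≤ 6 * Λ) :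
    PR J (J1 Λ J z) m z E 1 b - PR J (J1 Λ J z) m z E A b = Pol (J1 Λ J z) z b * GD J m z χ b := by
  classical
  unfold PR GD
  rw [← Finset.sum_sdiff (DPRp.J1_sub Λ J z), mul_add]
  rw [add_sub_add_comm, ← Finset.sum_sub_distrib, ← mul_sub, ← Finset.sum_sub_distrib, add_comm]
  congr 1
  · congr 1
    refine Finset.sum_congr rfl fun j hj => ?_
    have hne : b - z j ≠ 0 := DPRp.sub_ne hΛ hb (Finset.mem_sdiff.1 hj).1 (Finset.mem_sdiff.1 hj).2
    have hk := DPRp.key hK b (z j)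
    rw [← mul_sub, ← sub_div]
    rw [hk, mul_div_cancel_left₀ _ hne]
  · rw [Finset.mul_sum]
    refine Finset.sum_congr rfl fun j hj => ?_
    have hk := DPRp.key hK b (z j)
    rw [DPRp.pol_erase _ z b hj, ← sub_mul, ← mul_sub]
    rw [hk]
    ring_nf
    try congr!

theorem card_J1 {ι : Type} {c Λ : ℝ} (hΛ : 1 ≤ Λ) {J : Finset ι} {m : ι → ℝ} {z : ι → ℂ} (h : Conf c Λ J m z) :
    ((J1 Λ J z).card : ℝ) ≤ 101 * Λ ^ 4 := by
  classical
  have h0 : ∑ j ∈ J1 Λ J z, (1 / (1 + 100 * Λ ^ 2) : ℝ) ≤ ∑ j ∈ J1 Λ J z, m j / (1 + (z j).im ^ 2) := by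
    refine Finset.sum_le_sum fun j hj => ?_
    have hj' := Finset.mem_filter.1 hj
    have h1 := h.one_le j hj'.1
    have h2 : (z j).im ^ 2 ≤ 100 * Λ ^ 2 := by
      have := pow_le_pow_left₀ (abs_nonneg _) hj'.2 2
      rw [sq_abs] at this
      nlinarith
    apply div_le_div₀ (by linarith) h1 (by positivity) (by linarith)
  have h1 : ∑ j ∈ J1 Λ J z, m j / (1 + (z j).im ^ 2) ≤ ∑ j ∈ J, m j / (1 + (z j).im ^ 2) := by
    refine Finset.sum_le_sum_of_subset_of_nonneg (DPRp.J1_sub Λ J z) fun j hj _ => ?_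
    have := h.one_le j hj
    positivity
  have h2 := h0.trans (h1.trans h.sum_le)
  rw [Finset.sum_const, nsmul_eq_mul, mul_one_div, div_le_iff₀ (by positivity)] at h2
  have h3 : Λ ^ 2 ≤ Λ ^ 4 := pow_le_pow_right₀ hΛ (by norm_num)
  nlinarith

end Pool.Agent.Helper93.LP
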