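import Pool.Agent.Helper93.LP.FAR

/-!
# LP block DRS: the error term on the right side `Re b = Λ + 2`

* `right_small`: near points (`|v| < exp(cΛ)`, `|re z| ≤ Λ`): `re y ≥ 2`, `y = b - z`, so `‖e^{-Ay}‖ ≤ e^{-2A}` (`A = Λ^8`), `‖E y‖ ≤ 1`
  (`Epos`), `‖y‖ ≥ 2`, and `Σ_near m ≤ (1+e^{2cΛ}) Λ²`; far points: `far_small`. Total
  `≤ e^{-2A} (1+e^{2cΛ}) Λ² + e^{-4A} Λ² ≤ e^{-A}` for `Λ` large.
-/

open Complex Set MeasureTheory Filter Topology
open Pool.Agent.Helper57.LH Pool.Agent.Helper57.PC Pool.Agent.Helper57.Zeta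
open Pool.Agent.Helper69.GGM

namespace Pool.Agent.Helper93.LP

theorem right_small {c : ℝ} (hc : 0 < c) (hc1 : c ≤ 1) : ∃ Λ₀ : ℝ, 1 ≤ Λ₀ ∧ ∀ Λ : ℝ, Λ₀ ≤ Λ →
    ∀ (χ : ℝ → ℝ) (E : ℂ → ℂ), KerP c Λ χ E → ∀ {ι : Type} (J : Finset ι) (m : ι → ℝ) (z : ι → ℂ),
    Conf c Λ J m z → ∀ b : ℂ, b.re = Λ + 2 → |b.im| ≤ 6 * Λ →
      ‖RR J m z E (Λ ^ 8) b‖ ≤ Real.exp (-Λ ^ 8) := by
  obtain ⟨Λ₁, h1, hfar⟩ := far_small hc hc1
  refine ⟨max Λ₁ 2, h1.trans (le_max_left _ _), fun Λ hΛ χ E hK ι J m z hJ b hb hbi => ?_⟩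
  have hΛ1 : Λ₁ ≤ Λ := (le_max_left _ _).trans hΛ
  have hΛ2 : 2 ≤ Λ := (le_max_right _ _).trans hΛ
  have hA0 : 0 ≤ Λ ^ 8 := by positivity
  set K : ℝ := (1 + Real.exp (2 * (c * Λ))) * Real.exp (-(2 * Λ ^ 8)) with hKdef
  have hterm : ∀ j ∈ J, ‖(m j : ℂ) * (tm E (Λ ^ 8) (b - z j) / (b - z j))‖ ≤ m j / (1 + (z j).im ^ 2) * K := by
    intro j hj
    have hm : 0 ≤ m j := le_trans zero_le_one (hJ.one_le j hj)
    rw [norm_mul, Complex.norm_real, Real.norm_eq_abs, abs_of_nonneg hm, div_mul_eq_mul_div, mul_div_assoc]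
    refine mul_le_mul_of_nonneg_left ?_ hm
    rw [norm_div]
    rcases lt_or_ge |(z j).im| (Real.exp (c * Λ)) with hn | hn
    · have hre := (abs_le.mp (hJ.near j hj hn)).2
      have hyre : (b - z j).re = Λ + 2 - (z j).re := by rw [Complex.sub_re, hb]
      have hy2 : 2 ≤ (b - z j).re := by rw [hyre]; linarith
      have hy1 : 1 ≤ ‖b - z j‖ := by
        have := Complex.re_le_norm (b - z j)
        linarith
      have ht : ‖tm E (Λ ^ 8) (b - z j)‖ ≤ Real.exp (-(2 * Λ ^ 8)) := by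
        unfold tm
        rw [norm_mul, Complex.norm_exp]
        have e1 : (-(((Λ ^ 8 : ℝ) : ℂ) * (b - z j))).re = -(Λ ^ 8 * (b - z j).re) := by
          rw [Complex.neg_re, Complex.re_ofReal_mul]
        rw [e1]
        have e2 : Real.exp (-(Λ ^ 8 * (b - z j).re)) ≤ Real.exp (-(2 * Λ ^ 8)) := by
          apply Real.exp_le_exp.mpr
          have := mul_le_mul_of_nonneg_left hy2 hA0
          linarith
        calc Real.exp (-(Λ ^ 8 * (b - z j).re)) * ‖E (b - z j)‖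
            ≤ Real.exp (-(2 * Λ ^ 8)) * 1 :=
              mul_le_mul e2 (hK.Epos _ (by linarith)) (norm_nonneg _) (Real.exp_pos _).le
          _ = Real.exp (-(2 * Λ ^ 8)) := mul_one _
      have h3 : ‖tm E (Λ ^ 8) (b - z j)‖ / ‖b - z j‖ ≤ Real.exp (-(2 * Λ ^ 8)) :=
        (div_le_self (norm_nonneg _) hy1).trans ht
      refine h3.trans ?_
      rw [le_div_iff₀ (by positivity), hKdef, mul_comm]
      refine mul_le_mul_of_nonneg_right ?_ (Real.exp_pos _).le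
      have h4 : (z j).im ^ 2 ≤ Real.exp (2 * (c * Λ)) := by
        have h5 : Real.exp (2 * (c * Λ)) = Real.exp (c * Λ) ^ 2 := by
          rw [← Real.exp_nat_mul]
          norm_num
        rw [h5, ← sq_abs]
        exact pow_le_pow_left₀ (abs_nonneg _) hn.le 2
      linarith
    · obtain ⟨h2, h3⟩ := hfar Λ hΛ1 χ E hK (z j) hn (hJ.far j hj hn) b
        (by rw [hb, abs_of_nonneg (by linarith)]; linarith) hbi (Λ ^ 8) hA0 le_rfl
      refine (div_le_self (norm_nonneg _) h2).trans (h3.trans ?_)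
      refine div_le_div_of_nonneg_right ?_ (by positivity)
      rw [hKdef]
      have h4 : Real.exp (-(4 * Λ ^ 8)) ≤ Real.exp (-(2 * Λ ^ 8)) :=
        Real.exp_le_exp.mpr (by linarith)
      have h5 : Real.exp (-(2 * Λ ^ 8)) ≤ (1 + Real.exp (2 * (c * Λ))) * Real.exp (-(2 * Λ ^ 8)) := by
        have := Real.exp_pos (2 * (c * Λ))
        have h6 := Real.exp_pos (-(2 * Λ ^ 8))
        nlinarith
      exact h4.trans h5
  have hK0 : 0 ≤ K := by positivity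
  have hsum : ‖RR J m z E (Λ ^ 8) b‖ ≤ Λ ^ 2 * K := by
    unfold RR
    refine (norm_sum_le _ _).trans ((Finset.sum_le_sum hterm).trans ?_)
    rw [← Finset.sum_mul]
    exact mul_le_mul_of_nonneg_right hJ.sum_le hK0
  refine hsum.trans ?_
  have h6 : Λ ^ 2 ≤ Real.exp (2 * Λ) := by
    have h7 : Λ ≤ Real.exp Λ := by
      have := Real.add_one_le_exp Λ
      linarith
    have h8 : Real.exp (2 * Λ) = Real.exp Λ ^ 2 := by
      rw [← Real.exp_nat_mul]
      norm_num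
    rw [h8]
    exact pow_le_pow_left₀ (by linarith) h7 2
  have h9 : 1 + Real.exp (2 * (c * Λ)) ≤ Real.exp (2 * Λ + 1) := by
    have h10 : Real.exp (2 * (c * Λ)) ≤ Real.exp (2 * Λ) := by
      apply Real.exp_le_exp.mpr
      nlinarith
    have h11 : (1 : ℝ) ≤ Real.exp (2 * Λ) := Real.one_le_exp (by linarith)
    have h12 : (2 : ℝ) ≤ Real.exp 1 := by
      have := Real.add_one_le_exp (1 : ℝ)
      linarith
    rw [Real.exp_add]
    nlinarith
  have h13 : 4 * Λ + 1 ≤ Λ ^ 8 := by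
    have h14 : (2 : ℝ) ^ 7 ≤ Λ ^ 7 := pow_le_pow_left₀ (by norm_num) hΛ2 7
    have h15 : Λ ^ 8 = Λ ^ 7 * Λ := by ring
    rw [h15]
    nlinarith
  calc Λ ^ 2 * K ≤ Real.exp (2 * Λ) * (Real.exp (2 * Λ + 1) * Real.exp (-(2 * Λ ^ 8))) := by
        rw [hKdef]
        refine mul_le_mul h6 (mul_le_mul_of_nonneg_right h9 (Real.exp_pos _).le) (by positivity) (by positivity)
    _ = Real.exp (4 * Λ + 1 - 2 * Λ ^ 8) := by
        rw [← Real.exp_add, ← Real.exp_add]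
        congr 1
        ring
    _ ≤ Real.exp (-Λ ^ 8) := Real.exp_le_exp.mpr (by linarith)

end Pool.Agent.Helper93.LP
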