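import Pool.Agent.Helper69.GGM.Defs

/-!
# LP project: definitions

Unconditional one-sided Goldston-Montgomery theorem (primes side of the pair correlation conjecture).
`L = Real.log T`; a zero `ρ` seen from the height `t` is `zz T t ρ = L (β - 1/2) + i L (γ - t)`.
-/

open Complex Set MeasureTheory Filter Topology
open Pool.Agent.Helper57.LH Pool.Agent.Helper57.PC Pool.Agent.Helper57.Zeta
open Pool.Agent.Helper69.GGM

namespace Pool.Agent.Helper93.LP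

/-- smooth complex weight supported in `[a,b]`, `0 < a ≤ b` -/
def WC (w : ℝ → ℂ) (a b : ℝ) : Prop :=
  ContDiff ℝ (⊤ : ℕ∞) w ∧ 0 < a ∧ a ≤ b ∧ ∀ x, w x ≠ 0 → a ≤ x ∧ x ≤ b

/-- smooth real weight supported in `[a,b]`, `0 < a ≤ b` -/
def WR (w : ℝ → ℝ) (a b : ℝ) : Prop :=
  ContDiff ℝ (⊤ : ℕ∞) w ∧ 0 < a ∧ a ≤ b ∧ ∀ x, w x ≠ 0 → a ≤ x ∧ x ≤ b

/-- Laplace transform `∫ w(α) e^{αz} dα` -/
noncomputable def LT (w : ℝ → ℂ) (z : ℂ) : ℂ := ∫ α : ℝ, w α * Complex.exp ((α : ℂ) * z)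

/-- the Dirichlet polynomial over primes `(1/L) Σ Λ(n) n^{-1/2-it} w(log n / L)` -/
noncomputable def PP (T : ℝ) (w : ℝ → ℂ) (t : ℝ) : ℂ :=
  ((Real.log T : ℝ) : ℂ)⁻¹ * ∑' n : ℕ, ((ArithmeticFunction.vonMangoldt n : ℝ) : ℂ) *
    (n : ℂ) ^ (-((1 / 2 : ℂ) + (t : ℂ) * I)) * w (Real.log n / Real.log T)

/-- the sum over the zeros -/
noncomputable def GG (T : ℝ) (w : ℝ → ℂ) (t : ℝ) : ℂ := ∑ ρ ∈ Zf T, (mx ρ : ℂ) * LT w (zz T t ρ)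

/-- the same sum with the zeros moved horizontally to the critical line -/
noncomputable def G0 (T : ℝ) (w : ℝ → ℂ) (t : ℝ) : ℂ := ∑ ρ ∈ Zf T, (mx ρ : ℂ) * LT w (z0 T t ρ)

/-- truncated mean square of the prime sum -/
noncomputable def MP (T : ℝ) (w : ℝ → ℂ) (B : ℝ) : ℝ :=
  (1 / T) * ∫ t in (0:ℝ)..T, min (‖PP T w t‖ ^ 2) B

/-- the predicted value -/
noncomputable def VW (w : ℝ → ℝ) : ℝ := ∫ α in Ioi (0:ℝ), min α 1 * w α ^ 2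

/-- Fourier side pair sum: `(1/S) Σ_{pairs} ∫_0^∞ φ(α) cos(2π α u) dα` -/
noncomputable def FT (T : ℝ) (φ : ℝ → ℝ) : ℝ :=
  WP T (fun u => ∫ α in Ioi (0:ℝ), φ α * Real.cos (2 * Real.pi * u * α)) / SN T

/-- the one-sided law for weights supported in `(θ,∞)`, along `l` -/
def UpLaw (l : Filter ℝ) (θ : ℝ) : Prop :=
  ∀ (w : ℝ → ℝ) (a b : ℝ), WR w a b → θ < a → ∀ B : ℝ, 0 < B → ∀ ε : ℝ, 0 < ε →
    ∀ᶠ T : ℝ in l, MP T (fun x => (w x : ℂ)) B ≤ VW w + ε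

/-- the upper bound for the pair sums on the Fourier side -/
def UpF (l : Filter ℝ) : Prop :=
  ∀ (w : ℝ → ℝ) (a b : ℝ), WR w a b → ∀ ε : ℝ, 0 < ε →
    ∀ᶠ T : ℝ in l, FT T (fun α => w α ^ 2) ≤ VW w + ε

lemma WR.toWC {w : ℝ → ℝ} {a b : ℝ} (h : WR w a b) : WC (fun x => (w x : ℂ)) a b := by
  refine ⟨Complex.ofRealCLM.contDiff.comp h.1, h.2.1, h.2.2.1, fun x hx => h.2.2.2 x ?_⟩
  intro h0
  exact hx (by simp [h0])

end Pool.Agent.Helper93.LP
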