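import Pool.Agent.Helper93.LP.InvA

/-!
# LP block EFp: the prime side of the explicit formula

Proof. For `Re s = 2`: `logDeriv ζ s = - Σ Λ(n) n^{-s}` (`ArithmeticFunction.LSeries_vonMangoldt_eq_deriv_riemannZeta_div`;
see `logDeriv_bdd7` in GGM/HX.lean), `Σ Λ(n) n^{-2} < ∞`. Interchange (`hasSum_integral_of_summable_integral_norm`,
`line_integrable`), and `∫ LT g (2+iu) n^{-(2+iu)} du = 2π g(log n)` by `inv_point` with `y = log n`
(`n^{-s} = e^{-s log n}` for `n ≥ 1`; `Λ 0 = 0`).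
-/

open Complex Set MeasureTheory Filter Topology
open Pool.Agent.Helper57.LH Pool.Agent.Helper57.PC Pool.Agent.Helper57.Zeta
open Pool.Agent.Helper69.GGM

namespace Pool.Agent.Helper93.LP

namespace EFp47

/-- the terms of the Dirichlet series of `-ζ'/ζ` -/
noncomputable def trm (n : ℕ) (s : ℂ) : ℂ :=
  LSeries.term (fun n => ((ArithmeticFunction.vonMangoldt n : ℝ) : ℂ)) s n

lemma trm_eq (n : ℕ) (s : ℂ) : trm n s =
    ((ArithmeticFunction.vonMangoldt n : ℝ) : ℂ) * Complex.exp (-(s * ((Real.log n : ℝ) : ℂ))) := by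
  unfold trm
  rcases Nat.eq_zero_or_pos n with hn | hn
  · subst hn
    simp
  · have hn0 : (n : ℂ) ≠ 0 := by exact_mod_cast hn.ne'
    rw [LSeries.term_of_ne_zero hn.ne', Complex.cpow_def_of_ne_zero hn0, Complex.exp_neg,
      ← Complex.natCast_log, div_eq_mul_inv, mul_comm ((Real.log n : ℝ) : ℂ) s]

lemma trm_norm (n : ℕ) (u : ℝ) : ‖trm n ((2 : ℂ) + (u : ℂ) * I)‖ = ‖trm n (2 : ℂ)‖ := by
  unfold trm
  rw [LSeries.norm_term_eq, LSeries.norm_term_eq]
  simp

lemma trm_summable : Summable (fun n : ℕ => ‖trm n (2 : ℂ)‖) :=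
  (ArithmeticFunction.LSeriesSummable_vonMangoldt (s := 2) (by norm_num)).norm

lemma trm_tsum (u : ℝ) : ∑' n : ℕ, trm n ((2 : ℂ) + (u : ℂ) * I) =
    -(logDeriv riemannZeta ((2 : ℂ) + (u : ℂ) * I)) := by
  have hre : 1 < ((2 : ℂ) + (u : ℂ) * I).re := by simp
  have h1 := ArithmeticFunction.LSeries_vonMangoldt_eq_deriv_riemannZeta_div hre
  rw [logDeriv_apply, ← neg_div, ← h1]
  rfl

lemma trm_cont (n : ℕ) : Continuous (fun u : ℝ => trm n ((2 : ℂ) + (u : ℂ) * I)) := by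
  simp_rw [trm_eq]
  fun_prop

lemma LT_cont {g : ℝ → ℂ} {a b : ℝ} (h : WC g a b) :
    Continuous (fun u : ℝ => LT g ((2 : ℂ) + (u : ℂ) * I)) :=
  (LT_differentiable h).continuous.comp (by fun_prop)

lemma LT_int {g : ℝ → ℂ} {a b : ℝ} (h : WC g a b) :
    Integrable (fun u : ℝ => LT g ((2 : ℂ) + (u : ℂ) * I)) := by
  have h1 := line_integrable h 0
  simp only [pow_zero, mul_one] at h1
  exact (integrable_norm_iff (LT_cont h).aestronglyMeasurable).mp h1

lemma prod_int {g : ℝ → ℂ} {a b : ℝ} (h : WC g a b) (n : ℕ) :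
    Integrable (fun u : ℝ => LT g ((2 : ℂ) + (u : ℂ) * I) * trm n ((2 : ℂ) + (u : ℂ) * I)) := by
  refine (LT_int h).mul_bdd (c := ‖trm n (2 : ℂ)‖) (trm_cont n).aestronglyMeasurable ?_
  exact Filter.Eventually.of_forall fun u => (trm_norm n u).le

lemma zeta_meas : Measurable (fun u : ℝ => logDeriv riemannZeta ((2 : ℂ) + (u : ℂ) * I)) := by
  have hc : Continuous (fun u : ℝ => riemannZeta ((2 : ℂ) + (u : ℂ) * I)) := by
    rw [continuous_iff_continuousAt]
    intro u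
    have hne : ((2 : ℂ) + (u : ℂ) * I) ≠ 1 := by
      intro h
      have := congrArg Complex.re h
      simp at this
    have h1 : ContinuousAt riemannZeta ((2 : ℂ) + (u : ℂ) * I) :=
      (differentiableAt_riemannZeta hne).continuousAt
    exact ContinuousAt.comp (f := fun u : ℝ => (2 : ℂ) + (u : ℂ) * I) h1 (by fun_prop)
  have hm : Measurable (fun u : ℝ => deriv riemannZeta ((2 : ℂ) + (u : ℂ) * I)) :=
    (measurable_deriv riemannZeta).comp
      (Continuous.measurable (f := fun u : ℝ => (2 : ℂ) + (u : ℂ) * I) (by fun_prop))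
  have e : (fun u : ℝ => logDeriv riemannZeta ((2 : ℂ) + (u : ℂ) * I)) =
      fun u : ℝ => deriv riemannZeta ((2 : ℂ) + (u : ℂ) * I) / riemannZeta ((2 : ℂ) + (u : ℂ) * I) := by
    funext u
    rw [logDeriv_apply]
  rw [e]
  exact hm.div hc.measurable

lemma zeta_bdd (u : ℝ) : ‖logDeriv riemannZeta ((2 : ℂ) + (u : ℂ) * I)‖ ≤
    ∑' n : ℕ, ‖trm n (2 : ℂ)‖ := by
  rw [← norm_neg, ← trm_tsum]
  have hs : Summable (fun n : ℕ => ‖trm n ((2 : ℂ) + (u : ℂ) * I)‖) := by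
    simp_rw [trm_norm]
    exact trm_summable
  refine (norm_tsum_le_tsum_norm hs).trans (le_of_eq ?_)
  exact tsum_congr fun n => trm_norm n u

lemma int_trm {g : ℝ → ℂ} {a b : ℝ} (h : WC g a b) (n : ℕ) :
    ∫ u : ℝ, LT g ((2 : ℂ) + (u : ℂ) * I) * trm n ((2 : ℂ) + (u : ℂ) * I) =
      (2 * Real.pi) * (((ArithmeticFunction.vonMangoldt n : ℝ) : ℂ) * g (Real.log n)) := by
  have e : (fun u : ℝ => LT g ((2 : ℂ) + (u : ℂ) * I) * trm n ((2 : ℂ) + (u : ℂ) * I)) =
      fun u : ℝ => ((ArithmeticFunction.vonMangoldt n : ℝ) : ℂ) *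
        (LT g ((2 : ℂ) + (u : ℂ) * I) *
          Complex.exp (-(((2 : ℂ) + (u : ℂ) * I) * ((Real.log n : ℝ) : ℂ)))) := by
    funext u
    rw [trm_eq]
    ring
  rw [e, integral_const_mul, inv_point h (Real.log n)]
  ring

end EFp47

theorem ef_primes {g : ℝ → ℂ} {a b : ℝ} (h : WC g a b) :
    Integrable (fun u : ℝ => LT g ((2 : ℂ) + (u : ℂ) * I) * logDeriv riemannZeta ((2 : ℂ) + (u : ℂ) * I)) ∧
    ∫ u : ℝ, LT g ((2 : ℂ) + (u : ℂ) * I) * logDeriv riemannZeta ((2 : ℂ) + (u : ℂ) * I) =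
      -(2 * Real.pi) * ∑' n : ℕ, ((ArithmeticFunction.vonMangoldt n : ℝ) : ℂ) * g (Real.log n) := by
  constructor
  · refine (EFp47.LT_int h).mul_bdd (c := ∑' n : ℕ, ‖EFp47.trm n (2 : ℂ)‖)
      EFp47.zeta_meas.aestronglyMeasurable ?_
    exact Filter.Eventually.of_forall fun u => EFp47.zeta_bdd u
  · have hsum : Summable (fun n : ℕ => ∫ u : ℝ,
        ‖LT g ((2 : ℂ) + (u : ℂ) * I) * EFp47.trm n ((2 : ℂ) + (u : ℂ) * I)‖) := by
      have e : (fun n : ℕ => ∫ u : ℝ,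
          ‖LT g ((2 : ℂ) + (u : ℂ) * I) * EFp47.trm n ((2 : ℂ) + (u : ℂ) * I)‖) =
          fun n : ℕ => (∫ u : ℝ, ‖LT g ((2 : ℂ) + (u : ℂ) * I)‖) * ‖EFp47.trm n (2 : ℂ)‖ := by
        funext n
        rw [← integral_mul_const]
        refine integral_congr_ae (Filter.Eventually.of_forall fun u => ?_)
        simp only
        rw [norm_mul, EFp47.trm_norm]
      rw [e]
      exact EFp47.trm_summable.mul_left _
    have hkey := hasSum_integral_of_summable_integral_norm (EFp47.prod_int h) hsum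
    have e2 : (fun u : ℝ => ∑' n : ℕ,
        LT g ((2 : ℂ) + (u : ℂ) * I) * EFp47.trm n ((2 : ℂ) + (u : ℂ) * I)) =
        fun u : ℝ => -(LT g ((2 : ℂ) + (u : ℂ) * I) * logDeriv riemannZeta ((2 : ℂ) + (u : ℂ) * I)) := by
      funext u
      rw [tsum_mul_left, EFp47.trm_tsum]
      ring
    rw [e2, integral_neg] at hkey
    have h3 := hkey.tsum_eq
    simp_rw [EFp47.int_trm h] at h3
    rw [tsum_mul_left] at h3
    rw [neg_mul, h3, neg_neg]

end Pool.Agent.Helper93.LP
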