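import Pool.Agent.Helper93.LP.KerDef

/-!
# LP block FAR: the far points of a configuration are harmless (helper59)

Proof. `V = exp(cΛ) ≤ |v|`, `v = z.im`, `y = b - z`, `|re y| ≤ |re z| + |re b| ≤ log|v|/c + Λ + 3 ≤ 2 log|v|/c + 3` (`Λ ≤ log|v|/c`),
`‖y‖ ≥ |im y| ≥ |v| - 6Λ ≥ |v|/2 > 0` (`Λ` large). For `0 ≤ s ≤ Λ^8`: `‖e^{-sy}‖ ≤ e^{s|re y|} ≤ e^{3Λ^8} |v|^{2Λ^8/c}`;
`Edec` with `h = exp(-cΛ/8)`: `‖E y‖ ≤ e^3 |v|^{2/c} (4 e^{cΛ/8}/|v|)^k ≤ e^3 |v|^{2/c} (4 |v|^{-7/8})^k ≤ e^3 |v|^{2/c} |v|^{-3k/4}`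
(`4 ≤ |v|^{1/8}`). With `k = ⌈Λ^9⌉ ≥ Λ^9` the exponents compare (`Λ₀ = 24/c²`).
-/

open Complex Set MeasureTheory Filter Topology
open Pool.Agent.Helper57.LH Pool.Agent.Helper57.PC Pool.Agent.Helper57.Zeta
open Pool.Agent.Helper69.GGM

namespace Pool.Agent.Helper93.LP

theorem far_small {c : ℝ} (hc : 0 < c) (hc1 : c ≤ 1) : ∃ Λ₀ : ℝ, 1 ≤ Λ₀ ∧ ∀ Λ : ℝ, Λ₀ ≤ Λ →
    ∀ (χ : ℝ → ℝ) (E : ℂ → ℂ), KerP c Λ χ E → ∀ z : ℂ, Real.exp (c * Λ) ≤ |z.im| →
    |z.re| ≤ Real.log |z.im| / c → ∀ b : ℂ, |b.re| ≤ Λ + 3 → |b.im| ≤ 6 * Λ → ∀ s : ℝ, 0 ≤ s → s ≤ Λ ^ 8 →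
      1 ≤ ‖b - z‖ ∧ ‖tm E s (b - z)‖ ≤ Real.exp (-(4 * Λ ^ 8)) / (1 + z.im ^ 2) := by
  have hc2 : 0 < c ^ 2 := by positivity
  have hc21 : c ^ 2 ≤ 1 := pow_le_one₀ hc.le hc1
  refine ⟨24 / c ^ 2, ?_, ?_⟩
  · rw [le_div_iff₀ hc2]
    linarith
  intro Λ hΛ χ E hK z hz1 hz2 b hb1 hb2 s hs0 hs1
  have hΛc : 24 ≤ c ^ 2 * Λ := by
    rw [div_le_iff₀ hc2] at hΛ
    linarith
  have hΛ0 : 0 < Λ := by
    by_contra h
    push Not at h
    have := mul_nonpos_of_nonneg_of_nonpos hc2.le h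
    linarith
  have hcΛ : 24 ≤ c * Λ := by
    have h1 : 0 ≤ c * Λ * (1 - c) := mul_nonneg (by positivity) (by linarith)
    have h2 : c * Λ * (1 - c) = c * Λ - c ^ 2 * Λ := by ring
    linarith
  have hΛ1 : 24 ≤ Λ := by
    have h1 : 0 ≤ (1 - c) * Λ := mul_nonneg (by linarith) hΛ0.le
    have h2 : (1 - c) * Λ = Λ - c * Λ := by ring
    linarith
  set V := |z.im| with hV
  have hV0 : 0 < V := lt_of_lt_of_le (Real.exp_pos _) hz1
  set l := Real.log V with hl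
  have hl1 : c * Λ ≤ l := by
    rw [hl, ← Real.log_exp (c * Λ)]
    exact Real.log_le_log (Real.exp_pos _) hz1
  have hl24 : 24 ≤ l := hcΛ.trans hl1
  have hexpl : Real.exp l = V := Real.exp_log hV0
  have hquad : 1 + c * Λ + (c * Λ) ^ 2 / 2 ≤ Real.exp (c * Λ) :=
    Real.quadratic_le_exp_of_nonneg (by positivity)
  have hV2 : 12 * Λ ≤ V := by
    have h1 : 12 * Λ ≤ (c * Λ) ^ 2 / 2 := by
      have : (c * Λ) ^ 2 / 2 = c ^ 2 * Λ * Λ / 2 := by ring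
      rw [this]
      have := mul_le_mul_of_nonneg_right hΛc hΛ0.le
      linarith
    linarith
  set y := b - z with hy
  have hyim : V / 2 ≤ ‖y‖ := by
    have h1 := Complex.abs_im_le_norm y
    have h2 : y.im = b.im - z.im := by simp [hy]
    have h3 : V - 6 * Λ ≤ |y.im| := by
      rw [h2]
      have h4 := abs_sub_abs_le_abs_sub z.im b.im
      rw [abs_sub_comm] at h4
      linarith
    linarith
  have hy1 : 1 ≤ ‖y‖ := by linarith
  have hy0 : 0 < ‖y‖ := by linarith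
  refine ⟨hy1, ?_⟩
  set q := l / c with hq
  have hq1 : Λ ≤ q := by
    rw [hq, le_div_iff₀ hc]
    linarith
  have hlq : l ≤ q := by
    rw [hq, le_div_iff₀ hc]
    have h1 : 0 ≤ l * (1 - c) := mul_nonneg (by linarith) (by linarith)
    have h2 : l * (1 - c) = l - l * c := by ring
    linarith
  have hre : |y.re| ≤ 2 * q + 3 := by
    have h2 : y.re = b.re - z.re := by simp [hy]
    rw [h2]
    have h3 : |b.re - z.re| ≤ |b.re| + |z.re| := abs_sub _ _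
    linarith
  have hyne : y ≠ 0 := norm_pos_iff.mp hy0
  have hE := hK.Edec y hyne
  set k := ⌈Λ ^ 9⌉₊ with hk
  have hkΛ : Λ ^ 9 ≤ (k : ℝ) := Nat.le_ceil _
  set h := Real.exp (-(c * Λ / 8)) with hh
  have hh0 : 0 < h := Real.exp_pos _
  have hbase : 2 / (h * ‖y‖) ≤ Real.exp (-(3 / 4 * l)) := by
    rw [div_le_iff₀ (by positivity)]
    have h1 : 2 ≤ Real.exp (-(3 / 4 * l)) * (h * (V / 2)) := by
      have e1 : Real.exp (-(3 / 4 * l)) * (h * (V / 2)) = Real.exp (l / 4 - c * Λ / 8) / 2 := by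
        rw [hh, ← hexpl, show l / 4 - c * Λ / 8 = -(3 / 4 * l) + (-(c * Λ / 8) + l) by ring, Real.exp_add,
          Real.exp_add]
        ring
      rw [e1]
      have h2 : (3 : ℝ) ≤ l / 4 - c * Λ / 8 := by linarith
      have h3 : Real.exp 3 ≤ Real.exp (l / 4 - c * Λ / 8) := Real.exp_le_exp.mpr h2
      have h4 : 1 + (3 : ℝ) + 3 ^ 2 / 2 ≤ Real.exp 3 := Real.quadratic_le_exp_of_nonneg (by norm_num)
      linarith
    calc (2 : ℝ) ≤ Real.exp (-(3 / 4 * l)) * (h * (V / 2)) := h1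
      _ ≤ Real.exp (-(3 / 4 * l)) * (h * ‖y‖) := by gcongr
  have hpow : (2 / (h * ‖y‖)) ^ k ≤ Real.exp (-(3 / 4 * (Λ ^ 9 * l))) := by
    calc (2 / (h * ‖y‖)) ^ k ≤ (Real.exp (-(3 / 4 * l))) ^ k := pow_le_pow_left₀ (by positivity) hbase k
      _ = Real.exp (k * (-(3 / 4 * l))) := (Real.exp_nat_mul _ _).symm
      _ ≤ Real.exp (-(3 / 4 * (Λ ^ 9 * l))) := by
          apply Real.exp_le_exp.mpr
          have := mul_le_mul_of_nonneg_right hkΛ (by linarith : (0:ℝ) ≤ l)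
          linarith
  have htm : ‖tm E s y‖ ≤ Real.exp (s * |y.re| + |y.re| - 3 / 4 * (Λ ^ 9 * l)) := by
    unfold tm
    rw [norm_mul, Complex.norm_exp]
    have e1 : (-((s : ℂ) * y)).re = -(s * y.re) := by simp
    rw [e1]
    have h1 : Real.exp (-(s * y.re)) ≤ Real.exp (s * |y.re|) := by
      apply Real.exp_le_exp.mpr
      have h2 := mul_le_mul_of_nonneg_left (neg_abs_le y.re) hs0
      have h3 : s * -|y.re| = -(s * |y.re|) := by ring
      linarith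
    have h2 : ‖E y‖ ≤ Real.exp |y.re| * Real.exp (-(3 / 4 * (Λ ^ 9 * l))) := by
      refine hE.trans ?_
      gcongr
    calc Real.exp (-(s * y.re)) * ‖E y‖
        ≤ Real.exp (s * |y.re|) * (Real.exp |y.re| * Real.exp (-(3 / 4 * (Λ ^ 9 * l)))) := by gcongr
      _ = Real.exp (s * |y.re| + |y.re| - 3 / 4 * (Λ ^ 9 * l)) := by
          rw [← Real.exp_add, ← Real.exp_add]
          congr 1
          ring
  have hV3 : 1 + z.im ^ 2 ≤ Real.exp (3 * l) := by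
    have e1 : Real.exp (3 * l) = V ^ 3 := by
      rw [← hexpl, ← Real.exp_nat_mul]
      norm_num
    have e2 : z.im ^ 2 = V ^ 2 := by rw [hV, sq_abs]
    rw [e1, e2]
    have h288 : 288 ≤ V := by linarith
    have h1 : 1 ≤ V ^ 2 := one_le_pow₀ (by linarith)
    have h2 : 2 * V ^ 2 ≤ V * V ^ 2 := mul_le_mul_of_nonneg_right (by linarith) (by positivity)
    have h3 : V ^ 3 = V * V ^ 2 := by ring
    linarith
  have hpos : (0 : ℝ) < 1 + z.im ^ 2 := by positivity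
  rw [le_div_iff₀ hpos]
  have hfin : s * |y.re| + |y.re| - 3 / 4 * (Λ ^ 9 * l) + 3 * l ≤ -(4 * Λ ^ 8) := by
    set P := Λ ^ 8 with hP
    have hP1 : 1 ≤ P := one_le_pow₀ (by linarith)
    have h9 : Λ ^ 9 = P * Λ := by rw [hP]; ring
    have hlc : l = c * q := by rw [hq]; field_simp
    have hq24 : 24 ≤ q := hΛ1.trans hq1
    have h1 : s * |y.re| + |y.re| ≤ 2 * P * (2 * q + 3) := by
      have h2 : s * |y.re| ≤ P * |y.re| := mul_le_mul_of_nonneg_right hs1 (abs_nonneg _)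
      have h3 : P * |y.re| + |y.re| ≤ 2 * P * |y.re| := by
        have h5 := mul_nonneg (sub_nonneg.mpr hP1) (abs_nonneg y.re)
        have h6 : (P - 1) * |y.re| = P * |y.re| - |y.re| := by ring
        linarith
      have h4 : 2 * P * |y.re| ≤ 2 * P * (2 * q + 3) := by gcongr
      linarith
    have h2 : 24 * (P * q) ≤ Λ ^ 9 * l := by
      rw [h9, hlc]
      have h3 : 0 ≤ P * q * (c * Λ - 24) := mul_nonneg (by positivity) (by linarith)
      have h4 : P * q * (c * Λ - 24) = P * Λ * (c * q) - 24 * (P * q) := by ring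
      linarith
    have h4 : q ≤ P * q := by
      have := mul_le_mul_of_nonneg_right hP1 (by linarith : (0:ℝ) ≤ q)
      linarith
    have h5 : 24 * P ≤ P * q := by
      have := mul_le_mul_of_nonneg_left hq24 (by linarith : (0:ℝ) ≤ P)
      linarith
    have h6 : 2 * P * (2 * q + 3) = 4 * (P * q) + 6 * P := by ring
    linarith
  calc ‖tm E s y‖ * (1 + z.im ^ 2)
      ≤ Real.exp (s * |y.re| + |y.re| - 3 / 4 * (Λ ^ 9 * l)) * Real.exp (3 * l) := by gcongr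
    _ = Real.exp (s * |y.re| + |y.re| - 3 / 4 * (Λ ^ 9 * l) + 3 * l) := by rw [← Real.exp_add]
    _ ≤ Real.exp (-(4 * Λ ^ 8)) := Real.exp_le_exp.mpr hfin

end Pool.Agent.Helper93.LP
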