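import Pool.Agent.Helper93.LP.EMo
import Pool.Agent.Helper93.LP.KerDef
import Pool.Agent.Helper69.GGM.TL
import Pool.Agent.Helper69.GGM.PH4

/-!
# LP block FM: the exceptional sets have small measure

`L = log T`, `x_ρ = L(β-1/2)`.
* `far_measure`: union over the zeros with `Λ ≤ |x_ρ|` of intervals of length `2 e^{(kap/2)|x_ρ|}/L`; since
  `e^{(kap/2)|x|} ≤ e^{-(kap/2)Λ} e^{kap|x|}` and `mx ≥ 1`, total `≤ (2/L) e^{-(kap/2)Λ} C T L` (`exp_mom'`).
* `phi_measure`: Markov, `∫ Phi = π NT T/L ≤ C T` (`tl_phi_integral`, `NT_le_ev`).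
* `conf_of_good`: if `t` is in neither set then the points `zz T t ρ`, `ρ ∈ Zf T`, weights `mx`, form a `Conf (kap/2) Λ`:
  `one_le`: `mx ≥ 1` (`CVp.mx_one_le` in GGM/CV.lean); `sum_le` is `Phi T t ≤ Λ²`; `near`: if `|v| < e^{(kap/2)Λ}` and `|x| > Λ` then
  `e^{(kap/2)|x|} ≤ |v| < e^{(kap/2)Λ}`, contradiction; `far`: similarly.
* `phi_set`: `∫_X 2 Phi ≤ C (vol X)^{1/2} T^{1/2}`: Cauchy-Schwarz and `∫ Phi² ≤ ∫ Phi + ∫ Phi⁴ ≤ C T` (`tl_sq_integrable`, `Phi_fourth`).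
-/

open Complex Set MeasureTheory Filter Topology
open Pool.Agent.Helper57.LH Pool.Agent.Helper57.PC Pool.Agent.Helper57.Zeta
open Pool.Agent.Helper69.GGM

namespace Pool.Agent.Helper93.LP

private lemma fm_mx_one_le {T : ℝ} {ρ : ℂ} (h : ρ ∈ Zf T) : 1 ≤ mx ρ := by
  rw [mem_Zf] at h
  have h1 := isNontrivialZero_iff.mp h.1
  have h2 := (order_pos_iff differentiable_xi xi_two_ne ρ).mpr h1
  unfold mx
  have : 1 ≤ analyticOrderNatAt xi ρ := Nat.one_le_iff_ne_zero.mpr h2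
  exact_mod_cast this

theorem far_measure : ∃ C T₀ : ℝ, 0 < C ∧ ∀ T : ℝ, T₀ ≤ T → ∀ Λ : ℝ, 0 ≤ Λ →
    volume {t : ℝ | ∃ ρ ∈ Zf T, Λ ≤ |Real.log T * (ρ.re - 1 / 2)| ∧
      |Real.log T * (ρ.im - t)| < Real.exp (kap / 2 * |Real.log T * (ρ.re - 1 / 2)|)} ≤
    ENNReal.ofReal (C * Real.exp (-(kap / 2 * Λ)) * T) := by
  classical
  obtain ⟨C, T₀, hC, hm⟩ := exp_mom'
  refine ⟨2 * C, max T₀ 3, by positivity, fun T hT Λ hΛ => ?_⟩
  have hT0 : T₀ ≤ T := (le_max_left _ _).trans hT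
  have hT3 : (3 : ℝ) ≤ T := (le_max_right _ _).trans hT
  have hL : 0 < Real.log T := Real.log_pos (by linarith)
  set L := Real.log T with hLd
  set F := (Zf T).filter (fun ρ => Λ ≤ |L * (ρ.re - 1 / 2)|) with hF
  set r : ℂ → ℝ := fun ρ => Real.exp (kap / 2 * |L * (ρ.re - 1 / 2)|) / L with hr
  have hr0 : ∀ ρ, 0 ≤ r ρ := fun ρ => div_nonneg (Real.exp_pos _).le hL.le
  have hsub : {t : ℝ | ∃ ρ ∈ Zf T, Λ ≤ |L * (ρ.re - 1 / 2)| ∧
      |L * (ρ.im - t)| < Real.exp (kap / 2 * |L * (ρ.re - 1 / 2)|)} ⊆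
      ⋃ ρ ∈ F, Ioo (ρ.im - r ρ) (ρ.im + r ρ) := by
    rintro t ⟨ρ, hρ, h1, h2⟩
    refine Set.mem_iUnion₂.2 ⟨ρ, Finset.mem_filter.2 ⟨hρ, h1⟩, ?_⟩
    rw [abs_mul, abs_of_pos hL] at h2
    have h3 : |ρ.im - t| < r ρ := by
      show |ρ.im - t| < Real.exp (kap / 2 * |L * (ρ.re - 1 / 2)|) / L
      rw [lt_div_iff₀ hL]
      linarith
    rw [abs_lt] at h3
    exact ⟨by linarith [h3.2], by linarith [h3.1]⟩
  refine (measure_mono hsub).trans ((measure_biUnion_finset_le F _).trans ?_)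
  have hv : ∀ ρ ∈ F, volume (Ioo (ρ.im - r ρ) (ρ.im + r ρ)) = ENNReal.ofReal (2 * r ρ) := by
    intro ρ _
    rw [Real.volume_Ioo]
    congr 1
    ring
  rw [Finset.sum_congr rfl hv, ← ENNReal.ofReal_sum_of_nonneg fun ρ _ => by have := hr0 ρ; positivity]
  apply ENNReal.ofReal_le_ofReal
  have hk := kap_pos
  have hterm : ∀ ρ ∈ F, 2 * r ρ ≤ 2 / L * Real.exp (-(kap / 2 * Λ)) *
      (mx ρ * Real.exp (kap * |L * (ρ.re - 1 / 2)|)) := by
    intro ρ hρ
    rw [hF, Finset.mem_filter] at hρ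
    have h1 := fm_mx_one_le hρ.1
    have h2 : Real.exp (kap / 2 * |L * (ρ.re - 1 / 2)|) ≤
        Real.exp (-(kap / 2 * Λ)) * Real.exp (kap * |L * (ρ.re - 1 / 2)|) := by
      rw [← Real.exp_add]
      apply Real.exp_le_exp.2
      have := mul_le_mul_of_nonneg_left hρ.2 (by positivity : 0 ≤ kap / 2)
      linarith
    have h3 : 0 ≤ Real.exp (-(kap / 2 * Λ)) * Real.exp (kap * |L * (ρ.re - 1 / 2)|) := by positivity
    have h4 : Real.exp (kap / 2 * |L * (ρ.re - 1 / 2)|) ≤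
        mx ρ * (Real.exp (-(kap / 2 * Λ)) * Real.exp (kap * |L * (ρ.re - 1 / 2)|)) := by
      nlinarith
    have h5 : 2 * r ρ = 2 / L * Real.exp (kap / 2 * |L * (ρ.re - 1 / 2)|) := by
      show 2 * (Real.exp (kap / 2 * |L * (ρ.re - 1 / 2)|) / L) = _
      ring
    rw [h5]
    have h6 := mul_le_mul_of_nonneg_left h4 (by positivity : 0 ≤ 2 / L)
    refine h6.trans (le_of_eq (by ring))
  calc ∑ ρ ∈ F, 2 * r ρ ≤ ∑ ρ ∈ F, 2 / L * Real.exp (-(kap / 2 * Λ)) *
        (mx ρ * Real.exp (kap * |L * (ρ.re - 1 / 2)|)) := Finset.sum_le_sum hterm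
    _ = 2 / L * Real.exp (-(kap / 2 * Λ)) * ∑ ρ ∈ F, mx ρ * Real.exp (kap * |L * (ρ.re - 1 / 2)|) := by
        rw [Finset.mul_sum]
    _ ≤ 2 / L * Real.exp (-(kap / 2 * Λ)) * ∑ ρ ∈ Zf T, mx ρ * Real.exp (kap * |L * (ρ.re - 1 / 2)|) := by
        refine mul_le_mul_of_nonneg_left ?_ (by positivity)
        exact Finset.sum_le_sum_of_subset_of_nonneg (Finset.filter_subset _ _)
          fun ρ _ _ => mul_nonneg (tl_mx_nonneg ρ) (Real.exp_pos _).le
    _ ≤ 2 / L * Real.exp (-(kap / 2 * Λ)) * (C * (T * L)) :=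
        mul_le_mul_of_nonneg_left (hm T hT0) (by positivity)
    _ = 2 * C * Real.exp (-(kap / 2 * Λ)) * T := by field_simp

theorem phi_measure : ∃ C T₀ : ℝ, 0 < C ∧ ∀ T : ℝ, T₀ ≤ T → ∀ K : ℝ, 0 < K →
    volume {t : ℝ | K < Phi T t} ≤ ENNReal.ofReal (C / K * T) := by
  obtain ⟨T1, hT1⟩ := eventually_atTop.mp NT_le_ev
  refine ⟨Real.pi, max T1 3, Real.pi_pos, fun T hT K hK => ?_⟩
  have hT1' : T1 ≤ T := (le_max_left _ _).trans hT
  have hT3 : (3 : ℝ) ≤ T := (le_max_right _ _).trans hT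
  have hL : 0 < Real.log T := Real.log_pos (by linarith)
  have hNT := hT1 T hT1'
  have hint : ∫ t, Phi T t ≤ Real.pi * T := by
    rw [tl_phi_integral hL]
    calc Real.pi / Real.log T * NT T ≤ Real.pi / Real.log T * (T * Real.log T) := by
          have := Real.pi_pos
          gcongr
      _ = Real.pi * T := by field_simp
  have h1 : ENNReal.ofReal K * volume {t : ℝ | K < Phi T t} ≤ ∫⁻ t, ENNReal.ofReal (Phi T t) := by
    have h2 := mul_meas_ge_le_lintegral₀ (μ := volume) (f := fun t => ENNReal.ofReal (Phi T t))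
      ((tl_cont T).measurable.ennreal_ofReal.aemeasurable) (ENNReal.ofReal K)
    refine le_trans (mul_le_mul_right (measure_mono ?_) _) h2
    intro t ht
    exact ENNReal.ofReal_le_ofReal (le_of_lt ht)
  rw [← ofReal_integral_eq_lintegral_ofReal (tl_phi_integrable hL) (Eventually.of_forall (tl_nonneg T))] at h1
  have h3 : ENNReal.ofReal K * volume {t : ℝ | K < Phi T t} ≤ ENNReal.ofReal (Real.pi * T) :=
    h1.trans (ENNReal.ofReal_le_ofReal hint)
  have h4 : ENNReal.ofReal (Real.pi / K * T) = ENNReal.ofReal (Real.pi * T) / ENNReal.ofReal K := by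
    rw [← ENNReal.ofReal_div_of_pos hK]
    congr 1
    ring
  rw [h4, ENNReal.le_div_iff_mul_le (Or.inl (by simpa using hK)) (Or.inl ENNReal.ofReal_ne_top), mul_comm]
  exact h3

theorem conf_of_good {T t Λ : ℝ} (hΦ : Phi T t ≤ Λ ^ 2)
    (hf : ∀ ρ ∈ Zf T, Λ ≤ |Real.log T * (ρ.re - 1 / 2)| →
      Real.exp (kap / 2 * |Real.log T * (ρ.re - 1 / 2)|) ≤ |Real.log T * (ρ.im - t)|) :
    Conf (kap / 2) Λ (Zf T) mx (fun ρ => zz T t ρ) := by
  have hk : 0 < kap / 2 := half_pos kap_pos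
  have hre : ∀ ρ, (zz T t ρ).re = Real.log T * (ρ.re - 1 / 2) := by
    intro ρ
    unfold zz
    rw [Complex.add_re, Complex.ofReal_re, Complex.re_ofReal_mul, Complex.I_re, mul_zero, add_zero]
  have him : ∀ ρ, (zz T t ρ).im = Real.log T * (ρ.im - t) := by
    intro ρ
    unfold zz
    rw [Complex.add_im, Complex.ofReal_im, Complex.im_ofReal_mul, Complex.I_im, mul_one, zero_add]
  refine ⟨fun ρ hρ => fm_mx_one_le hρ, ?_, ?_, ?_⟩
  · refine le_trans (le_of_eq ?_) hΦ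
    unfold Phi
    refine Finset.sum_congr rfl fun ρ _ => ?_
    rw [him ρ, div_eq_mul_inv]
  · intro ρ hρ h1
    simp only [hre, him] at h1 ⊢
    by_contra hcon
    push Not at hcon
    have h2 := hf ρ hρ hcon.le
    have h3 : Real.exp (kap / 2 * Λ) < Real.exp (kap / 2 * |Real.log T * (ρ.re - 1 / 2)|) :=
      Real.exp_lt_exp.2 (mul_lt_mul_of_pos_left hcon hk)
    linarith
  · intro ρ hρ h1
    simp only [hre, him] at h1 ⊢
    rw [le_div_iff₀ hk]
    have hpos : 0 < |Real.log T * (ρ.im - t)| := lt_of_lt_of_le (Real.exp_pos _) h1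
    rcases le_or_gt Λ |Real.log T * (ρ.re - 1 / 2)| with h2 | h2
    · have h3 := hf ρ hρ h2
      have h4 := (Real.le_log_iff_exp_le hpos).2 h3
      linarith
    · have h4 := (Real.le_log_iff_exp_le hpos).2 h1
      nlinarith

theorem phi_set : ∃ C T₀ : ℝ, 0 < C ∧ ∀ T : ℝ, T₀ ≤ T → ∀ X : Set ℝ, MeasurableSet X → ∀ V : ℝ, 0 ≤ V →
    volume X ≤ ENNReal.ofReal (V * T) → ∫ t in X, Phi T t ≤ C * Real.sqrt V * T := by
  obtain ⟨C4, T4, hC4, h4⟩ := Phi_fourth
  obtain ⟨T1, hT1⟩ := eventually_atTop.mp NT_le_ev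
  have hpi := Real.pi_pos
  refine ⟨(Real.pi + C4 + 1) / 2, max (max T4 T1) 3, by positivity, fun T hT X hX V hV hvol => ?_⟩
  have hT4 : T4 ≤ T := le_trans (le_trans (le_max_left _ _) (le_max_left _ _)) hT
  have hT1' : T1 ≤ T := le_trans (le_trans (le_max_right _ _) (le_max_left _ _)) hT
  have hT3 : (3:ℝ) ≤ T := le_trans (le_max_right _ _) hT
  have hL : 0 < Real.log T := Real.log_pos (by linarith)
  obtain ⟨hi4, hb4⟩ := h4 T hT4
  have hNT := hT1 T hT1'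
  obtain ⟨hi2, h2⟩ := tl_sq_integrable hL hi4
  rw [tl_phi_integral hL] at h2
  have h3 : Real.pi / Real.log T * NT T ≤ Real.pi * T := by
    calc Real.pi / Real.log T * NT T ≤ Real.pi / Real.log T * (T * Real.log T) := by gcongr
      _ = Real.pi * T := by field_simp
  have h5 : ∫ t, Phi T t ^ 2 ≤ (Real.pi + C4) * T := by linarith
  rcases eq_or_lt_of_le hV with hV0 | hV0
  · have hz : volume X = 0 := by
      rw [← hV0, zero_mul, ENNReal.ofReal_zero] at hvol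
      exact nonpos_iff_eq_zero.1 hvol
    rw [Measure.restrict_eq_zero.2 hz, integral_zero_measure, ← hV0]
    simp
  · set δ := Real.sqrt V with hδ
    have hδ0 : 0 < δ := Real.sqrt_pos.2 hV0
    have hδ2 : δ * δ = V := Real.mul_self_sqrt hV
    have hfin : volume X ≠ ⊤ := ne_top_of_le_ne_top ENNReal.ofReal_ne_top hvol
    have hreal : volume.real X ≤ V * T := by
      rw [Measure.real]
      exact ENNReal.toReal_le_of_le_ofReal (by positivity) hvol
    have hc : IntegrableOn (fun _ : ℝ => 1 / (2 * δ)) X := integrableOn_const hfin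
    have hpt : ∀ t, Phi T t ≤ δ / 2 * Phi T t ^ 2 + 1 / (2 * δ) := by
      intro t
      have h6 : 0 ≤ (δ * Phi T t - 1) ^ 2 := sq_nonneg _
      have h7 : δ / 2 * Phi T t ^ 2 + 1 / (2 * δ) - Phi T t = (δ * Phi T t - 1) ^ 2 / (2 * δ) := by
        field_simp
        ring
      have h8 : 0 ≤ (δ * Phi T t - 1) ^ 2 / (2 * δ) := by positivity
      linarith
    calc ∫ t in X, Phi T t ≤ ∫ t in X, (δ / 2 * Phi T t ^ 2 + 1 / (2 * δ)) := by
          refine integral_mono (tl_phi_integrable hL).integrableOn ?_ hpt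
          exact ((hi2.const_mul _).integrableOn).add hc
      _ = δ / 2 * (∫ t in X, Phi T t ^ 2) + volume.real X * (1 / (2 * δ)) := by
          rw [integral_add ((hi2.const_mul _).integrableOn) hc, integral_const_mul, setIntegral_const, smul_eq_mul]
      _ ≤ δ / 2 * ((Real.pi + C4) * T) + (V * T) * (1 / (2 * δ)) := by
          have h9 : ∫ t in X, Phi T t ^ 2 ≤ ∫ t, Phi T t ^ 2 :=
            setIntegral_le_integral hi2 (Eventually.of_forall fun t => sq_nonneg _)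
          gcongr
          exact h9.trans h5
      _ = (Real.pi + C4 + 1) / 2 * δ * T := by
          rw [← hδ2]
          field_simp

end Pool.Agent.Helper93.LP
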