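import Pool.Agent.Helper93.LP.Defs

/-!
# LP block FTb: the functional `FT T` is positive and additive

Proof. `FT_rep`: the sum over pairs is finite, so it can be taken inside the integral (each
`φ(α) cos(2π u α)` is integrable on `(0,∞)`); with `2π nd T (ρ,ρ') = L(γ-γ')` (definition of `nd`)
`Σ_{p} mult mult' cos(αL(γ-γ')) = ‖Σ_ρ mult e^{iαLγ}‖² ≥ 0`. `FT_mono`, `FT_nonneg`, `FT_add`, `FT_smul` follow
(`SN T > 0` for `T > 1`, `SN_pos`). `FT_exp`: `∫_0^∞ e^{-cα} cos(2πuα) dα = c/(c²+(2πu)²) = Pk c u`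
(e.g. `integral_exp_mul_complex_Ioi`, real part).
-/

open Complex Set MeasureTheory Filter Topology
open Pool.Agent.Helper57.LH Pool.Agent.Helper57.PC Pool.Agent.Helper57.Zeta
open Pool.Agent.Helper69.GGM

namespace Pool.Agent.Helper93.LP

private lemma normsq_sum {ι : Type*} (s : Finset ι) (m x : ι → ℝ) :
    ‖∑ ρ ∈ s, (m ρ : ℂ) * Complex.exp ((x ρ : ℂ) * I)‖ ^ 2
      = ∑ p ∈ s ×ˢ s, m p.1 * m p.2 * Real.cos (x p.1 - x p.2) := by
  have e1 : ∑ ρ ∈ s, (m ρ : ℂ) * Complex.exp ((x ρ : ℂ) * I)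
      = ((∑ ρ ∈ s, m ρ * Real.cos (x ρ) : ℝ) : ℂ) + ((∑ ρ ∈ s, m ρ * Real.sin (x ρ) : ℝ) : ℂ) * I := by
    push_cast
    rw [Finset.sum_mul, ← Finset.sum_add_distrib]
    refine Finset.sum_congr rfl fun ρ _ => ?_
    rw [Complex.exp_mul_I]
    ring
  rw [e1, ← Complex.normSq_eq_norm_sq, Complex.normSq_add_mul_I, pow_two, pow_two, Finset.sum_mul_sum,
    Finset.sum_mul_sum, Finset.sum_product, ← Finset.sum_add_distrib]
  refine Finset.sum_congr rfl fun i _ => ?_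
  rw [← Finset.sum_add_distrib]
  refine Finset.sum_congr rfl fun j _ => ?_
  rw [Real.cos_sub]
  ring

private lemma int_cos {φ : ℝ → ℝ} (hφ : IntegrableOn φ (Ioi 0)) (k : ℝ) :
    IntegrableOn (fun α => φ α * Real.cos (k * α)) (Ioi 0) := by
  refine Integrable.mono hφ ?_ ?_
  · exact hφ.aestronglyMeasurable.mul
      (Continuous.aestronglyMeasurable (by fun_prop))
  · refine Filter.Eventually.of_forall fun α => ?_
    rw [norm_mul]
    have h1 : ‖Real.cos (k * α)‖ ≤ 1 := by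
      rw [Real.norm_eq_abs]
      exact Real.abs_cos_le_one _
    exact mul_le_of_le_one_right (norm_nonneg _) h1

private lemma nd_mul (T : ℝ) (p : ℂ × ℂ) (α : ℝ) :
    2 * Real.pi * nd T p * α = α * Real.log T * p.1.im - α * Real.log T * p.2.im := by
  unfold nd
  have := Real.pi_ne_zero
  field_simp

private lemma rep_pt (T : ℝ) (φ : ℝ → ℝ) (α : ℝ) :
    φ α * ‖∑ ρ ∈ Zf T, (mult ρ : ℂ) * Complex.exp (((α * Real.log T * ρ.im : ℝ) : ℂ) * I)‖ ^ 2
      = ∑ p ∈ Zf T ×ˢ Zf T, (mult p.1 : ℝ) * (mult p.2 : ℝ) *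
        (φ α * Real.cos (2 * Real.pi * nd T p * α)) := by
  have h := normsq_sum (Zf T) (fun ρ => (mult ρ : ℝ)) (fun ρ => α * Real.log T * ρ.im)
  simp only [Complex.ofReal_natCast] at h
  rw [h, Finset.mul_sum]
  refine Finset.sum_congr rfl fun p _ => ?_
  rw [nd_mul]
  ring

theorem FT_rep {T : ℝ} (hT : 1 < T) {φ : ℝ → ℝ} (hφ : IntegrableOn φ (Ioi 0)) :
    FT T φ = (∫ α in Ioi (0:ℝ), φ α *
      ‖∑ ρ ∈ Zf T, (mult ρ : ℂ) * Complex.exp (((α * Real.log T * ρ.im : ℝ) : ℂ) * I)‖ ^ 2) / SN T ∧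
    IntegrableOn (fun α => φ α *
      ‖∑ ρ ∈ Zf T, (mult ρ : ℂ) * Complex.exp (((α * Real.log T * ρ.im : ℝ) : ℂ) * I)‖ ^ 2) (Ioi 0) := by
  have _ := hT
  have hi : ∀ p ∈ Zf T ×ˢ Zf T, IntegrableOn (fun α => (mult p.1 : ℝ) * (mult p.2 : ℝ) *
        (φ α * Real.cos (2 * Real.pi * nd T p * α))) (Ioi 0) := by
    intro p _
    exact (int_cos hφ (2 * Real.pi * nd T p)).const_mul _
  constructor
  · unfold FT WP
    congr 1
    rw [integral_congr_ae (Filter.Eventually.of_forall (fun α => rep_pt T φ α)),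
      integral_finsetSum _ hi]
    refine Finset.sum_congr rfl fun p _ => ?_
    rw [integral_const_mul]
  · have h2 := integrable_finsetSum (Zf T ×ˢ Zf T) hi
    exact h2.congr (Filter.Eventually.of_forall (fun α => (rep_pt T φ α).symm))

theorem FT_mono {T : ℝ} (hT : 1 < T) {φ ψ : ℝ → ℝ} (hφ : IntegrableOn φ (Ioi 0))
    (hψ : IntegrableOn ψ (Ioi 0)) (h : ∀ α, 0 < α → φ α ≤ ψ α) : FT T φ ≤ FT T ψ := by
  obtain ⟨e1, i1⟩ := FT_rep hT hφ
  obtain ⟨e2, i2⟩ := FT_rep hT hψ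
  rw [e1, e2]
  refine div_le_div_of_nonneg_right ?_ (SN_pos hT).le
  refine setIntegral_mono_on i1 i2 measurableSet_Ioi ?_
  intro α hα
  exact mul_le_mul_of_nonneg_right (h α hα) (by positivity)

theorem FT_nonneg {T : ℝ} (hT : 1 < T) {φ : ℝ → ℝ} (hφ : IntegrableOn φ (Ioi 0))
    (h : ∀ α, 0 < α → 0 ≤ φ α) : 0 ≤ FT T φ := by
  obtain ⟨e1, i1⟩ := FT_rep hT hφ
  rw [e1]
  refine div_nonneg ?_ (SN_pos hT).le
  refine setIntegral_nonneg measurableSet_Ioi ?_
  intro α hα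
  exact mul_nonneg (h α hα) (by positivity)

theorem FT_add {T : ℝ} (hT : 1 < T) {φ ψ : ℝ → ℝ} (hφ : IntegrableOn φ (Ioi 0))
    (hψ : IntegrableOn ψ (Ioi 0)) : FT T (fun α => φ α + ψ α) = FT T φ + FT T ψ := by
  have _ := hT
  unfold FT
  rw [← add_div, ← WP_add]
  congr 2
  funext u
  rw [← integral_add (int_cos hφ (2 * Real.pi * u)) (int_cos hψ (2 * Real.pi * u))]
  refine integral_congr_ae (Filter.Eventually.of_forall fun α => ?_)
  simp only
  ring

theorem FT_smul {T : ℝ} (hT : 1 < T) {φ : ℝ → ℝ} (hφ : IntegrableOn φ (Ioi 0)) (c : ℝ) :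
    FT T (fun α => c * φ α) = c * FT T φ := by
  have _ := hT
  have _ := hφ
  unfold FT
  rw [← mul_div_assoc, ← WP_smul]
  congr 2
  funext u
  rw [← integral_const_mul]
  refine integral_congr_ae (Filter.Eventually.of_forall fun α => ?_)
  simp only
  ring

theorem FT_exp {T : ℝ} (hT : 1 < T) {c : ℝ} (hc : 0 < c) :
    FT T (fun α => Real.exp (-c * α)) = WP T (Pk c) / SN T := by
  have _ := hT
  unfold FT
  congr 2
  funext u
  have ha : (((-c : ℝ) : ℂ) + ((2 * Real.pi * u : ℝ) : ℂ) * I).re < 0 := by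
    simp
    exact hc
  have h1 := integral_exp_mul_complex_Ioi ha 0
  have hint : IntegrableOn (fun x : ℝ => Complex.exp ((((-c : ℝ) : ℂ) + ((2 * Real.pi * u : ℝ) : ℂ) * I) * x)) (Ioi 0) :=
    integrableOn_exp_mul_complex_Ioi ha 0
  have h2 : (∫ x in Ioi (0:ℝ), Complex.exp ((((-c : ℝ) : ℂ) + ((2 * Real.pi * u : ℝ) : ℂ) * I) * x)).re
      = ∫ x in Ioi (0:ℝ), Real.exp (-c * x) * Real.cos (2 * Real.pi * u * x) := by
    have h3 := Complex.reCLM.integral_comp_comm hint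
    rw [Complex.reCLM_apply] at h3
    rw [← h3]
    refine integral_congr_ae (Filter.Eventually.of_forall fun x => ?_)
    simp only [Complex.reCLM_apply]
    rw [Complex.exp_re]
    congr 2
    · simp
    · simp
  rw [← h2, h1]
  unfold Pk
  generalize 2 * Real.pi * u = v
  have hne : c ^ 2 + v ^ 2 ≠ 0 := by positivity
  simp only [Complex.ofReal_zero, mul_zero, Complex.exp_zero]
  rw [Complex.div_re]
  simp only [Complex.neg_re, Complex.one_re, Complex.neg_im, Complex.one_im, Complex.add_re, Complex.add_im,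
    Complex.mul_re, Complex.mul_im, Complex.ofReal_re, Complex.ofReal_im, Complex.I_re, Complex.I_im,
    Complex.normSq_apply]
  have e1 : (-c + (v * 0 - 0 * 1)) * (-c + (v * 0 - 0 * 1)) + (0 + (v * 1 + 0 * 0)) * (0 + (v * 1 + 0 * 0))
      = c ^ 2 + v ^ 2 := by ring
  rw [e1]
  field_simp
  ring

theorem WR_integrable {w : ℝ → ℝ} {a b : ℝ} (h : WR w a b) :
    IntegrableOn (fun α => w α ^ 2) (Ioi 0) := by
  have hc : Continuous (fun α => w α ^ 2) := (h.1.continuous).pow 2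
  have hs : HasCompactSupport (fun α => w α ^ 2) := by
    refine HasCompactSupport.intro (isCompact_Icc (a := a) (b := b)) fun x hx => ?_
    by_contra hne
    have hw : w x ≠ 0 := by
      intro h0
      exact hne (by simp [h0])
    exact hx (h.2.2.2 x hw)
  exact (hc.integrable_of_hasCompactSupport hs).integrableOn

end Pool.Agent.Helper93.LP
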