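import Pool.Agent.Helper93.LP.FTu

/-!
# LP block FTd: upper bound for differences of Poisson kernels from `UpF`

As `upper_exp` in FTu.lean (its stub may be used, not its proof), with `φ(α) = e^{-cα} - e^{-c₀α} ≥ 0`,
`w(α) = sqrt(φ(α)) u(α)`, `u` smooth, `u = 1` on `[η,A]`, `0 ≤ u ≤ 1`, support in `[η/2,2A]` (`w` is smooth: `φ > 0` on `α > 0`).
For `α > 0`: `φ(α) ≤ (c₀-c) η e^{η} e^{-α}` on `(0,η]` (`φ(α) ≤ (c₀-c) α`), `φ ≤ w²` on `[η,A]`, `φ ≤ e^{-cA/2} e^{-(c/2)α}` on `[A,∞)`: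
`φ(α) ≤ (c₀-c) η e^{η} e^{-α} + w(α)² + e^{-cA/2} e^{-(c/2)α}`. Apply `FT_mono`, `FT_add`, `FT_smul`, `FT_exp`, `UpF`, `exp_bdd`;
`VW w ≤ ∫_0^∞ min α 1 φ = (1-e^{-c})/c² - (1-e^{-c₀})/c₀²` (`min_exp_integral`), `FT T φ = (WP(Pk c) - WP(Pk c₀))/SN`.
-/

open Complex Set MeasureTheory Filter Topology
open Pool.Agent.Helper57.LH Pool.Agent.Helper57.PC Pool.Agent.Helper57.Zeta
open Pool.Agent.Helper69.GGM

namespace Pool.Agent.Helper93.LP

namespace FTd31

/-- the cutoff -/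
private noncomputable def cut (η A α : ℝ) : ℝ :=
  Real.smoothTransition (2 * α / η - 1) * Real.smoothTransition (2 - α / A)

private lemma cut_smooth (η A : ℝ) : ContDiff ℝ (⊤ : ℕ∞) (cut η A) := by
  unfold cut
  refine ContDiff.mul ?_ ?_
  · exact Real.smoothTransition.contDiff.comp (by fun_prop)
  · exact Real.smoothTransition.contDiff.comp (by fun_prop)

private lemma cut_nonneg (η A α : ℝ) : 0 ≤ cut η A α :=
  mul_nonneg (Real.smoothTransition.nonneg _) (Real.smoothTransition.nonneg _)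

private lemma cut_le_one (η A α : ℝ) : cut η A α ≤ 1 :=
  mul_le_one₀ (Real.smoothTransition.le_one _) (Real.smoothTransition.nonneg _)
    (Real.smoothTransition.le_one _)

private lemma cut_one {η A α : ℝ} (hη : 0 < η) (hA : 0 < A) (h1 : η ≤ α) (h2 : α ≤ A) :
    cut η A α = 1 := by
  unfold cut
  rw [Real.smoothTransition.one_of_one_le, Real.smoothTransition.one_of_one_le, mul_one]
  · have : α / A ≤ 1 := (div_le_one hA).2 h2
    linarith
  · have : 2 ≤ 2 * α / η := by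
      rw [le_div_iff₀ hη]
      linarith
    linarith

private lemma cut_zero {η A α : ℝ} (hη : 0 < η) (hA : 0 < A)
    (h : ¬ (η / 2 ≤ α ∧ α ≤ 2 * A)) : cut η A α = 0 := by
  unfold cut
  rw [not_and_or, not_le, not_le] at h
  rcases h with h | h
  · rw [Real.smoothTransition.zero_of_nonpos, zero_mul]
    have : 2 * α / η ≤ 1 := by
      rw [div_le_one hη]
      linarith
    linarith
  · rw [Real.smoothTransition.zero_of_nonpos (x := 2 - α / A), mul_zero]
    have : 2 ≤ α / A := by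
      rw [le_div_iff₀ hA]
      linarith
    linarith

/-- the difference of exponentials -/
private noncomputable def ph (c c₀ α : ℝ) : ℝ := Real.exp (-c * α) - Real.exp (-c₀ * α)

private lemma ph_pos {c c₀ α : ℝ} (h : c < c₀) (hα : 0 < α) : 0 < ph c c₀ α := by
  unfold ph
  have : Real.exp (-c₀ * α) < Real.exp (-c * α) := by
    apply Real.exp_lt_exp.2
    nlinarith
  linarith

private lemma ph_le {c c₀ α : ℝ} (hc : 0 < c) (h : c < c₀) (hα : 0 < α) :
    ph c c₀ α ≤ (c₀ - c) * α := by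
  unfold ph
  have h1 : Real.exp (-c₀ * α) = Real.exp (-c * α) * Real.exp (-((c₀ - c) * α)) := by
    rw [← Real.exp_add]
    congr 1
    ring
  have h2 : 1 - (c₀ - c) * α ≤ Real.exp (-((c₀ - c) * α)) := by
    have := Real.add_one_le_exp (-((c₀ - c) * α))
    linarith
  have h3 : Real.exp (-c * α) ≤ 1 := by
    apply Real.exp_le_one_iff.2
    nlinarith
  have h4 := Real.exp_pos (-c * α)
  have h5 : 0 ≤ (c₀ - c) * α := mul_nonneg (by linarith) hα.le
  rw [h1]
  nlinarith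

private noncomputable def ww (c c₀ η A α : ℝ) : ℝ := Real.sqrt (ph c c₀ α) * cut η A α

private lemma ww_WR {c c₀ η A : ℝ} (h : c < c₀) (hη : 0 < η) (hA : η ≤ A) :
    WR (ww c c₀ η A) (η / 2) (2 * A) := by
  have hA0 : 0 < A := by linarith
  refine ⟨?_, by linarith, by linarith, fun x hx => ?_⟩
  · rw [contDiff_iff_contDiffAt]
    intro x
    rcases lt_or_ge x (η / 2) with hx | hx
    · have h1 : ww c c₀ η A =ᶠ[𝓝 x] fun _ => 0 := by
        filter_upwards [gt_mem_nhds hx] with y hy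
        unfold ww
        rw [cut_zero hη hA0 (fun h2 => by linarith [h2.1]), mul_zero]
      exact contDiffAt_const.congr_of_eventuallyEq h1
    · have hx0 : 0 < x := by linarith
      have h2 : ContDiffAt ℝ (⊤ : ℕ∞) (ph c c₀) x := by
        unfold ph
        fun_prop
      exact (h2.sqrt (ph_pos h hx0).ne').mul (cut_smooth η A).contDiffAt
  · by_contra hcon
    apply hx
    unfold ww
    rw [cut_zero hη hA0 hcon, mul_zero]

private lemma ww_sq_le {c c₀ η A α : ℝ} (h : c < c₀) (hα : 0 < α) :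
    ww c c₀ η A α ^ 2 ≤ ph c c₀ α := by
  unfold ww
  have h1 := ph_pos h hα
  rw [mul_pow, Real.sq_sqrt h1.le]
  have h2 := cut_nonneg η A α
  have h3 := cut_le_one η A α
  have h4 : cut η A α ^ 2 ≤ 1 := pow_le_one₀ h2 h3
  nlinarith

private lemma ww_sq_eq {c c₀ η A α : ℝ} (h : c < c₀) (hη : 0 < η) (hA : 0 < A) (h1 : η ≤ α)
    (h2 : α ≤ A) : ww c c₀ η A α ^ 2 = ph c c₀ α := by
  unfold ww
  rw [cut_one hη hA h1 h2, mul_one, Real.sq_sqrt (ph_pos h (by linarith)).le]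

private lemma ph_bound {c c₀ η A α : ℝ} (hc : 0 < c) (h : c < c₀) (hη : 0 < η) (hA : 0 < A)
    (hα : 0 < α) :
    ph c c₀ α ≤ ((c₀ - c) * η * Real.exp η) * Real.exp (-1 * α) +
      (ww c c₀ η A α ^ 2 + Real.exp (-(c / 2) * A) * Real.exp (-(c / 2) * α)) := by
  have p1 : 0 ≤ ((c₀ - c) * η * Real.exp η) * Real.exp (-1 * α) := by
    have : 0 ≤ c₀ - c := by linarith
    positivity
  have p2 : 0 ≤ ww c c₀ η A α ^ 2 := sq_nonneg _
  have p3 : 0 ≤ Real.exp (-(c / 2) * A) * Real.exp (-(c / 2) * α) := by positivity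
  rcases le_or_gt α η with h1 | h1
  · have h2 : ph c c₀ α ≤ (c₀ - c) * η :=
      (ph_le hc h hα).trans (mul_le_mul_of_nonneg_left h1 (by linarith))
    have h3 : 1 ≤ Real.exp η * Real.exp (-1 * α) := by
      rw [← Real.exp_add]
      apply Real.one_le_exp
      linarith
    have h4 : (c₀ - c) * η * 1 ≤ (c₀ - c) * η * (Real.exp η * Real.exp (-1 * α)) :=
      mul_le_mul_of_nonneg_left h3 (mul_nonneg (by linarith) hη.le)
    linarith
  · rcases le_or_gt α A with h2 | h2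
    · rw [ww_sq_eq h hη hA h1.le h2]
      linarith
    · have h3 : ph c c₀ α ≤ Real.exp (-c * α) := by
        unfold ph
        linarith [Real.exp_pos (-c₀ * α)]
      have h4 : Real.exp (-c * α) ≤ Real.exp (-(c / 2) * A) * Real.exp (-(c / 2) * α) := by
        rw [← Real.exp_add]
        apply Real.exp_le_exp.2
        nlinarith
      linarith

private lemma exp_int {c : ℝ} (hc : 0 < c) : IntegrableOn (fun α => Real.exp (-c * α)) (Ioi 0) :=
  exp_neg_integrableOn_Ioi 0 hc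

private lemma VW_le {c c₀ η A : ℝ} (hc : 0 < c) (h : c < c₀) (hη : 0 < η) (hA : η ≤ A) :
    VW (ww c c₀ η A) ≤ (1 - Real.exp (-c)) / c ^ 2 - (1 - Real.exp (-c₀)) / c₀ ^ 2 := by
  obtain ⟨i1, e1⟩ := min_exp_integral hc
  obtain ⟨i2, e2⟩ := min_exp_integral (show 0 < c₀ by linarith)
  rw [← e1, ← e2, ← integral_sub i1 i2]
  unfold VW
  have hpt : ∀ α ∈ Ioi (0 : ℝ), min α 1 * ww c c₀ η A α ^ 2 ≤
      min α 1 * Real.exp (-c * α) - min α 1 * Real.exp (-c₀ * α) := by
    intro α hα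
    rw [← mul_sub]
    exact mul_le_mul_of_nonneg_left (ww_sq_le h hα) (le_min (le_of_lt hα) zero_le_one)
  refine setIntegral_mono_on ?_ (i1.sub i2) measurableSet_Ioi hpt
  refine Integrable.mono' (i1.sub i2) ?_ ?_
  · have hcont : Continuous fun α => min α 1 * ww c c₀ η A α ^ 2 :=
      (continuous_id.min continuous_const).mul ((ww_WR h hη hA).1.continuous.pow 2)
    exact hcont.aestronglyMeasurable
  · filter_upwards [ae_restrict_mem measurableSet_Ioi] with α hα
    rw [Real.norm_of_nonneg (mul_nonneg (le_min (le_of_lt hα) zero_le_one) (sq_nonneg _))]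
    exact hpt α hα

end FTd31

open FTd31 in
theorem upper_diff {l : Filter ℝ} (hl : l ≤ atTop) (h : UpF l) {c c₀ : ℝ} (hc : 0 < c) (hc0 : c < c₀)
    {ε : ℝ} (hε : 0 < ε) :
    ∀ᶠ T : ℝ in l, (WP T (Pk c) - WP T (Pk c₀)) / SN T ≤
      (1 - Real.exp (-c)) / c ^ 2 - (1 - Real.exp (-c₀)) / c₀ ^ 2 + ε := by
  obtain ⟨C₁, hC₁, hb₁⟩ := exp_bdd (c := 1) one_pos
  obtain ⟨C₂, hC₂, hb₂⟩ := exp_bdd (c := c / 2) (by linarith)
  -- the parameters
  obtain ⟨η, hη, hη1, hηε⟩ : ∃ η : ℝ, 0 < η ∧ η ≤ 1 ∧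
      (c₀ - c) * η * Real.exp η * C₁ ≤ ε / 4 := by
    have hK : 0 < 4 * ((c₀ - c) * Real.exp 1 * C₁) := by
      have : 0 < c₀ - c := by linarith
      positivity
    refine ⟨min 1 (ε / (4 * ((c₀ - c) * Real.exp 1 * C₁))), lt_min one_pos (by positivity),
      min_le_left _ _, ?_⟩
    set η := min 1 (ε / (4 * ((c₀ - c) * Real.exp 1 * C₁))) with hη
    have h1 : η ≤ 1 := min_le_left _ _
    have h2 : η ≤ ε / (4 * ((c₀ - c) * Real.exp 1 * C₁)) := min_le_right _ _
    have h0 : 0 < η := lt_min one_pos (by positivity)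
    rw [le_div_iff₀ hK] at h2
    have h3 : Real.exp η ≤ Real.exp 1 := Real.exp_le_exp.2 h1
    have h4 : (c₀ - c) * η * Real.exp η * C₁ ≤ (c₀ - c) * η * Real.exp 1 * C₁ := by
      have : 0 ≤ c₀ - c := by linarith
      gcongr
    linarith
  obtain ⟨A, hA1, hAε⟩ : ∃ A : ℝ, 1 ≤ A ∧ Real.exp (-(c / 2) * A) * C₂ ≤ ε / 4 := by
    have h1 : Tendsto (fun A : ℝ => Real.exp (-(c / 2) * A) * C₂) atTop (𝓝 (0 * C₂)) := by
      refine Tendsto.mul_const _ (Real.tendsto_exp_atBot.comp ?_)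
      exact (tendsto_id.const_mul_atTop_of_neg (by linarith))
    rw [zero_mul] at h1
    obtain ⟨A, hA⟩ := ((eventually_ge_atTop (1 : ℝ)).and
      (h1.eventually (gt_mem_nhds (show (0 : ℝ) < ε / 4 by linarith)))).exists
    exact ⟨A, hA.1, hA.2.le⟩
  have hA : η ≤ A := by linarith
  have hA0 : 0 < A := by linarith
  have hWR := ww_WR hc0 hη hA
  have i0 : IntegrableOn (fun α => ww c c₀ η A α ^ 2) (Ioi 0) := WR_integrable hWR
  have i1 := exp_int one_pos
  have i2 : IntegrableOn (fun α => Real.exp (-(c / 2) * α)) (Ioi 0) :=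
    exp_int (c := c / 2) (by linarith)
  have ic := exp_int hc
  have ic0 := exp_int (show 0 < c₀ by linarith)
  filter_upwards [h _ _ _ hWR (ε / 4) (by linarith), hl hb₁, hl hb₂,
    hl (eventually_gt_atTop 1)] with T h1 h2 h3 hT
  have e1 : FT T (fun α => ph c c₀ α) = (WP T (Pk c) - WP T (Pk c₀)) / SN T := by
    have e2 : (fun α => ph c c₀ α) =
        fun α => Real.exp (-c * α) + (-1) * Real.exp (-c₀ * α) := by
      funext α
      unfold ph
      ring
    rw [e2, FT_add hT ic (ic0.const_mul (-1)), FT_smul hT ic0, FT_exp hT hc,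
      FT_exp hT (by linarith)]
    ring
  rw [← e1]
  have e3 : FT T (fun α => ph c c₀ α) ≤
      FT T (fun α => ((c₀ - c) * η * Real.exp η) * Real.exp (-1 * α) +
        (ww c c₀ η A α ^ 2 + Real.exp (-(c / 2) * A) * Real.exp (-(c / 2) * α))) :=
    FT_mono hT (ic.sub ic0) ((i1.const_mul _).add (i0.add (i2.const_mul _)))
      (fun α hα => ph_bound hc hc0 hη hA0 hα)
  have f1 := FT_add hT (φ := fun α => ((c₀ - c) * η * Real.exp η) * Real.exp (-1 * α))
    (ψ := fun α => ww c c₀ η A α ^ 2 + Real.exp (-(c / 2) * A) * Real.exp (-(c / 2) * α))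
    (i1.const_mul _) (i0.add (i2.const_mul _))
  have f2 := FT_add hT (φ := fun α => ww c c₀ η A α ^ 2)
    (ψ := fun α => Real.exp (-(c / 2) * A) * Real.exp (-(c / 2) * α)) i0 (i2.const_mul _)
  have f3 := FT_smul hT i1 ((c₀ - c) * η * Real.exp η)
  have f4 := FT_smul hT i2 (Real.exp (-(c / 2) * A))
  rw [f1, f2, f3, f4, FT_exp hT one_pos] at e3
  have e4 : FT T (fun α => Real.exp (-(c / 2) * α)) = WP T (Pk (c / 2)) / SN T :=
    FT_exp hT (by linarith)
  rw [e4] at e3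
  have h5 := VW_le hc hc0 hη hA
  have h6 : (c₀ - c) * η * Real.exp η * (WP T (Pk 1) / SN T) ≤ ε / 4 := by
    refine (mul_le_mul_of_nonneg_left h2 ?_).trans hηε
    have : 0 ≤ c₀ - c := by linarith
    positivity
  have h7 : Real.exp (-(c / 2) * A) * (WP T (Pk (c / 2)) / SN T) ≤ ε / 4 :=
    (mul_le_mul_of_nonneg_left h3 (Real.exp_pos _).le).trans hAε
  linarith

end Pool.Agent.Helper93.LP
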