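import Pool.Agent.Helper93.LP.FTb
import Pool.Agent.Helper69.GGM.BE
import Pool.Agent.Helper69.GGM.TL

/-!
# LP block FTu: upper bounds for the Poisson kernels from `UpF`

* `exp_bdd`: `Pk c u ≤ (1/c) Pk 1 u` for `0 < c ≤ 1`, `Pk c u ≤ c Pk 1 u` for `c ≥ 1` (compare `c²+(2πu)²` with
  `1+(2πu)²`), `WP_mono`, `poisson_large` (GGM/BE.lean) with `c = 1`.
* `near_zero`: for `K ≥ 1` and `η = 1/K²`: `1_{(0,η]} ≤ e^{ηK} e^{-Kα}`, so `FT T 1_{(0,η]} ≤ e^{1/K} WP(Pk K)/SN
  ≤ e^{1/K} (1/2 + C/K)` (`poisson_large`, `K ≤ 5 log T`), which is `≤ 1/2+ε` for `K` large.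
* `upper_exp`: let `0 < η` small (`near_zero`), `A` large; choose a smooth `u : ℝ → [0,1]`, `u = 1` on `[η,A]`, support in `[η/2,2A]`
  (`exists_contDiff...`, `Real.smoothTransition`), `w(α) = e^{-cα/2} u(α)` (`WR w (η/2) (2A)`). For `α > 0`
  `e^{-cα} ≤ 1_{(0,η]}(α) + w(α)² + e^{-cA/2} e^{-(c/2)α}`. Apply `FT_mono`, `FT_add`, `UpF`, `near_zero`, `exp_bdd` and
  `VW w ≤ ∫_0^∞ min α 1 e^{-cα} dα = (1-e^{-c})/c²`.
* (next block FTd, `upper_diff`: the same with `φ(α) = e^{-cα} - e^{-c₀α} ≥ 0`, `w(α) = sqrt(φ(α)) u(α)` (smooth: `φ > 0` on `α > 0`);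
  near zero `φ(α) ≤ (c₀-c) α ≤ (c₀-c) η` on `(0,η]` (so `FT` of this part is `≤ (c₀-c) η e^{η} exp_bdd(1)`), tail `φ ≤ e^{-cα}`
  as before; `∫_0^∞ min α 1 φ = (1-e^{-c})/c² - (1-e^{-c₀})/c₀²`.)
-/

open Complex Set MeasureTheory Filter Topology
open Pool.Agent.Helper57.LH Pool.Agent.Helper57.PC Pool.Agent.Helper57.Zeta
open Pool.Agent.Helper69.GGM

namespace Pool.Agent.Helper93.LP

namespace FTu

lemma WP_smul' (T κ : ℝ) (φ : ℝ → ℝ) : WP T (fun u => κ * φ u) = κ * WP T φ := by
  unfold WP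
  rw [Finset.mul_sum]
  refine Finset.sum_congr rfl fun p _ => ?_
  ring

lemma Pk_le {c : ℝ} (hc : 0 < c) (u : ℝ) : Pk c u ≤ max c (1 / c) * Pk 1 u := by
  unfold Pk
  set w := (2 * Real.pi * u) ^ 2 with hw
  have hw0 : 0 ≤ w := sq_nonneg _
  have h1 : 0 < c ^ 2 + w := by positivity
  have h2 : 0 < (1:ℝ) ^ 2 + w := by positivity
  rcases le_total c 1 with h | h
  · have h3 : c / (c ^ 2 + w) ≤ (1 / c) * (1 / (1 ^ 2 + w)) := by
      rw [div_mul_div_comm, div_le_div_iff₀ h1 (by positivity)]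
      have h4 : c ^ 2 ≤ 1 := by nlinarith
      nlinarith [mul_nonneg hw0 (sub_nonneg.2 h4)]
    refine h3.trans (mul_le_mul_of_nonneg_right (le_max_right _ _) (by positivity))
  · have h3 : c / (c ^ 2 + w) ≤ c * (1 / (1 ^ 2 + w)) := by
      rw [mul_one_div, div_le_div_iff₀ h1 h2]
      have h4 : 1 ≤ c ^ 2 := by nlinarith
      nlinarith [mul_nonneg hc.le (sub_nonneg.2 h4)]
    refine h3.trans (mul_le_mul_of_nonneg_right (le_max_left _ _) (by positivity))

lemma exp_int {c : ℝ} (hc : 0 < c) : IntegrableOn (fun α : ℝ => Real.exp (-c * α)) (Ioi 0) :=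
  integrableOn_exp_mul_Ioi (by linarith) 0

end FTu

theorem exp_bdd {c : ℝ} (hc : 0 < c) : ∃ C : ℝ, 0 < C ∧ ∀ᶠ T : ℝ in atTop, WP T (Pk c) / SN T ≤ C := by
  obtain ⟨C, T₀, hC, h⟩ := poisson_large
  refine ⟨max c (1 / c) * (1 / 2 + C), by positivity, ?_⟩
  filter_upwards [eventually_ge_atTop T₀, eventually_gt_atTop 1,
    Real.tendsto_log_atTop.eventually (eventually_ge_atTop 1)] with T h1 h2 h3
  have h4 := h T h1 1 le_rfl (by linarith)
  have h5 := (abs_le.1 h4).2
  rw [div_one] at h5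
  have hS : 0 < SN T := SN_pos h2
  have h6 : WP T (Pk c) ≤ max c (1 / c) * WP T (Pk 1) := by
    rw [← FTu.WP_smul']
    exact WP_mono (fun u => FTu.Pk_le hc u)
  have hm : 0 ≤ max c (1 / c) := by positivity
  calc WP T (Pk c) / SN T ≤ max c (1 / c) * WP T (Pk 1) / SN T := by gcongr
    _ = max c (1 / c) * (WP T (Pk 1) / SN T) := by ring
    _ ≤ _ := mul_le_mul_of_nonneg_left (by linarith) hm

theorem near_zero {ε : ℝ} (hε : 0 < ε) : ∃ η : ℝ, 0 < η ∧ ∀ᶠ T : ℝ in atTop,
    FT T ((Ioc 0 η).indicator (fun _ => (1:ℝ))) ≤ 1 / 2 + ε := by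
  obtain ⟨C, T₀, hC, h⟩ := poisson_large
  have ht : Tendsto (fun K : ℝ => Real.exp (1 / K) * (1 / 2 + C / K)) atTop (𝓝 (1 / 2)) := by
    have h1 : Tendsto (fun K : ℝ => 1 / K) atTop (𝓝 0) := tendsto_const_nhds.div_atTop tendsto_id
    have h2 : Tendsto (fun K : ℝ => C / K) atTop (𝓝 0) := tendsto_const_nhds.div_atTop tendsto_id
    have h3 := (Real.continuous_exp.tendsto 0).comp h1
    rw [Real.exp_zero] at h3
    have h4 := h3.mul (h2.const_add (1 / 2))
    simpa using h4
  obtain ⟨K, hK, hK1⟩ := ((ht.eventually (gt_mem_nhds (show (1:ℝ) / 2 < 1 / 2 + ε by linarith))).and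
    (eventually_ge_atTop 1)).exists
  have hK0 : 0 < K := by linarith
  refine ⟨1 / K ^ 2, by positivity, ?_⟩
  filter_upwards [eventually_ge_atTop T₀, eventually_gt_atTop 1,
    Real.tendsto_log_atTop.eventually (eventually_ge_atTop K)] with T h1 h2 h3
  have h4 := (abs_le.1 (h T h1 K hK1 (by linarith))).2
  have hS : 0 < SN T := SN_pos h2
  have hi1 : IntegrableOn ((Ioc 0 (1 / K ^ 2)).indicator (fun _ => (1:ℝ))) (Ioi 0) := by
    refine (integrable_indicator_iff measurableSet_Ioc).2 ?_ |>.integrableOn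
    exact integrableOn_const (by simp) (by simp)
  have hi2 : IntegrableOn (fun α : ℝ => Real.exp (-K * α)) (Ioi 0) := FTu.exp_int hK0
  have h5 : FT T ((Ioc 0 (1 / K ^ 2)).indicator (fun _ => (1:ℝ))) ≤
      FT T (fun α => Real.exp (1 / K) * Real.exp (-K * α)) := by
    refine FT_mono h2 hi1 (hi2.const_mul _) ?_
    intro α hα
    by_cases hm : α ∈ Ioc 0 (1 / K ^ 2)
    · rw [Set.indicator_of_mem hm, ← Real.exp_add]
      apply Real.one_le_exp
      have : K * α ≤ K * (1 / K ^ 2) := mul_le_mul_of_nonneg_left hm.2 hK0.le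
      have e : K * (1 / K ^ 2) = 1 / K := by field_simp
      rw [e] at this
      linarith
    · rw [Set.indicator_of_notMem hm]
      positivity
  rw [FT_smul h2 hi2, FT_exp h2 hK0] at h5
  have h6 : Real.exp (1 / K) * (WP T (Pk K) / SN T) ≤ Real.exp (1 / K) * (1 / 2 + C / K) :=
    mul_le_mul_of_nonneg_left (by linarith) (Real.exp_pos _).le
  linarith

theorem min_exp_integral {c : ℝ} (hc : 0 < c) : IntegrableOn (fun α => min α 1 * Real.exp (-c * α)) (Ioi 0) ∧
    ∫ α in Ioi (0:ℝ), min α 1 * Real.exp (-c * α) = (1 - Real.exp (-c)) / c ^ 2 := by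
  have hint : IntegrableOn (fun α => min α 1 * Real.exp (-c * α)) (Ioi 0) := by
    refine Integrable.mono' (FTu.exp_int hc) ?_ ?_
    · exact (by fun_prop : Continuous fun α : ℝ => min α 1 * Real.exp (-c * α)).aestronglyMeasurable
    · filter_upwards [ae_restrict_mem measurableSet_Ioi] with α hα
      have h0 : 0 ≤ min α 1 := le_min (le_of_lt hα) zero_le_one
      rw [Real.norm_of_nonneg (by positivity)]
      have h1 : min α 1 ≤ 1 := min_le_right _ _
      have h2 := Real.exp_pos (-c * α)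
      nlinarith
  refine ⟨hint, ?_⟩
  have hu : Ioi (0:ℝ) = Ioc 0 1 ∪ Ioi 1 := (Ioc_union_Ioi_eq_Ioi zero_le_one).symm
  have hd : Disjoint (Ioc (0:ℝ) 1) (Ioi 1) := by
    rw [Set.disjoint_left]
    intro x hx hx'
    exact absurd hx.2 (not_le.2 hx')
  rw [hu, setIntegral_union hd measurableSet_Ioi (hint.mono_set Ioc_subset_Ioi_self)
    (hint.mono_set (Ioi_subset_Ioi zero_le_one))]
  have e1 : ∫ α in Ioc (0:ℝ) 1, min α 1 * Real.exp (-c * α) =
      1 / c ^ 2 - (1 / c + 1 / c ^ 2) * Real.exp (-c) := by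
    have e : ∫ α in Ioc (0:ℝ) 1, min α 1 * Real.exp (-c * α) =
        ∫ α in Ioc (0:ℝ) 1, α * Real.exp (-c * α) := by
      refine setIntegral_congr_fun measurableSet_Ioc ?_
      intro α hα
      simp only
      rw [min_eq_left hα.2]
    rw [e, ← intervalIntegral.integral_of_le zero_le_one]
    have hder : ∀ α ∈ Set.uIcc (0:ℝ) 1, HasDerivAt
        (fun α : ℝ => -((α / c + 1 / c ^ 2) * Real.exp (-c * α))) (α * Real.exp (-c * α)) α := by
      intro α _
      have d1 : HasDerivAt (fun α : ℝ => α / c + 1 / c ^ 2) (1 / c) α := by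
        simpa using ((hasDerivAt_id α).div_const c).add_const (1 / c ^ 2)
      have d2 : HasDerivAt (fun α : ℝ => Real.exp (-c * α)) (Real.exp (-c * α) * (-c)) α := by
        have : HasDerivAt (fun α : ℝ => -c * α) (-c) α := by
          simpa using (hasDerivAt_id α).const_mul (-c)
        exact this.exp
      refine (d1.mul d2).neg.congr_deriv ?_
      field_simp
      ring
    rw [intervalIntegral.integral_eq_sub_of_hasDerivAt hder
      ((by fun_prop : Continuous fun α : ℝ => α * Real.exp (-c * α)).intervalIntegrable _ _)]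
    simp
    ring
  have e2 : ∫ α in Ioi (1:ℝ), min α 1 * Real.exp (-c * α) = Real.exp (-c) / c := by
    have e : ∫ α in Ioi (1:ℝ), min α 1 * Real.exp (-c * α) = ∫ α in Ioi (1:ℝ), Real.exp (-c * α) := by
      refine setIntegral_congr_fun measurableSet_Ioi ?_
      intro α hα
      simp only
      rw [min_eq_right (le_of_lt hα), one_mul]
    rw [e, integral_exp_mul_Ioi (by linarith)]
    rw [mul_one, neg_div_neg_eq]
  rw [e1, e2]
  field_simp
  ring

theorem upper_exp {l : Filter ℝ} (hl : l ≤ atTop) (h : UpF l) {c : ℝ} (hc : 0 < c) {ε : ℝ} (hε : 0 < ε) :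
    ∀ᶠ T : ℝ in l, WP T (Pk c) / SN T ≤ 1 / 2 + (1 - Real.exp (-c)) / c ^ 2 + ε := by
  obtain ⟨η, hη, hnz⟩ := near_zero (ε := ε / 4) (by positivity)
  obtain ⟨C, hC, hbd⟩ := exp_bdd (c := c / 2) (by positivity)
  -- choice of `A`
  have hA : ∃ A : ℝ, η < A ∧ Real.exp (-(c / 2) * A) * C ≤ ε / 4 := by
    have ht : Tendsto (fun A : ℝ => Real.exp (-(c / 2) * A) * C) atTop (𝓝 0) := by
      have h1 : Tendsto (fun A : ℝ => -(c / 2) * A) atTop atBot :=
        tendsto_id.const_mul_atTop_of_neg (by linarith)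
      have h2 := (Real.tendsto_exp_atBot.comp h1).mul_const C
      simpa using h2
    obtain ⟨A, h1, h2⟩ := ((ht.eventually (gt_mem_nhds (show (0:ℝ) < ε / 4 by positivity))).and
      (eventually_gt_atTop η)).exists
    exact ⟨A, h2, h1.le⟩
  obtain ⟨A, hηA, hAC⟩ := hA
  have hA0 : 0 < A := hη.trans hηA
  let u : ContDiffBump ((η + A) / 2 : ℝ) :=
    ⟨(A - η) / 2, A / 2, by linarith, by linarith⟩
  set w : ℝ → ℝ := fun α => Real.exp (-(c / 2) * α) * u α with hw
  have hWR : WR w (η / 2) (A + η / 2) := by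
    refine ⟨?_, by positivity, by linarith, ?_⟩
    · refine ContDiff.mul ?_ u.contDiff
      exact Real.contDiff_exp.comp (contDiff_const.mul contDiff_id)
    · intro x hx
      have hux : u x ≠ 0 := by
        intro h0
        apply hx
        rw [hw]
        simp only
        rw [h0, mul_zero]
      have hmem : x ∈ Function.support (u : ℝ → ℝ) := hux
      rw [u.support_eq, Real.ball_eq_Ioo] at hmem
      have e1 : u.rOut = A / 2 := rfl
      rw [e1] at hmem
      constructor
      · linarith [hmem.1]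
      · linarith [hmem.2]
  have hu1 : ∀ α, η < α → α ≤ A → u α = 1 := by
    intro α h1 h2
    refine u.one_of_mem_closedBall ?_
    rw [Real.closedBall_eq_Icc]
    have e1 : u.rIn = (A - η) / 2 := rfl
    rw [e1]
    constructor <;> linarith
  have hw2 : IntegrableOn (fun α => w α ^ 2) (Ioi 0) := WR_integrable hWR
  have hc2 : 0 < c / 2 := by positivity
  have hie : IntegrableOn (fun α : ℝ => Real.exp (-(c / 2) * α)) (Ioi 0) := FTu.exp_int hc2
  have hind : IntegrableOn ((Ioc 0 η).indicator (fun _ => (1:ℝ))) (Ioi 0) := by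
    refine (integrable_indicator_iff measurableSet_Ioc).2 ?_ |>.integrableOn
    exact integrableOn_const (by simp) (by simp)
  -- `VW w` is at most the full integral
  have hVW : VW w ≤ (1 - Real.exp (-c)) / c ^ 2 := by
    obtain ⟨hmi, hme⟩ := min_exp_integral hc
    rw [← hme]
    unfold VW
    have hle : ∀ α ∈ Ioi (0:ℝ), min α 1 * w α ^ 2 ≤ min α 1 * Real.exp (-c * α) := by
      intro α hα
      have h0 : 0 ≤ min α 1 := le_min (le_of_lt hα) zero_le_one
      refine mul_le_mul_of_nonneg_left ?_ h0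
      have h1 : w α ^ 2 = Real.exp (-c * α) * u α ^ 2 := by
        rw [hw]
        simp only
        rw [mul_pow, ← Real.exp_nat_mul]
        congr 2
        push_cast
        ring
      rw [h1]
      have h2 : u α ^ 2 ≤ 1 := by
        have := u.nonneg' α
        have := u.le_one (x := α)
        nlinarith
      have h3 := Real.exp_pos (-c * α)
      nlinarith
    refine setIntegral_mono_on ?_ hmi measurableSet_Ioi hle
    refine Integrable.mono' hw2 ?_ ?_
    · have hwc : Continuous w := hWR.1.continuous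
      exact (by fun_prop : Continuous fun α : ℝ => min α 1 * w α ^ 2).aestronglyMeasurable
    · filter_upwards [ae_restrict_mem measurableSet_Ioi] with α hα
      have h0 : 0 ≤ min α 1 := le_min (le_of_lt hα) zero_le_one
      rw [Real.norm_of_nonneg (by positivity)]
      have h1 : min α 1 ≤ 1 := min_le_right _ _
      have h2 := sq_nonneg (w α)
      nlinarith
  filter_upwards [h w _ _ hWR (ε / 4) (by positivity), hl hnz, hl hbd,
    hl (eventually_gt_atTop (1:ℝ))] with T g1 g2 g3 g4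
  rw [← FT_exp g4 hc]
  have hmono : FT T (fun α => Real.exp (-c * α)) ≤
      FT T (fun α => (Ioc 0 η).indicator (fun _ => (1:ℝ)) α +
        (w α ^ 2 + Real.exp (-(c / 2) * A) * Real.exp (-(c / 2) * α))) := by
    refine FT_mono g4 (FTu.exp_int hc) (hind.add (hw2.add (hie.const_mul _))) ?_
    intro α hα
    have p1 : 0 ≤ w α ^ 2 := sq_nonneg _
    have p2 : 0 ≤ Real.exp (-(c / 2) * A) * Real.exp (-(c / 2) * α) := by positivity
    by_cases h1 : α ≤ η
    · rw [Set.indicator_of_mem (show α ∈ Ioc 0 η from ⟨hα, h1⟩)]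
      have : Real.exp (-c * α) ≤ 1 := Real.exp_le_one_iff.2 (by nlinarith)
      linarith
    · rw [Set.indicator_of_notMem (fun hm => h1 hm.2)]
      push Not at h1
      by_cases h2 : α ≤ A
      · have h3 : w α ^ 2 = Real.exp (-c * α) := by
          rw [hw]
          simp only
          rw [hu1 α h1 h2, mul_one, ← Real.exp_nat_mul]
          congr 1
          push_cast
          ring
        linarith
      · push Not at h2
        have h3 : Real.exp (-c * α) ≤ Real.exp (-(c / 2) * A) * Real.exp (-(c / 2) * α) := by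
          rw [← Real.exp_add]
          apply Real.exp_le_exp.2
          nlinarith
        linarith
  have hi3 : IntegrableOn (fun α : ℝ => Real.exp (-(c / 2) * A) * Real.exp (-(c / 2) * α)) (Ioi 0) :=
    hie.const_mul _
  have hi4 : IntegrableOn (fun α : ℝ => w α ^ 2 +
      Real.exp (-(c / 2) * A) * Real.exp (-(c / 2) * α)) (Ioi 0) := hw2.add hi3
  rw [FT_add g4 hind hi4, FT_add g4 hw2 hi3, FT_smul g4 hie, FT_exp g4 hc2] at hmono
  have h7 : Real.exp (-(c / 2) * A) * (WP T (Pk (c / 2)) / SN T) ≤ ε / 4 :=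
    (mul_le_mul_of_nonneg_left g3 (Real.exp_pos _).le).trans hAC
  have e1 : FT T (fun α => (Ioc 0 η).indicator (fun _ => (1:ℝ)) α) =
      FT T ((Ioc 0 η).indicator (fun _ => (1:ℝ))) := rfl
  linarith

end Pool.Agent.Helper93.LP
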