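import Pool.Agent.Helper93.LP.LTb

/-!
# LP block InvA: inversion on the line `Re s = 2` (Mathlib only)

Proof. Put `f(x) = g(x) e^{2x}` (smooth, compact support in `[a,b] ⊆ (0,∞)`); then
`LT g (2+iu) = ∫ f(x) e^{iux} dx`, a (rescaled) Fourier transform of `f`.
* `inv_point`: Fourier inversion (`Continuous.fourierInv_fourier_eq`/`MeasureTheory.Integrable.fourierInv_fourier_eq`,
  `f` continuous and integrable with integrable Fourier transform, the decay from `LT_bound` with `k = 2`):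
  `(1/2π) ∫ LT g (2+iu) e^{-iuy} du = f(y)`; multiply by `e^{-2y}`.
* `inv_pole`: `1/(2+iu-p) = ∫_0^∞ e^{-(2+iu-p) y} dy` (`Re p < 2`); Fubini (`|LT g (2+iu)| e^{-(2-Re p) y}` is integrable on
  `ℝ × (0,∞)`) and `inv_point`: `∫_0^∞ 2π g(y) e^{2y} e^{-(2-p) y} dy = 2π ∫_0^∞ g(y) e^{py} dy = 2π LT g p`
  (`g = 0` on `(-∞,0]`).
-/

open Complex Set MeasureTheory Filter Topology
open Pool.Agent.Helper57.LH Pool.Agent.Helper57.PC Pool.Agent.Helper57.Zeta
open Pool.Agent.Helper69.GGM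

namespace Pool.Agent.Helper93.LP

open scoped FourierTransform

private lemma line_continuous_h51 {g : ℝ → ℂ} {a b : ℝ} (h : WC g a b) :
    Continuous (fun u : ℝ => LT g ((2 : ℂ) + (u : ℂ) * I)) :=
  (LT_differentiable h).continuous.comp (by fun_prop)

theorem line_integrable {g : ℝ → ℂ} {a b : ℝ} (h : WC g a b) (k : ℕ) :
    Integrable (fun u : ℝ => ‖LT g ((2 : ℂ) + (u : ℂ) * I)‖ * (1 + |u|) ^ k) := by
  obtain ⟨C, hC, hb⟩ := LT_bound h (k + 2)
  have h1 : Integrable (fun u : ℝ => (1 + ‖u‖) ^ (-(2 : ℝ))) :=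
    integrable_one_add_norm (by simp)
  refine (h1.const_mul (C * Real.exp (b * 2))).mono' ?_ (Eventually.of_forall fun u => ?_)
  · exact ((line_continuous_h51 h).norm.mul
      ((continuous_const.add continuous_abs).pow k)).aestronglyMeasurable
  · have hpos : 0 < 1 + |u| := by positivity
    rw [Real.norm_of_nonneg (by positivity), Real.norm_eq_abs, Real.rpow_neg hpos.le]
    have h2 := hb ((2 : ℂ) + (u : ℂ) * I)
    have hre : ((2 : ℂ) + (u : ℂ) * I).re = 2 := by simp
    have him : ((2 : ℂ) + (u : ℂ) * I).im = u := by simp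
    rw [hre, him, abs_of_pos (by norm_num : (0 : ℝ) < 2)] at h2
    have h3 : (1 + |u|) ^ (2 : ℝ) = (1 + |u|) ^ 2 := by
      rw [show (2 : ℝ) = ((2 : ℕ) : ℝ) by norm_num, Real.rpow_natCast]
    rw [h3]
    calc ‖LT g ((2 : ℂ) + (u : ℂ) * I)‖ * (1 + |u|) ^ k
        ≤ C * Real.exp (b * 2) / (1 + |u|) ^ (k + 2) * (1 + |u|) ^ k :=
          mul_le_mul_of_nonneg_right h2 (by positivity)
      _ = C * Real.exp (b * 2) * ((1 + |u|) ^ 2)⁻¹ := by
          rw [pow_add]
          field_simp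

private lemma LT_integrable_h51 {g : ℝ → ℂ} {a b : ℝ} (h : WC g a b) :
    Integrable (fun u : ℝ => LT g ((2 : ℂ) + (u : ℂ) * I)) := by
  have h1 := line_integrable h 0
  simp only [pow_zero, mul_one] at h1
  exact (integrable_norm_iff (line_continuous_h51 h).aestronglyMeasurable).1 h1

/-- The Laplace transform on the line is a Fourier transform. -/
private lemma fourier_eq_h51 (g : ℝ → ℂ) (ξ : ℝ) :
    𝓕 (fun x : ℝ => g x * Complex.exp (2 * x)) ξ
      = LT g ((2 : ℂ) + ((-(2 * Real.pi) * ξ : ℝ) : ℂ) * I) := by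
  rw [Real.fourier_real_eq_integral_exp_smul]
  unfold LT
  refine integral_congr_ae (Eventually.of_forall fun v => ?_)
  simp only [smul_eq_mul]
  rw [show ((v : ℂ) * ((2 : ℂ) + ((-(2 * Real.pi) * ξ : ℝ) : ℂ) * I))
    = ((-2 * Real.pi * v * ξ : ℝ) : ℂ) * I + 2 * (v : ℂ) by push_cast; ring, Complex.exp_add]
  ring

theorem inv_point {g : ℝ → ℂ} {a b : ℝ} (h : WC g a b) (y : ℝ) :
    ∫ u : ℝ, LT g ((2 : ℂ) + (u : ℂ) * I) * Complex.exp (-(((2 : ℂ) + (u : ℂ) * I) * (y : ℂ))) =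
      2 * Real.pi * g y := by
  have hpi : (0 : ℝ) < 2 * Real.pi := by positivity
  set f : ℝ → ℂ := fun x : ℝ => g x * Complex.exp (2 * x) with hf
  have hfc : Continuous f := h.1.continuous.mul (by fun_prop)
  have hfs : HasCompactSupport f := by
    refine HasCompactSupport.of_support_subset_isCompact (isCompact_Icc (a := a) (b := b)) ?_
    intro x hx
    rw [Function.mem_support] at hx
    have : g x ≠ 0 := fun h0 => hx (by rw [hf]; simp [h0])
    exact h.2.2.2 x this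
  have hfi : Integrable f := hfc.integrable_of_hasCompactSupport hfs
  have hF : Integrable (𝓕 f) := by
    have h1 := (LT_integrable_h51 h).comp_mul_left' (R := -(2 * Real.pi)) (by linarith)
    refine h1.congr (Eventually.of_forall fun ξ => ?_)
    simp only
    rw [hf, fourier_eq_h51]
  have hinv := hfi.fourierInv_fourier_eq hF (hfc.continuousAt (x := y))
  have h2 := MeasureTheory.Measure.integral_comp_mul_left (fun u : ℝ =>
    LT g ((2 : ℂ) + (u : ℂ) * I) * Complex.exp (-(((2 : ℂ) + (u : ℂ) * I) * (y : ℂ))))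
    (-(2 * Real.pi))
  have h3 : ∫ ξ : ℝ, LT g ((2 : ℂ) + ((-(2 * Real.pi) * ξ : ℝ) : ℂ) * I) *
      Complex.exp (-(((2 : ℂ) + ((-(2 * Real.pi) * ξ : ℝ) : ℂ) * I) * (y : ℂ))) = g y := by
    have h4 : ∀ ξ : ℝ, LT g ((2 : ℂ) + ((-(2 * Real.pi) * ξ : ℝ) : ℂ) * I) *
        Complex.exp (-(((2 : ℂ) + ((-(2 * Real.pi) * ξ : ℝ) : ℂ) * I) * (y : ℂ)))
        = Complex.exp (-(2 * y)) *
          (Complex.exp (((2 * Real.pi * (inner ℝ ξ y) : ℝ) : ℂ) * I) • 𝓕 f ξ) := by
      intro ξ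
      rw [hf, fourier_eq_h51, smul_eq_mul]
      have h5 : (inner ℝ ξ y : ℝ) = ξ * y := by
        rw [mul_comm]; simp
      rw [h5, show (-(((2 : ℂ) + ((-(2 * Real.pi) * ξ : ℝ) : ℂ) * I) * (y : ℂ)))
        = -(2 * (y : ℂ)) + ((2 * Real.pi * (ξ * y) : ℝ) : ℂ) * I by push_cast; ring,
        Complex.exp_add]
      ring
    simp_rw [h4]
    rw [integral_const_mul, ← Real.fourierInv_eq', hinv, hf]
    simp only
    rw [mul_left_comm, ← Complex.exp_add]
    simp
  rw [h3, abs_inv, abs_neg, abs_of_pos hpi] at h2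
  rw [Complex.real_smul] at h2
  have hpi' : ((2 * Real.pi : ℝ) : ℂ) ≠ 0 := by
    exact_mod_cast hpi.ne'
  calc ∫ u : ℝ, LT g ((2 : ℂ) + (u : ℂ) * I) * Complex.exp (-(((2 : ℂ) + (u : ℂ) * I) * (y : ℂ)))
      = ((2 * Real.pi : ℝ) : ℂ) * ((((2 * Real.pi)⁻¹ : ℝ) : ℂ) *
        ∫ u : ℝ, LT g ((2 : ℂ) + (u : ℂ) * I) *
          Complex.exp (-(((2 : ℂ) + (u : ℂ) * I) * (y : ℂ)))) := by
        rw [← mul_assoc, Complex.ofReal_inv, mul_inv_cancel₀ hpi', one_mul]
    _ = ((2 * Real.pi : ℝ) : ℂ) * g y := by rw [← h2]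
    _ = _ := by push_cast; ring

theorem inv_pole {g : ℝ → ℂ} {a b : ℝ} (h : WC g a b) {p : ℂ} (hp : p.re < 2) :
    ∫ u : ℝ, LT g ((2 : ℂ) + (u : ℂ) * I) / ((2 : ℂ) + (u : ℂ) * I - p) = 2 * Real.pi * LT g p := by
  set F : ℝ → ℝ → ℂ := fun u y => LT g ((2 : ℂ) + (u : ℂ) * I) *
    Complex.exp (-((2 : ℂ) + (u : ℂ) * I - p) * (y : ℂ)) with hF
  have h1 : ∀ u : ℝ, LT g ((2 : ℂ) + (u : ℂ) * I) / ((2 : ℂ) + (u : ℂ) * I - p)
      = ∫ y in Ioi (0 : ℝ), F u y := by
    intro u
    have hre : (-((2 : ℂ) + (u : ℂ) * I - p)).re < 0 := by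
      simp only [neg_re, sub_re, add_re, mul_re, ofReal_re, I_re, ofReal_im, I_im, re_ofNat]
      linarith
    rw [hF]
    simp only
    rw [integral_const_mul, integral_exp_mul_complex_Ioi hre 0]
    have hne : (2 : ℂ) + (u : ℂ) * I - p ≠ 0 := by
      intro h0
      rw [h0] at hre
      simp at hre
    simp only [ofReal_zero, mul_zero, Complex.exp_zero]
    field_simp
  have hint : Integrable (Function.uncurry F) (volume.prod (volume.restrict (Ioi (0 : ℝ)))) := by
    have h2 : Integrable (fun y : ℝ => Real.exp (-(2 - p.re) * y)) (volume.restrict (Ioi 0)) :=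
      integrableOn_exp_mul_Ioi (by linarith) 0
    have h3 := (LT_integrable_h51 h).norm.mul_prod h2
    refine h3.mono ?_ (Eventually.of_forall fun z => ?_)
    · have hc : Continuous (Function.uncurry F) := by
        rw [hF]
        unfold Function.uncurry
        exact ((line_continuous_h51 h).comp continuous_fst).mul (by fun_prop)
      exact hc.aestronglyMeasurable
    · rw [hF]
      simp only [Function.uncurry, norm_mul, Complex.norm_exp, Real.norm_eq_abs,
        Real.abs_exp]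
      refine le_of_eq ?_
      congr 2
      · simp
      · rw [mul_re, ofReal_re, ofReal_im, mul_zero, sub_zero]
        simp only [neg_re, sub_re, add_re, mul_re, ofReal_re, I_re, ofReal_im, I_im, re_ofNat]
        ring
  rw [integral_congr_ae (Eventually.of_forall h1)]
  rw [integral_integral_swap hint]
  have h4 : ∀ y : ℝ, ∫ u : ℝ, F u y = 2 * Real.pi * (g y * Complex.exp ((y : ℂ) * p)) := by
    intro y
    have h5 : ∀ u : ℝ, F u y = Complex.exp ((y : ℂ) * p) * (LT g ((2 : ℂ) + (u : ℂ) * I) *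
        Complex.exp (-(((2 : ℂ) + (u : ℂ) * I) * (y : ℂ)))) := by
      intro u
      rw [hF]
      simp only
      rw [show (-((2 : ℂ) + (u : ℂ) * I - p) * (y : ℂ))
        = (y : ℂ) * p + -(((2 : ℂ) + (u : ℂ) * I) * (y : ℂ)) by ring, Complex.exp_add]
      ring
    simp_rw [h5]
    rw [integral_const_mul, inv_point h y]
    ring
  simp_rw [h4]
  rw [integral_const_mul]
  congr 1
  unfold LT
  refine setIntegral_eq_integral_of_forall_compl_eq_zero fun x hx => ?_
  have hx0 : g x = 0 := by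
    by_contra hne
    have := (h.2.2.2 x hne).1
    rw [mem_Ioi, not_lt] at hx
    linarith [h.2.1]
  rw [hx0, zero_mul]

end Pool.Agent.Helper93.LP
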