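import Pool.Agent.Helper93.LP.CIR
import Pool.Agent.Helper93.LP.FM
import Pool.Agent.Helper93.LP.APR

/-!
# LP block SUP: `GG` is not huge on the rectangle, for most `t` (helper59)

Write `good T Λ t` for: `Phi T t ≤ Λ²` and `∀ ρ ∈ Zf T, Λ ≤ |x_ρ| → exp(kap/2 |x_ρ|) ≤ |v_ρ|` (then `Conf (kap/2) Λ (Zf T) mx (zz T t)` by
`conf_of_good`). `GG T (twist χ b) t = GD (Zf T) mx (zz T t) χ b` (`LT_twist`).
Proof. `K` from `apriori` (depends on `Λ` only): on good `t`, `‖GG T (twist χ b) t‖ ≤ K` for `0 ≤ re b ≤ Λ+3`, `|im b| ≤ 6Λ`.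
Let `B = K²`. Grid: the points `b_i = (η + pη/8) + i (-5Λ + q η/8)`, `0 ≤ p ≤ 8(Λ+2)/η`, `0 ≤ q ≤ 80Λ/η`, are `N₀ ≤ 2025 Λ²/η²` many, have
`re b_i ≥ η`, and every `b` of the rectangle `[η,Λ+2] × [-5Λ,5Λ]` is within `η/4` of some `b_i` with `re b_i ≤ Λ+2` (`|im b_i| ≤ 5Λ`).
If `t` is good and `‖GG T (twist χ b) t‖ > exp(Λ^5)` then by `disc_sup` (`R = η/2`, `LT_differentiable`)
`exp(2Λ^5) ≤ (2/π) ∫_0^{2π} ‖GG(circleMap b_i (η/2) φ)‖² dφ = (2/π) ∫ min (‖GG‖²) B dφ` (`η/2 ≤ 1`, a priori bound). By Markov and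
`circle_mean` the measure of such `t ∈ [δT,(1-δ)T]` is `≤ N₀ (2/π) exp(-2Λ^5) (16π/η + 1) T ≤ exp(-Λ) T` for `Λ ≥ Λ₀(η)`.
(The set `X` in the statement need not be measurable: the outer measure is bounded by the measures of the finitely many
closed sets in the Markov step.)
-/

open Complex Set MeasureTheory Filter Topology
open Pool.Agent.Helper57.LH Pool.Agent.Helper57.PC Pool.Agent.Helper57.Zeta
open Pool.Agent.Helper69.GGM

namespace Pool.Agent.Helper93.LP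

/-! ### Auxiliary lemmas -/

/-- grid points -/
private noncomputable def gp59 (η Λ : ℝ) (p : ℕ × ℕ) : ℂ :=
  ((η + p.1 * (η / 8) : ℝ) : ℂ) + ((-(5 * Λ) + p.2 * (η / 8) : ℝ) : ℂ) * I

private lemma gp59_re (η Λ : ℝ) (p : ℕ × ℕ) : (gp59 η Λ p).re = η + p.1 * (η / 8) := by
  simp only [gp59, add_re, mul_re, ofReal_re, ofReal_im, I_re, I_im]
  ring

private lemma gp59_im (η Λ : ℝ) (p : ℕ × ℕ) : (gp59 η Λ p).im = -(5 * Λ) + p.2 * (η / 8) := by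
  simp only [gp59, add_im, mul_im, ofReal_re, ofReal_im, I_re, I_im]
  ring

/-- the grid -/
private noncomputable def grid59 (η Λ : ℝ) : Finset (ℕ × ℕ) :=
  Finset.range (⌊8 * (Λ + 2) / η⌋₊ + 1) ×ˢ Finset.range (⌊80 * Λ / η⌋₊ + 1)

private lemma grid59_card {η Λ : ℝ} (hη : 0 < η) (hη1 : η ≤ 1 / 4) (hΛ : 1 ≤ Λ) :
    ((grid59 η Λ).card : ℝ) ≤ 2025 * Λ ^ 2 / η ^ 2 := by
  unfold grid59
  rw [Finset.card_product, Finset.card_range, Finset.card_range]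
  push_cast
  have h1 : (⌊8 * (Λ + 2) / η⌋₊ : ℝ) + 1 ≤ 25 * Λ / η := by
    have h2 : (⌊8 * (Λ + 2) / η⌋₊ : ℝ) ≤ 8 * (Λ + 2) / η := Nat.floor_le (by positivity)
    have h3 : 8 * (Λ + 2) / η + 1 ≤ 25 * Λ / η := by
      rw [div_add_one hη.ne']
      apply div_le_div_of_nonneg_right _ hη.le
      linarith
    linarith
  have h2 : (⌊80 * Λ / η⌋₊ : ℝ) + 1 ≤ 81 * Λ / η := by
    have h2 : (⌊80 * Λ / η⌋₊ : ℝ) ≤ 80 * Λ / η := Nat.floor_le (by positivity)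
    have h3 : 80 * Λ / η + 1 ≤ 81 * Λ / η := by
      rw [div_add_one hη.ne']
      apply div_le_div_of_nonneg_right _ hη.le
      linarith
    linarith
  calc ((⌊8 * (Λ + 2) / η⌋₊ : ℝ) + 1) * ((⌊80 * Λ / η⌋₊ : ℝ) + 1) ≤ (25 * Λ / η) * (81 * Λ / η) := by gcongr
    _ = 2025 * Λ ^ 2 / η ^ 2 := by
        field_simp
        ring

private lemma exists_gp59 {η Λ : ℝ} (hη : 0 < η) {b : ℂ} (h1 : η ≤ b.re) (h2 : b.re ≤ Λ + 2)
    (h3 : |b.im| ≤ 5 * Λ) : ∃ p ∈ grid59 η Λ, (gp59 η Λ p).re ≤ Λ + 2 ∧ |(gp59 η Λ p).im| ≤ 5 * Λ ∧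
      ‖b - gp59 η Λ p‖ ≤ η / 4 := by
  have h8 : 0 < η / 8 := by positivity
  obtain ⟨h3a, h3b⟩ := abs_le.mp h3
  set p1 := ⌊(b.re - η) / (η / 8)⌋₊ with hp1
  set p2 := ⌊(b.im + 5 * Λ) / (η / 8)⌋₊ with hp2
  have a1 : (p1 : ℝ) ≤ (b.re - η) / (η / 8) := Nat.floor_le (div_nonneg (by linarith) h8.le)
  have a2 : (b.re - η) / (η / 8) < p1 + 1 := Nat.lt_floor_add_one _
  have b1 : (p2 : ℝ) ≤ (b.im + 5 * Λ) / (η / 8) := Nat.floor_le (div_nonneg (by linarith) h8.le)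
  have b2 : (b.im + 5 * Λ) / (η / 8) < p2 + 1 := Nat.lt_floor_add_one _
  rw [le_div_iff₀ h8] at a1 b1
  rw [div_lt_iff₀ h8] at a2 b2
  refine ⟨(p1, p2), ?_, ?_, ?_, ?_⟩
  · unfold grid59
    rw [Finset.mem_product, Finset.mem_range, Finset.mem_range]
    refine ⟨Nat.lt_succ_of_le (Nat.floor_le_floor ?_), Nat.lt_succ_of_le (Nat.floor_le_floor ?_)⟩
    · rw [div_div_eq_mul_div]
      apply div_le_div_of_nonneg_right _ hη.le
      linarith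
    · rw [div_div_eq_mul_div]
      apply div_le_div_of_nonneg_right _ hη.le
      linarith
  · rw [gp59_re]
    simp only
    linarith
  · rw [gp59_im, abs_le]
    simp only
    have : (0:ℝ) ≤ p2 * (η / 8) := by positivity
    constructor <;> linarith
  · have e1 : |(b - gp59 η Λ (p1, p2)).re| ≤ η / 8 := by
      rw [sub_re, gp59_re, abs_le]
      simp only
      constructor <;> linarith
    have e2 : |(b - gp59 η Λ (p1, p2)).im| ≤ η / 8 := by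
      rw [sub_im, gp59_im, abs_le]
      simp only
      constructor <;> linarith
    have e3 := Complex.norm_le_abs_re_add_abs_im (b - gp59 η Λ (p1, p2))
    linarith

private lemma GG_eq_GD59 (T t : ℝ) (χ : ℝ → ℝ) (b : ℂ) :
    GG T (twist (fun α => (χ α : ℂ)) b) t = GD (Zf T) mx (fun ρ => zz T t ρ) χ b := by
  unfold GG GD
  refine Finset.sum_congr rfl fun ρ _ => ?_
  rw [LT_twist]

private lemma wc59 {k : ℕ} {h A : ℝ} {χ : ℝ → ℝ} {E : ℂ → ℂ} (hA : 1 ≤ A) (hK : IsKer k h A χ E) :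
    WC (fun α => (χ α : ℂ)) 1 (A + 1) := by
  refine ⟨Complex.ofRealCLM.contDiff.comp hK.smooth, one_pos, by linarith, fun x hx => hK.supp x ?_⟩
  intro h0
  exact hx (by simp [h0])

private lemma markov59 {F : ℝ → ℝ} (hF : Continuous F) (h0 : ∀ t, 0 ≤ F t) {α β c M : ℝ} (hαβ : α ≤ β)
    (hc : 0 < c) (hM : ∫ t in α..β, F t ≤ M) :
    volume {t : ℝ | α ≤ t ∧ t ≤ β ∧ c ≤ F t} ≤ ENNReal.ofReal (M / c) := by
  have hint : IntegrableOn F (Icc α β) := hF.integrableOn_Icc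
  have e1 : ∫ t in Icc α β, F t = ∫ t in α..β, F t := by
    rw [intervalIntegral.integral_of_le hαβ, integral_Icc_eq_integral_Ioc]
  have h1 := mul_meas_ge_le_integral_of_nonneg (μ := volume.restrict (Icc α β)) (f := F)
    (Eventually.of_forall h0) hint c
  have hm : MeasurableSet {x | c ≤ F x} := (isClosed_le continuous_const hF).measurableSet
  have e2 : {t : ℝ | α ≤ t ∧ t ≤ β ∧ c ≤ F t} = {x | c ≤ F x} ∩ Icc α β := by
    ext t
    simp only [mem_ofPred_eq, mem_inter_iff, mem_Icc]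
    tauto
  have e3 : (volume.restrict (Icc α β)) {x | c ≤ F x} = volume {t : ℝ | α ≤ t ∧ t ≤ β ∧ c ≤ F t} := by
    rw [Measure.restrict_apply hm, e2]
  have hfin : (volume.restrict (Icc α β)) {x | c ≤ F x} ≠ ⊤ := measure_ne_top _ _
  rw [← e3, ← ENNReal.ofReal_toReal hfin]
  apply ENNReal.ofReal_le_ofReal
  rw [le_div_iff₀ hc, mul_comm]
  rw [e1] at h1
  exact h1.trans hM

private lemma circle59_re (b₀ : ℂ) {R : ℝ} (hR : 0 ≤ R) (φ : ℝ) :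
    b₀.re - R ≤ (circleMap b₀ R φ).re ∧ (circleMap b₀ R φ).re ≤ b₀.re + R ∧
      |(circleMap b₀ R φ).im| ≤ |b₀.im| + R := by
  have h1 : ‖circleMap b₀ R φ - b₀‖ = R := by
    rw [circleMap_sub_center, norm_circleMap_zero, abs_of_nonneg hR]
  have h2 := Complex.abs_re_le_norm (circleMap b₀ R φ - b₀)
  have h3 := Complex.abs_im_le_norm (circleMap b₀ R φ - b₀)
  rw [h1, sub_re, abs_le] at h2
  rw [h1, sub_im] at h3
  refine ⟨by linarith [h2.1], by linarith [h2.2], ?_⟩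
  have h4 : |(circleMap b₀ R φ).im| ≤ |(circleMap b₀ R φ).im - b₀.im| + |b₀.im| := by
    have := abs_add_le ((circleMap b₀ R φ).im - b₀.im) b₀.im
    rwa [sub_add_cancel] at this
  linarith

/-- the circle means -/
private noncomputable def F59 (T : ℝ) (χ : ℝ → ℂ) (R B : ℝ) (b₀ : ℂ) (t : ℝ) : ℝ :=
  ∫ φ in (0:ℝ)..(2 * Real.pi), min (‖GG T (twist χ (circleMap b₀ R φ)) t‖ ^ 2) B

private lemma GGc59 {χ : ℝ → ℂ} {a b : ℝ} (hwc : WC χ a b) (T R : ℝ) (b₀ : ℂ) :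
    Continuous (fun q : ℝ × ℝ => GG T (twist χ (circleMap b₀ R q.2)) q.1) := by
  have hc1 : Continuous (fun q : ℝ × ℝ => (circleMap b₀ R q.2 : ℂ)) :=
    (continuous_circleMap b₀ R).comp continuous_snd
  have hc : Continuous (fun q : ℝ × ℝ => ((circleMap b₀ R q.2 : ℂ), q.1)) :=
    Continuous.prodMk hc1 continuous_fst
  have h := GG_cont2 hwc T
  generalize hG : (fun p : ℂ × ℝ => GG T (twist χ p.1) p.2) = G at h
  have h2 : (fun q : ℝ × ℝ => GG T (twist χ (circleMap b₀ R q.2)) q.1) = fun q => G (circleMap b₀ R q.2, q.1) := by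
    funext q
    rw [← hG]
  rw [h2]
  exact Continuous.comp h hc

private lemma F59_cont {χ : ℝ → ℂ} {a b : ℝ} (hwc : WC χ a b) (T R B : ℝ) (b₀ : ℂ) :
    Continuous (F59 T χ R B b₀) := by
  have h1 : Continuous (fun q : ℝ × ℝ => ‖GG T (twist χ (circleMap b₀ R q.2)) q.1‖) :=
    Continuous.norm (GGc59 hwc T R b₀)
  have h2 : Continuous (fun q : ℝ × ℝ => ‖GG T (twist χ (circleMap b₀ R q.2)) q.1‖ ^ 2) :=
    Continuous.pow h1 2
  have h3 : Continuous (fun q : ℝ × ℝ => min (‖GG T (twist χ (circleMap b₀ R q.2)) q.1‖ ^ 2) B) :=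
    Continuous.min h2 continuous_const
  have h4 : Continuous (Function.uncurry fun (t φ : ℝ) => min (‖GG T (twist χ (circleMap b₀ R φ)) t‖ ^ 2) B) := by
    rw [Function.uncurry_def]
    exact h3
  exact intervalIntegral.continuous_parametric_intervalIntegral_of_continuous'
    (f := fun (t φ : ℝ) => min (‖GG T (twist χ (circleMap b₀ R φ)) t‖ ^ 2) B) h4 0 (2 * Real.pi)

private lemma F59_nonneg (T : ℝ) (χ : ℝ → ℂ) (R : ℝ) {B : ℝ} (hB : 0 ≤ B) (b₀ : ℂ) (t : ℝ) :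
    0 ≤ F59 T χ R B b₀ t := by
  unfold F59
  apply intervalIntegral.integral_nonneg (by positivity)
  intro φ _
  exact le_min (by positivity) hB

/-- differentiability in the shift -/
private lemma GD59_diff {χ : ℝ → ℝ} {a b : ℝ} (hwc : WC (fun α => (χ α : ℂ)) a b) (T t : ℝ) :
    Differentiable ℂ (fun b : ℂ => GD (Zf T) mx (fun ρ => zz T t ρ) χ b) := by
  unfold GD
  apply Differentiable.fun_sum
  intro ρ _
  have h1 : Differentiable ℂ (fun b : ℂ => zz T t ρ - b) := by fun_prop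
  exact ((LT_differentiable hwc).comp h1).const_mul _

/-- the pointwise step -/
private lemma step59 {χ : ℝ → ℝ} {a b' : ℝ} (hwc : WC (fun α => (χ α : ℂ)) a b') {T t K R X : ℝ} (hR : 0 < R)
    {b₀ b : ℂ} (hb : ‖b - b₀‖ ≤ R / 2)
    (hK : ∀ φ : ℝ, ‖GD (Zf T) mx (fun ρ => zz T t ρ) χ (circleMap b₀ R φ)‖ ≤ K)
    (hbig : Real.exp X < ‖GD (Zf T) mx (fun ρ => zz T t ρ) χ b‖) :
    Real.pi / 2 * Real.exp (2 * X) ≤ F59 T (fun α => (χ α : ℂ)) R (K ^ 2) b₀ t := by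
  have hpi := Real.pi_pos
  have hds := disc_sup (GD59_diff hwc T t) hR hb
  have hFe : F59 T (fun α => (χ α : ℂ)) R (K ^ 2) b₀ t =
      ∫ φ in (0:ℝ)..(2 * Real.pi), ‖GD (Zf T) mx (fun ρ => zz T t ρ) χ (circleMap b₀ R φ)‖ ^ 2 := by
    unfold F59
    apply intervalIntegral.integral_congr
    intro φ _
    simp only
    rw [GG_eq_GD59]
    apply min_eq_left
    exact pow_le_pow_left₀ (norm_nonneg _) (hK φ) 2
  rw [← hFe] at hds
  have hexp : Real.exp (2 * X) ≤ ‖GD (Zf T) mx (fun ρ => zz T t ρ) χ b‖ ^ 2 := by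
    have h5 := pow_le_pow_left₀ (Real.exp_pos X).le hbig.le 2
    rw [← Real.exp_nat_mul] at h5
    push_cast at h5
    exact h5
  have h6 : Real.exp (2 * X) ≤ 2 / Real.pi * F59 T (fun α => (χ α : ℂ)) R (K ^ 2) b₀ t := hexp.trans hds
  calc Real.pi / 2 * Real.exp (2 * X)
      ≤ Real.pi / 2 * (2 / Real.pi * F59 T (fun α => (χ α : ℂ)) R (K ^ 2) b₀ t) := by gcongr
    _ = F59 T (fun α => (χ α : ℂ)) R (K ^ 2) b₀ t := by field_simp

/-- the numerical step -/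
private lemma num59 {η Λ T N : ℝ} (hη : 0 < η) (hη1 : η ≤ 1 / 4) (h1Λ : 1 ≤ Λ) (hT0 : 0 < T)
    (hΛ2 : 631800 / η ^ 3 ≤ Λ) (hN : N ≤ 2025 * Λ ^ 2 / η ^ 2) :
    N * ((2 * Real.pi * (8 / η) + 1) * T / (Real.pi / 2 * Real.exp (2 * Λ ^ 5))) ≤ Real.exp (-Λ) * T := by
  have hpi := Real.pi_pos
  have hpi3 := Real.pi_gt_three
  have hΛ0 : 0 < Λ := by linarith
  have hMc : (2 * Real.pi * (8 / η) + 1) * T / (Real.pi / 2 * Real.exp (2 * Λ ^ 5)) ≤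
      34 / η * (T * Real.exp (-(2 * Λ ^ 5))) := by
    have h1 : 2 * Real.pi * (8 / η) + 1 ≤ 17 * Real.pi / η := by
      rw [le_div_iff₀ hη]
      have e : (2 * Real.pi * (8 / η) + 1) * η = 16 * Real.pi + η := by
        field_simp
        ring
      rw [e]
      linarith
    rw [div_le_iff₀ (by positivity)]
    have e : 34 / η * (T * Real.exp (-(2 * Λ ^ 5))) * (Real.pi / 2 * Real.exp (2 * Λ ^ 5)) =
        17 * Real.pi / η * T * (Real.exp (-(2 * Λ ^ 5)) * Real.exp (2 * Λ ^ 5)) := by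
      ring
    rw [e, ← Real.exp_add, neg_add_cancel, Real.exp_zero, mul_one]
    gcongr
  have hexpΛ : 105300 * Λ ^ 2 / η ^ 3 ≤ Real.exp Λ := by
    have h1 := Real.pow_div_factorial_le_exp Λ hΛ0.le 3
    have h2 : 105300 * Λ ^ 2 / η ^ 3 ≤ Λ ^ 3 / (Nat.factorial 3 : ℝ) := by
      have e : ((Nat.factorial 3 : ℕ) : ℝ) = 6 := by norm_num [Nat.factorial]
      rw [e]
      have e2 : 105300 * Λ ^ 2 / η ^ 3 = Λ ^ 2 * (631800 / η ^ 3) / 6 := by ring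
      rw [e2]
      have e3 : Λ ^ 3 = Λ ^ 2 * Λ := by ring
      rw [e3]
      gcongr
    exact h2.trans h1
  have hfin : N * ((2 * Real.pi * (8 / η) + 1) * T / (Real.pi / 2 * Real.exp (2 * Λ ^ 5))) ≤
      2025 * Λ ^ 2 / η ^ 2 * (34 / η * (T * Real.exp (-(2 * Λ ^ 5)))) := by
    have hMc0 : 0 ≤ (2 * Real.pi * (8 / η) + 1) * T / (Real.pi / 2 * Real.exp (2 * Λ ^ 5)) := by positivity
    exact mul_le_mul hN hMc hMc0 (by positivity)
  refine hfin.trans ?_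
  have h7 : 2025 * Λ ^ 2 / η ^ 2 * (34 / η * (T * Real.exp (-(2 * Λ ^ 5)))) =
      68850 * Λ ^ 2 / η ^ 3 * Real.exp (-(2 * Λ ^ 5)) * T := by
    field_simp
    ring
  rw [h7]
  apply mul_le_mul_of_nonneg_right _ hT0.le
  have h8 : 68850 * Λ ^ 2 / η ^ 3 ≤ Real.exp Λ := by
    refine le_trans ?_ hexpΛ
    gcongr
    norm_num
  have h9 : Λ ≤ Λ ^ 5 := by
    calc Λ = Λ ^ 1 := (pow_one Λ).symm
      _ ≤ Λ ^ 5 := pow_le_pow_right₀ h1Λ (by norm_num)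
  calc 68850 * Λ ^ 2 / η ^ 3 * Real.exp (-(2 * Λ ^ 5)) ≤ Real.exp Λ * Real.exp (-(2 * Λ ^ 5)) :=
        mul_le_mul_of_nonneg_right h8 (Real.exp_pos _).le
    _ = Real.exp (Λ - 2 * Λ ^ 5) := by rw [← Real.exp_add]; congr 1
    _ ≤ Real.exp (-Λ) := by
        apply Real.exp_le_exp.mpr
        linarith

theorem sup_meas {l : Filter ℝ} [l.IsCountablyGenerated] (hl : l ≤ atTop) {θ : ℝ} (hθ : θ < 1)
    (h : UpLaw l θ) {η : ℝ} (hη : 0 < η) (hη1 : η ≤ 1 / 4) : ∃ Λ₀ : ℝ, 1 ≤ Λ₀ ∧ ∀ Λ : ℝ, Λ₀ ≤ Λ →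
    ∀ (χ : ℝ → ℝ) (E : ℂ → ℂ), KerP (kap / 2) Λ χ E → ∀ δ : ℝ, 0 < δ → δ < 1 / 2 → ∀ᶠ T : ℝ in l,
    volume {t : ℝ | δ * T ≤ t ∧ t ≤ (1 - δ) * T ∧ Phi T t ≤ Λ ^ 2 ∧
      (∀ ρ ∈ Zf T, Λ ≤ |Real.log T * (ρ.re - 1 / 2)| →
        Real.exp (kap / 2 * |Real.log T * (ρ.re - 1 / 2)|) ≤ |Real.log T * (ρ.im - t)|) ∧
      ∃ b : ℂ, η ≤ b.re ∧ b.re ≤ Λ + 2 ∧ |b.im| ≤ 5 * Λ ∧
        Real.exp (Λ ^ 5) < ‖GD (Zf T) mx (fun ρ => zz T t ρ) χ b‖} ≤
    ENNReal.ofReal (Real.exp (-Λ) * T) := by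
  have hk := kap_pos
  have hk1 := kap_le
  have hpi := Real.pi_pos
  obtain ⟨Λ₁, hΛ₁, hap⟩ := apriori (c := kap / 2) (by positivity) (by linarith)
  refine ⟨max Λ₁ (631800 / η ^ 3), le_max_of_le_left hΛ₁, ?_⟩
  intro Λ hΛ χ E hK δ hδ hδ2
  have hΛ1 : Λ₁ ≤ Λ := (le_max_left _ _).trans hΛ
  have hΛ2 : 631800 / η ^ 3 ≤ Λ := (le_max_right _ _).trans hΛ
  have h1Λ : 1 ≤ Λ := hΛ₁.trans hΛ1
  have hΛ0 : 0 < Λ := by linarith
  obtain ⟨K, hK0, hKb⟩ := hap Λ hΛ1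
  have hA : 1 ≤ Λ ^ 8 := one_le_pow₀ h1Λ
  have hwc := wc59 hA hK
  -- circle means for all grid points
  have hcm : ∀ᶠ T : ℝ in l, ∀ p ∈ grid59 η Λ, ∫ t in (δ * T)..((1 - δ) * T),
      F59 T (fun α => (χ α : ℂ)) (η / 2) (K ^ 2) (gp59 η Λ p) t ≤ (2 * Real.pi * (8 / η) + 1) * T := by
    rw [Filter.eventually_all_finset]
    intro p _
    have hre : η ≤ (gp59 η Λ p).re := by
      rw [gp59_re]
      have : (0:ℝ) ≤ p.1 * (η / 8) := by positivity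
      linarith
    exact circle_mean hl hθ h hA hK hη hre hδ hδ2 (by positivity)
  filter_upwards [hcm, hl (eventually_gt_atTop 0)] with T hT hT0
  have hsub : {t : ℝ | δ * T ≤ t ∧ t ≤ (1 - δ) * T ∧ Phi T t ≤ Λ ^ 2 ∧
      (∀ ρ ∈ Zf T, Λ ≤ |Real.log T * (ρ.re - 1 / 2)| →
        Real.exp (kap / 2 * |Real.log T * (ρ.re - 1 / 2)|) ≤ |Real.log T * (ρ.im - t)|) ∧
      ∃ b : ℂ, η ≤ b.re ∧ b.re ≤ Λ + 2 ∧ |b.im| ≤ 5 * Λ ∧
        Real.exp (Λ ^ 5) < ‖GD (Zf T) mx (fun ρ => zz T t ρ) χ b‖} ⊆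
      ⋃ p ∈ grid59 η Λ, {t : ℝ | δ * T ≤ t ∧ t ≤ (1 - δ) * T ∧
        Real.pi / 2 * Real.exp (2 * Λ ^ 5) ≤ F59 T (fun α => (χ α : ℂ)) (η / 2) (K ^ 2) (gp59 η Λ p) t} := by
    rintro t ⟨h1, h2, h3, h4, b, hb1, hb2, hb3, hb4⟩
    obtain ⟨p, hp, hp2, hp3, hp4⟩ := exists_gp59 hη hb1 hb2 hb3
    simp only [mem_iUnion]
    refine ⟨p, hp, h1, h2, ?_⟩
    have hconf := conf_of_good h3 h4
    have hre : η ≤ (gp59 η Λ p).re := by
      rw [gp59_re]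
      have : (0:ℝ) ≤ p.1 * (η / 8) := by positivity
      linarith
    refine step59 hwc (by positivity) (by linarith) (fun φ => ?_) hb4
    obtain ⟨c1, c2, c3⟩ := circle59_re (gp59 η Λ p) (R := η / 2) (by positivity) φ
    exact hKb χ E hK (Zf T) mx _ hconf _ (by linarith) (by linarith) (by linarith)
  have hαβ : δ * T ≤ (1 - δ) * T := by
    apply mul_le_mul_of_nonneg_right _ hT0.le
    linarith
  have hc₀0 : 0 < Real.pi / 2 * Real.exp (2 * Λ ^ 5) := by positivity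
  have hmeas : volume (⋃ p ∈ grid59 η Λ, {t : ℝ | δ * T ≤ t ∧ t ≤ (1 - δ) * T ∧
        Real.pi / 2 * Real.exp (2 * Λ ^ 5) ≤ F59 T (fun α => (χ α : ℂ)) (η / 2) (K ^ 2) (gp59 η Λ p) t}) ≤
      ENNReal.ofReal (((grid59 η Λ).card : ℝ) *
        ((2 * Real.pi * (8 / η) + 1) * T / (Real.pi / 2 * Real.exp (2 * Λ ^ 5)))) := by
    refine (measure_biUnion_finset_le _ _).trans ?_
    have hb : ∀ p ∈ grid59 η Λ, volume {t : ℝ | δ * T ≤ t ∧ t ≤ (1 - δ) * T ∧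
        Real.pi / 2 * Real.exp (2 * Λ ^ 5) ≤ F59 T (fun α => (χ α : ℂ)) (η / 2) (K ^ 2) (gp59 η Λ p) t} ≤
        ENNReal.ofReal ((2 * Real.pi * (8 / η) + 1) * T / (Real.pi / 2 * Real.exp (2 * Λ ^ 5))) :=
      fun p hp => markov59 (F59_cont hwc T _ _ _) (F59_nonneg T _ _ (by positivity) _) hαβ hc₀0 (hT p hp)
    refine (Finset.sum_le_sum hb).trans ?_
    rw [Finset.sum_const, nsmul_eq_mul, ENNReal.ofReal_mul (p := ((grid59 η Λ).card : ℝ)) (by positivity),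
      ENNReal.ofReal_natCast]
  refine (measure_mono hsub).trans (hmeas.trans (ENNReal.ofReal_le_ofReal ?_))
  exact num59 hη hη1 h1Λ hT0 hΛ2 (grid59_card hη hη1 h1Λ)

end Pool.Agent.Helper93.LP
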