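import Pool.Agent.Helper93.LP.EFw
import Pool.Agent.Helper93.LP.PPB

/-!
# LP block UPC: the one-sided law bounds `GG` for complex weights

Proof. `w = u + iv` (`WC_re`, `WC_im`, `PP_re_im`): `‖PP T w‖² ≤ 2‖PP T u‖² + 2‖PP T v‖²`; `‖GG‖² ≤ 2‖PP‖² + 2‖PP + GG‖²` and
`‖PP + GG‖ ≤ ε'` on `[δT,(1-δ)T]` (`ef_scaled`). With `min (4x + 4y + z) B ≤ 4 min x B + 4 min y B + z`:
`∫_{δT}^{(1-δ)T} min (‖GG‖²) B ≤ 4 T MP T u B + 4 T MP T v B + 2 ε'² T` (integrands are `≥ 0`, `[δT,(1-δ)T] ⊆ [0,T]`)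
`≤ 4 T (VW u + VW v) + ε T ≤ (8 ∫ ‖w‖² + ε) T` since `VW u ≤ ∫ u²` (`min α 1 ≤ 1`) and `u² + v² = ‖w‖²`.
-/

open Complex Set MeasureTheory Filter Topology
open Pool.Agent.Helper57.LH Pool.Agent.Helper57.PC Pool.Agent.Helper57.Zeta
open Pool.Agent.Helper69.GGM

namespace Pool.Agent.Helper93.LP

private lemma upc_min {x y z B : ℝ} (hx : 0 ≤ x) (hy : 0 ≤ y) (hz : 0 ≤ z) (hB : 0 ≤ B) :
    min (4 * x + 4 * y + z) B ≤ 4 * min x B + 4 * min y B + z := by
  rcases le_total x B with h1 | h1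
  · rcases le_total y B with h2 | h2
    · rw [min_eq_left h1, min_eq_left h2]
      exact min_le_left _ _
    · rw [min_eq_left h1, min_eq_right h2]
      exact (min_le_right _ _).trans (by linarith)
  · rw [min_eq_right h1]
    have : 0 ≤ min y B := le_min hy hB
    exact (min_le_right _ _).trans (by linarith)

private lemma upc_point {P R p q : ℂ} {e : ℝ} (hP : P = p + I * q) (hR : ‖P + R‖ ≤ e) :
    ‖R‖ ^ 2 ≤ 4 * ‖p‖ ^ 2 + 4 * ‖q‖ ^ 2 + 2 * e ^ 2 := by
  have h1 : ‖R‖ ≤ ‖p‖ + ‖q‖ + e := by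
    have h2 : R = (P + R) - (p + I * q) := by rw [hP]; ring
    have h3 : ‖I * q‖ = ‖q‖ := by rw [norm_mul, norm_I, one_mul]
    calc ‖R‖ = ‖(P + R) - (p + I * q)‖ := by rw [← h2]
      _ ≤ ‖P + R‖ + ‖p + I * q‖ := norm_sub_le _ _
      _ ≤ e + (‖p‖ + ‖I * q‖) := add_le_add hR (norm_add_le _ _)
      _ = ‖p‖ + ‖q‖ + e := by rw [h3]; ring
  have h0 := norm_nonneg R
  have hp := norm_nonneg p
  have hq := norm_nonneg q
  have he : 0 ≤ e := (norm_nonneg _).trans hR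
  have h4 : ‖R‖ ^ 2 ≤ (‖p‖ + ‖q‖ + e) ^ 2 := by gcongr
  nlinarith [sq_nonneg (‖p‖ - ‖q‖), sq_nonneg (‖p‖ + ‖q‖ - e)]

private lemma upc_sq_int {u : ℝ → ℝ} {a b : ℝ} (hu : WR u a b) : Integrable (fun x => u x ^ 2) := by
  have hc : Continuous (fun x => u x ^ 2) := hu.1.continuous.pow 2
  refine hc.integrable_of_hasCompactSupport ?_
  refine HasCompactSupport.intro (isCompact_Icc (a := a) (b := b)) ?_
  intro x hx
  by_contra h
  apply hx
  have h1 : u x ≠ 0 := by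
    intro h0
    exact h (by simp [h0])
  exact hu.2.2.2 x h1

private lemma upc_VW {u : ℝ → ℝ} {a b : ℝ} (hu : WR u a b) : VW u ≤ ∫ x, u x ^ 2 := by
  have hi := upc_sq_int hu
  have h1 : VW u ≤ ∫ α in Ioi (0:ℝ), u α ^ 2 := by
    unfold VW
    refine integral_mono_of_nonneg ?_ hi.integrableOn ?_
    · refine (ae_restrict_mem measurableSet_Ioi).mono ?_
      intro x hx
      have hx0 : (0:ℝ) < x := hx
      have : 0 ≤ min x 1 := le_min hx0.le zero_le_one
      positivity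
    · refine Eventually.of_forall ?_
      intro x
      have : min x 1 ≤ 1 := min_le_right _ _
      have h2 := sq_nonneg (u x)
      show min x 1 * u x ^ 2 ≤ u x ^ 2
      nlinarith
  refine h1.trans (setIntegral_le_integral hi (Eventually.of_forall fun x => sq_nonneg (u x)))

theorem upc {l : Filter ℝ} (hl : l ≤ atTop) {θ : ℝ} (h : UpLaw l θ) {w : ℝ → ℂ} {a b : ℝ} (hw : WC w a b)
    (hθ : θ < a) {δ : ℝ} (hδ : 0 < δ) (hδ2 : δ < 1 / 2) {B : ℝ} (hB : 0 < B) {ε : ℝ} (hε : 0 < ε) :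
    ∀ᶠ T : ℝ in l, ∫ t in (δ * T)..((1 - δ) * T), min (‖GG T w t‖ ^ 2) B ≤
      (8 * (∫ α, ‖w α‖ ^ 2) + ε) * T := by
  have hu := WC_re hw
  have hv := WC_im hw
  have e1 : 0 < ε / 16 := by positivity
  have e2 : 0 < Real.sqrt (ε / 4) := Real.sqrt_pos.mpr (by positivity)
  have e3 : Real.sqrt (ε / 4) ^ 2 = ε / 4 := Real.sq_sqrt (by positivity)
  have hVu := upc_VW hu
  have hVv := upc_VW hv
  have hiu := upc_sq_int hu
  have hiv := upc_sq_int hv
  have hsum : (∫ α, ‖w α‖ ^ 2) = (∫ x, (w x).re ^ 2) + ∫ x, (w x).im ^ 2 := by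
    rw [← integral_add hiu hiv]
    refine integral_congr_ae (Eventually.of_forall fun x => ?_)
    show ‖w x‖ ^ 2 = (w x).re ^ 2 + (w x).im ^ 2
    rw [← Complex.normSq_eq_norm_sq, Complex.normSq_apply]
    ring
  have hnn : 0 ≤ ∫ α, ‖w α‖ ^ 2 := integral_nonneg fun x => sq_nonneg _
  have hlaw_u := h _ a b hu hθ B hB (ε / 16) e1
  have hlaw_v := h _ a b hv hθ B hB (ε / 16) e1
  have hef := (ef_scaled hw hδ hδ2 e2).filter_mono hl
  have hT1 : ∀ᶠ T : ℝ in l, 1 < T := (eventually_gt_atTop (1:ℝ)).filter_mono hl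
  filter_upwards [hlaw_u, hlaw_v, hef, hT1] with T hTu hTv hTe hT
  have hT0 : 0 < T := zero_lt_one.trans hT
  have hcu : Continuous (PP T (fun x => ((w x).re : ℂ))) := PP_cont hT hu.toWC
  have hcv : Continuous (PP T (fun x => ((w x).im : ℂ))) := PP_cont hT hv.toWC
  have hcg : Continuous (GG T w) := GG_cont hw T
  have hfu : Continuous (fun t => min (‖PP T (fun x => ((w x).re : ℂ)) t‖ ^ 2) B) := by fun_prop
  have hfv : Continuous (fun t => min (‖PP T (fun x => ((w x).im : ℂ)) t‖ ^ 2) B) := by fun_prop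
  have hfg : Continuous (fun t => min (‖GG T w t‖ ^ 2) B) := by fun_prop
  have hab : δ * T ≤ (1 - δ) * T := by nlinarith
  have h0a : 0 ≤ δ * T := by positivity
  have hbT : (1 - δ) * T ≤ T := by nlinarith
  have step1 : ∫ t in (δ * T)..((1 - δ) * T), min (‖GG T w t‖ ^ 2) B ≤
      ∫ t in (δ * T)..((1 - δ) * T), (4 * min (‖PP T (fun x => ((w x).re : ℂ)) t‖ ^ 2) B +
        4 * min (‖PP T (fun x => ((w x).im : ℂ)) t‖ ^ 2) B + ε / 2) := by
    refine intervalIntegral.integral_mono_on hab (hfg.intervalIntegrable _ _)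
      (Continuous.intervalIntegrable (by fun_prop) _ _) ?_
    intro t ht
    have h1 := hTe t ht.1 ht.2
    have h2 := upc_point (PP_re_im hT hw t) h1
    rw [e3] at h2
    refine (min_le_min_right B h2).trans ?_
    refine (upc_min (sq_nonneg _) (sq_nonneg _) (by positivity) hB.le).trans (le_of_eq ?_)
    ring
  have sub : ∀ f : ℝ → ℝ, Continuous f → (∀ t, 0 ≤ f t) →
      ∫ t in (δ * T)..((1 - δ) * T), f t ≤ ∫ t in (0:ℝ)..T, f t := by
    intro f hf hf0
    refine intervalIntegral.integral_mono_interval h0a hab hbT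
      (Eventually.of_forall hf0) (hf.intervalIntegrable _ _)
  have step2 : ∫ t in (δ * T)..((1 - δ) * T), (4 * min (‖PP T (fun x => ((w x).re : ℂ)) t‖ ^ 2) B +
        4 * min (‖PP T (fun x => ((w x).im : ℂ)) t‖ ^ 2) B + ε / 2) =
      4 * (∫ t in (δ * T)..((1 - δ) * T), min (‖PP T (fun x => ((w x).re : ℂ)) t‖ ^ 2) B) +
      4 * (∫ t in (δ * T)..((1 - δ) * T), min (‖PP T (fun x => ((w x).im : ℂ)) t‖ ^ 2) B) +
      ((1 - δ) * T - δ * T) * (ε / 2) := by
    rw [intervalIntegral.integral_add, intervalIntegral.integral_add,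
      intervalIntegral.integral_const_mul, intervalIntegral.integral_const_mul,
      intervalIntegral.integral_const, smul_eq_mul]
    · exact Continuous.intervalIntegrable (by fun_prop) _ _
    · exact Continuous.intervalIntegrable (by fun_prop) _ _
    · exact Continuous.intervalIntegrable (by fun_prop) _ _
    · exact Continuous.intervalIntegrable (by fun_prop) _ _
  have s3u := sub _ hfu (fun t => le_min (sq_nonneg _) hB.le)
  have s3v := sub _ hfv (fun t => le_min (sq_nonneg _) hB.le)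
  have hMu : (∫ t in (0:ℝ)..T, min (‖PP T (fun x => ((w x).re : ℂ)) t‖ ^ 2) B) =
      T * MP T (fun x => ((w x).re : ℂ)) B := by
    unfold MP
    field_simp
  have hMv : (∫ t in (0:ℝ)..T, min (‖PP T (fun x => ((w x).im : ℂ)) t‖ ^ 2) B) =
      T * MP T (fun x => ((w x).im : ℂ)) B := by
    unfold MP
    field_simp
  rw [step2] at step1
  rw [hMu] at s3u
  rw [hMv] at s3v
  have t1 : T * MP T (fun x => ((w x).re : ℂ)) B ≤ T * ((∫ x, (w x).re ^ 2) + ε / 16) :=
    mul_le_mul_of_nonneg_left (hTu.trans (by linarith)) hT0.le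
  have t2 : T * MP T (fun x => ((w x).im : ℂ)) B ≤ T * ((∫ x, (w x).im ^ 2) + ε / 16) :=
    mul_le_mul_of_nonneg_left (hTv.trans (by linarith)) hT0.le
  have t3 : ((1 - δ) * T - δ * T) * (ε / 2) ≤ T * (ε / 2) := by
    refine mul_le_mul_of_nonneg_right ?_ (by positivity)
    nlinarith
  have t4 : 0 ≤ T * ∫ α, ‖w α‖ ^ 2 := by positivity
  rw [hsum] at t4 ⊢
  nlinarith

end Pool.Agent.Helper93.LP
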